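import Pool.Agent.Work.MP_1e13ac_Bis.Interface

/-!
# Block EVEN: parities of the statistics
-/

set_option autoImplicit false

namespace Pool.Agent.Work.MP_1e13ac_Bis

open Classical Finset

noncomputable section

namespace EVEN

lemma sg_cast (b : Bool) : ((sg b : ℤ) : ZMod 2) = 1 := by
  cases b
  · simp [sg]
  · simp [sg]

variable {V : Type}

lemma ma_symm {G : SimpleGraph V} {c : V → Bool} {x y : V} (h : MA G c x y) : MA G c y x :=
  ⟨h.1.symm, h.2.symm⟩

lemma ma_ne {G : SimpleGraph V} {c : V → Bool} {x y : V} (h : MA G c x y) : y ≠ x :=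
  h.1.ne'

variable [Fintype V]

/-- a vertex of monochromatic degree 2 has a monochromatic neighbour different from a given one -/
lemma other {G : SimpleGraph V} {c : V → Bool} {y : V} (h : md G c y = 2) (x : V) :
    ∃ z, MA G c y z ∧ z ≠ x := by
  have h1 : 1 < (univ.filter fun z => MA G c y z).card := by
    have : md G c y = (univ.filter fun z => MA G c y z).card := rfl
    omega
  obtain ⟨z, hz, hne⟩ := exists_mem_ne h1 x
  exact ⟨z, (mem_filter.1 hz).2, hne⟩

lemma uniq {G : SimpleGraph V} {c : V → Bool} (hV : Valid G c) {x y₁ y₂ : V}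
    (h1 : MA G c x y₁) (h2 : MA G c x y₂) (m1 : md G c y₁ = 2) (m2 : md G c y₂ = 2) :
    y₁ = y₂ := by
  by_contra hne
  obtain ⟨z₁, a1, b1⟩ := other m1 x
  obtain ⟨z₂, a2, b2⟩ := other m2 x
  exact hV.nb4 z₁ y₁ x y₂ z₂ (ma_symm a1) (ma_symm h1) h2 a2 b1 hne (Ne.symm b2)

lemma card_even {G : SimpleGraph V} (hG : Cub G) : ((Fintype.card V : ℕ) : ZMod 2) = 0 := by
  have h := G.sum_degrees_eq_twice_card_edges
  have h2 : ∀ v, G.degree v = 3 := by
    intro v
    rw [← hG v, ← SimpleGraph.card_neighborFinset_eq_degree]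
    congr 1
    ext y
    simp [nbs]
  simp only [h2] at h
  rw [sum_const, smul_eq_mul, card_univ] at h
  rw [ZMod.natCast_eq_zero_iff]
  omega

end EVEN

open EVEN in
theorem stmt_EVEN : Stmt_EVEN := by
  intro V _ G hG c hV
  constructor
  · refine (ZMod.intCast_zmod_eq_zero_iff_dvd _ 2).1 ?_
    simp only [st]
    rw [Int.cast_sum]
    simp only [sg_cast, sum_const, card_univ, nsmul_eq_mul, mul_one]
    exact card_even hG
  · refine (ZMod.intCast_zmod_eq_zero_iff_dvd _ 2).1 ?_
    simp only [st]
    rw [Int.cast_sum]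
    have e : ∀ x : V, ((locQ G c x : ℤ) : ZMod 2)
        = if (md G c x = 2 ∧ ∃ y, MA G c x y ∧ md G c y = 2) then 1 else 0 := by
      intro x
      unfold locQ
      split_ifs with h
      · exact sg_cast _
      · simp
    simp only [e]
    rw [← sum_filter]
    have key : ∀ x ∈ univ.filter (fun x => md G c x = 2 ∧ ∃ y, MA G c x y ∧ md G c y = 2),
        md G c x = 2 ∧ ∃ y, MA G c x y ∧ md G c y = 2 := fun x hx => (mem_filter.1 hx).2
    have gm : ∀ x (hx : x ∈ univ.filter (fun x => md G c x = 2 ∧ ∃ y, MA G c x y ∧ md G c y = 2)),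
        (key x hx).2.choose ∈
          univ.filter (fun x => md G c x = 2 ∧ ∃ y, MA G c x y ∧ md G c y = 2) := by
      intro x hx
      have hs := (key x hx).2.choose_spec
      exact mem_filter.2 ⟨mem_univ _, hs.2, x, ma_symm hs.1, (key x hx).1⟩
    refine sum_involution (fun x hx => (key x hx).2.choose) ?_ ?_ gm ?_
    · intro x hx
      decide
    · intro x hx _
      exact ma_ne (key x hx).2.choose_spec.1
    · intro x hx
      have hs := (key x hx).2.choose_spec
      have hs' := (key _ (gm x hx)).2.choose_spec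
      exact uniq hV hs'.1 (ma_symm hs.1) hs'.2 (key x hx).1

end

end Pool.Agent.Work.MP_1e13ac_Bis
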