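import Pool.Agent.Work.MP_1e13ac_Bis.PATHREP

/-! MP_1e13ac_co, block ISO: from the combinatorial form to the frozen form. -/

set_option autoImplicit false
set_option linter.unusedSectionVars false

namespace Pool.Agent.Work.MP_1e13ac_Bis

open Classical Finset

noncomputable section

namespace IsoBlock

/-- two finite families with the same numbers of members of every size are in size preserving
bijection -/
lemma exists_equiv {α β : Type} [Fintype α] [Fintype β] (f : α → ℕ) (g : β → ℕ)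
    (h : ∀ k, Fintype.card {a // f a = k} = Fintype.card {b // g b = k}) :
    ∃ e : α ≃ β, ∀ a, g (e a) = f a := by
  have e' : ∀ k, {a // f a = k} ≃ {b // g b = k} := fun k => Fintype.equivOfCardEq (h k)
  refine ⟨(Equiv.sigmaFiberEquiv f).symm.trans
    ((Equiv.sigmaCongrRight e').trans (Equiv.sigmaFiberEquiv g)), fun a => ?_⟩
  exact (e' (f a) ⟨a, rfl⟩).2

variable {V : Type} [Fintype V]

/-- the monochromatic graph -/
def mg (G : SimpleGraph V) (c : V → Bool) : SimpleGraph V where
  Adj x y := MA G c x y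
  symm := ⟨fun _ _ h => ⟨h.1.symm, h.2.symm⟩⟩
  loopless := ⟨fun _ h => G.loopless.irrefl _ h.1⟩

lemma fd_mg (G : SimpleGraph V) (c : V → Bool) (x : V) : fd (mg G c) x = md G c x := rfl

lemma mg_acyclic {G : SimpleGraph V} {c : V → Bool} (hv : Valid G c) : (mg G c).IsAcyclic := by
  intro v w hw
  have h3 := hw.three_le_length
  have hinj := hw.getVert_injOn
  have hadj : ∀ i < w.length, MA G c (w.getVert i) (w.getVert (i + 1)) := fun i hi =>
    w.adj_getVert_succ hi
  have h0 : w.getVert 0 = w.getVert w.length := by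
    rw [SimpleGraph.Walk.getVert_zero, SimpleGraph.Walk.getVert_length]
  have hne : ∀ i j, 1 ≤ i → i ≤ w.length → 1 ≤ j → j ≤ w.length → i ≠ j →
      w.getVert i ≠ w.getVert j := fun i j h1 h2 h4 h5 h6 h7 =>
    h6 (hinj (by simp; omega) (by simp; omega) h7)
  rcases Nat.lt_or_ge 3 w.length with h4 | h4
  · have a0 := hadj 0 (by omega)
    have a1 := hadj 1 (by omega)
    have a2 := hadj 2 (by omega)
    have a3 := hadj 3 (by omega)
    refine hv.nb4 _ _ _ _ _ a0 a1 a2 a3 ?_ (hne _ _ (by omega) (by omega) (by omega) (by omega)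
      (by omega)) (hne _ _ (by omega) (by omega) (by omega) (by omega) (by omega))
    rw [h0]
    exact hne _ _ (by omega) (by omega) (by omega) (by omega) (by omega)
  · have h4' : w.length = 3 := by omega
    rw [h4'] at h0
    have a0 := hadj 0 (by omega)
    have a1 := hadj 1 (by omega)
    have a2 := hadj 2 (by omega)
    rw [h0] at a0
    exact hv.nb4 _ _ _ _ _ a1 a2 a0 a1 (hne _ _ (by omega) (by omega) (by omega) (by omega)
      (by omega)) (hne _ _ (by omega) (by omega) (by omega) (by omega) (by omega))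
      (hne _ _ (by omega) (by omega) (by omega) (by omega) (by omega))


lemma reach_col {G : SimpleGraph V} {c : V → Bool} {x y : V} (h : (mg G c).Reachable x y) :
    c x = c y := by
  obtain ⟨w⟩ := h
  induction w with
  | nil => rfl
  | cons h _ ih => exact h.2.trans ih

/-- the sum of `sg * md` vanishes -/
lemma sum_md {G : SimpleGraph V} (hG : Cub G) {c : V → Bool} (h0 : ∑ x, sg (c x) = 0) :
    ∑ x, sg (c x) * (md G c x : ℤ) = 0 := by
  have h1 : ∀ x, (md G c x : ℤ) = 3 - ∑ y, if G.Adj x y ∧ c x ≠ c y then 1 else 0 := by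
    intro x
    have h2 : (nbs G x).card = md G c x + (univ.filter fun y => G.Adj x y ∧ c x ≠ c y).card := by
      have hm : md G c x = ∑ y, if MA G c x y then 1 else 0 := by unfold md; rw [card_filter]
      have hn : (nbs G x).card = ∑ y, if G.Adj x y then 1 else 0 := by unfold nbs; rw [card_filter]
      rw [hm, hn, card_filter, ← Finset.sum_add_distrib]
      refine Finset.sum_congr rfl fun y _ => ?_
      by_cases ha : G.Adj x y <;> by_cases hb : c x = c y <;> simp [MA, ha, hb]
    have h3 := hG x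
    rw [h3] at h2
    have h4 : (∑ y, if G.Adj x y ∧ c x ≠ c y then (1 : ℤ) else 0) =
        ((univ.filter fun y => G.Adj x y ∧ c x ≠ c y).card : ℤ) := by
      rw [card_filter]; push_cast; rfl
    rw [h4]
    omega
  simp_rw [h1, mul_sub]
  rw [Finset.sum_sub_distrib, ← Finset.sum_mul, h0, zero_mul, zero_sub, neg_eq_zero]
  simp_rw [Finset.mul_sum]
  set T : ℤ := ∑ x, ∑ y, sg (c x) * (if G.Adj x y ∧ c x ≠ c y then (1 : ℤ) else 0) with hT
  have hT' : T = -T := by
    conv_rhs => rw [hT, Finset.sum_comm]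
    rw [hT, ← Finset.sum_neg_distrib]
    refine Finset.sum_congr rfl fun x _ => ?_
    rw [← Finset.sum_neg_distrib]
    refine Finset.sum_congr rfl fun y _ => ?_
    by_cases h : G.Adj x y ∧ c x ≠ c y
    · have h' : G.Adj y x ∧ c y ≠ c x := ⟨h.1.symm, h.2.symm⟩
      rw [if_pos h, if_pos h']
      have : sg (c x) = - sg (c y) := by
        cases hx : c x <;> cases hy : c y <;> simp_all [sg]
      rw [this]; ring
    · have h' : ¬ (G.Adj y x ∧ c y ≠ c x) := fun h' => h ⟨h'.1.symm, h'.2.symm⟩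
      rw [if_neg h, if_neg h']; ring
  omega

/-- path data of all components of the monochromatic graph -/
structure PD (G : SimpleGraph V) (c : V → Bool) where
  p : (mg G c).ConnectedComponent → ℕ → V
  k : (mg G c).ConnectedComponent → ℕ
  col : (mg G c).ConnectedComponent → Bool
  k4 : ∀ K, k K ≤ 4
  k1 : ∀ K, 1 ≤ k K
  cp : ∀ K, ∀ i < k K, c (p K i) = col K
  comp : ∀ K, ∀ i < k K, (mg G c).connectedComponentMk (p K i) = K
  inj : ∀ K, ∀ i < k K, ∀ j < k K, p K i = p K j → i = j
  surj : ∀ x, ∃ i < k ((mg G c).connectedComponentMk x), p ((mg G c).connectedComponentMk x) i = x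
  adj : ∀ K, ∀ i < k K, ∀ j < k K, MA G c (p K i) (p K j) ↔ (j = i + 1 ∨ i = j + 1)

lemma exists_pd {G : SimpleGraph V} {c : V → Bool} (hv : Valid G c) : Nonempty (PD G c) := by
  have hac := mg_acyclic hv
  have hdeg : ∀ x, fd (mg G c) x ≤ 2 := fun x => hv.deg x
  choose p hp1 hp2 hp3 using fun K : (mg G c).ConnectedComponent =>
    stmt_PATHREP V (mg G c) hac hdeg K.out
  have hout : ∀ K : (mg G c).ConnectedComponent, (mg G c).connectedComponentMk K.out = K :=
    fun K => Quot.out_eq K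
  have hre : ∀ K, ∀ i < cs (mg G c) K.out, (mg G c).Reachable K.out (p K i) := fun K i hi =>
    (hp2 K _).2 ⟨i, hi, rfl⟩
  refine ⟨⟨p, fun K => cs (mg G c) K.out, fun K => c K.out, ?_, ?_, ?_, ?_, hp1, ?_, hp3⟩⟩
  · intro K
    by_contra hlt
    push Not at hlt
    have a : ∀ i < 4, MA G c (p K i) (p K (i + 1)) := fun i hi =>
      (hp3 K i (by omega) (i + 1) (by omega)).2 (Or.inl rfl)
    have hne : ∀ i ≤ 4, ∀ j ≤ 4, i ≠ j → p K i ≠ p K j := fun i hi j hj h1 h2 =>
      h1 (hp1 K i (by omega) j (by omega) h2)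
    exact hv.nb4 _ _ _ _ _ (a 0 (by omega)) (a 1 (by omega)) (a 2 (by omega)) (a 3 (by omega))
      (hne _ (by omega) _ (by omega) (by omega)) (hne _ (by omega) _ (by omega) (by omega))
      (hne _ (by omega) _ (by omega) (by omega))
  · intro K
    obtain ⟨i, hi, -⟩ := (hp2 K K.out).1 (SimpleGraph.Reachable.refl _)
    omega
  · intro K i hi
    exact (reach_col (hre K i hi)).symm
  · intro K i hi
    rw [← SimpleGraph.ConnectedComponent.eq.2 (hre K i hi), hout]
  · intro x
    have h1 : (mg G c).Reachable ((mg G c).connectedComponentMk x).out x :=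
      SimpleGraph.ConnectedComponent.eq.1 (hout _)
    obtain ⟨i, hi, h2⟩ := (hp2 _ x).1 h1
    exact ⟨i, hi, h2⟩

variable {G : SimpleGraph V} {c : V → Bool}

lemma PD.sum (D : PD G c) (g : V → ℤ) :
    ∑ x, g x = ∑ K, ∑ i ∈ range (D.k K), g (D.p K i) := by
  rw [← Finset.sum_fiberwise univ (fun x => (mg G c).connectedComponentMk x) g]
  refine Finset.sum_congr rfl fun K _ => ?_
  rw [← Finset.sum_image (f := g) (g := D.p K) (s := range (D.k K))
    (fun i hi j hj h => D.inj K i (mem_range.1 hi) j (mem_range.1 hj) h)]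
  refine Finset.sum_congr ?_ fun _ _ => rfl
  ext x
  simp only [mem_filter, mem_univ, true_and, mem_image, mem_range]
  constructor
  · rintro rfl
    exact D.surj x
  · rintro ⟨i, hi, rfl⟩
    exact D.comp K i hi

lemma PD.adj' (D : PD G c) (K K' : (mg G c).ConnectedComponent) (i j : ℕ) (hi : i < D.k K)
    (hj : j < D.k K') : MA G c (D.p K i) (D.p K' j) ↔ K = K' ∧ (j = i + 1 ∨ i = j + 1) := by
  constructor
  · intro h
    have h1 : K = K' := by
      rw [← D.comp K i hi, ← D.comp K' j hj]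
      exact SimpleGraph.ConnectedComponent.eq.2 (SimpleGraph.Adj.reachable (G := mg G c) h)
    subst h1
    exact ⟨rfl, (D.adj K i hi j hj).1 h⟩
  · rintro ⟨rfl, h⟩
    exact (D.adj K i hi j hj).2 h

lemma PD.mdeg (D : PD G c) (K : (mg G c).ConnectedComponent) (i : ℕ) (hi : i < D.k K) :
    md G c (D.p K i) = ((range (D.k K)).filter fun j => j = i + 1 ∨ i = j + 1).card := by
  show (univ.filter fun y => MA G c (D.p K i) y).card = _
  rw [← Finset.card_image_of_injOn (f := D.p K) (s := (range (D.k K)).filter _)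
    (fun i hi j hj h => D.inj K i (mem_range.1 (mem_filter.1 hi).1) j
      (mem_range.1 (mem_filter.1 hj).1) h)]
  congr 1
  ext y
  simp only [mem_filter, mem_univ, true_and, mem_image, mem_range]
  constructor
  · intro h
    obtain ⟨j, hj, hy⟩ := D.surj y
    rw [← hy] at h
    have h1 := (D.adj' K _ i j hi hj).1 h
    refine ⟨j, ⟨?_, h1.2⟩, ?_⟩
    · rw [h1.1]; exact hj
    · rw [h1.1]; exact hy
  · rintro ⟨j, ⟨hj, h⟩, rfl⟩
    exact (D.adj K i hi j hj).2 h

/-- degree in a path with `k` vertices -/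
def mv (k i : ℕ) : ℕ := ((range k).filter fun j => j = i + 1 ∨ i = j + 1).card

lemma PD.mdeg' (D : PD G c) (K : (mg G c).ConnectedComponent) (i : ℕ) (hi : i < D.k K) :
    md G c (D.p K i) = mv (D.k K) i := D.mdeg K i hi

lemma PD.ex (D : PD G c) (K : (mg G c).ConnectedComponent) (i : ℕ) (hi : i < D.k K) :
    (∃ y, MA G c (D.p K i) y ∧ md G c y = 2) ↔
      ∃ j < D.k K, (j = i + 1 ∨ i = j + 1) ∧ mv (D.k K) j = 2 := by
  constructor
  · rintro ⟨y, h1, h2⟩
    obtain ⟨j, hj, hy⟩ := D.surj y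
    rw [← hy] at h1 h2
    have h3 := (D.adj' K _ i j hi hj).1 h1
    rw [D.mdeg' _ _ hj, ← h3.1] at h2
    rw [← h3.1] at hj
    exact ⟨j, hj, h3.2, h2⟩
  · rintro ⟨j, hj, h1, h2⟩
    exact ⟨D.p K j, (D.adj K i hi j hj).2 h1, by rw [D.mdeg' _ _ hj]; exact h2⟩

lemma mv10 : mv 1 0 = 0 := by decide
lemma mv20 : mv 2 0 = 1 := by decide
lemma mv21 : mv 2 1 = 1 := by decide
lemma mv30 : mv 3 0 = 1 := by decide
lemma mv31 : mv 3 1 = 2 := by decide
lemma mv32 : mv 3 2 = 1 := by decide
lemma mv40 : mv 4 0 = 1 := by decide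
lemma mv41 : mv 4 1 = 2 := by decide
lemma mv42 : mv 4 2 = 2 := by decide
lemma mv43 : mv 4 3 = 1 := by decide

lemma PD.stats (D : PD G c) (K : (mg G c).ConnectedComponent) :
    ∑ i ∈ range (D.k K), sg (c (D.p K i)) = sg (D.col K) * (D.k K : ℤ) ∧
    ∑ i ∈ range (D.k K), sg (c (D.p K i)) * (md G c (D.p K i) : ℤ) =
      sg (D.col K) * (2 * (D.k K : ℤ) - 2) ∧
    ∑ i ∈ range (D.k K), locP G c (D.p K i) =
      sg (D.col K) * (if D.k K = 3 then 1 else if D.k K = 4 then 2 else 0) ∧
    ∑ i ∈ range (D.k K), locQ G c (D.p K i) =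
      sg (D.col K) * (if D.k K = 4 then 2 else 0) := by
  have e1 : ∑ i ∈ range (D.k K), sg (c (D.p K i)) = ∑ i ∈ range (D.k K), sg (D.col K) :=
    Finset.sum_congr rfl fun i hi => by rw [D.cp K i (mem_range.1 hi)]
  have e2 : ∑ i ∈ range (D.k K), sg (c (D.p K i)) * (md G c (D.p K i) : ℤ) =
      ∑ i ∈ range (D.k K), sg (D.col K) * (mv (D.k K) i : ℤ) :=
    Finset.sum_congr rfl fun i hi => by
      rw [D.cp K i (mem_range.1 hi), D.mdeg' K i (mem_range.1 hi)]
  have e3 : ∑ i ∈ range (D.k K), locP G c (D.p K i) =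
      ∑ i ∈ range (D.k K), if mv (D.k K) i = 2 then sg (D.col K) else 0 :=
    Finset.sum_congr rfl fun i hi => by
      unfold locP
      rw [D.cp K i (mem_range.1 hi), D.mdeg' K i (mem_range.1 hi)]
  have e4 : ∑ i ∈ range (D.k K), locQ G c (D.p K i) =
      ∑ i ∈ range (D.k K), if mv (D.k K) i = 2 ∧ ∃ j < D.k K, (j = i + 1 ∨ i = j + 1) ∧
        mv (D.k K) j = 2 then sg (D.col K) else 0 :=
    Finset.sum_congr rfl fun i hi => by
      unfold locQ
      rw [D.cp K i (mem_range.1 hi), D.mdeg' K i (mem_range.1 hi)]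
      exact if_congr (and_congr_right fun _ => D.ex K i (mem_range.1 hi)) rfl rfl
  rw [e1, e2, e3, e4]
  have h1 := D.k1 K
  have h4 := D.k4 K
  generalize D.k K = k at h1 h4
  generalize sg (D.col K) = s
  have hk : k = 1 ∨ k = 2 ∨ k = 3 ∨ k = 4 := by omega
  rcases hk with rfl | rfl | rfl | rfl
  · refine ⟨?_, ?_, ?_, ?_⟩ <;> simp [mv10]
  · refine ⟨?_, ?_, ?_, ?_⟩ <;> simp [Finset.sum_range_succ, mv20, mv21] <;> ring
  · have q1 : ¬ ∃ j < 3, (j = 1 + 1 ∨ 1 = j + 1) ∧ mv 3 j = 2 := by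
      rintro ⟨j, hj, h, h'⟩
      have : j = 0 ∨ j = 2 := by omega
      rcases this with rfl | rfl
      · rw [mv30] at h'; omega
      · rw [mv32] at h'; omega
    refine ⟨by simp [mul_comm], ?_, ?_, ?_⟩
    · simp [Finset.sum_range_succ, mv30, mv31, mv32]; ring
    · simp [Finset.sum_range_succ, mv30, mv31, mv32]
    · simp only [Finset.sum_range_succ, Finset.sum_range_zero, mv30, mv31, mv32]
      rw [if_neg (by omega), if_neg (fun h => q1 h.2), if_neg (by omega)]
      simp
  · have q1 : ∃ j < 4, (j = 1 + 1 ∨ 1 = j + 1) ∧ mv 4 j = 2 := ⟨2, by omega, by omega, mv42⟩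
    have q2 : ∃ j < 4, (j = 2 + 1 ∨ 2 = j + 1) ∧ mv 4 j = 2 := ⟨1, by omega, by omega, mv41⟩
    refine ⟨by simp [mul_comm], ?_, ?_, ?_⟩
    · simp [Finset.sum_range_succ, mv40, mv41, mv42, mv43]; ring
    · simp [Finset.sum_range_succ, mv40, mv41, mv42, mv43]; ring
    · simp only [Finset.sum_range_succ, Finset.sum_range_zero, mv40, mv41, mv42, mv43]
      rw [if_neg (by omega), if_pos ⟨trivial, q1⟩, if_pos ⟨trivial, q2⟩, if_neg (by omega)]
      simp; ring

/-- signed number of components with `m` vertices -/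
def PD.nn (D : PD G c) (m : ℕ) : ℤ := ∑ K, if D.k K = m then sg (D.col K) else 0

lemma PD.sum_phi (D : PD G c) (φ : ℕ → ℤ) : ∑ K, sg (D.col K) * φ (D.k K) =
    φ 1 * D.nn 1 + φ 2 * D.nn 2 + φ 3 * D.nn 3 + φ 4 * D.nn 4 := by
  unfold PD.nn
  rw [Finset.mul_sum, Finset.mul_sum, Finset.mul_sum, Finset.mul_sum, ← Finset.sum_add_distrib,
    ← Finset.sum_add_distrib, ← Finset.sum_add_distrib]
  refine Finset.sum_congr rfl fun K _ => ?_
  have h1 := D.k1 K
  have h4 := D.k4 K
  generalize D.k K = k at h1 h4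
  have hk : k = 1 ∨ k = 2 ∨ k = 3 ∨ k = 4 := by omega
  rcases hk with rfl | rfl | rfl | rfl <;> simp [mul_comm]

lemma PD.nn_zero (D : PD G c) (hG : Cub G) (h0 : st G c univ = 0) (m : ℕ) : D.nn m = 0 := by
  have hI : ∑ x, sg (c x) = 0 := congrArg Prod.fst h0
  have hP : ∑ x, locP G c x = 0 := congrArg (fun z => z.2.1) h0
  have hQ : ∑ x, locQ G c x = 0 := congrArg (fun z => z.2.2) h0
  have hD := sum_md hG hI
  rw [D.sum] at hI hP hQ hD
  rw [Finset.sum_congr rfl fun K _ => (D.stats K).1] at hI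
  rw [Finset.sum_congr rfl fun K _ => (D.stats K).2.1] at hD
  rw [Finset.sum_congr rfl fun K _ => (D.stats K).2.2.1] at hP
  rw [Finset.sum_congr rfl fun K _ => (D.stats K).2.2.2] at hQ
  rw [D.sum_phi fun k => (k : ℤ)] at hI
  rw [D.sum_phi fun k => 2 * (k : ℤ) - 2] at hD
  rw [D.sum_phi fun k => if k = 3 then 1 else if k = 4 then 2 else 0] at hP
  rw [D.sum_phi fun k => if k = 4 then 2 else 0] at hQ
  norm_num at hI hD hP hQ
  by_cases hm : m = 1 ∨ m = 2 ∨ m = 3 ∨ m = 4
  · rcases hm with rfl | rfl | rfl | rfl <;> linarith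
  · unfold PD.nn
    refine Finset.sum_eq_zero fun K _ => ?_
    have h1 := D.k1 K
    have h4 := D.k4 K
    rw [if_neg (by omega)]

lemma PD.card_eq (D : PD G c) (hG : Cub G) (h0 : st G c univ = 0) (m : ℕ) :
    Fintype.card {a : {K // D.col K = true} // D.k a.1 = m} =
    Fintype.card {a : {K // D.col K = false} // D.k a.1 = m} := by
  have h1 : ∀ b : Bool, Fintype.card {a : {K // D.col K = b} // D.k a.1 = m} =
      (univ.filter fun K => D.col K = b ∧ D.k K = m).card := by
    intro b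
    rw [← Fintype.card_subtype]
    exact Fintype.card_congr (Equiv.subtypeSubtypeEquivSubtypeInter (fun K => D.col K = b)
      (fun K => D.k K = m))
  rw [h1, h1]
  have h2 := D.nn_zero hG h0 m
  unfold PD.nn at h2
  have h3 : ∀ K, (if D.k K = m then sg (D.col K) else 0) =
      (if D.col K = true ∧ D.k K = m then (1 : ℤ) else 0) -
      (if D.col K = false ∧ D.k K = m then (1 : ℤ) else 0) := by
    intro K
    by_cases hm : D.k K = m <;> cases hc : D.col K <;> simp [hm, sg]
  rw [Finset.sum_congr rfl fun K _ => h3 K, Finset.sum_sub_distrib] at h2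
  have h4 : (((univ.filter fun K => D.col K = true ∧ D.k K = m).card : ℕ) : ℤ) =
      (((univ.filter fun K => D.col K = false ∧ D.k K = m).card : ℕ) : ℤ) := by
    rw [card_filter, card_filter, Nat.cast_sum, Nat.cast_sum]
    simp only [Nat.cast_ite, Nat.cast_one, Nat.cast_zero]
    linarith
  exact_mod_cast h4

/-- the vertices of one colour as a disjoint union of paths -/
def PD.map (D : PD G c) (b : Bool) (T : Set V) (hT : ∀ x, x ∈ T ↔ c x = b) :
    (Σ K : {K // D.col K = b}, Fin (D.k K.1)) → T :=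
  fun a => ⟨D.p a.1.1 a.2, (hT _).2 ((D.cp _ _ a.2.2).trans a.1.2)⟩

lemma PD.map_bij (D : PD G c) (b : Bool) (T : Set V) (hT : ∀ x, x ∈ T ↔ c x = b) :
    Function.Bijective (D.map b T hT) := by
  constructor
  · rintro ⟨⟨K, hK⟩, ⟨i, hi⟩⟩ ⟨⟨K', hK'⟩, ⟨i', hi'⟩⟩ h
    have h1 : D.p K i = D.p K' i' := congrArg Subtype.val h
    have h2 : K = K' := by
      rw [← D.comp K i hi, ← D.comp K' i' hi', h1]
    subst h2
    have h3 := D.inj K i hi i' hi' h1
    subst h3
    rfl
  · rintro ⟨x, hx⟩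
    obtain ⟨i, hi, h⟩ := D.surj x
    have hc := (hT x).1 hx
    refine ⟨⟨⟨_, ?_⟩, ⟨i, hi⟩⟩, Subtype.ext h⟩
    show D.col ((mg G c).connectedComponentMk x) = b
    rw [← D.cp _ i hi, h, hc]

end IsoBlock

open IsoBlock in
theorem stmt_ISO : Stmt_ISO := by
  rintro V _ G hG ⟨c, hv, h0⟩
  obtain ⟨D⟩ := exists_pd hv
  obtain ⟨e, he⟩ := exists_equiv (fun a : {K // D.col K = true} => D.k a.1)
    (fun a : {K // D.col K = false} => D.k a.1) (D.card_eq hG h0)
  set S : Set V := {x | c x = true} with hS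
  have hT1 : ∀ x, x ∈ S ↔ c x = true := fun x => Iff.rfl
  have hT2 : ∀ x, x ∈ Sᶜ ↔ c x = false := fun x => by
    rw [Set.mem_compl_iff, hT1, Bool.not_eq_true]
  set E1 := Equiv.ofBijective _ (D.map_bij true S hT1) with hE1
  set E2 := Equiv.ofBijective _ (D.map_bij false Sᶜ hT2) with hE2
  set E : (Σ K : {K // D.col K = true}, Fin (D.k K.1)) ≃
      (Σ K : {K // D.col K = false}, Fin (D.k K.1)) :=
    Equiv.sigmaCongr e (fun K => finCongr (he K).symm) with hE
  have hEv : ∀ a, (E a).1 = e a.1 ∧ ((E a).2 : ℕ) = a.2 := fun a => ⟨rfl, rfl⟩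
  -- general facts on both sides
  have hfd : ∀ T : Set V, ∀ b, (∀ x, x ∈ T ↔ c x = b) → ∀ x y : T,
      (G.induce T).Adj x y ↔ MA G c x.1 y.1 := by
    intro T b hT x y
    constructor
    · intro h
      exact ⟨h, ((hT _).1 x.2).trans ((hT _).1 y.2).symm⟩
    · intro h
      exact h.1
  have hcomp : ∀ T : Set V, ∀ b, (∀ x, x ∈ T ↔ c x = b) →
      ∀ K : (G.induce T).ConnectedComponent, K.supp.ncard ≤ 4 := by
    intro T b hT K
    induction K using SimpleGraph.ConnectedComponent.ind with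
    | h v =>
      have hr : ∀ y : T, (G.induce T).Reachable v y → (mg G c).Reachable v.1 y.1 := by
        rintro y ⟨w⟩
        induction w with
        | nil => exact SimpleGraph.Reachable.refl _
        | cons h _ ih =>
          exact (SimpleGraph.Adj.reachable (G := mg G c) ((hfd T b hT _ _).1 h)).trans ih
      have h1 : ((Subtype.val : T → V) '' ((G.induce T).connectedComponentMk v).supp) ⊆
          ((range (D.k ((mg G c).connectedComponentMk v.1))).image
            (D.p ((mg G c).connectedComponentMk v.1)) : Finset V) := by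
        rintro _ ⟨y, hy, rfl⟩
        have h2 : (G.induce T).Reachable v y := by
          rw [SimpleGraph.ConnectedComponent.mem_supp_iff] at hy
          exact (SimpleGraph.ConnectedComponent.eq.1 hy).symm
        have h3 := SimpleGraph.ConnectedComponent.eq.2 (hr y h2)
        obtain ⟨i, hi, h4⟩ := D.surj y.1
        rw [← h3] at hi h4
        rw [Finset.mem_coe, mem_image]
        exact ⟨i, mem_range.2 hi, h4⟩
      have h2 := Set.ncard_le_ncard h1 (Finset.finite_toSet _)
      rw [Set.ncard_image_of_injective _ Subtype.val_injective, Set.ncard_coe_finset] at h2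
      have h3 := (card_image_le (s := range (D.k ((mg G c).connectedComponentMk v.1)))
        (f := D.p ((mg G c).connectedComponentMk v.1)))
      rw [card_range] at h3
      have h4 := D.k4 ((mg G c).connectedComponentMk v.1)
      omega
  have hacy : ∀ T : Set V, ∀ b, (∀ x, x ∈ T ↔ c x = b) → (G.induce T).IsAcyclic := by
    intro T b hT
    refine SimpleGraph.IsAcyclic.comap (G' := mg G c)
      (⟨Subtype.val, fun {x y} h => (hfd T b hT x y).1 h⟩ : G.induce T →g mg G c)
      Subtype.val_injective (mg_acyclic hv)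
  have hdeg : ∀ T : Set V, ∀ b, (∀ x, x ∈ T ↔ c x = b) → ∀ v : T,
      ((G.induce T).neighborSet v).ncard ≤ 2 := by
    intro T b hT v
    have h1 : ((Subtype.val : T → V) '' ((G.induce T).neighborSet v)) ⊆
        ((univ.filter fun y => MA G c v.1 y : Finset V) : Set V) := by
      rintro _ ⟨y, hy, rfl⟩
      rw [Finset.mem_coe, mem_filter]
      exact ⟨mem_univ _, (hfd T b hT v y).1 hy⟩
    have h2 := Set.ncard_le_ncard h1 (Finset.finite_toSet _)
    rw [Set.ncard_image_of_injective _ Subtype.val_injective, Set.ncard_coe_finset] at h2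
    exact h2.trans (hv.deg v.1)
  have iso : G.induce S ≃g G.induce Sᶜ :=
    { toEquiv := (E1.symm.trans E).trans E2
      map_rel_iff' := by
        intro x y
        obtain ⟨a, rfl⟩ := E1.surjective x
        obtain ⟨a', rfl⟩ := E1.surjective y
        rw [hfd Sᶜ false hT2, hfd S true hT1]
        simp only [Equiv.trans_apply, Equiv.symm_apply_apply]
        have k1 : (E1 a).1 = D.p a.1.1 a.2 := rfl
        have k2 : (E1 a').1 = D.p a'.1.1 a'.2 := rfl
        have k3 : (E2 (E a)).1 = D.p (e a.1).1 a.2 := rfl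
        have k4 : (E2 (E a')).1 = D.p (e a'.1).1 a'.2 := rfl
        rw [k1, k2, k3, k4, D.adj' _ _ _ _ (by rw [he]; exact a.2.2) (by rw [he]; exact a'.2.2),
          D.adj' _ _ _ _ a.2.2 a'.2.2]
        have : (e a.1).1 = (e a'.1).1 ↔ a.1.1 = a'.1.1 := by
          rw [← Subtype.ext_iff, ← Subtype.ext_iff, e.apply_eq_iff_eq]
        rw [this] }
  refine ⟨S, ?_, hcomp S true hT1, hcomp Sᶜ false hT2, hacy S true hT1, hdeg S true hT1,
    hacy Sᶜ false hT2, hdeg Sᶜ false hT2, ⟨iso⟩⟩
  rw [← Nat.card_coe_set_eq, ← Nat.card_coe_set_eq]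
  exact Nat.card_congr iso.toEquiv

end

end Pool.Agent.Work.MP_1e13ac_Bis
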