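import Mathlib

/-!
# MP_1e13ac_co: 4-bisections of cubic graphs with isomorphic linear forest parts

Interface of the project on all but finitely many connected cubic graphs.
See BLUEPRINT.md in this folder for the proofs. Every block is a `Stmt_...` proposition.
Rule: one file per block, `Pool/Agent/Work/MP_1e13ac_Bis/<BLOCK>.lean`, which proves
`theorem stmt_<BLOCK> : Stmt_<BLOCK>` (with hypotheses `(h : Stmt_OTHER)` where the blueprint says so).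
-/

set_option autoImplicit false

namespace Pool.Agent.Work.MP_1e13ac_Bis

open Classical Finset

noncomputable section

/-- The conclusion of the problem for one graph (verbatim from the frozen statement S07523). -/
def Good (V : Type) (G : SimpleGraph V) : Prop :=
  ∃ S : Set V,
    S.ncard = Sᶜ.ncard ∧
    (∀ c : (G.induce S).ConnectedComponent, c.supp.ncard ≤ 4) ∧
    (∀ c : (G.induce Sᶜ).ConnectedComponent, c.supp.ncard ≤ 4) ∧
    (G.induce S).IsAcyclic ∧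
    (∀ v, ((G.induce S).neighborSet v).ncard ≤ 2) ∧
    (G.induce Sᶜ).IsAcyclic ∧
    (∀ v, ((G.induce Sᶜ).neighborSet v).ncard ≤ 2) ∧
    Nonempty (G.induce S ≃g G.induce Sᶜ)

section Defs

variable {V : Type} [Fintype V]

/-- the neighbours of `x` -/
def nbs (G : SimpleGraph V) (x : V) : Finset V := univ.filter fun y => G.Adj x y

/-- cubic graph -/
def Cub (G : SimpleGraph V) : Prop := ∀ x, (nbs G x).card = 3

/-- monochromatic adjacency -/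
def MA (G : SimpleGraph V) (c : V → Bool) (x y : V) : Prop := G.Adj x y ∧ c x = c y

/-- monochromatic degree -/
def md (G : SimpleGraph V) (c : V → Bool) (x : V) : ℕ := (univ.filter fun y => MA G c x y).card

/-- all monochromatic components are paths with at most 4 vertices:
degrees at most 2 and no non-backtracking monochromatic walk with 4 edges -/
structure Valid (G : SimpleGraph V) (c : V → Bool) : Prop where
  deg : ∀ x, md G c x ≤ 2
  nb4 : ∀ x₁ x₂ x₃ x₄ x₅, MA G c x₁ x₂ → MA G c x₂ x₃ → MA G c x₃ x₄ → MA G c x₄ x₅ →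
    x₁ ≠ x₃ → x₂ ≠ x₄ → x₃ ≠ x₅ → False

/-- sign of a colour -/
def sg (b : Bool) : ℤ := if b then 1 else -1

def locP (G : SimpleGraph V) (c : V → Bool) (x : V) : ℤ :=
  if md G c x = 2 then sg (c x) else 0

def locQ (G : SimpleGraph V) (c : V → Bool) (x : V) : ℤ :=
  if md G c x = 2 ∧ ∃ y, MA G c x y ∧ md G c y = 2 then sg (c x) else 0

/-- statistics `(I, P, Q)` of a colouring on a set `S` of vertices -/
def st (G : SimpleGraph V) (c : V → Bool) (S : Finset V) : ℤ × ℤ × ℤ :=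
  (∑ x ∈ S, sg (c x), ∑ x ∈ S, locP G c x, ∑ x ∈ S, locQ G c x)

/-- the combinatorial form of the conclusion -/
def Good' (G : SimpleGraph V) : Prop := ∃ c : V → Bool, Valid G c ∧ st G c univ = 0

/-- balls -/
def Bl (G : SimpleGraph V) : ℕ → V → Finset V
  | 0, v => {v}
  | r + 1, v => univ.filter fun x => ∃ y ∈ Bl G r v, x = y ∨ G.Adj y x

/-- `v` lies in a component with at least 24 vertices -/
def Big (G : SimpleGraph V) (v : V) : Prop := 24 ≤ (univ.filter fun x => G.Reachable v x).card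

/-- conditions on a coloured set before closure -/
structure Pre (G : SimpleGraph V) (A : Finset V) (c : V → Bool) : Prop where
  opp : ∀ a ∈ A, ∃ a' ∈ A, G.Adj a a' ∧ c a' ≠ c a
  nb4 : ∀ a₁ ∈ A, ∀ a₂ ∈ A, ∀ a₃ ∈ A, ∀ a₄ ∈ A, ∀ a₅ ∈ A,
    MA G c a₁ a₂ → MA G c a₂ a₃ → MA G c a₃ a₄ → MA G c a₄ a₅ →
    a₁ ≠ a₃ → a₂ ≠ a₄ → a₃ ≠ a₅ → False
  k2 : ∀ a ∈ A, ∀ a' ∈ A, MA G c a a' → ∀ w, w ∉ A → G.Adj a w →
    (∀ w', w' ∉ A → ¬ G.Adj a' w') ∧ ∀ a'' ∈ A, MA G c a' a'' → a'' = a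

/-- conditions on a coloured set after closure -/
structure Clo (G : SimpleGraph V) (A : Finset V) (c : V → Bool) : Prop where
  opp : ∀ a ∈ A, ∃ a' ∈ A, G.Adj a a' ∧ c a' ≠ c a
  nb4 : ∀ a₁ ∈ A, ∀ a₂ ∈ A, ∀ a₃ ∈ A, ∀ a₄ ∈ A, ∀ a₅ ∈ A,
    MA G c a₁ a₂ → MA G c a₂ a₃ → MA G c a₃ a₄ → MA G c a₄ a₅ →
    a₁ ≠ a₃ → a₂ ≠ a₄ → a₃ ≠ a₅ → False
  k2 : ∀ a₁ ∈ A, ∀ a₂ ∈ A, MA G c a₁ a₂ → ∀ w₁, w₁ ∉ A → ∀ w₂, w₂ ∉ A →
    G.Adj a₁ w₁ → G.Adj a₂ w₂ → ∃ a' ∈ A, a' ≠ a₁ ∧ G.Adj a' w₁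
  k3 : ∀ a₁ ∈ A, ∀ a₂ ∈ A, ∀ a₃ ∈ A, MA G c a₁ a₂ → MA G c a₂ a₃ → a₁ ≠ a₃ →
    ∀ w, w ∉ A → G.Adj a₁ w → ∃ a' ∈ A, a' ≠ a₁ ∧ G.Adj a' w
  k3' : ∀ a₁ ∈ A, ∀ a₂ ∈ A, ∀ a₃ ∈ A, MA G c a₁ a₂ → MA G c a₂ a₃ → a₁ ≠ a₃ →
    ∀ w₁, w₁ ∉ A → ∀ w₃, w₃ ∉ A → G.Adj a₁ w₁ → G.Adj a₃ w₃ → False
  k4 : ∀ a₁ ∈ A, ∀ a₂ ∈ A, ∀ a₃ ∈ A, ∀ a₄ ∈ A, MA G c a₁ a₂ → MA G c a₂ a₃ →
    MA G c a₃ a₄ → a₁ ≠ a₃ → a₂ ≠ a₄ → ∀ w, w ∉ A → G.Adj a₁ w → False
  cl : ∀ w, w ∉ A → ∀ a ∈ A, ∀ a' ∈ A, a ≠ a' → G.Adj a w → G.Adj a' w → c a ≠ c a'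

/-- a gadget: two colourings of `U` inside the coloured set `A`; parameter `Q` is `Pre` or `Clo` -/
structure Gdt (Q : SimpleGraph V → Finset V → (V → Bool) → Prop)
    (G : SimpleGraph V) (A U : Finset V) (c1 c2 : V → Bool) : Prop where
  sub : U ⊆ A
  nb : ∀ u ∈ U, ∀ w, G.Adj u w → w ∈ A
  agree : ∀ x, x ∉ U → c1 x = c2 x
  bi1 : ∀ u ∈ U, ∀ b ∈ A, b ∉ U → G.Adj u b → c1 u ≠ c1 b
  bi2 : ∀ u ∈ U, ∀ b ∈ A, b ∉ U → G.Adj u b → c2 u ≠ c2 b
  q1 : Q G A c1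
  q2 : Q G A c2

/-- difference vector of a gadget -/
def diff (G : SimpleGraph V) (U : Finset V) (c1 c2 : V → Bool) : ℤ × ℤ × ℤ :=
  st G c2 U - st G c1 U

/-- `D` is contained in the box and generates `2ℤ × ℤ × 2ℤ` -/
def Gen (D : Finset (ℤ × ℤ × ℤ)) : Prop :=
  (∀ d ∈ D, |d.1| ≤ 50 ∧ |d.2.1| ≤ 50 ∧ |d.2.2| ≤ 50) ∧
  ∀ z : ℤ × ℤ × ℤ, (2 : ℤ) ∣ z.1 → (2 : ℤ) ∣ z.2.2 →
    z ∈ AddSubgroup.closure (D : Set (ℤ × ℤ × ℤ))

/-! ## F-degrees, component sizes, frames -/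

/-- degree in `F` -/
def fd (F : SimpleGraph V) (x : V) : ℕ := (univ.filter fun y => F.Adj x y).card

/-- size of the `F`-component of `x` -/
def cs (F : SimpleGraph V) (x : V) : ℕ := (univ.filter fun y => F.Reachable x y).card

/-- frame: linear forest `F` outside `A`, adjacencies between its low degree vertices -/
structure Frame (G : SimpleGraph V) (A : Finset V) (F : SimpleGraph V) : Prop where
  le : F ≤ G
  out : ∀ x y, F.Adj x y → x ∉ A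
  deg : ∀ x, fd F x ≤ 2
  mat : ∀ x y z, x ∉ A → y ∉ A → z ∉ A → fd F x ≤ 1 → fd F y ≤ 1 → fd F z ≤ 1 →
    G.Adj x y → ¬ F.Adj x y → G.Adj x z → ¬ F.Adj x z → y = z
  triv : ∀ x y, x ∉ A → y ∉ A → fd F x = 0 → fd F y ≤ 1 → ¬ G.Adj x y

/-- the conditions on the whole colouring which imply validity -/
structure Cond (G : SimpleGraph V) (A : Finset V) (F : SimpleGraph V) (c : V → Bool) : Prop where
  alt : ∀ x y, F.Adj x y → c x ≠ c y
  triv : ∀ z, z ∉ A → fd F z = 0 → md G c z ≤ 1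
  b1 : ∀ a ∈ A, ∀ w w', w ≠ w' → w ∉ A → w' ∉ A → G.Adj a w → G.Adj a w' →
    fd F w = 1 → fd F w' = 1 → (∀ a' ∈ A, G.Adj a' w → a' = a) →
    (∀ a' ∈ A, G.Adj a' w' → a' = a) → c w = c a → c w' = c a → False
  b2 : ∀ x y, x ∉ A → y ∉ A → G.Adj x y → ¬ F.Adj x y → fd F x ≤ 1 → fd F y ≤ 1 →
    c x = c y → ∀ a ∈ A, G.Adj x a → c a ≠ c x

/-- maximum path factor of the complement of `A` -/
structure PF (G : SimpleGraph V) (A : Finset V) (b : V → Bool) (F : SimpleGraph V) : Prop where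
  le : F ≤ G
  out : ∀ x y, F.Adj x y → x ∉ A
  acyc : F.IsAcyclic
  deg : ∀ x, fd F x ≤ 2
  max : ∀ x y, x ≠ y → x ∉ A → y ∉ A → G.Adj x y → fd F x ≤ 1 → fd F y ≤ 1 → F.Reachable x y
  bal : ∀ u t, u ∉ A → t ∉ A → G.Adj u t → fd F u = 2 → fd F t ≤ 1 → ¬ F.Reachable u t →
    cs F u ≤ 2 * cs F t + 1
  clos : ∀ ε : V → Bool, (∀ x y, F.Adj x y → ε x ≠ ε y) →
    ∀ t h, t ∉ A → h ∉ A → G.Adj t h → ¬ F.Adj t h → fd F t = 1 → fd F h = 1 → ε t = ε h →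
    ∀ a ∈ A, ∀ a' ∈ A, G.Adj t a → G.Adj h a' → b a = b a'

/-- `F` arises from `F₀` by removing isolated cut edges, components have at most `s` vertices -/
structure Cut (G : SimpleGraph V) (A : Finset V) (F₀ F : SimpleGraph V) (s : ℕ) : Prop where
  le : F ≤ F₀
  deg0 : ∀ u v, F₀.Adj u v → ¬ F.Adj u v → fd F₀ u = 2
  one : ∀ u v, F₀.Adj u v → ¬ F.Adj u v → fd F u = 1
  noA : ∀ u v, F₀.Adj u v → ¬ F.Adj u v → ∀ a ∈ A, ¬ G.Adj u a
  third : ∀ u v, F₀.Adj u v → ¬ F.Adj u v → ∀ y, G.Adj u y → ¬ F₀.Adj u y → fd F y = 2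
  size : ∀ x, cs F x ≤ s

/-- the places: centres `X`, sets `A x` in small balls around far apart centres -/
structure Sep (G : SimpleGraph V) (X : Finset V) (A : V → Finset V) : Prop where
  ball : ∀ x ∈ X, A x ⊆ Bl G 96 x
  disj : ∀ x ∈ X, ∀ y ∈ X, x ≠ y → Disjoint (Bl G 100 x) (Bl G 100 y)

/-- the union of the places -/
def AU (X : Finset V) (A : V → Finset V) : Finset V := X.biUnion A

/-- assignment of sign classes; the index type of the signs is `Bool × V`,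
`(true, x)` for the place with centre `x`, `(false, v)` for the other classes -/
structure Asg (G : SimpleGraph V) (X : Finset V) (A : V → Finset V) (b : V → Bool)
    (F : SimpleGraph V) (j : V → Bool × V) (ε : V → Bool) (s : ℕ) : Prop where
  alt : ∀ x y, F.Adj x y → j x = j y ∧ ε x ≠ ε y
  pl : ∀ x ∈ X, ∀ v ∈ A x, j v = (true, x) ∧ ε v = b v
  b1 : ∀ a ∈ AU X A, ∀ w w', w ≠ w' → w ∉ AU X A → w' ∉ AU X A → G.Adj a w → G.Adj a w' →
    fd F w = 1 → fd F w' = 1 → (∀ a' ∈ AU X A, G.Adj a' w → a' = a) →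
    (∀ a' ∈ AU X A, G.Adj a' w' → a' = a) →
    (j w = j a ∧ ε w ≠ ε a) ∨ (j w' = j a ∧ ε w' ≠ ε a)
  b2 : ∀ x y, x ∉ AU X A → y ∉ AU X A → G.Adj x y → ¬ F.Adj x y → fd F x ≤ 1 → fd F y ≤ 1 →
    ∀ a ∈ AU X A, G.Adj x a → (j x = j y ∧ ε x ≠ ε y) ∨ (j x = j a ∧ ε x ≠ ε a)
  size : ∀ i, (univ.filter fun v => j v = i).card ≤ s

/-- minority colour of the neighbours -/
def mino (G : SimpleGraph V) (c : V → Bool) (z : V) : Bool :=
  if 2 ≤ ((nbs G z).filter fun y => c y = true).card then false else true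

/-- the colouring given by signs `σ`; the vertices of `Z` take the minority colour -/
def col (G : SimpleGraph V) (Z : Finset V) (j : V → Bool × V) (ε : V → Bool)
    (σ : Bool × V → Bool) (v : V) : Bool :=
  if v ∈ Z then mino G (fun y => xor (σ (j y)) (ε y)) v else xor (σ (j v)) (ε v)

end Defs

/-! ## The blocks -/

/-- BALL: basic facts on balls -/
def Stmt_BALL : Prop := ∀ (V : Type) [Fintype V] (G : SimpleGraph V),
  (∀ r s v, Bl G r v ⊆ Bl G (r + s) v) ∧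
  (∀ r x y, y ∈ Bl G r x → x ∈ Bl G r y) ∧
  (∀ r s x y z, y ∈ Bl G r x → z ∈ Bl G s y → z ∈ Bl G (r + s) x) ∧
  (∀ x y, G.Adj x y → y ∈ Bl G 1 x) ∧
  (∀ r x y, y ∈ Bl G r x → G.Reachable x y) ∧
  (Cub G → ∀ r v, (Bl G r v).card ≤ 4 ^ r)

/-- PATHREP: components of linear forests are paths -/
def Stmt_PATHREP : Prop := ∀ (V : Type) [Fintype V] (F : SimpleGraph V),
  F.IsAcyclic → (∀ x, fd F x ≤ 2) → ∀ x : V, ∃ (p : ℕ → V),
    (∀ i < cs F x, ∀ i' < cs F x, p i = p i' → i = i') ∧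
    (∀ y, F.Reachable x y ↔ ∃ i < cs F x, p i = y) ∧
    ∀ i < cs F x, ∀ i' < cs F x, F.Adj (p i) (p i') ↔ (i' = i + 1 ∨ i = i' + 1)

/-- ISO: from the combinatorial form to the frozen form -/
def Stmt_ISO : Prop := ∀ (V : Type) [Fintype V] (G : SimpleGraph V), Cub G → Good' G → Good V G

/-- EVEN: parities of the statistics -/
def Stmt_EVEN : Prop := ∀ (V : Type) [Fintype V] (G : SimpleGraph V), Cub G →
  ∀ c : V → Bool, Valid G c → (2 : ℤ) ∣ (st G c univ).1 ∧ (2 : ℤ) ∣ (st G c univ).2.2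

/-- PAT: the universal gadget lemma (finite search) -/
def Stmt_PAT : Prop := ∀ (V : Type) [Fintype V] (G : SimpleGraph V), Cub G →
  ∀ v, Big G v → ∃ D : Finset (ℤ × ℤ × ℤ), Gen D ∧
    ∀ d ∈ D, ∃ A U : Finset V, ∃ c1 c2 : V → Bool, Gdt Pre G A U c1 c2 ∧ A ⊆ Bl G 23 v ∧
      A.card ≤ 23 ∧ diff G U c1 c2 = d

/-- CLOSE: closure of a gadget -/
def Stmt_CLOSE : Prop := ∀ (V : Type) [Fintype V] (G : SimpleGraph V), Cub G →
  ∀ (A U : Finset V) (c1 c2 : V → Bool), Gdt Pre G A U c1 c2 →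
    ∃ (A' : Finset V) (c1' c2' : V → Bool), A ⊆ A' ∧ Gdt Clo G A' U c1' c2' ∧
      diff G U c1' c2' = diff G U c1 c2 ∧ ∀ x ∈ A', ∃ a ∈ A, x ∈ Bl G (3 * A.card) a

/-- UNION: places far apart -/
def Stmt_UNION : Prop := ∀ (V : Type) [Fintype V] (G : SimpleGraph V),
  ∀ (X : Finset V) (A : V → Finset V), Sep G X A → ∀ c : V → Bool,
    (∀ x ∈ X, ∃ (τ : Bool) (c' : V → Bool), Clo G (A x) c' ∧ ∀ v ∈ A x, c v = xor τ (c' v)) →
    Clo G (AU X A) c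

/-- VALID: the conditions imply validity -/
def Stmt_VALID : Prop := ∀ (V : Type) [Fintype V] (G : SimpleGraph V), Cub G →
  ∀ (A : Finset V) (F : SimpleGraph V) (c : V → Bool),
    Frame G A F → Clo G A c → Cond G A F c → Valid G c

/-- FRAME: path factor and cuts give a frame -/
def Stmt_FRAME : Prop := ∀ (V : Type) [Fintype V] (G : SimpleGraph V), Cub G →
  ∀ (A : Finset V) (b : V → Bool) (F₀ F : SimpleGraph V) (s : ℕ),
    PF G A b F₀ → Cut G A F₀ F s → Frame G A F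

/-- PF: existence of the path factor -/
def Stmt_PF : Prop := ∀ (V : Type) [Fintype V] (G : SimpleGraph V), Cub G →
  ∀ (A : Finset V) (b : V → Bool), ∃ F, PF G A b F

/-- CUT: cutting the long paths -/
def Stmt_CUT : Prop := ∃ K₀ : ℕ, ∀ (V : Type) [Fintype V] (G : SimpleGraph V), Cub G →
  ∀ (X : Finset V) (A : V → Finset V), Sep G X A → ∀ (b : V → Bool) (F₀ : SimpleGraph V),
    PF G (AU X A) b F₀ → ∀ s : ℕ, K₀ * Fintype.card V ≤ s ^ 2 →
      ∃ F, Cut G (AU X A) F₀ F s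

/-- ASSIGN: sign classes -/
def Stmt_ASSIGN : Prop := ∃ K₁ : ℕ, ∀ (V : Type) [Fintype V] (G : SimpleGraph V), Cub G →
  ∀ (X : Finset V) (A : V → Finset V), Sep G X A →
    (∀ a ∈ AU X A, ∃ a' ∈ AU X A, G.Adj a a') →
    ∀ (b : V → Bool) (F₀ F : SimpleGraph V) (s : ℕ),
    1 ≤ s → PF G (AU X A) b F₀ → Cut G (AU X A) F₀ F s →
      ∃ (j : V → Bool × V) (ε : V → Bool), Asg G X A b F j ε (K₁ * s)

/-- ES: Efron-Stein inequality for mean zero functions on the cube -/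
def Stmt_ES : Prop := ∀ (I : Type) [Fintype I] (f : (I → Bool) → ℝ), ∑ σ, f σ = 0 →
  4 * ∑ σ, f σ ^ 2 ≤ ∑ i, ∑ σ, (f σ - f (Function.update σ i (!σ i))) ^ 2

/-- INF: influence of one sign on the statistics -/
def Stmt_INF : Prop := ∀ (V : Type) [Fintype V] (G : SimpleGraph V), Cub G →
  ∀ (Z : Finset V) (j : V → Bool × V) (ε : V → Bool) (σ : Bool × V → Bool) (i : Bool × V),
    |(st G (col G Z j ε σ) univ).1 - (st G (col G Z j ε (Function.update σ i (!σ i))) univ).1| ≤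
      80 * ((univ.filter fun v => j v = i).card : ℤ) ∧
    |(st G (col G Z j ε σ) univ).2.1 -
      (st G (col G Z j ε (Function.update σ i (!σ i))) univ).2.1| ≤
      80 * ((univ.filter fun v => j v = i).card : ℤ) ∧
    |(st G (col G Z j ε σ) univ).2.2 -
      (st G (col G Z j ε (Function.update σ i (!σ i))) univ).2.2| ≤
      80 * ((univ.filter fun v => j v = i).card : ℤ)

/-- SIGN: second moment over the signs -/
def Stmt_SIGN : Prop := ∃ K₂ : ℕ, ∀ (V : Type) [Fintype V] (G : SimpleGraph V), Cub G →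
  ∀ (Z : Finset V) (j : V → Bool × V) (ε : V → Bool) (s r t : ℕ) (Y : Fin r → Finset (Bool × V)),
    1 ≤ s → (∀ i, (univ.filter fun v => j v = i).card ≤ s) →
    K₂ * (r + 1) * s * Fintype.card V ≤ t ^ 2 →
    ∃ σ : Bool × V → Bool, |(st G (col G Z j ε σ) univ).1| ≤ t ∧
      |(st G (col G Z j ε σ) univ).2.1| ≤ t ∧ |(st G (col G Z j ε σ) univ).2.2| ≤ t ∧
      ∀ k, |∑ i ∈ Y k, sg (σ i)| ≤ t

/-- LATT: small coefficients -/
def Stmt_LATT : Prop := ∃ κ : ℕ, ∀ D : Finset (ℤ × ℤ × ℤ), Gen D →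
  ∀ z : ℤ × ℤ × ℤ, (2 : ℤ) ∣ z.1 → (2 : ℤ) ∣ z.2.2 → ∃ m : ℤ × ℤ × ℤ → ℤ,
    ∑ d ∈ D, m d • d = z ∧ ∀ d, |m d| ≤ κ * (|z.1| + |z.2.1| + |z.2.2|)

/-- MANY: many far apart centres -/
def Stmt_MANY : Prop := ∃ K₃ : ℕ, ∀ (V : Type) [Fintype V] (G : SimpleGraph V), Cub G →
  ∀ W : Finset V, ∃ X ⊆ W, W.card ≤ K₃ * X.card ∧
    ∀ x ∈ X, ∀ y ∈ X, x ≠ y → Disjoint (Bl G 100 x) (Bl G 100 y)

/-- SWITCH: effect of recolouring a set all of whose boundary edges stay bichromatic -/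
def Stmt_SWITCH : Prop := ∀ (V : Type) [Fintype V] (G : SimpleGraph V),
  ∀ (U : Finset V) (c c' : V → Bool), (∀ x, x ∉ U → c x = c' x) →
    (∀ u ∈ U, ∀ w, w ∉ U → G.Adj u w → c u ≠ c w ∧ c' u ≠ c' w) →
    st G c' univ - st G c univ = st G c' U - st G c U

/-- ANY: every cubic graph has a valid colouring -/
def Stmt_ANY : Prop := ∀ (V : Type) [Fintype V] (G : SimpleGraph V), Cub G →
  ∃ c : V → Bool, Valid G c

/-- the data produced by PLACES: `D` generates, far apart closed gadgets, every `δ ∈ D` is the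
difference vector of at least `n / K` of them -/
def PlaceData (V : Type) [Fintype V] (G : SimpleGraph V) (K : ℕ) : Prop :=
  ∃ (D : Finset (ℤ × ℤ × ℤ)) (X : Finset V) (A U : V → Finset V) (c1 c2 : V → V → Bool),
    Gen D ∧ Sep G X A ∧ (∀ x ∈ X, Gdt Clo G (A x) (U x) (c1 x) (c2 x)) ∧
    (∀ x ∈ X, diff G (U x) (c1 x) (c2 x) ∈ D) ∧
    ∀ δ ∈ D, Fintype.card V ≤ K * (X.filter fun x => diff G (U x) (c1 x) (c2 x) = δ).card

/-- PLACES: many far apart closed gadgets of every kind -/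
def Stmt_PLACES : Prop := ∀ d : ℕ, ∃ K N : ℕ, ∀ (V : Type) [Fintype V] (G : SimpleGraph V),
  Cub G → N ≤ Fintype.card V → Fintype.card V ≤ d * (univ.filter fun v => Big G v).card →
    PlaceData V G K

/-- ASM: the final assembly -/
def Stmt_ASM : Prop := ∀ K : ℕ, ∃ N : ℕ, ∀ (V : Type) [Fintype V] (G : SimpleGraph V),
  Cub G → N ≤ Fintype.card V → PlaceData V G K → Good' G

/-- DENSE: the theorem for graphs with a positive proportion of vertices in large components -/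
def Stmt_DENSE : Prop := ∀ d : ℕ, ∃ N : ℕ, ∀ (V : Type) [Fintype V] (G : SimpleGraph V), Cub G →
  N ≤ Fintype.card V → Fintype.card V ≤ d * (univ.filter fun v => Big G v).card → Good' G

/-- MAIN: no density condition -/
def Stmt_MAIN : Prop := ∃ N : ℕ, ∀ (V : Type) [Fintype V] (G : SimpleGraph V), Cub G →
  N ≤ (univ.filter fun v => Big G v).card → Good' G

end

end Pool.Agent.Work.MP_1e13ac_Bis
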