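import Mathlib
import Pool.Agent.Work.MP_1e13ac_Bis.Interface

set_option autoImplicit false

namespace Pool.Agent.Work.MP_1e13ac_Bis

open Classical Finset

namespace MAIN

/-- embedding of a graph as a union of components -/
structure Loc {V1 V2 : Type} (G1 : SimpleGraph V1) (G2 : SimpleGraph V2) (ψ : V1 → V2) : Prop where
  inj : Function.Injective ψ
  adj : ∀ x y, G2.Adj (ψ x) (ψ y) ↔ G1.Adj x y
  cl : ∀ x y, G2.Adj (ψ x) y → ∃ y', ψ y' = y

section
variable {V1 V2 : Type} [Fintype V1] [Fintype V2] {G1 : SimpleGraph V1} {G2 : SimpleGraph V2}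
  {ψ : V1 → V2}

lemma Loc.card (h : Loc G1 G2 ψ) (x : V1) (p : V2 → Prop) :
    (univ.filter fun y => G2.Adj (ψ x) y ∧ p y).card =
      (univ.filter fun y => G1.Adj x y ∧ p (ψ y)).card := by
  rw [← card_image_of_injective _ h.inj]
  congr 1
  ext y
  simp only [mem_filter, mem_univ, true_and, mem_image]
  constructor
  · rintro ⟨h1, h2⟩
    obtain ⟨y', rfl⟩ := h.cl x y h1
    exact ⟨y', ⟨(h.adj _ _).1 h1, h2⟩, rfl⟩
  · rintro ⟨y', ⟨h1, h2⟩, rfl⟩
    exact ⟨(h.adj _ _).2 h1, h2⟩

lemma Loc.cub (h : Loc G1 G2 ψ) (hG : Cub G2) : Cub G1 := by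
  intro x
  have h1 := h.card x (fun _ => True)
  simp only [and_true] at h1
  unfold nbs
  rw [← h1]
  exact hG (ψ x)

variable {c1 : V1 → Bool} {c2 : V2 → Bool} {τ : Bool}

omit [Fintype V1] [Fintype V2] in
lemma Loc.ma (h : Loc G1 G2 ψ) (hc : ∀ x, c2 (ψ x) = xor τ (c1 x)) (x y : V1) :
    MA G2 c2 (ψ x) (ψ y) ↔ MA G1 c1 x y := by
  unfold MA
  rw [h.adj, hc, hc]
  cases τ <;> cases c1 x <;> cases c1 y <;> simp

lemma Loc.md (h : Loc G1 G2 ψ) (hc : ∀ x, c2 (ψ x) = xor τ (c1 x)) (x : V1) :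
    md G2 c2 (ψ x) = md G1 c1 x := by
  have h1 := h.card x (fun y => c2 (ψ x) = c2 y)
  unfold MP_1e13ac_Bis.md MA
  trans (univ.filter fun y => G1.Adj x y ∧ c2 (ψ x) = c2 (ψ y)).card
  · convert h1
  · congr 1
    ext y
    simp only [mem_filter, mem_univ, true_and]
    rw [hc, hc]
    cases τ <;> cases c1 x <;> cases c1 y <;> simp

/-- the sign of the flip -/
def fl (τ : Bool) : ℤ := if τ then -1 else 1

lemma sg_xor (τ b : Bool) : sg (xor τ b) = fl τ * sg b := by
  cases τ <;> cases b <;> simp [sg, fl]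

lemma Loc.locP (h : Loc G1 G2 ψ) (hc : ∀ x, c2 (ψ x) = xor τ (c1 x)) (x : V1) :
    locP G2 c2 (ψ x) = fl τ * locP G1 c1 x := by
  unfold MP_1e13ac_Bis.locP
  rw [h.md hc, hc, sg_xor]
  split_ifs <;> simp

lemma Loc.locQ (h : Loc G1 G2 ψ) (hc : ∀ x, c2 (ψ x) = xor τ (c1 x)) (x : V1) :
    locQ G2 c2 (ψ x) = fl τ * locQ G1 c1 x := by
  unfold MP_1e13ac_Bis.locQ
  have h1 : (∃ y, MA G2 c2 (ψ x) y ∧ MP_1e13ac_Bis.md G2 c2 y = 2) ↔
      ∃ y, MA G1 c1 x y ∧ MP_1e13ac_Bis.md G1 c1 y = 2 := by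
    constructor
    · rintro ⟨y, hy1, hy2⟩
      obtain ⟨y', rfl⟩ := h.cl x y hy1.1
      rw [h.ma hc] at hy1
      rw [h.md hc] at hy2
      exact ⟨y', hy1, hy2⟩
    · rintro ⟨y, hy1, hy2⟩
      exact ⟨ψ y, (h.ma hc _ _).2 hy1, by rw [h.md hc]; exact hy2⟩
  rw [h.md hc, hc, sg_xor]
  simp only [h1]
  split_ifs <;> simp

lemma Loc.stsum (h : Loc G1 G2 ψ) (hc : ∀ x, c2 (ψ x) = xor τ (c1 x)) :
    (∑ x, sg (c2 (ψ x)), ∑ x, MP_1e13ac_Bis.locP G2 c2 (ψ x),
      ∑ x, MP_1e13ac_Bis.locQ G2 c2 (ψ x)) =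
      (fl τ * (st G1 c1 univ).1, fl τ * (st G1 c1 univ).2.1, fl τ * (st G1 c1 univ).2.2) := by
  unfold st
  simp only [mul_sum, h.locP hc, h.locQ hc, hc, sg_xor]

omit [Fintype V1] [Fintype V2] in
lemma Loc.reach (h : Loc G1 G2 ψ) (x : V1) (y : V2) :
    G2.Reachable (ψ x) y ↔ ∃ x', ψ x' = y ∧ G1.Reachable x x' := by
  constructor
  · rintro ⟨w⟩
    have key : ∀ (a b : V2), G2.Walk a b → ∀ x : V1, ψ x = a →
        ∃ x', ψ x' = b ∧ G1.Reachable x x' := by
      intro a b w
      induction w with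
      | nil => intro x hx; exact ⟨x, hx, SimpleGraph.Reachable.refl _⟩
      | cons hadj p ih =>
        intro x hx
        subst hx
        obtain ⟨y', hy'⟩ := h.cl x _ hadj
        obtain ⟨x', hx', hr⟩ := ih y' hy'
        subst hy'
        exact ⟨x', hx', ((h.adj _ _).1 hadj).reachable.trans hr⟩
    exact key _ _ w x rfl
  · rintro ⟨x', rfl, hr⟩
    exact hr.map (⟨ψ, fun {a b} hab => (h.adj a b).2 hab⟩ : G1 →g G2)

lemma Loc.big (h : Loc G1 G2 ψ) (x : V1) : Big G2 (ψ x) ↔ Big G1 x := by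
  unfold Big
  have h1 : (univ.filter fun y => G2.Reachable (ψ x) y) =
      (univ.filter fun y => G1.Reachable x y).image ψ := by
    ext y
    simp only [mem_filter, mem_univ, true_and, mem_image]
    rw [h.reach]
    constructor
    · rintro ⟨x', h1, h2⟩; exact ⟨x', h2, h1⟩
    · rintro ⟨x', h1, h2⟩; exact ⟨x', h2, h1⟩
  rw [h1, card_image_of_injective _ h.inj]

omit [Fintype V1] [Fintype V2] in
lemma Loc.nb4 [Fintype V1] (h : Loc G1 G2 ψ) (hc : ∀ x, c2 (ψ x) = xor τ (c1 x)) (hv : Valid G1 c1)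
    (z : V1) : ∀ x₂ x₃ x₄ x₅, MA G2 c2 (ψ z) x₂ → MA G2 c2 x₂ x₃ → MA G2 c2 x₃ x₄ →
    MA G2 c2 x₄ x₅ → ψ z ≠ x₃ → x₂ ≠ x₄ → x₃ ≠ x₅ → False := by
  intro x₂ x₃ x₄ x₅ h1 h2 h3 h4 n1 n2 n3
  obtain ⟨y₂, rfl⟩ := h.cl _ _ h1.1
  obtain ⟨y₃, rfl⟩ := h.cl _ _ h2.1
  obtain ⟨y₄, rfl⟩ := h.cl _ _ h3.1
  obtain ⟨y₅, rfl⟩ := h.cl _ _ h4.1
  rw [h.ma hc] at h1 h2 h3 h4
  exact hv.nb4 z y₂ y₃ y₄ y₅ h1 h2 h3 h4 (fun e => n1 (by rw [e])) (fun e => n2 (by rw [e]))
    (fun e => n3 (by rw [e]))

end

/-- numbering of a finset -/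
lemma numbering {V : Type} (S : Finset V) (v : V) : ∃ p : ℕ → V,
    (∀ i < S.card, ∀ j < S.card, p i = p j → i = j) ∧ ∀ y, y ∈ S ↔ ∃ i < S.card, p i = y := by
  let e := S.equivFin
  refine ⟨fun i => if h : i < S.card then (e.symm ⟨i, h⟩).1 else v, ?_, ?_⟩
  · intro i hi j hj hij
    simp only [hi, hj, dif_pos] at hij
    have := e.symm.injective (Subtype.ext hij)
    simpa using this
  · intro y
    constructor
    · intro hy
      refine ⟨(e ⟨y, hy⟩).1, (e ⟨y, hy⟩).2, ?_⟩
      simp
    · rintro ⟨i, hi, rfl⟩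
      simp only [hi, dif_pos]
      exact (e.symm ⟨i, hi⟩).2

/-- codes of small graphs -/
structure Code where
  k : Fin 24
  f : Fin 24 → Fin 24 → Bool

instance : Finite Code :=
  Finite.of_injective (fun c : Code => (c.k, c.f)) (by
    rintro ⟨k, f⟩ ⟨k', f'⟩ h
    simp only [Prod.mk.injEq] at h
    rw [h.1, h.2])

noncomputable instance : Fintype Code := Fintype.ofFinite _

/-- two isomorphic small components among many small vertices -/
lemma two_iso {V : Type} [Fintype V] (G : SimpleGraph V)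
    (hS : Fintype.card Code * 23 <
      (univ.filter fun v => ¬ Big G v).card) :
    ∃ (v v' : V) (k : ℕ) (p p' : Fin k → V), ¬ G.Reachable v v' ∧ ¬ Big G v ∧ ¬ Big G v' ∧
      Function.Injective p ∧ Function.Injective p' ∧
      (∀ y, G.Reachable v y ↔ ∃ i, p i = y) ∧ (∀ y, G.Reachable v' y ↔ ∃ i, p' i = y) ∧
      ∀ i j, G.Adj (p i) (p j) ↔ G.Adj (p' i) (p' j) := by
  set C : V → Finset V := fun v => univ.filter fun x => G.Reachable v x with hC
  choose p hp1 hp2 using fun v => numbering (C v) v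
  set T : V → Code := fun v =>
    if h : (C v).card < 24 then ⟨⟨(C v).card, h⟩, fun i j => decide (G.Adj (p v i) (p v j))⟩
    else ⟨0, fun _ _ => true⟩ with hT
  obtain ⟨t, -, ht⟩ := exists_lt_card_fiber_of_mul_lt_card_of_maps_to (s := univ.filter fun v => ¬ Big G v)
    (t := (univ : Finset Code)) (f := T) (n := 23)
    (fun a _ => mem_univ _) (by rw [card_univ]; exact hS)
  have hne : ((univ.filter fun v => ¬ Big G v).filter fun x => T x = t).Nonempty := by
    rw [← card_pos]; omega
  obtain ⟨v, hv⟩ := hne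
  have hnot : ¬ ((univ.filter fun v => ¬ Big G v).filter fun x => T x = t) ⊆ C v := by
    intro hsub
    have h1 := card_le_card hsub
    have h2 : ¬ Big G v := by
      have := (mem_filter.1 hv).1
      simpa using this
    unfold Big at h2
    rw [hC] at h1
    simp only at h1
    omega
  rw [not_subset] at hnot
  obtain ⟨v', hv', hvv⟩ := hnot
  have hbv : ¬ Big G v := by
    have := (mem_filter.1 hv).1
    simpa using this
  have hbv' : ¬ Big G v' := by
    have := (mem_filter.1 hv').1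
    simpa using this
  have hTT : T v = T v' := (mem_filter.1 hv).2.trans (mem_filter.1 hv').2.symm
  have hc1 : (C v).card < 24 := by
    unfold Big at hbv; rw [hC]; simp only; omega
  have hc2 : (C v').card < 24 := by
    unfold Big at hbv'; rw [hC]; simp only; omega
  rw [hT] at hTT
  simp only [hc1, hc2, dif_pos, Code.mk.injEq, Fin.mk.injEq] at hTT
  obtain ⟨hk, hadj⟩ := hTT
  refine ⟨v, v', (C v).card, fun i => p v i, fun i => p v' i, ?_, hbv, hbv', ?_, ?_, ?_, ?_, ?_⟩
  · intro hr
    apply hvv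
    rw [hC]
    simpa using hr
  · intro i j hij
    exact Fin.ext (hp1 v i i.2 j j.2 hij)
  · intro i j hij
    exact Fin.ext (hp1 v' i (hk ▸ i.2) j (hk ▸ j.2) hij)
  · intro y
    have h1 := hp2 v y
    rw [hC] at h1
    simp only [mem_filter, mem_univ, true_and] at h1
    rw [h1]
    constructor
    · rintro ⟨i, hi, rfl⟩; exact ⟨⟨i, hi⟩, rfl⟩
    · rintro ⟨i, rfl⟩; exact ⟨i, i.2, rfl⟩
  · intro y
    have h1 := hp2 v' y
    have h2 : y ∈ C v' ↔ G.Reachable v' y := by rw [hC]; simp
    rw [← h2, h1]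
    constructor
    · rintro ⟨i, hi, rfl⟩; exact ⟨⟨i, hk ▸ hi⟩, rfl⟩
    · rintro ⟨i, rfl⟩; exact ⟨i, hk ▸ i.2, rfl⟩
  · intro i j
    have h1 := congrFun (congrFun hadj ⟨i, i.2.trans hc1⟩) ⟨j, j.2.trans hc1⟩
    simpa using h1

end MAIN

open MAIN

theorem stmt_MAIN (hDENSE : Stmt_DENSE) (hANY : Stmt_ANY) : Stmt_MAIN := by
  obtain ⟨N₀, hN₀⟩ := hDENSE 2
  set K : ℕ := Fintype.card Code * 23 with hK
  clear_value K
  refine ⟨max N₀ K, ?_⟩
  have main : ∀ n : ℕ, ∀ (V : Type) [Fintype V] (G : SimpleGraph V), Fintype.card V = n → Cub G →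
      max N₀ K ≤ (univ.filter fun v => Big G v).card → Good' G := by
    intro n
    induction n using Nat.strong_induction_on with
    | _ n ih =>
    intro V _ G hn hG hbig
    have hsplit : (univ.filter fun v => Big G v).card + (univ.filter fun v => ¬ Big G v).card =
        Fintype.card V := by
      rw [card_filter_add_card_filter_not, card_univ]
    by_cases hS : (univ.filter fun v => ¬ Big G v).card ≤ K
    · have h1 := (le_max_left _ _).trans hbig
      have h2 := (le_max_right _ _).trans hbig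
      exact hN₀ V G hG (by omega) (by omega)
    · push Not at hS
      rw [hK] at hS
      obtain ⟨v, v', k, p, p', hvv, hbv, hbv', hp, hp', hr, hr', hadj⟩ := two_iso G hS
      -- the rest
      let R : Type := {y : V // ¬ G.Reachable v y ∧ ¬ G.Reachable v' y}
      let ρ : R → V := Subtype.val
      let H : SimpleGraph (Fin k) := G.comap p
      let GR : SimpleGraph R := G.comap ρ
      have L1 : Loc H G p := by
        refine ⟨hp, fun x y => Iff.rfl, fun x y hxy => ?_⟩
        exact (hr y).1 (((hr (p x)).2 ⟨x, rfl⟩).trans hxy.reachable)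
      have L2 : Loc H G p' := by
        refine ⟨hp', fun x y => (hadj x y).symm, fun x y hxy => ?_⟩
        exact (hr' y).1 (((hr' (p' x)).2 ⟨x, rfl⟩).trans hxy.reachable)
      have L3 : Loc GR G ρ := by
        refine ⟨Subtype.val_injective, fun x y => Iff.rfl, fun x y hxy => ?_⟩
        refine ⟨⟨y, fun h => x.2.1 (h.trans hxy.symm.reachable),
          fun h => x.2.2 (h.trans hxy.symm.reachable)⟩, rfl⟩
      -- induction hypothesis
      have hcard : Fintype.card R < n := by
        rw [← hn]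
        apply Fintype.card_subtype_lt (x := v)
        intro h
        exact h.1 (SimpleGraph.Reachable.refl _)
      have hbR : max N₀ K ≤ (univ.filter fun r => Big GR r).card := by
        refine hbig.trans ?_
        rw [← card_image_of_injective _ L3.inj]
        apply card_le_card
        intro y hy
        have hy' : Big G y := by simpa using hy
        have e1 : ∀ w, ¬ Big G w → ¬ G.Reachable w y := by
          intro w hw hwy
          apply hw
          unfold Big at hy' ⊢
          refine hy'.trans (card_le_card ?_)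
          intro x hx
          simp only [mem_filter, mem_univ, true_and] at hx ⊢
          exact hwy.trans hx
        rw [mem_image]
        refine ⟨⟨y, e1 v hbv, e1 v' hbv'⟩, ?_, rfl⟩
        simp only [mem_filter, mem_univ, true_and]
        exact (L3.big ⟨y, e1 v hbv, e1 v' hbv'⟩).1 hy'
      obtain ⟨cR, hcR, hstR⟩ := ih _ hcard R GR rfl (L3.cub hG) hbR
      obtain ⟨c0, hc0⟩ := hANY (Fin k) H (L1.cub hG)
      -- the bijection
      let F : (Fin k ⊕ Fin k) ⊕ R → V := Sum.elim (Sum.elim p p') ρ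
      have hF : Function.Bijective F := by
        constructor
        · have hd : ∀ i j, p i ≠ p' j := by
            intro i j hij
            apply hvv
            have h1 := (hr (p i)).2 ⟨i, rfl⟩
            have h2 := (hr' (p' j)).2 ⟨j, rfl⟩
            rw [← hij] at h2
            exact h1.trans h2.symm
          have hd1 : ∀ i (r : R), p i ≠ ρ r := fun i r h =>
            r.2.1 ((hr _).2 ⟨i, h⟩)
          have hd2 : ∀ i (r : R), p' i ≠ ρ r := fun i r h =>
            r.2.2 ((hr' _).2 ⟨i, h⟩)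
          rintro ((i | i) | r) ((j | j) | s) h
          · exact congrArg _ (congrArg _ (hp h))
          · exact absurd h (hd i j)
          · exact absurd h (hd1 i s)
          · exact absurd h.symm (hd j i)
          · exact congrArg _ (congrArg _ (hp' h))
          · exact absurd h (hd2 i s)
          · exact absurd h.symm (hd1 j r)
          · exact absurd h.symm (hd2 j r)
          · exact congrArg _ (Subtype.ext h)
        · intro y
          by_cases h1 : G.Reachable v y
          · obtain ⟨i, hi⟩ := (hr y).1 h1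
            exact ⟨Sum.inl (Sum.inl i), hi⟩
          · by_cases h2 : G.Reachable v' y
            · obtain ⟨i, hi⟩ := (hr' y).1 h2
              exact ⟨Sum.inl (Sum.inr i), hi⟩
            · exact ⟨Sum.inr ⟨y, h1, h2⟩, rfl⟩
      let e := Equiv.ofBijective F hF
      let c : V → Bool := fun y => Sum.elim (Sum.elim c0 (fun x => !c0 x)) cR (e.symm y)
      have hce : ∀ z, c (F z) = Sum.elim (Sum.elim c0 (fun x => !c0 x)) cR z := by
        intro z
        show Sum.elim (Sum.elim c0 (fun x => !c0 x)) cR (e.symm (e z)) = _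
        rw [e.symm_apply_apply]
      have hc1 : ∀ x, c (p x) = xor false (c0 x) := fun x => by
        have := hce (Sum.inl (Sum.inl x))
        simpa [F] using this
      have hc2 : ∀ x, c (p' x) = xor true (c0 x) := fun x => by
        have := hce (Sum.inl (Sum.inr x))
        simpa [F] using this
      have hc3 : ∀ x, c (ρ x) = xor false (cR x) := fun x => by
        have := hce (Sum.inr x)
        simpa [F] using this
      refine ⟨c, ⟨?_, ?_⟩, ?_⟩
      · intro y
        obtain ⟨z, rfl⟩ := hF.2 y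
        rcases z with (x | x) | x
        · show md G c (p x) ≤ 2
          rw [L1.md hc1]; exact hc0.deg x
        · show md G c (p' x) ≤ 2
          rw [L2.md hc2]; exact hc0.deg x
        · show md G c (ρ x) ≤ 2
          rw [L3.md hc3]; exact hcR.deg x
      · intro y
        obtain ⟨z, rfl⟩ := hF.2 y
        rcases z with (x | x) | x
        · exact L1.nb4 hc1 hc0 x
        · exact L2.nb4 hc2 hc0 x
        · exact L3.nb4 hc3 hcR x
      · have hsum : ∀ f : V → ℤ, ∑ y, f y = ∑ x, f (p x) + ∑ x, f (p' x) + ∑ x, f (ρ x) := by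
          intro f
          rw [← Equiv.sum_comp e f, Fintype.sum_sum_type, Fintype.sum_sum_type]
          rfl
        have s1 := L1.stsum hc1
        have s2 := L2.stsum hc2
        have s3 := L3.stsum hc3
        rw [hstR] at s3
        simp only [Prod.mk.injEq, fl] at s1 s2 s3
        obtain ⟨a1, a2, a3⟩ := s1
        obtain ⟨b1, b2, b3⟩ := s2
        obtain ⟨d1, d2, d3⟩ := s3
        unfold st
        rw [hsum (fun y => sg (c y)), hsum (fun y => locP G c y), hsum (fun y => locQ G c y),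
          a1, a2, a3, b1, b2, b3, d1, d2, d3]
        simp
  intro V _ G hG hN
  exact main _ V G rfl hG hN

end Pool.Agent.Work.MP_1e13ac_Bis
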