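import Pool.Agent.Work.MP_1e13ac_Bis.Interface

/-!
# ANY: every cubic graph has a valid colouring (from PF, FRAME, VALID)
-/

set_option autoImplicit false

namespace Pool.Agent.Work.MP_1e13ac_Bis

open Classical Finset

/-- A proper 2-colouring of a forest. -/
lemma any_two_col {V : Type} (F : SimpleGraph V) (hF : F.IsAcyclic) :
    ∃ ε : V → Bool, ∀ x y, F.Adj x y → ε x ≠ ε y := by
  refine ⟨fun v => decide (hF.coloringTwo v = 0), ?_⟩
  intro x y hxy h
  have h1 := hF.coloringTwo.valid hxy
  have h2 : (hF.coloringTwo x = 0) ↔ (hF.coloringTwo y = 0) := by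
    have := h
    simp only [decide_eq_decide] at this
    exact this
  generalize hF.coloringTwo x = a at h1 h2
  generalize hF.coloringTwo y = b at h1 h2
  fin_cases a <;> fin_cases b <;> simp_all

/-- The minority colour has monochromatic degree at most one. -/
lemma any_mino {V : Type} [Fintype V] (G : SimpleGraph V) (hG : Cub G) (ε c : V → Bool) (z : V)
    (hz : c z = mino G ε z) (hn : ∀ y, G.Adj z y → c y = ε y) : md G c z ≤ 1 := by
  have h3 : (nbs G z).card = 3 := hG z
  have hmd : md G c z = ((nbs G z).filter fun y => ε y = c z).card := by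
    unfold md nbs
    congr 1
    ext y
    rw [Finset.mem_filter, Finset.mem_filter, Finset.mem_filter]
    unfold MA
    constructor
    · rintro ⟨_, h1, h2⟩
      exact ⟨⟨Finset.mem_univ _, h1⟩, by rw [← hn y h1, h2]⟩
    · rintro ⟨⟨_, h1⟩, h2⟩
      exact ⟨Finset.mem_univ _, h1, by rw [hn y h1, h2]⟩
  have hsum : ((nbs G z).filter fun y => ε y = true).card +
      ((nbs G z).filter fun y => ε y = false).card = 3 := by
    rw [← h3, ← Finset.card_filter_add_card_filter_not (s := nbs G z) (fun y => ε y = true)]
    congr 2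
    ext y
    simp
  rw [hmd, hz]
  unfold mino
  split_ifs with h
  · have : ((nbs G z).filter fun y => ε y = false).card ≤ 1 := by omega
    exact this
  · have : ((nbs G z).filter fun y => ε y = true).card ≤ 1 := by omega
    exact this

theorem stmt_ANY (hPF : Stmt_PF) (hFR : Stmt_FRAME) (hV : Stmt_VALID) : Stmt_ANY := by
  intro V _ G hG
  obtain ⟨F, hF⟩ := hPF V G hG ∅ (fun _ => true)
  have hcut : Cut G ∅ F F (Fintype.card V) :=
    { le := le_refl F
      deg0 := fun u v h1 h2 => absurd h1 h2
      one := fun u v h1 h2 => absurd h1 h2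
      noA := fun u v h1 h2 => absurd h1 h2
      third := fun u v h1 h2 => absurd h1 h2
      size := fun x => by
        unfold cs
        exact Finset.card_le_univ _ }
  have hfr : Frame G ∅ F := hFR V G hG ∅ (fun _ => true) F F (Fintype.card V) hF hcut
  obtain ⟨ε, hε⟩ := any_two_col F hF.acyc
  let c : V → Bool := fun v => if fd F v = 0 then mino G ε v else ε v
  have hpos : ∀ x y, F.Adj x y → fd F x ≠ 0 := by
    intro x y hxy h0
    unfold fd at h0
    rw [Finset.card_eq_zero] at h0
    have : y ∈ (univ.filter fun y => F.Adj x y) := by simp [hxy]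
    rw [h0] at this
    simp at this
  have hc : ∀ x, fd F x ≠ 0 → c x = ε x := fun x hx => by simp only [c]; rw [if_neg hx]
  refine ⟨c, hV V G hG ∅ F c hfr ?_ ?_⟩
  · constructor <;> simp
  · refine ⟨?_, ?_, by simp, by simp⟩
    · intro x y hxy
      rw [hc x (hpos x y hxy), hc y (hpos y x hxy.symm)]
      exact hε x y hxy
    · intro z _ hz
      refine any_mino G hG ε c z (by simp only [c]; rw [if_pos hz]) ?_
      intro y hy
      apply hc
      intro h0
      exact hfr.triv z y (by simp) (by simp) hz (by omega) hy

end Pool.Agent.Work.MP_1e13ac_Bis
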