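import Pool.Agent.Work.MP_1e13ac_Bis.Interface

/-!
# MP_1e13ac_co: block ASM, the final assembly
-/

set_option autoImplicit false

namespace Pool.Agent.Work.MP_1e13ac_Bis

namespace ASM

open Classical Finset

noncomputable section

variable {V : Type} [Fintype V]

/-! ## small facts -/

lemma Bl_succ (G : SimpleGraph V) (r : ℕ) (v : V) : Bl G r v ⊆ Bl G (r + 1) v := by
  intro x hx
  show x ∈ univ.filter fun x => ∃ y ∈ Bl G r v, x = y ∨ G.Adj y x
  simp only [mem_filter, mem_univ, true_and]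
  exact ⟨x, hx, Or.inl rfl⟩

lemma Bl_adj (G : SimpleGraph V) (r : ℕ) (v x y : V) (hx : x ∈ Bl G r v) (h : G.Adj x y) :
    y ∈ Bl G (r + 1) v := by
  show y ∈ univ.filter fun x => ∃ y ∈ Bl G r v, x = y ∨ G.Adj y x
  simp only [mem_filter, mem_univ, true_and]
  exact ⟨x, hx, Or.inr h⟩

lemma Bl_mono (G : SimpleGraph V) (r s : ℕ) (v : V) : Bl G r v ⊆ Bl G (r + s) v := by
  induction s with
  | zero => exact subset_rfl
  | succ s ih => exact ih.trans (Bl_succ G (r + s) v)

lemma sg_xor (τ b : Bool) : sg (xor τ b) = (-sg τ) * sg b := by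
  cases τ <;> cases b <;> simp [sg]

lemma sg_sq (τ : Bool) : -sg τ = 1 ∨ -sg τ = -1 := by
  cases τ <;> simp [sg]

section places

variable {G : SimpleGraph V} {X : Finset V} {A U : V → Finset V} {c1 c2 : V → V → Bool}

lemma uniq (hs : Sep G X A) {x y v : V} (hx : x ∈ X) (hy : y ∈ X) (hvx : v ∈ A x)
    (hvy : v ∈ A y) : x = y := by
  by_contra hne
  have h1 : v ∈ Bl G 100 x := Bl_mono G 96 4 x (hs.ball x hx hvx)
  have h2 : v ∈ Bl G 100 y := Bl_mono G 96 4 y (hs.ball y hy hvy)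
  exact (Finset.disjoint_left.mp (hs.disj x hx y hy hne)) h1 h2

/-- the reference colouring on the places -/
def bb (X : Finset V) (A : V → Finset V) (c1 : V → V → Bool) (v : V) : Bool :=
  if h : ∃ x ∈ X, v ∈ A x then c1 h.choose v else false

lemma bb_eq (hs : Sep G X A) {x v : V} (hx : x ∈ X) (hv : v ∈ A x) : bb X A c1 v = c1 x v := by
  have h : ∃ x ∈ X, v ∈ A x := ⟨x, hx, hv⟩
  have e : h.choose = x := uniq hs h.choose_spec.1 hx h.choose_spec.2 hv
  unfold bb
  rw [dif_pos h, e]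

/-- the colouring in which the places in `T` are switched -/
def cT (U : V → Finset V) (c2 : V → V → Bool) (g : V → Bool) (σ : Bool × V → Bool)
    (T : Finset V) (v : V) : Bool :=
  if h : ∃ x ∈ T, v ∈ U x then xor (σ (true, h.choose)) (c2 h.choose v) else g v

lemma cT_out {g : V → Bool} {σ : Bool × V → Bool} {T : Finset V} {v : V}
    (h : ∀ x ∈ T, v ∉ U x) : cT U c2 g σ T v = g v := by
  unfold cT
  rw [dif_neg]
  rintro ⟨x, hx, hv⟩
  exact h x hx hv

lemma cT_in (hs : Sep G X A) (hU : ∀ x ∈ X, U x ⊆ A x) {g : V → Bool} {σ : Bool × V → Bool}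
    {T : Finset V} (hT : T ⊆ X) {x v : V} (hx : x ∈ T) (hv : v ∈ U x) :
    cT U c2 g σ T v = xor (σ (true, x)) (c2 x v) := by
  have h : ∃ x ∈ T, v ∈ U x := ⟨x, hx, hv⟩
  have e : h.choose = x :=
    uniq hs (hT h.choose_spec.1) (hT hx) (hU _ (hT h.choose_spec.1) h.choose_spec.2)
      (hU _ (hT hx) hv)
  unfold cT
  rw [dif_pos h, e]

lemma cT_T (hs : Sep G X A) (hg : ∀ x ∈ X, Gdt Clo G (A x) (U x) (c1 x) (c2 x))
    {g : V → Bool} {σ : Bool × V → Bool}
    (hcol : ∀ x ∈ X, ∀ v ∈ A x, g v = xor (σ (true, x)) (c1 x v))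
    {T : Finset V} (hT : T ⊆ X) {x v : V} (hx : x ∈ T) (hv : v ∈ A x) :
    cT U c2 g σ T v = xor (σ (true, x)) (c2 x v) := by
  by_cases hvU : v ∈ U x
  · exact cT_in hs (fun x hx => (hg x hx).sub) hT hx hvU
  · rw [cT_out, hcol x (hT hx) v hv, (hg x (hT hx)).agree v hvU]
    intro y hy hvy
    have : x = y := uniq hs (hT hx) (hT hy) hv ((hg y (hT hy)).sub hvy)
    exact hvU (this ▸ hvy)

lemma cT_notT (hs : Sep G X A) (hg : ∀ x ∈ X, Gdt Clo G (A x) (U x) (c1 x) (c2 x))
    {g : V → Bool} {σ : Bool × V → Bool}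
    (hcol : ∀ x ∈ X, ∀ v ∈ A x, g v = xor (σ (true, x)) (c1 x v))
    {T : Finset V} (hT : T ⊆ X) {x v : V} (hxX : x ∈ X) (hx : x ∉ T) (hv : v ∈ A x) :
    cT U c2 g σ T v = xor (σ (true, x)) (c1 x v) := by
  rw [cT_out, hcol x hxX v hv]
  intro y hy hvy
  have : x = y := uniq hs hxX (hT hy) hv ((hg y (hT hy)).sub hvy)
  exact hx (this ▸ hy)

/-! ## statistics of a flipped colouring on a set -/

lemma MA_iff {τ : Bool} {c c' : V → Bool} {S : Finset V}
    (h : ∀ v ∈ S, c v = xor τ (c' v)) {x y : V} (hx : x ∈ S) (hy : y ∈ S) :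
    MA G c x y ↔ MA G c' x y := by
  unfold MA
  rw [h x hx, h y hy]
  constructor
  · rintro ⟨h1, h2⟩
    exact ⟨h1, by simpa using h2⟩
  · rintro ⟨h1, h2⟩
    exact ⟨h1, by simpa using h2⟩

lemma md_eq {τ : Bool} {c c' : V → Bool} {S W : Finset V} (hW : W ⊆ S)
    (hnb : ∀ u ∈ W, ∀ w, G.Adj u w → w ∈ S)
    (h : ∀ v ∈ S, c v = xor τ (c' v)) {x : V} (hx : x ∈ W) : md G c x = md G c' x := by
  unfold md
  congr 1
  ext y
  simp only [mem_filter, mem_univ, true_and]
  constructor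
  · intro hm
    exact (MA_iff h (hW hx) (hnb x hx y hm.1)).mp hm
  · intro hm
    exact (MA_iff h (hW hx) (hnb x hx y hm.1)).mpr hm

lemma st_flip {τ : Bool} {c c' : V → Bool} {S W : Finset V} (hW : W ⊆ S)
    (hnb : ∀ u ∈ W, ∀ w, G.Adj u w → w ∈ S)
    (hbi : ∀ u ∈ W, ∀ b ∈ S, b ∉ W → G.Adj u b → c' u ≠ c' b)
    (h : ∀ v ∈ S, c v = xor τ (c' v)) : st G c W = (-sg τ) • st G c' W := by
  have e1 : ∑ x ∈ W, sg (c x) = (-sg τ) * ∑ x ∈ W, sg (c' x) := by
    rw [Finset.mul_sum]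
    refine Finset.sum_congr rfl fun x hx => ?_
    rw [h x (hW hx), sg_xor]
  have e2 : ∑ x ∈ W, locP G c x = (-sg τ) * ∑ x ∈ W, locP G c' x := by
    rw [Finset.mul_sum]
    refine Finset.sum_congr rfl fun x hx => ?_
    unfold locP
    rw [md_eq hW hnb h hx]
    split_ifs
    · rw [h x (hW hx), sg_xor]
    · simp
  have e3 : ∑ x ∈ W, locQ G c x = (-sg τ) * ∑ x ∈ W, locQ G c' x := by
    rw [Finset.mul_sum]
    refine Finset.sum_congr rfl fun x hx => ?_
    unfold locQ
    have hiff : (md G c x = 2 ∧ ∃ y, MA G c x y ∧ md G c y = 2) ↔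
        (md G c' x = 2 ∧ ∃ y, MA G c' x y ∧ md G c' y = 2) := by
      rw [md_eq hW hnb h hx]
      refine and_congr_right fun _ => exists_congr fun y => ?_
      constructor
      · rintro ⟨h1, h2⟩
        have hyS := hnb x hx y h1.1
        have h1' := (MA_iff h (hW hx) hyS).mp h1
        have hyW : y ∈ W := by
          by_contra hyW
          exact hbi x hx y hyS hyW h1.1 h1'.2
        exact ⟨h1', by rw [← md_eq hW hnb h hyW]; exact h2⟩
      · rintro ⟨h1, h2⟩
        have hyS := hnb x hx y h1.1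
        have h1' := (MA_iff h (hW hx) hyS).mpr h1
        have hyW : y ∈ W := by
          by_contra hyW
          exact hbi x hx y hyS hyW h1.1 h1.2
        exact ⟨h1', by rw [md_eq hW hnb h hyW]; exact h2⟩
    by_cases hc : md G c' x = 2 ∧ ∃ y, MA G c' x y ∧ md G c' y = 2
    · rw [if_pos hc, if_pos (hiff.mpr hc), h x (hW hx), sg_xor]
    · rw [if_neg hc, if_neg (fun hh => hc (hiff.mp hh)), mul_zero]
  unfold st
  rw [e1, e2, e3]
  rfl

lemma st_biUnion (c : V → Bool) (T : Finset V) (hd : ∀ x ∈ T, ∀ y ∈ T, x ≠ y →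
    Disjoint (U x) (U y)) : st G c (T.biUnion U) = ∑ x ∈ T, st G c (U x) := by
  have hp : Set.PairwiseDisjoint (↑T : Set V) U := by
    intro x hx y hy hne
    exact hd x hx y hy hne
  unfold st
  rw [Finset.sum_biUnion hp, Finset.sum_biUnion hp, Finset.sum_biUnion hp]
  refine Prod.ext ?_ (Prod.ext ?_ ?_)
  · simp [Prod.fst_sum]
  · simp [Prod.fst_sum, Prod.snd_sum]
  · simp [Prod.fst_sum, Prod.snd_sum]

lemma st_cT (hSW : Stmt_SWITCH) (hs : Sep G X A)
    (hg : ∀ x ∈ X, Gdt Clo G (A x) (U x) (c1 x) (c2 x))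
    {g : V → Bool} {σ : Bool × V → Bool}
    (hcol : ∀ x ∈ X, ∀ v ∈ A x, g v = xor (σ (true, x)) (c1 x v))
    {T : Finset V} (hT : T ⊆ X) :
    st G (cT U c2 g σ T) univ =
      st G g univ + ∑ x ∈ T, (-sg (σ (true, x))) • diff G (U x) (c1 x) (c2 x) := by
  have hd : ∀ x ∈ T, ∀ y ∈ T, x ≠ y → Disjoint (U x) (U y) := by
    intro x hx y hy hne
    rw [Finset.disjoint_left]
    intro v hvx hvy
    exact hne (uniq hs (hT hx) (hT hy) ((hg x (hT hx)).sub hvx) ((hg y (hT hy)).sub hvy))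
  have h1 := hSW V G (T.biUnion U) g (cT U c2 g σ T) (by
    intro v hv
    rw [cT_out]
    intro x hx hvx
    exact hv (Finset.mem_biUnion.mpr ⟨x, hx, hvx⟩)) (by
    intro u hu w hw huw
    obtain ⟨x, hx, hux⟩ := Finset.mem_biUnion.mp hu
    have hG := hg x (hT hx)
    have huA := hG.sub hux
    have hwA := hG.nb u hux w huw
    have hwU : w ∉ U x := fun h => hw (Finset.mem_biUnion.mpr ⟨x, hx, h⟩)
    constructor
    · rw [hcol x (hT hx) u huA, hcol x (hT hx) w hwA]
      intro h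
      exact hG.bi1 u hux w hwA hwU huw (by simpa using h)
    · rw [cT_T hs hg hcol hT hx huA, cT_T hs hg hcol hT hx hwA]
      intro h
      exact hG.bi2 u hux w hwA hwU huw (by simpa using h))
  rw [st_biUnion _ T hd, st_biUnion _ T hd, ← Finset.sum_sub_distrib] at h1
  rw [sub_eq_iff_eq_add'] at h1
  rw [h1]
  congr 1
  refine Finset.sum_congr rfl fun x hx => ?_
  have hG := hg x (hT hx)
  rw [st_flip hG.sub hG.nb hG.bi2 (fun v hv => cT_T hs hg hcol hT hx hv),
    st_flip hG.sub hG.nb hG.bi1 (fun v hv => hcol x (hT hx) v hv)]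
  unfold diff
  rw [smul_sub]

lemma clo_cT (hUN : Stmt_UNION) (hs : Sep G X A)
    (hg : ∀ x ∈ X, Gdt Clo G (A x) (U x) (c1 x) (c2 x))
    {g : V → Bool} {σ : Bool × V → Bool}
    (hcol : ∀ x ∈ X, ∀ v ∈ A x, g v = xor (σ (true, x)) (c1 x v))
    {T : Finset V} (hT : T ⊆ X) : Clo G (AU X A) (cT U c2 g σ T) := by
  refine hUN V G X A hs _ fun x hx => ?_
  by_cases hxT : x ∈ T
  · exact ⟨σ (true, x), c2 x, (hg x hx).q2, fun v hv => cT_T hs hg hcol hT hxT hv⟩
  · exact ⟨σ (true, x), c1 x, (hg x hx).q1, fun v hv => cT_notT hs hg hcol hT hx hxT hv⟩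

end places

/-! ## the conditions for the switched colourings -/

section cond

variable {G : SimpleGraph V} {X : Finset V} {A U : V → Finset V} {c1 c2 : V → V → Bool}

/-- the trivial vertices -/
def ZZ (X : Finset V) (A : V → Finset V) (F : SimpleGraph V) : Finset V :=
  univ.filter fun z => z ∉ AU X A ∧ fd F z = 0

lemma mino_card {c : V → Bool} (hcub : Cub G) (z : V) (h : c z = mino G c z) : md G c z ≤ 1 := by
  have hcard : ((nbs G z).filter fun y => c y = true).card +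
      ((nbs G z).filter fun y => ¬ c y = true).card = 3 := by
    rw [Finset.card_filter_add_card_filter_not, hcub z]
  have hmd : ∀ b : Bool, c z = b → md G c z = ((nbs G z).filter fun y => c y = b).card := by
    intro b hb
    unfold md nbs
    rw [Finset.filter_filter]
    congr 1
    ext y
    simp only [mem_filter, mem_univ, true_and, MA]
    rw [hb]
    exact and_congr_right fun _ => eq_comm
  unfold mino at h
  split_ifs at h with h2
  · rw [hmd false h]
    have : ((nbs G z).filter fun y => c y = false).card =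
        ((nbs G z).filter fun y => ¬ c y = true).card := by
      congr 1
      ext y
      simp
    omega
  · rw [hmd true h]
    omega

lemma mino_congr {c c' : V → Bool} (z : V) (h : ∀ y, G.Adj z y → c y = c' y) :
    mino G c z = mino G c' z := by
  unfold mino
  have : (nbs G z).filter (fun y => c y = true) = (nbs G z).filter (fun y => c' y = true) := by
    ext y
    simp only [mem_filter, nbs, mem_univ, true_and]
    refine and_congr_right fun hy => ?_
    rw [h y hy]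
  rw [this]

lemma cond_cT (hcub : Cub G) (hs : Sep G X A)
    (hg : ∀ x ∈ X, Gdt Clo G (A x) (U x) (c1 x) (c2 x))
    {F : SimpleGraph V} {b : V → Bool} {j : V → Bool × V} {ε : V → Bool} {s : ℕ}
    (hF : Frame G (AU X A) F) (hA : Asg G X A b F j ε s) (σ : Bool × V → Bool)
    {T : Finset V} (hT : T ⊆ X) :
    Cond G (AU X A) F (cT U c2 (col G (ZZ X A F) j ε σ) σ T) := by
  -- outside the places
  have hout : ∀ v, v ∉ AU X A → cT U c2 (col G (ZZ X A F) j ε σ) σ T v =
      col G (ZZ X A F) j ε σ v := by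
    intro v hv
    apply cT_out
    intro x hx hvx
    exact hv (Finset.mem_biUnion.mpr ⟨x, hT hx, (hg x (hT hx)).sub hvx⟩)
  -- outside the places and not trivial
  have hout1 : ∀ v, v ∉ AU X A → fd F v ≠ 0 → cT U c2 (col G (ZZ X A F) j ε σ) σ T v =
      xor (σ (j v)) (ε v) := by
    intro v hv hf
    rw [hout v hv]
    unfold col
    rw [if_neg]
    intro h
    unfold ZZ at h
    simp only [mem_filter, mem_univ, true_and] at h
    exact hf h.2
  -- in the places with a neighbour outside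
  have hin : ∀ a ∈ AU X A, ∀ w, w ∉ AU X A → G.Adj a w →
      cT U c2 (col G (ZZ X A F) j ε σ) σ T a = xor (σ (j a)) (ε a) := by
    intro a ha w hw haw
    rw [cT_out]
    · unfold col
      rw [if_neg]
      intro h
      unfold ZZ at h
      simp only [mem_filter, mem_univ, true_and] at h
      exact h.1 ha
    · intro x hx hax
      exact hw (Finset.mem_biUnion.mpr ⟨x, hT hx, (hg x (hT hx)).nb a hax w haw⟩)
  have key : ∀ (u v : Bool × V) (p q : Bool), u = v → p ≠ q →
      xor (σ u) p ≠ xor (σ v) q := by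
    intro u v p q huv hpq
    subst huv
    simpa using hpq
  have fd_pos : ∀ x y, F.Adj x y → fd F x ≠ 0 := by
    intro x y hxy h0
    unfold fd at h0
    rw [Finset.card_eq_zero] at h0
    have : y ∈ univ.filter fun y => F.Adj x y := by simp [hxy]
    rw [h0] at this
    simp at this
  constructor
  · -- alt
    intro x y hxy
    rw [hout1 x (hF.out x y hxy) (fd_pos x y hxy),
      hout1 y (hF.out y x hxy.symm) (fd_pos y x hxy.symm)]
    exact key _ _ _ _ (hA.alt x y hxy).1 (hA.alt x y hxy).2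
  · -- triv
    intro z hz h0
    apply mino_card hcub
    have hzZ : z ∈ ZZ X A F := by
      unfold ZZ
      simp only [mem_filter, mem_univ, true_and]
      exact ⟨hz, h0⟩
    rw [hout z hz]
    conv_lhs => unfold col
    rw [if_pos hzZ]
    apply mino_congr
    intro y hy
    by_cases hyA : y ∈ AU X A
    · exact (hin y hyA z hz hy.symm).symm
    · have hf : fd F y ≠ 0 := by
        intro h1
        exact hF.triv z y hz hyA h0 (by omega) hy
      exact (hout1 y hyA hf).symm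
  · -- b1
    intro a ha w w' hne hw hw' haw haw' hf hf' hu hu' hc hc'
    rw [hout1 w hw (by omega), hin a ha w hw haw] at hc
    rw [hout1 w' hw' (by omega), hin a ha w hw haw] at hc'
    rcases hA.b1 a ha w w' hne hw hw' haw haw' hf hf' hu hu' with h | h
    · exact key _ _ _ _ h.1 h.2 hc
    · exact key _ _ _ _ h.1 h.2 hc'
  · -- b2
    intro x y hx hy hxy hnF hfx hfy hc a ha hxa hca
    have hx0 : fd F x ≠ 0 := fun h0 => hF.triv x y hx hy h0 hfy hxy
    have hy0 : fd F y ≠ 0 := fun h0 => hF.triv y x hy hx h0 hfx hxy.symm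
    rw [hout1 x hx hx0, hout1 y hy hy0] at hc
    rw [hout1 x hx hx0, hin a ha x hx hxa.symm] at hca
    rcases hA.b2 x y hx hy hxy hnF hfx hfy a ha hxa with h | h
    · exact key _ _ _ _ h.1 h.2 hc
    · exact key _ _ _ _ h.1 h.2 hca.symm

lemma col_places {F : SimpleGraph V} {j : V → Bool × V} {ε : V → Bool} {s : ℕ}
    (hs : Sep G X A) (hA : Asg G X A (bb X A c1) F j ε s) (σ : Bool × V → Bool) :
    ∀ x ∈ X, ∀ v ∈ A x, col G (ZZ X A F) j ε σ v = xor (σ (true, x)) (c1 x v) := by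
  intro x hx v hv
  have hvA : v ∈ AU X A := Finset.mem_biUnion.mpr ⟨x, hx, hv⟩
  unfold col
  rw [if_neg]
  · rw [(hA.pl x hx v hv).1, (hA.pl x hx v hv).2, bb_eq hs hx hv]
  · intro h
    unfold ZZ at h
    simp only [mem_filter, mem_univ, true_and] at h
    exact h.1 hvA

end cond

/-! ## selection -/

lemma select (X : Finset V) (D : Finset (ℤ × ℤ × ℤ)) (φ : V → ℤ × ℤ × ℤ) (e : V → ℤ)
    (m : ℤ × ℤ × ℤ → ℤ)
    (h1 : ∀ δ ∈ D, (m δ).natAbs ≤ (X.filter fun x => φ x = δ ∧ e x = 1).card)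
    (h2 : ∀ δ ∈ D, (m δ).natAbs ≤ (X.filter fun x => φ x = δ ∧ e x = -1).card) :
    ∃ T ⊆ X, ∑ x ∈ T, e x • φ x = ∑ δ ∈ D, m δ • δ := by
  have hex : ∀ δ ∈ D, ∃ T ⊆ X, (∀ x ∈ T, φ x = δ) ∧ ∑ x ∈ T, e x • φ x = m δ • δ := by
    intro δ hδ
    rcases le_total 0 (m δ) with hm | hm
    · obtain ⟨T, hT, hc⟩ := Finset.exists_subset_card_eq (h1 δ hδ)
      refine ⟨T, hT.trans (Finset.filter_subset _ _), ?_, ?_⟩
      · intro x hx
        exact ((Finset.mem_filter.mp (hT hx)).2).1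
      · rw [Finset.sum_congr rfl (g := fun _ => δ)]
        · rw [Finset.sum_const, hc, ← natCast_zsmul]
          congr 1
          omega
        · intro x hx
          have := (Finset.mem_filter.mp (hT hx)).2
          rw [this.1, this.2, one_smul]
    · obtain ⟨T, hT, hc⟩ := Finset.exists_subset_card_eq (h2 δ hδ)
      refine ⟨T, hT.trans (Finset.filter_subset _ _), ?_, ?_⟩
      · intro x hx
        exact ((Finset.mem_filter.mp (hT hx)).2).1
      · rw [Finset.sum_congr rfl (g := fun _ => -δ)]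
        · rw [Finset.sum_const, hc, ← natCast_zsmul, smul_neg, ← neg_smul]
          congr 1
          omega
        · intro x hx
          have := (Finset.mem_filter.mp (hT hx)).2
          rw [this.1, this.2, neg_smul, one_smul]
  choose! T hTX hTφ hTs using hex
  refine ⟨D.biUnion T, ?_, ?_⟩
  · intro x hx
    obtain ⟨δ, hδ, hx⟩ := Finset.mem_biUnion.mp hx
    exact hTX δ hδ hx
  · rw [Finset.sum_biUnion]
    · exact Finset.sum_congr rfl hTs
    · intro δ hδ δ' hδ' hne
      rw [Function.onFun, Finset.disjoint_left]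
      intro x hx hx'
      exact hne ((hTφ δ hδ x hx).symm.trans (hTφ δ' hδ' x hx'))

lemma half (S : Finset V) (τ : V → Bool) (t : ℤ) (h : |∑ x ∈ S, sg (τ x)| ≤ t) (b : Bool) :
    (S.card : ℤ) ≤ 2 * ((S.filter fun x => τ x = b).card : ℤ) + t := by
  have e1 : ∑ x ∈ S, sg (τ x) = ((S.filter fun x => τ x = true).card : ℤ) -
      ((S.filter fun x => τ x = false).card : ℤ) := by
    rw [← Finset.sum_filter_add_sum_filter_not S (fun x => τ x = true)]
    have a1 : ∑ x ∈ S.filter (fun x => τ x = true), sg (τ x) =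
        ((S.filter fun x => τ x = true).card : ℤ) := by
      rw [Finset.sum_congr rfl (g := fun _ => (1 : ℤ))]
      · simp
      · intro x hx
        rw [(Finset.mem_filter.mp hx).2]
        rfl
    have a2 : ∑ x ∈ S.filter (fun x => ¬ τ x = true), sg (τ x) =
        -((S.filter fun x => τ x = false).card : ℤ) := by
      have : S.filter (fun x => ¬ τ x = true) = S.filter (fun x => τ x = false) := by
        ext x
        simp
      rw [this, Finset.sum_congr rfl (g := fun _ => (-1 : ℤ))]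
      · simp
      · intro x hx
        rw [(Finset.mem_filter.mp hx).2]
        rfl
    rw [a1, a2]
    ring
  have e2 : (S.card : ℤ) = ((S.filter fun x => τ x = true).card : ℤ) +
      ((S.filter fun x => τ x = false).card : ℤ) := by
    have := Finset.card_filter_add_card_filter_not (s := S) (fun x => τ x = true)
    have h3 : S.filter (fun x => ¬ τ x = true) = S.filter (fun x => τ x = false) := by
      ext x
      simp
    rw [h3] at this
    omega
  rw [e1, abs_le] at h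
  cases b <;> omega

/-! ## arithmetic -/

lemma arith (K₀ C M n s t : ℕ) (hs : s = Nat.sqrt (K₀ * n) + 1) (ht : t = Nat.sqrt (C * s * n) + 1)
    (hn : 32 * M ^ 4 * C ^ 2 * (K₀ + 1) + 2 * M + 1 ≤ n) : M * t ≤ n := by
  have hs1 : (s - 1) ^ 2 ≤ K₀ * n := by
    rw [hs, Nat.add_sub_cancel]
    exact Nat.sqrt_le' _
  have ht1 : (t - 1) ^ 2 ≤ C * s * n := by
    rw [ht, Nat.add_sub_cancel]
    exact Nat.sqrt_le' _
  have hs0 : 1 ≤ s := by omega
  have ht0 : 1 ≤ t := by omega
  obtain ⟨s', rfl⟩ : ∃ s', s = s' + 1 := ⟨s - 1, by omega⟩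
  obtain ⟨t', rfl⟩ : ∃ t', t = t' + 1 := ⟨t - 1, by omega⟩
  rw [Nat.add_sub_cancel] at hs1 ht1
  clear hs ht
  have hn1 : 1 ≤ n := le_trans (Nat.le_add_left 1 _) hn
  have hs2 : (s' + 1) ^ 2 ≤ 2 * (K₀ + 1) * n := by
    have h1 : (s' + 1) ^ 2 ≤ 2 * (s' ^ 2) + 2 := by
      have := sq_nonneg ((s' : ℤ) - 1)
      zify
      nlinarith
    calc (s' + 1) ^ 2 ≤ 2 * (s' ^ 2) + 2 := h1
      _ ≤ 2 * (K₀ * n) + 2 * n := by omega
      _ = 2 * (K₀ + 1) * n := by ring
  have hA : 4 * M ^ 2 * C * (s' + 1) ≤ n := by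
    by_contra hlt
    push Not at hlt
    have h1 : n ^ 2 < (4 * M ^ 2 * C * (s' + 1)) ^ 2 := Nat.pow_lt_pow_left hlt (by norm_num)
    have h2 : (4 * M ^ 2 * C * (s' + 1)) ^ 2 = 16 * M ^ 4 * C ^ 2 * (s' + 1) ^ 2 := by ring
    rw [h2] at h1
    have h3 : 16 * M ^ 4 * C ^ 2 * (s' + 1) ^ 2 ≤ 16 * M ^ 4 * C ^ 2 * (2 * (K₀ + 1) * n) :=
      Nat.mul_le_mul_left _ hs2
    have h4 : 16 * M ^ 4 * C ^ 2 * (2 * (K₀ + 1) * n) = (32 * M ^ 4 * C ^ 2 * (K₀ + 1)) * n := by
      ring
    have h5 : (32 * M ^ 4 * C ^ 2 * (K₀ + 1)) * n ≤ n * n :=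
      Nat.mul_le_mul_right _ (by omega)
    have : n ^ 2 = n * n := by ring
    omega
  have hB : (M * (t' + 1)) ^ 2 ≤ n ^ 2 := by
    have h1 : (M * (t' + 1)) ^ 2 ≤ 2 * M ^ 2 * (C * (s' + 1) * n) + 2 * M ^ 2 := by
      have : (t' + 1) ^ 2 ≤ 2 * (t' ^ 2) + 2 := by
        have := sq_nonneg ((t' : ℤ) - 1)
        zify
        nlinarith
      calc (M * (t' + 1)) ^ 2 = M ^ 2 * (t' + 1) ^ 2 := by ring
        _ ≤ M ^ 2 * (2 * (t' ^ 2) + 2) := Nat.mul_le_mul_left _ this
        _ ≤ M ^ 2 * (2 * (C * (s' + 1) * n) + 2) := by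
            apply Nat.mul_le_mul_left
            omega
        _ = _ := by ring
    have h2 : 2 * (2 * M ^ 2 * (C * (s' + 1) * n)) ≤ n * n := by
      calc 2 * (2 * M ^ 2 * (C * (s' + 1) * n)) = (4 * M ^ 2 * C * (s' + 1)) * n := by ring
        _ ≤ n * n := Nat.mul_le_mul_right _ hA
    have h3 : 2 * (2 * M ^ 2) ≤ n * n := by
      have h4 : 2 * M ≤ n := by omega
      calc 2 * (2 * M ^ 2) = (2 * M) * (2 * M) := by ring
        _ ≤ n * n := Nat.mul_le_mul h4 h4
    have : n ^ 2 = n * n := by ring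
    omega
  exact (Nat.pow_le_pow_iff_left (by norm_num)).mp hB

lemma exists_box : ∃ B : Finset (ℤ × ℤ × ℤ), ∀ D : Finset (ℤ × ℤ × ℤ), Gen D →
    ∀ d ∈ D, d ∈ B := by
  refine ⟨Finset.Icc (-50) 50 ×ˢ (Finset.Icc (-50) 50 ×ˢ Finset.Icc (-50) 50), ?_⟩
  intro D hD d hd
  have h := hD.1 d hd
  rw [Finset.mem_product, Finset.mem_product, Finset.mem_Icc, Finset.mem_Icc, Finset.mem_Icc]
  exact ⟨abs_le.mp h.1, abs_le.mp h.2.1, abs_le.mp h.2.2⟩

end

end ASM

open Classical Finset in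
theorem stmt_ASM (hLATT : Stmt_LATT) (hEVEN : Stmt_EVEN) (hSWITCH : Stmt_SWITCH)
    (hUNION : Stmt_UNION) (hVALID : Stmt_VALID) (hFRAME : Stmt_FRAME) (hPF : Stmt_PF)
    (hCUT : Stmt_CUT) (hASSIGN : Stmt_ASSIGN) (hSIGN : Stmt_SIGN) : Stmt_ASM := by
  classical
  obtain ⟨κ, hκ⟩ := hLATT
  obtain ⟨K₀, hK₀⟩ := hCUT
  obtain ⟨K₁, hK₁⟩ := hASSIGN
  obtain ⟨K₂, hK₂⟩ := hSIGN
  obtain ⟨B, hB⟩ := ASM.exists_box
  obtain ⟨r, hr⟩ : ∃ r, B.card = r := ⟨_, rfl⟩
  let eB := Finset.equivFinOfCardEq hr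
  intro K
  set C := K₂ * (r + 1) * (K₁ + 1) with hC
  set M := K * (6 * κ + 1) with hM
  refine ⟨32 * M ^ 4 * C ^ 2 * (K₀ + 1) + 2 * M + 1, ?_⟩
  intro V _ G hcub hn hP
  obtain ⟨D, X, A, U, c1, c2, hGen, hs, hg, hdiff, hcount⟩ := hP
  set n := Fintype.card V with hnV
  set s := Nat.sqrt (K₀ * n) + 1 with hsdef
  set t := Nat.sqrt (C * s * n) + 1 with htdef
  have hMt : M * t ≤ n := ASM.arith K₀ C M n s t hsdef htdef hn
  -- the path factor and the cuts
  obtain ⟨F₀, hF₀⟩ := hPF V G hcub (AU X A) (ASM.bb X A c1)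
  obtain ⟨F, hF⟩ := hK₀ V G hcub X A hs (ASM.bb X A c1) F₀ hF₀ s (by
    rw [hsdef]
    exact (Nat.lt_succ_sqrt' (K₀ * n)).le)
  have hopp : ∀ a ∈ AU X A, ∃ a' ∈ AU X A, G.Adj a a' := by
    intro a ha
    obtain ⟨x, hx, hax⟩ := Finset.mem_biUnion.mp ha
    obtain ⟨a', ha', h, _⟩ := (hg x hx).q1.opp a hax
    exact ⟨a', Finset.mem_biUnion.mpr ⟨x, hx, ha'⟩, h⟩
  obtain ⟨j, ε, hA⟩ := hK₁ V G hcub X A hs hopp (ASM.bb X A c1) F₀ F s (by omega) hF₀ hF
  have hFr : Frame G (AU X A) F := hFRAME V G hcub (AU X A) (ASM.bb X A c1) F₀ F s hF₀ hF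
  -- the signs
  let Y : Fin r → Finset (Bool × V) := fun k =>
    (X.filter fun x => diff G (U x) (c1 x) (c2 x) = (eB.symm k : ℤ × ℤ × ℤ)).image
      fun x => (true, x)
  obtain ⟨σ, hσ1, hσ2, hσ3, hσY⟩ := hK₂ V G hcub (ASM.ZZ X A F) j ε ((K₁ + 1) * s) r t Y
    (by
      have : 1 ≤ s := by omega
      nlinarith)
    (fun i => (hA.size i).trans (Nat.mul_le_mul_right _ (by omega)))
    (by
      have h1 : K₂ * (r + 1) * ((K₁ + 1) * s) * Fintype.card V = C * s * n := by
        rw [hC]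
        ring
      rw [h1, htdef]
      exact (Nat.lt_succ_sqrt' (C * s * n)).le)
  set g := col G (ASM.ZZ X A F) j ε σ with hgdef
  have hcol : ∀ x ∈ X, ∀ v ∈ A x, g v = xor (σ (true, x)) (c1 x v) :=
    ASM.col_places hs hA σ
  have hvalid : ∀ T ⊆ X, Valid G (ASM.cT U c2 g σ T) := by
    intro T hT
    exact hVALID V G hcub (AU X A) F _ hFr (ASM.clo_cT hUNION hs hg hcol hT)
      (ASM.cond_cT hcub hs hg hFr hA σ hT)
  have hg0 : ASM.cT U c2 g σ ∅ = g := by
    funext v
    exact ASM.cT_out (by simp)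
  have hvg : Valid G g := by
    have := hvalid ∅ (by simp)
    rwa [hg0] at this
  obtain ⟨hev1, hev2⟩ := hEVEN V G hcub g hvg
  obtain ⟨m, hm, hmb⟩ := hκ D hGen (-st G g univ) (by simpa using hev1) (by simpa using hev2)
  have hmb' : ∀ d, |m d| ≤ 3 * κ * t := by
    intro d
    refine (hmb d).trans ?_
    have e1 : |(-st G g univ).1| = |(st G g univ).1| := by simp
    have e2 : |(-st G g univ).2.1| = |(st G g univ).2.1| := by simp
    have e3 : |(-st G g univ).2.2| = |(st G g univ).2.2| := by simp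
    rw [e1, e2, e3]
    have : (κ : ℤ) * (|(st G g univ).1| + |(st G g univ).2.1| + |(st G g univ).2.2|) ≤
        κ * (t + t + t) := by
      apply mul_le_mul_of_nonneg_left _ (by positivity)
      linarith
    refine this.trans (le_of_eq ?_)
    ring
  -- enough places of every kind
  have hK1 : 1 ≤ K ∨ D = ∅ := by
    by_cases hD : D = ∅
    · exact Or.inr hD
    · left
      obtain ⟨d, hd⟩ := Finset.nonempty_iff_ne_empty.mpr hD
      have h1 := hcount d hd
      by_contra h0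
      have : K = 0 := by omega
      rw [this, zero_mul] at h1
      omega
  have hfew : ∀ δ ∈ D, ∀ τ : Bool, 3 * κ * t ≤
      ((X.filter fun x => diff G (U x) (c1 x) (c2 x) = δ).filter
        fun x => σ (true, x) = τ).card := by
    intro δ hδ τ
    have hKpos : 1 ≤ K := by
      rcases hK1 with h | h
      · exact h
      · rw [h] at hδ
        simp at hδ
    set S := X.filter fun x => diff G (U x) (c1 x) (c2 x) = δ with hS
    have hSc : (6 * κ + 1) * t ≤ S.card := by
      have h1 := hcount δ hδ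
      have h2 : K * ((6 * κ + 1) * t) ≤ K * S.card := by
        calc K * ((6 * κ + 1) * t) = M * t := by rw [hM]; ring
          _ ≤ n := hMt
          _ ≤ K * S.card := h1
      exact Nat.le_of_mul_le_mul_left h2 hKpos
    have hY : |∑ x ∈ S, sg (σ (true, x))| ≤ t := by
      have hk := hσY (eB ⟨δ, hB D hGen δ hδ⟩)
      simp only [Y, Equiv.symm_apply_apply] at hk
      rw [Finset.sum_image] at hk
      · exact hk
      · intro x _ y _ hxy
        exact (Prod.mk.injEq _ _ _ _ ▸ hxy).2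
    have := ASM.half S (fun x => σ (true, x)) t hY τ
    have h3 : ((6 * κ + 1) * t : ℤ) ≤ S.card := by exact_mod_cast hSc
    have h4 : (3 * κ * t : ℤ) ≤ ((S.filter fun x => σ (true, x) = τ).card : ℤ) := by
      nlinarith
    exact_mod_cast h4
  obtain ⟨T, hTX, hTs⟩ := ASM.select X D (fun x => diff G (U x) (c1 x) (c2 x))
    (fun x => -sg (σ (true, x))) m
    (by
      intro δ hδ
      have h1 := hfew δ hδ false
      have h2 : (m δ).natAbs ≤ 3 * κ * t := by
        have := hmb' δ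
        rw [Int.abs_eq_natAbs] at this
        exact_mod_cast this
      refine h2.trans (h1.trans (Finset.card_le_card ?_))
      intro x hx
      simp only [mem_filter] at hx ⊢
      refine ⟨hx.1.1, hx.1.2, ?_⟩
      rw [hx.2]
      rfl)
    (by
      intro δ hδ
      have h1 := hfew δ hδ true
      have h2 : (m δ).natAbs ≤ 3 * κ * t := by
        have := hmb' δ
        rw [Int.abs_eq_natAbs] at this
        exact_mod_cast this
      refine h2.trans (h1.trans (Finset.card_le_card ?_))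
      intro x hx
      simp only [mem_filter] at hx ⊢
      refine ⟨hx.1.1, hx.1.2, ?_⟩
      rw [hx.2]
      rfl)
  refine ⟨ASM.cT U c2 g σ T, hvalid T hTX, ?_⟩
  rw [ASM.st_cT hSWITCH hs hg hcol hTX, hTs, hm]
  exact add_neg_cancel _

end Pool.Agent.Work.MP_1e13ac_Bis
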