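import Mathlib
import Pool.Agent.Work.MP_1e13ac_Bis.Interface

/-!
# Block ASSIGN of the project on 4-bisections of cubic graphs (MP_1e13ac_co)
-/

set_option autoImplicit false

namespace Pool.Agent.Work.MP_1e13ac_Bis

open Classical Finset

noncomputable section

namespace Assign

variable {V : Type} [Fintype V]

/-- in a component of a linear forest at most two vertices have degree one -/
theorem ends (hPR : Stmt_PATHREP) (F : SimpleGraph V) (hF : F.IsAcyclic)
    (hd : ∀ x, fd F x ≤ 2) (w1 w2 w3 : V) (h1 : fd F w1 = 1) (h2 : fd F w2 = 1)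
    (h3 : fd F w3 = 1) (h12 : F.Reachable w1 w2) (h13 : F.Reachable w1 w3)
    (n12 : w1 ≠ w2) (n13 : w1 ≠ w3) : w2 = w3 := by
  obtain ⟨p, hinj, hreach, hadj⟩ := hPR V F hF hd w1
  obtain ⟨i1, hi1, e1⟩ := (hreach w1).1 (SimpleGraph.Reachable.refl w1)
  obtain ⟨i2, hi2, e2⟩ := (hreach w2).1 h12
  obtain ⟨i3, hi3, e3⟩ := (hreach w3).1 h13
  have key : ∀ i, i < cs F w1 → fd F (p i) = 1 → i = 0 ∨ i + 1 = cs F w1 := by
    intro i hi hf
    by_contra hcon
    push Not at hcon
    obtain ⟨hc1, hc2⟩ := hcon
    have hi' : i + 1 < cs F w1 := by omega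
    have hi'' : i - 1 < cs F w1 := by omega
    have a1 : F.Adj (p i) (p (i - 1)) := (hadj i hi (i - 1) hi'').2 (by omega)
    have a2 : F.Adj (p i) (p (i + 1)) := (hadj i hi (i + 1) hi').2 (by omega)
    have hne : p (i - 1) ≠ p (i + 1) := by
      intro h
      have := hinj _ hi'' _ hi' h
      omega
    have hsub : ({p (i - 1), p (i + 1)} : Finset V) ⊆ univ.filter fun y => F.Adj (p i) y := by
      intro y hy
      simp only [mem_insert, mem_singleton] at hy
      rcases hy with rfl | rfl
      · simpa using a1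
      · simpa using a2
    have hcard := card_le_card hsub
    rw [card_pair hne] at hcard
    unfold fd at hf
    omega
  have k1 := key i1 hi1 (by rw [e1]; exact h1)
  have k2 := key i2 hi2 (by rw [e2]; exact h2)
  have k3 := key i3 hi3 (by rw [e3]; exact h3)
  have n12' : i1 ≠ i2 := by
    intro h
    exact n12 (by rw [← e1, ← e2, h])
  have n13' : i1 ≠ i3 := by
    intro h
    exact n13 (by rw [← e1, ← e3, h])
  have : i2 = i3 := by omega
  rw [← e2, ← e3, this]

/-- `w` outside `U` is an end of `F` whose only neighbour in `U` is `a` -/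
def AE (G F : SimpleGraph V) (U : Finset V) (w a : V) : Prop :=
  w ∉ U ∧ fd F w = 1 ∧ a ∈ U ∧ G.Adj a w ∧ ∀ a' ∈ U, G.Adj a' w → a' = a

/-- mandatory ends -/
def Mand (G F₀ F : SimpleGraph V) (e0 : V → Bool) (w : V) : Prop :=
  (∃ u v, F₀.Reachable w u ∧ F₀.Adj u v ∧ ¬ F.Adj u v) ∨
  (∃ h, F.Reachable w h ∧ fd F h = 1 ∧ G.Adj w h ∧ ¬ F.Adj w h ∧ e0 w = e0 h)

/-- a vertex with a neighbour in `U` is not a cut vertex -/
theorem notcut {G : SimpleGraph V} {U : Finset V} {F₀ F : SimpleGraph V} {s : ℕ}
    (hc : Cut G U F₀ F s) {w a : V} (ha : a ∈ U) (haw : G.Adj a w) :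
    ∀ v, F₀.Adj w v → F.Adj w v := by
  intro v hv
  by_contra hcon
  exact hc.noA w v hv hcon a ha haw.symm

theorem fd_le {F₀ F : SimpleGraph V} (h : F ≤ F₀) (x : V) : fd F x ≤ fd F₀ x := by
  unfold fd
  apply card_le_card
  intro y hy
  simp only [mem_filter, mem_univ, true_and] at hy ⊢
  exact h hy

theorem fd_eq {F₀ F : SimpleGraph V} (h : F ≤ F₀) (x : V) (hx : ∀ v, F₀.Adj x v → F.Adj x v) :
    fd F x = fd F₀ x := by
  unfold fd
  congr 1
  ext y
  simp only [mem_filter, mem_univ, true_and]
  exact ⟨fun hy => h hy, hx y⟩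

/-- if an `F`-component contains two ends with neighbours in `U`, then it is a component
of `F₀` -/
theorem uncut (hPR : Stmt_PATHREP) {G : SimpleGraph V} {U : Finset V} {F₀ F : SimpleGraph V}
    {s : ℕ} (hF : F.IsAcyclic) (hd : ∀ x, fd F x ≤ 2)
    (hc : Cut G U F₀ F s) {w1 w2 a1 a2 : V} (h1 : AE G F U w1 a1) (h2 : AE G F U w2 a2)
    (h12 : F.Reachable w1 w2) (hne : w1 ≠ w2) :
    ∀ u, F₀.Reachable w1 u → F.Reachable w1 u ∧ ∀ v, F₀.Adj u v → F.Adj u v := by
  have hall : ∀ u, F.Reachable w1 u → ∀ v, F₀.Adj u v → F.Adj u v := by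
    intro u hu v huv
    by_contra hcon
    have hf := hc.one u v huv hcon
    by_cases e : w1 = u
    · subst e
      exact hcon (notcut hc h1.2.2.1 h1.2.2.2.1 v huv)
    · have := ends hPR F hF hd w1 w2 u h1.2.1 h2.2.1 hf h12 hu hne e
      subst this
      exact hcon (notcut hc h2.2.2.1 h2.2.2.2.1 v huv)
  have hind : ∀ u, F₀.Reachable w1 u → F.Reachable w1 u := by
    intro u hu
    rw [SimpleGraph.reachable_iff_reflTransGen] at hu
    induction hu with
    | refl => exact SimpleGraph.Reachable.refl w1
    | tail _ hxy ih => exact ih.trans (hall _ ih _ hxy).reachable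
  exact fun u hu => ⟨hind u hu, hall u (hind u hu)⟩

/-- two mandatory ends in the same component are compatible -/
theorem compat1 (hPR : Stmt_PATHREP) {G : SimpleGraph V} {U : Finset V} {b : V → Bool}
    {F₀ F : SimpleGraph V}
    {s : ℕ} (hF : F.IsAcyclic) (hd : ∀ x, fd F x ≤ 2) (hpf : PF G U b F₀)
    (hc : Cut G U F₀ F s) (e0 : V → Bool) (he0 : ∀ x y, F₀.Adj x y → e0 x ≠ e0 y)
    {w1 w2 a1 a2 : V} (h1 : AE G F U w1 a1) (h2 : AE G F U w2 a2)
    (h12 : F.Reachable w1 w2) (hne : w1 ≠ w2) (hm : Mand G F₀ F e0 w1) :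
    G.Adj w1 w2 ∧ e0 w1 = e0 w2 ∧ b a1 = b a2 ∧ Mand G F₀ F e0 w2 := by
  have hunc := uncut hPR hF hd hc h1 h2 h12 hne
  rcases hm with ⟨u, v, hu, huv, hn⟩ | ⟨h, hh1, hh2, hh3, hh4, hh5⟩
  · exact absurd ((hunc u hu).2 v huv) hn
  · have hne' : w1 ≠ h := hh3.ne
    have e := ends hPR F hF hd w1 w2 h h1.2.1 h2.2.1 hh2 h12 hh1 hne hne'
    subst e
    have hn0 : ¬ F₀.Adj w1 w2 := fun hcon => hh4 (notcut hc h1.2.2.1 h1.2.2.2.1 _ hcon)
    have f1 : fd F₀ w1 = 1 := by
      rw [← fd_eq hc.le w1 (notcut hc h1.2.2.1 h1.2.2.2.1)]; exact h1.2.1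
    have f2 : fd F₀ w2 = 1 := by
      rw [← fd_eq hc.le w2 (notcut hc h2.2.2.1 h2.2.2.2.1)]; exact h2.2.1
    refine ⟨hh3, hh5, ?_, ?_⟩
    · exact hpf.clos e0 he0 w1 w2 h1.1 h2.1 hh3 hn0 f1 f2 hh5 a1 h1.2.2.1 a2 h2.2.2.1
        h1.2.2.2.1.symm h2.2.2.2.1.symm
    · right
      exact ⟨w1, hh1.symm, h1.2.1, hh3.symm, fun hcon => hh4 hcon.symm, hh5.symm⟩

/-- Hall: choice of ends -/
theorem hall (hPR : Stmt_PATHREP) {F : SimpleGraph V}
    (hF : F.IsAcyclic) (hd : ∀ x, fd F x ≤ 2) (R : Finset V) (e : V → Finset V)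
    (h1 : ∀ a ∈ R, ∀ w ∈ e a, fd F w = 1) (h2 : ∀ a ∈ R, 2 ≤ (e a).card)
    (h3 : ∀ a ∈ R, ∀ a' ∈ R, ∀ w, w ∈ e a → w ∈ e a' → a = a') :
    ∃ W : V → V, (∀ a ∈ R, W a ∈ e a) ∧
      ∀ a ∈ R, ∀ a' ∈ R, F.Reachable (W a) (W a') → a = a' := by
  have hH : ∀ S : Finset {a // a ∈ R},
      S.card ≤ (S.biUnion fun a => (e a.1).image F.connectedComponentMk).card := by
    intro S
    have c1 : (S.biUnion fun a => e a.1).card = ∑ a ∈ S, (e a.1).card := by
      apply card_biUnion
      intro x _ y _ hxy
      change Disjoint (e x.1) (e y.1)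
      rw [Finset.disjoint_left]
      intro w hw hw'
      exact hxy (Subtype.ext (h3 x.1 x.2 y.1 y.2 w hw hw'))
    have c2 : S.card * 2 ≤ ∑ a ∈ S, (e a.1).card := by
      rw [← smul_eq_mul, ← sum_const]
      exact sum_le_sum fun a _ => h2 a.1 a.2
    have c3 : (S.biUnion fun a => e a.1).card ≤
        2 * ((S.biUnion fun a => e a.1).image F.connectedComponentMk).card := by
      apply card_le_mul_card_image
      intro c _
      by_contra hcon
      push Not at hcon
      obtain ⟨x, y, z, hx, hy, hz, hxy, hxz, hyz⟩ := Finset.two_lt_card_iff.1 hcon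
      simp only [mem_filter, mem_biUnion] at hx hy hz
      obtain ⟨⟨a, _, hxa⟩, hxc⟩ := hx
      obtain ⟨⟨a', _, hya⟩, hyc⟩ := hy
      obtain ⟨⟨a'', _, hza⟩, hzc⟩ := hz
      have r1 : F.Reachable x y := SimpleGraph.ConnectedComponent.exact (hxc.trans hyc.symm)
      have r2 : F.Reachable x z := SimpleGraph.ConnectedComponent.exact (hxc.trans hzc.symm)
      exact hyz (ends hPR F hF hd x y z (h1 _ a.2 _ hxa) (h1 _ a'.2 _ hya) (h1 _ a''.2 _ hza)
        r1 r2 hxy hxz)
    have c4 : (S.biUnion fun a => e a.1).image F.connectedComponentMk =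
        S.biUnion fun a => (e a.1).image F.connectedComponentMk := by
      ext c
      simp only [mem_image, mem_biUnion]
      constructor
      · rintro ⟨w, ⟨a, ha, hw⟩, rfl⟩
        exact ⟨a, ha, w, hw, rfl⟩
      · rintro ⟨a, ha, w, hw, rfl⟩
        exact ⟨w, ⟨a, ha, hw⟩, rfl⟩
    rw [c4] at c3
    omega
  obtain ⟨f, hf1, hf2⟩ := (Finset.all_card_le_biUnion_card_iff_exists_injective
    (fun a : {a // a ∈ R} => (e a.1).image F.connectedComponentMk)).1 hH
  have hf3 : ∀ a : {a // a ∈ R}, ∃ w ∈ e a.1, F.connectedComponentMk w = f a := by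
    intro a
    simpa using hf2 a
  choose g hg1 hg2 using hf3
  refine ⟨fun a => if h : a ∈ R then g ⟨a, h⟩ else a, ?_, ?_⟩
  · intro a ha
    simp only [dif_pos ha]
    exact hg1 ⟨a, ha⟩
  · intro a ha a' ha' hr
    simp only [dif_pos ha, dif_pos ha'] at hr
    have : f ⟨a, ha⟩ = f ⟨a', ha'⟩ := by
      rw [← hg2, ← hg2]
      exact SimpleGraph.ConnectedComponent.sound hr
    have := hf1 this
    exact congrArg Subtype.val this

/-- the place of a vertex -/
def px (X : Finset V) (A : V → Finset V) (a : V) : V :=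
  if h : ∃ x ∈ X, a ∈ A x then h.choose else a

omit [Fintype V] in
theorem px_spec {X : Finset V} {A : V → Finset V} {a : V} (h : a ∈ AU X A) :
    px X A a ∈ X ∧ a ∈ A (px X A a) := by
  have h' : ∃ x ∈ X, a ∈ A x := by
    simpa [AU] using h
  unfold px
  rw [dif_pos h']
  exact h'.choose_spec

theorem place_eq {G : SimpleGraph V} {X : Finset V} {A : V → Finset V}
    (hS : Sep G X A) {x x' y : V} (hx : x ∈ X) (hx' : x' ∈ X) (h1 : y ∈ Bl G 100 x)
    (h2 : y ∈ Bl G 100 x') : x = x' := by
  by_contra hne
  exact Finset.disjoint_left.1 (hS.disj x hx x' hx' hne) h1 h2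

theorem step {G : SimpleGraph V} {r : ℕ} {x y z : V} (h : y ∈ Bl G r x) (hyz : G.Adj y z) :
    z ∈ Bl G (r + 1) x := by
  simp only [Bl, mem_filter, mem_univ, true_and]
  exact ⟨y, h, Or.inr hyz⟩

theorem mono {G : SimpleGraph V} {r s : ℕ} (hrs : r ≤ s) {x y : V} (h : y ∈ Bl G r x) :
    y ∈ Bl G s x := by
  obtain ⟨t, rfl⟩ := Nat.exists_eq_add_of_le hrs
  induction t with
  | zero => exact h
  | succ n ih =>
    have := ih (by omega)
    show y ∈ Bl G (r + n + 1) x
    simp only [Bl, mem_filter, mem_univ, true_and]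
    exact ⟨y, this, Or.inl rfl⟩

end Assign

open Assign

theorem stmt_ASSIGN (hB : Stmt_BALL) (hPR : Stmt_PATHREP) : Stmt_ASSIGN := by
  refine ⟨4 ^ 97, ?_⟩
  intro V _ G hG X A hS hnb b F₀ F s hs hpf hc
  -- F is a linear forest
  have hFd : ∀ x, fd F x ≤ 2 := fun x => (fd_le hc.le x).trans (hpf.deg x)
  have hFac : F.IsAcyclic := hpf.acyc.anti hc.le
  -- proper colouring of F₀
  obtain ⟨e0, he0⟩ : ∃ e0 : V → Bool, ∀ x y, F₀.Adj x y → e0 x ≠ e0 y := by
    obtain ⟨C⟩ := hpf.acyc.colorable_two
    refine ⟨fun x => decide (C x = 0), ?_⟩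
    intro x y hxy
    have := C.valid hxy
    intro hcon
    simp only [decide_eq_decide] at hcon
    omega
  set U := AU X A with hU
  -- the selected ends
  let e : V → Finset V := fun a => univ.filter fun w => AE G F U w a ∧ ¬ Mand G F₀ F e0 w
  let R : Finset V := univ.filter fun a => 2 ≤ (e a).card
  obtain ⟨W, hW1, hW2⟩ := hall hPR hFac hFd R e
    (by
      intro a _ w hw
      simp only [e, mem_filter, mem_univ, true_and] at hw
      exact hw.1.2.1)
    (by
      intro a ha
      simpa [R] using ha)
    (by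
      intro a _ a' _ w hw hw'
      simp only [e, mem_filter, mem_univ, true_and] at hw hw'
      exact hw'.1.2.2.2.2 a hw.1.2.2.1 hw.1.2.2.2.1)
  let Sel : V → Prop := fun w => ∃ a, AE G F U w a ∧
    (Mand G F₀ F e0 w ∨ (a ∈ R ∧ w = W a ∧ ¬ Mand G F₀ F e0 w))
  -- compatibility
  have compat : ∀ w w' a a', Sel w → Sel w' → F.Reachable w w' → AE G F U w a →
      AE G F U w' a' → px X A a = px X A a' ∧ xor (e0 w) (b a) = xor (e0 w') (b a') := by
    intro w w' a a' hw hw' hr hwa hwa'
    by_cases hww : w = w'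
    · subst hww
      have : a' = a := hwa.2.2.2.2 a' hwa'.2.2.1 hwa'.2.2.2.1
      subst this
      exact ⟨rfl, rfl⟩
    · obtain ⟨a1, ha1, hm⟩ := hw
      obtain ⟨a2, ha2, hm'⟩ := hw'
      have key : ∀ v v' c c', AE G F U v c → AE G F U v' c' → F.Reachable v v' → v ≠ v' →
          Mand G F₀ F e0 v → px X A c = px X A c' ∧ xor (e0 v) (b c) = xor (e0 v') (b c') := by
        intro v v' c c' hvc hvc' hvv hne hmv
        obtain ⟨k1, k2, k3, _⟩ := compat1 hPR hFac hFd hpf hc e0 he0 hvc hvc' hvv hne hmv
        refine ⟨?_, by rw [k2, k3]⟩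
        obtain ⟨p1, p2⟩ := px_spec (X := X) (A := A) hvc.2.2.1
        obtain ⟨q1, q2⟩ := px_spec (X := X) (A := A) hvc'.2.2.1
        have b1 := hS.ball _ p1 p2
        have b2 := step (step (step b1 hvc.2.2.2.1) k1) hvc'.2.2.2.1.symm
        have b3 := hS.ball _ q1 q2
        exact place_eq hS p1 q1 (mono (by norm_num) b2) (mono (by norm_num) b3)
      rcases hm with hm | ⟨hm1, hm2, hm3⟩
      · exact key w w' a a' hwa hwa' hr hww hm
      · rcases hm' with hm' | ⟨hm1', hm2', hm3'⟩
        · obtain ⟨r1, r2⟩ := key w' w a' a hwa' hwa hr.symm (Ne.symm hww) hm'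
          exact ⟨r1.symm, r2.symm⟩
        · exfalso
          rw [hm2, hm2'] at hr
          have := hW2 a1 hm1 a2 hm1' hr
          subst this
          exact hww (hm2.trans hm2'.symm)
  -- the definitions
  let P : V → V × V → Prop := fun v wa => Sel wa.1 ∧ F.Reachable v wa.1 ∧ AE G F U wa.1 wa.2
  let j : V → Bool × V := fun v =>
    if v ∈ U then (true, px X A v) else
      if h : ∃ wa, P v wa then (true, px X A h.choose.2) else
        (false, Quot.out (F.connectedComponentMk v))
  let ep : V → Bool := fun v =>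
    if v ∈ U then b v else
      if h : ∃ wa, P v wa then xor (e0 v) (xor (e0 h.choose.1) (!(b h.choose.2))) else e0 v
  have jU : ∀ v ∈ U, j v = (true, px X A v) ∧ ep v = b v := by
    intro v hv
    simp only [j, ep, if_pos hv, and_self]
  have jP : ∀ v w a, v ∉ U → P v (w, a) → j v = (true, px X A a) ∧
      ep v = xor (e0 v) (xor (e0 w) (!(b a))) := by
    intro v w a hv hwa
    have h : ∃ wa, P v wa := ⟨_, hwa⟩
    simp only [j, ep, if_neg hv, dif_pos h]
    have hsp := h.choose_spec
    set q := h.choose with hq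
    obtain ⟨s1, s2, s3⟩ := hsp
    obtain ⟨t1, t2, t3⟩ := hwa
    have hcm := compat q.1 w q.2 a s1 t1 (s2.symm.trans t2) s3 t3
    refine ⟨by rw [hcm.1], ?_⟩
    have h2 := hcm.2
    revert h2
    generalize e0 q.1 = x1
    generalize b q.2 = x2
    generalize e0 w = x3
    generalize b a = x4
    generalize e0 v = x5
    revert x1 x2 x3 x4 x5
    decide
  have jN : ∀ v, v ∉ U → (¬ ∃ wa, P v wa) →
      j v = (false, Quot.out (F.connectedComponentMk v)) ∧ ep v = e0 v := by
    intro v hv h
    simp only [j, ep, if_neg hv, dif_neg h, and_self]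
  -- selected ends are tied
  have tied : ∀ w a, Sel w → AE G F U w a → j w = j a ∧ ep w ≠ ep a := by
    intro w a hw hwa
    obtain ⟨k1, k2⟩ := jP w w a hwa.1 ⟨hw, SimpleGraph.Reachable.refl w, hwa⟩
    obtain ⟨l1, l2⟩ := jU a hwa.2.2.1
    refine ⟨by rw [k1, l1], ?_⟩
    rw [k2, l2]
    generalize e0 w = x1
    generalize b a = x2
    revert x1 x2
    decide
  have outF : ∀ x y, F.Adj x y → x ∉ U := fun x y h => hpf.out x y (hc.le h)
  have reachU : ∀ x y, F.Reachable x y → x ∉ U → y ∉ U := by
    intro x y hxy hx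
    by_cases e : x = y
    · exact e ▸ hx
    · obtain ⟨p⟩ := hxy.symm
      cases p with
      | nil => exact absurd rfl e
      | cons h _ => exact outF _ _ h
  -- vertices in the same component
  have same : ∀ x y, F.Reachable x y → x ∉ U → j x = j y ∧ xor (ep x) (e0 x) = xor (ep y) (e0 y) := by
    intro x y hxy hx
    have hy := reachU x y hxy hx
    by_cases h : ∃ wa, P x wa
    · obtain ⟨⟨w, a⟩, h1, h2, h3⟩ := h
      obtain ⟨k1, k2⟩ := jP x w a hx ⟨h1, h2, h3⟩
      obtain ⟨l1, l2⟩ := jP y w a hy ⟨h1, hxy.symm.trans h2, h3⟩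
      refine ⟨by rw [k1, l1], ?_⟩
      rw [k2, l2]
      generalize e0 x = x1
      generalize e0 y = x2
      generalize xor (e0 w) (!(b a)) = x3
      revert x1 x2 x3
      decide
    · have h' : ¬ ∃ wa, P y wa := by
        rintro ⟨⟨w, a⟩, h1, h2, h3⟩
        exact h ⟨⟨w, a⟩, h1, hxy.trans h2, h3⟩
      obtain ⟨k1, k2⟩ := jN x hx h
      obtain ⟨l1, l2⟩ := jN y hy h'
      have : F.connectedComponentMk x = F.connectedComponentMk y :=
        SimpleGraph.ConnectedComponent.sound hxy
      refine ⟨by rw [k1, l1, this], ?_⟩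
      rw [k2, l2]
      simp
  refine ⟨j, ep, ?_, ?_, ?_, ?_, ?_⟩
  · -- alt
    intro x y hxy
    have hx := outF x y hxy
    obtain ⟨k1, k2⟩ := same x y hxy.reachable hx
    refine ⟨k1, ?_⟩
    have h0 := he0 x y (hc.le hxy)
    revert k2 h0
    generalize e0 x = x1
    generalize e0 y = x2
    generalize ep x = x3
    generalize ep y = x4
    revert x1 x2 x3 x4
    decide
  · -- pl
    intro x hx v hv
    have hvU : v ∈ U := by
      simp only [hU, AU, mem_biUnion]
      exact ⟨x, hx, hv⟩
    obtain ⟨k1, k2⟩ := jU v hvU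
    refine ⟨?_, k2⟩
    rw [k1]
    obtain ⟨p1, p2⟩ := px_spec (X := X) (A := A) hvU
    have := place_eq hS p1 hx (mono (by norm_num) (hS.ball _ p1 p2))
      (mono (by norm_num) (hS.ball _ hx hv))
    rw [this]
  · -- b1
    intro a ha w w' hne hw hw' haw haw' hf hf' hu hu'
    have hA : AE G F U w a := ⟨hw, hf, ha, haw, hu⟩
    have hA' : AE G F U w' a := ⟨hw', hf', ha, haw', hu'⟩
    by_cases m : Mand G F₀ F e0 w
    · left
      exact tied w a ⟨a, hA, Or.inl m⟩ hA
    · by_cases m' : Mand G F₀ F e0 w'
      · right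
        exact tied w' a ⟨a, hA', Or.inl m'⟩ hA'
      · have hwe : w ∈ e a := by
          simp only [e, mem_filter, mem_univ, true_and]
          exact ⟨hA, m⟩
        have hwe' : w' ∈ e a := by
          simp only [e, mem_filter, mem_univ, true_and]
          exact ⟨hA', m'⟩
        have haR : a ∈ R := by
          simp only [R, mem_filter, mem_univ, true_and]
          have : ({w, w'} : Finset V) ⊆ e a := by
            intro z hz
            simp only [mem_insert, mem_singleton] at hz
            rcases hz with rfl | rfl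
            · exact hwe
            · exact hwe'
          have := card_le_card this
          rw [card_pair hne] at this
          exact this
        have hWa := hW1 a haR
        have hWe : AE G F U (W a) a ∧ ¬ Mand G F₀ F e0 (W a) := by
          simpa only [e, mem_filter, mem_univ, true_and] using hWa
        obtain ⟨a', ha', haa'⟩ := hnb a ha
        have hcase : W a = w ∨ W a = w' := by
          by_contra hcon
          push Not at hcon
          have hsub : ({a', w, w', W a} : Finset V) ⊆ nbs G a := by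
            intro z hz
            simp only [mem_insert, mem_singleton] at hz
            simp only [nbs, mem_filter, mem_univ, true_and]
            rcases hz with rfl | rfl | rfl | rfl
            · exact haa'
            · exact haw
            · exact haw'
            · exact hWe.1.2.2.2.1
          have h4 : ({a', w, w', W a} : Finset V).card = 4 := by
            have n1 : a' ≠ w := fun h => hw (h ▸ ha')
            have n2 : a' ≠ w' := fun h => hw' (h ▸ ha')
            have n3 : a' ≠ W a := fun h => hWe.1.1 (h ▸ ha')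
            rw [card_insert_of_notMem, card_insert_of_notMem, card_pair (Ne.symm hcon.2)]
            · simp only [mem_insert, mem_singleton, not_or]
              exact ⟨hne, Ne.symm hcon.1⟩
            · simp only [mem_insert, mem_singleton, not_or]
              exact ⟨n1, n2, n3⟩
          have := card_le_card hsub
          rw [h4, hG a] at this
          omega
        have hSelW : Sel (W a) := ⟨a, hWe.1, Or.inr ⟨haR, rfl, hWe.2⟩⟩
        have ht := tied (W a) a hSelW hWe.1
        rcases hcase with h | h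
        · left
          rw [h] at ht
          exact ht
        · right
          rw [h] at ht
          exact ht
  · -- b2
    intro x y hx hy hxy hnF hfx hfy a ha hxa
    have hncx := notcut hc ha hxa.symm
    have hn0 : ¬ F₀.Adj x y := fun h => hnF (hncx y h)
    have hfx0 : fd F₀ x ≤ 1 := by
      rw [← fd_eq hc.le x hncx]
      exact hfx
    have hncy : ∀ v, F₀.Adj y v → F.Adj y v := by
      intro v hv
      by_contra hcon
      have := hc.third y v hv hcon x hxy.symm (fun h => hn0 h.symm)
      omega
    have hfy0 : fd F₀ y ≤ 1 := by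
      rw [← fd_eq hc.le y hncy]
      exact hfy
    have hr0 := hpf.max x y hxy.ne hx hy hxy hfx0 hfy0
    -- both have an F-neighbour
    have deg1 : ∀ u v : V, u ≠ v → F₀.Reachable u v → 1 ≤ fd F₀ u := by
      intro u v huv hr
      obtain ⟨p⟩ := hr
      cases p with
      | nil => exact absurd rfl huv
      | cons h _ =>
        unfold fd
        apply card_pos.2
        exact ⟨_, by simpa using h⟩
    have f0x : fd F₀ x = 1 := le_antisymm hfx0 (deg1 x y hxy.ne hr0)
    have f0y : fd F₀ y = 1 := le_antisymm hfy0 (deg1 y x hxy.ne.symm hr0.symm)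
    have fx : fd F x = 1 := by rw [fd_eq hc.le x hncx]; exact f0x
    have fy : fd F y = 1 := by rw [fd_eq hc.le y hncy]; exact f0y
    -- x is an end with a unique neighbour in U
    have hAx : AE G F U x a := by
      refine ⟨hx, fx, ha, hxa.symm, ?_⟩
      intro a' ha' haa'
      by_contra hne
      obtain ⟨v, hv⟩ : ∃ v, F.Adj x v := by
        have : 0 < (univ.filter fun y => F.Adj x y).card := by
          have := fx
          unfold fd at this
          omega
        obtain ⟨v, hv⟩ := card_pos.1 this
        exact ⟨v, by simpa using hv⟩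
      have hvU : v ∉ U := outF v x hv.symm
      have hsub : ({a, a', v, y} : Finset V) ⊆ nbs G x := by
        intro z hz
        simp only [mem_insert, mem_singleton] at hz
        simp only [nbs, mem_filter, mem_univ, true_and]
        rcases hz with rfl | rfl | rfl | rfl
        · exact hxa
        · exact haa'.symm
        · exact hpf.le (hc.le hv)
        · exact hxy
      have h4 : ({a, a', v, y} : Finset V).card = 4 := by
        have n1 : a ≠ v := fun h => hvU (h ▸ ha)
        have n2 : a ≠ y := fun h => hy (h ▸ ha)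
        have n3 : a' ≠ v := fun h => hvU (h ▸ ha')
        have n4 : a' ≠ y := fun h => hy (h ▸ ha')
        have n5 : v ≠ y := fun h => hnF (h ▸ hv)
        rw [card_insert_of_notMem, card_insert_of_notMem, card_pair n5]
        · simp only [mem_insert, mem_singleton, not_or]
          exact ⟨n3, n4⟩
        · simp only [mem_insert, mem_singleton, not_or]
          exact ⟨Ne.symm hne, n1, n2⟩
      have := card_le_card hsub
      rw [h4, hG x] at this
      omega
    by_cases m : Mand G F₀ F e0 x
    · right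
      exact tied x a ⟨a, hAx, Or.inl m⟩ hAx
    · left
      -- the component is not cut
      have hnc : ∀ u, F₀.Reachable x u → ∀ v, F₀.Adj u v → F.Adj u v := by
        intro u hu v huv
        by_contra hcon
        exact m (Or.inl ⟨u, v, hu, huv, hcon⟩)
      have hrF : ∀ u, F₀.Reachable x u → F.Reachable x u := by
        intro u hu
        rw [SimpleGraph.reachable_iff_reflTransGen] at hu
        induction hu with
        | refl => exact SimpleGraph.Reachable.refl x
        | @tail c d hxc hcd ih =>
          have hxc' : F₀.Reachable x c := (SimpleGraph.reachable_iff_reflTransGen _ _).2 hxc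
          exact ih.trans (hnc c hxc' d hcd).reachable
      have hrxy := hrF y hr0
      obtain ⟨k1, k2⟩ := same x y hrxy hx
      refine ⟨k1, ?_⟩
      have h0 : e0 x ≠ e0 y := by
        intro hcon
        exact m (Or.inr ⟨y, hrxy, fy, hxy, hnF, hcon⟩)
      revert k2 h0
      generalize e0 x = x1
      generalize e0 y = x2
      generalize ep x = x3
      generalize ep y = x4
      revert x1 x2 x3 x4
      decide
  · -- size
    rintro ⟨c, x⟩
    cases c with
    | true =>
      have hsub : (univ.filter fun v => j v = (true, x)) ⊆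
          (Bl G 97 x).biUnion fun w => univ.filter fun y => F.Reachable w y := by
        intro v hv
        simp only [mem_filter, mem_univ, true_and] at hv
        simp only [mem_biUnion, mem_filter, mem_univ, true_and]
        by_cases hvU : v ∈ U
        · obtain ⟨k1, _⟩ := jU v hvU
          rw [k1] at hv
          have hpx : px X A v = x := congrArg Prod.snd hv
          obtain ⟨p1, p2⟩ := px_spec (X := X) (A := A) hvU
          rw [hpx] at p1 p2
          exact ⟨v, mono (by norm_num) (hS.ball _ p1 p2), SimpleGraph.Reachable.refl v⟩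
        · by_cases h : ∃ wa, P v wa
          · obtain ⟨⟨w, a⟩, h1, h2, h3⟩ := h
            obtain ⟨k1, _⟩ := jP v w a hvU ⟨h1, h2, h3⟩
            rw [k1] at hv
            have hpx : px X A a = x := congrArg Prod.snd hv
            obtain ⟨p1, p2⟩ := px_spec (X := X) (A := A) h3.2.2.1
            rw [hpx] at p1 p2
            exact ⟨w, step (hS.ball _ p1 p2) h3.2.2.2.1, h2.symm⟩
          · obtain ⟨k1, _⟩ := jN v hvU h
            rw [k1] at hv
            exact absurd (congrArg Prod.fst hv) (by simp)
      calc (univ.filter fun v => j v = (true, x)).card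
          ≤ ((Bl G 97 x).biUnion fun w => univ.filter fun y => F.Reachable w y).card :=
            card_le_card hsub
        _ ≤ (Bl G 97 x).card * s := by
            apply card_biUnion_le_card_mul
            intro w _
            exact hc.size w
        _ ≤ 4 ^ 97 * s := Nat.mul_le_mul_right s ((hB V G).2.2.2.2.2 hG 97 x)
    | false =>
      have hsub : (univ.filter fun v => j v = (false, x)) ⊆
          univ.filter fun y => F.Reachable x y := by
        intro v hv
        simp only [mem_filter, mem_univ, true_and] at hv ⊢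
        by_cases hvU : v ∈ U
        · obtain ⟨k1, _⟩ := jU v hvU
          rw [k1] at hv
          exact absurd (congrArg Prod.fst hv) (by simp)
        · by_cases h : ∃ wa, P v wa
          · obtain ⟨⟨w, a⟩, h1, h2, h3⟩ := h
            obtain ⟨k1, _⟩ := jP v w a hvU ⟨h1, h2, h3⟩
            rw [k1] at hv
            exact absurd (congrArg Prod.fst hv) (by simp)
          · obtain ⟨k1, _⟩ := jN v hvU h
            rw [k1] at hv
            have hq : Quot.out (F.connectedComponentMk v) = x := congrArg Prod.snd hv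
            have : F.connectedComponentMk x = F.connectedComponentMk v := by
              rw [← hq]
              exact Quot.out_eq _
            exact SimpleGraph.ConnectedComponent.exact this
      calc (univ.filter fun v => j v = (false, x)).card
          ≤ (univ.filter fun y => F.Reachable x y).card := card_le_card hsub
        _ ≤ s := hc.size x
        _ ≤ 4 ^ 97 * s := Nat.le_mul_of_pos_left s (by positivity)

end

end Pool.Agent.Work.MP_1e13ac_Bis
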