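import Pool.Agent.Work.MP_1e13ac_Bis.Interface

/-! MP_1e13ac_co, blocks BALL and MANY (helper99): balls. -/

set_option autoImplicit false
set_option linter.unusedSectionVars false

namespace Pool.Agent.Work.MP_1e13ac_Bis

open Classical Finset

namespace BallB

variable {V : Type} [Fintype V] {G : SimpleGraph V}

lemma mem_zero {v x : V} : x ∈ Bl G 0 v ↔ x = v := by
  show x ∈ ({v} : Finset V) ↔ x = v
  exact mem_singleton

lemma mem_succ {r : ℕ} {v x : V} :
    x ∈ Bl G (r + 1) v ↔ ∃ y ∈ Bl G r v, x = y ∨ G.Adj y x := by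
  show x ∈ (univ.filter fun x => ∃ y ∈ Bl G r v, x = y ∨ G.Adj y x) ↔ _
  simp

lemma self_mem (r : ℕ) (v : V) : v ∈ Bl G r v := by
  induction r with
  | zero => exact mem_zero.2 rfl
  | succ r ih => exact mem_succ.2 ⟨v, ih, Or.inl rfl⟩

lemma mono_succ (r : ℕ) (v : V) : Bl G r v ⊆ Bl G (r + 1) v :=
  fun x hx => mem_succ.2 ⟨x, hx, Or.inl rfl⟩

lemma mono (r s : ℕ) (v : V) : Bl G r v ⊆ Bl G (r + s) v := by
  induction s with
  | zero => exact Subset.refl _
  | succ s ih => exact ih.trans (mono_succ (r + s) v)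

lemma trans' (r s : ℕ) (x y z : V) (h1 : y ∈ Bl G r x) (h2 : z ∈ Bl G s y) :
    z ∈ Bl G (r + s) x := by
  induction s generalizing z with
  | zero =>
    rw [mem_zero] at h2
    rw [h2]
    exact h1
  | succ s ih =>
    obtain ⟨w, hw, h⟩ := mem_succ.1 h2
    exact mem_succ.2 ⟨w, ih w hw, h⟩

lemma adj_mem {x y : V} (h : G.Adj x y) : y ∈ Bl G 1 x :=
  mem_succ.2 ⟨x, mem_zero.2 rfl, Or.inr h⟩

lemma symm' (r : ℕ) (x y : V) (h : y ∈ Bl G r x) : x ∈ Bl G r y := by
  induction r generalizing y with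
  | zero =>
    rw [mem_zero] at h ⊢
    exact h.symm
  | succ r ih =>
    obtain ⟨w, hw, h1⟩ := mem_succ.1 h
    have h2 : w ∈ Bl G 1 y := by
      rcases h1 with rfl | h1
      · exact self_mem 1 _
      · exact adj_mem h1.symm
    have h3 := trans' 1 r y w x h2 (ih w hw)
    rwa [Nat.add_comm] at h3

lemma reach (r : ℕ) (x y : V) (h : y ∈ Bl G r x) : G.Reachable x y := by
  induction r generalizing y with
  | zero =>
    rw [mem_zero] at h
    rw [h]
  | succ r ih =>
    obtain ⟨w, hw, h1⟩ := mem_succ.1 h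
    rcases h1 with rfl | h1
    · exact ih _ hw
    · exact (ih w hw).trans h1.reachable

lemma card_le (hG : Cub G) (r : ℕ) (v : V) : (Bl G r v).card ≤ 4 ^ r := by
  induction r with
  | zero =>
    show ({v} : Finset V).card ≤ _
    simp
  | succ r ih =>
    have h1 : Bl G (r + 1) v ⊆ (Bl G r v).biUnion fun y => insert y (nbs G y) := by
      intro x hx
      obtain ⟨y, hy, h⟩ := mem_succ.1 hx
      refine mem_biUnion.2 ⟨y, hy, mem_insert.2 ?_⟩
      rcases h with h | h
      · exact Or.inl h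
      · exact Or.inr (mem_filter.2 ⟨mem_univ _, h⟩)
    refine (Finset.card_le_card h1).trans (card_biUnion_le.trans ?_)
    refine (sum_le_card_nsmul _ _ 4 fun y _ => ?_).trans ?_
    · refine (card_insert_le _ _).trans ?_
      rw [hG y]
    · rw [smul_eq_mul, pow_succ]
      exact Nat.mul_le_mul_right 4 ih

end BallB

open BallB in
/-- **BALL** -/
theorem stmt_BALL : Stmt_BALL := by
  intro V _ G
  exact ⟨mono, symm', trans', fun x y h => adj_mem h, reach, fun hG r v => card_le hG r v⟩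

open BallB in
/-- **MANY** (`K₃ = 4 ^ 200`) -/
theorem stmt_MANY : Stmt_MANY := by
  refine ⟨4 ^ 200, ?_⟩
  intro V _ G hG W
  -- a maximal admissible subset
  obtain ⟨X, hX, hmax⟩ := exists_max_image (W.powerset.filter fun X =>
    ∀ x ∈ X, ∀ y ∈ X, x ≠ y → Disjoint (Bl G 100 x) (Bl G 100 y)) card
    ⟨∅, mem_filter.2 ⟨empty_mem_powerset W, by simp⟩⟩
  have h1 := mem_filter.1 hX
  have hXW := mem_powerset.1 h1.1
  refine ⟨X, hXW, ?_, h1.2⟩
  have h2 : W ⊆ X.biUnion fun x => Bl G 200 x := by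
    intro w hw
    by_contra hc
    have hno : ∀ x ∈ X, Disjoint (Bl G 100 x) (Bl G 100 w) := by
      intro x hx
      rw [disjoint_left]
      intro y hy hy'
      refine hc (mem_biUnion.2 ⟨x, hx, ?_⟩)
      exact trans' 100 100 x y w hy (symm' 100 w y hy')
    have hwX : w ∉ X := fun hwX => hc (mem_biUnion.2 ⟨w, hwX, self_mem 200 w⟩)
    have h3 : insert w X ∈ W.powerset.filter fun X =>
        ∀ x ∈ X, ∀ y ∈ X, x ≠ y → Disjoint (Bl G 100 x) (Bl G 100 y) := by
      refine mem_filter.2 ⟨mem_powerset.2 (insert_subset hw hXW), ?_⟩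
      intro x hx y hy hxy
      rcases mem_insert.1 hx with hx1 | hx1
      · rcases mem_insert.1 hy with hy1 | hy1
        · exact absurd (hx1.trans hy1.symm) hxy
        · rw [hx1]
          exact (hno y hy1).symm
      · rcases mem_insert.1 hy with hy1 | hy1
        · rw [hy1]
          exact hno x hx1
        · exact h1.2 x hx1 y hy1 hxy
    have h4 := hmax _ h3
    rw [card_insert_of_notMem hwX] at h4
    omega
  calc W.card ≤ (X.biUnion fun x => Bl G 200 x).card := Finset.card_le_card h2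
    _ ≤ ∑ x ∈ X, (Bl G 200 x).card := card_biUnion_le
    _ ≤ X.card • (4 ^ 200) := sum_le_card_nsmul _ _ _ fun x _ => card_le hG 200 x
    _ = 4 ^ 200 * X.card := by rw [smul_eq_mul, mul_comm]

end Pool.Agent.Work.MP_1e13ac_Bis
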