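import Pool.Agent.Work.MP_1e13ac_Bis.Interface

/-! MP_1e13ac_co, block VALID (helper99): the conditions on the colouring imply validity. -/

set_option autoImplicit false
set_option linter.unusedSectionVars false
set_option linter.unusedVariables false

namespace Pool.Agent.Work.MP_1e13ac_Bis

open Classical Finset

namespace ValidB

variable {V : Type} [Fintype V]

lemma mem_nbs {G : SimpleGraph V} {x y : V} : y ∈ nbs G x ↔ G.Adj x y := by
  simp [nbs]

/-- A vertex of a cubic graph does not have four different neighbours. -/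
lemma no4 {G : SimpleGraph V} (hG : Cub G) {x a b c d : V} (ha : G.Adj x a) (hb : G.Adj x b)
    (hc : G.Adj x c) (hd : G.Adj x d) (ab : a ≠ b) (ac : a ≠ c) (ad : a ≠ d) (bc : b ≠ c)
    (bd : b ≠ d) (cd : c ≠ d) : False := by
  have h1 : ({a, b, c, d} : Finset V) ⊆ nbs G x := by
    intro y hy
    simp only [mem_insert, mem_singleton] at hy
    rcases hy with rfl | rfl | rfl | rfl <;> exact mem_nbs.2 (by assumption)
  have h2 := card_le_card h1
  rw [hG x] at h2
  have h3 : ({a, b, c, d} : Finset V).card = 4 := by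
    rw [card_insert_of_notMem, card_insert_of_notMem, card_insert_of_notMem, card_singleton]
    · simpa using cd
    · simp only [mem_insert, mem_singleton, not_or]
      exact ⟨bc, bd⟩
    · simp only [mem_insert, mem_singleton, not_or]
      exact ⟨ab, ac, ad⟩
  omega

/-- Monochromatic degree and degree in `F`. -/
lemma md_add_fd {G F : SimpleGraph V} {c : V → Bool} (hG : Cub G) (hF : F ≤ G)
    (halt : ∀ x y, F.Adj x y → c x ≠ c y) (x : V) : md G c x + fd F x ≤ 3 := by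
  have h1 : Disjoint (univ.filter fun y => MA G c x y) (univ.filter fun y => F.Adj x y) := by
    rw [disjoint_left]
    intro y hy hy'
    exact halt x y (mem_filter.1 hy').2 (mem_filter.1 hy).2.2
  have h2 : (univ.filter fun y => MA G c x y) ∪ (univ.filter fun y => F.Adj x y) ⊆ nbs G x := by
    intro y hy
    rcases mem_union.1 hy with h | h
    · exact mem_nbs.2 (mem_filter.1 h).2.1
    · exact mem_nbs.2 (hF (mem_filter.1 h).2)
  have h3 := card_le_card h2
  rw [card_union_of_disjoint h1, hG x] at h3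
  exact h3

lemma two_le_md {G : SimpleGraph V} {c : V → Bool} {x y z : V} (hy : MA G c x y)
    (hz : MA G c x z) (h : y ≠ z) : 2 ≤ md G c x := by
  have h1 : ({y, z} : Finset V) ⊆ univ.filter fun y => MA G c x y := by
    intro w hw
    simp only [mem_insert, mem_singleton] at hw
    rcases hw with rfl | rfl
    · exact mem_filter.2 ⟨mem_univ _, hy⟩
    · exact mem_filter.2 ⟨mem_univ _, hz⟩
  have h2 := card_le_card h1
  rw [card_pair h] at h2
  exact h2

lemma MA.symm' {G : SimpleGraph V} {c : V → Bool} {x y : V} (h : MA G c x y) : MA G c y x :=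
  ⟨h.1.symm, h.2.symm⟩

section
variable {G F : SimpleGraph V} {A : Finset V} {c : V → Bool}

/-- A vertex outside `A` with two monochromatic neighbours has degree one in `F`. -/
lemma fd_one (hG : Cub G) (hFr : Frame G A F) (hCo : Cond G A F c) {x y z : V} (hx : x ∉ A)
    (hy : MA G c x y) (hz : MA G c x z) (h : y ≠ z) : fd F x = 1 := by
  have h1 := two_le_md hy hz h
  have h2 := md_add_fd hG hFr.le hCo.alt x
  rcases Nat.eq_zero_or_pos (fd F x) with h3 | h3
  · have := hCo.triv x hx h3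
    omega
  · omega

/-- The neighbours in `A` of a vertex outside `A` with two monochromatic neighbours. -/
lemma only (hG : Cub G) (hFr : Frame G A F) (hCl : Clo G A c) (hCo : Cond G A F c) {x y z : V}
    (hx : x ∉ A) (hy : MA G c x y) (hz : MA G c x z) (h : y ≠ z) (hzA : z ∈ A) :
    y ∉ A ∧ ∀ a' ∈ A, G.Adj a' x → a' = z := by
  have h1 : y ∉ A := by
    intro hyA
    exact hCl.cl x hx y hyA z hzA h hy.1.symm hz.1.symm (hy.2.symm.trans hz.2)
  refine ⟨h1, fun a' ha' hadj => ?_⟩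
  by_contra hne
  have hfd := fd_one hG hFr hCo hx hy hz h
  unfold fd at hfd
  obtain ⟨f, hf⟩ := card_eq_one.1 hfd
  have hf' : F.Adj x f := by
    have : f ∈ univ.filter fun y => F.Adj x y := by
      rw [hf]
      exact mem_singleton_self f
    exact (mem_filter.1 this).2
  have hfc : c x ≠ c f := hCo.alt x f hf'
  have hfA : f ∉ A := hFr.out f x hf'.symm
  refine no4 hG hy.1 hz.1 (hFr.le hf') hadj.symm h ?_ ?_ ?_ ?_ ?_
  · rintro rfl
    exact hfc hy.2
  · rintro rfl
    exact h1 ha'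
  · rintro rfl
    exact hfc hz.2
  · exact fun h5 => hne h5.symm
  · rintro rfl
    exact hfA ha'

/-- Two consecutive inner vertices outside `A`. -/
lemma two_out (hG : Cub G) (hFr : Frame G A F) (hCo : Cond G A F c) {x₂ x₃ x₄ : V}
    (h2 : x₂ ∉ A) (h3 : x₃ ∉ A) (f2 : fd F x₂ = 1) (f3 : fd F x₃ = 1) (m23 : MA G c x₂ x₃)
    (m34 : MA G c x₃ x₄) (h : x₂ ≠ x₄) (f4 : x₄ ∉ A → fd F x₄ = 1) : False := by
  have nF : ∀ {x y : V}, MA G c x y → ¬ F.Adj x y := fun hm hf => hCo.alt _ _ hf hm.2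
  by_cases h4 : x₄ ∈ A
  · exact hCo.b2 x₃ x₂ h3 h2 m23.1.symm (nF (MA.symm' m23)) f3.le f2.le m23.2.symm x₄ h4 m34.1
      m34.2.symm
  · exact h (hFr.mat x₃ x₂ x₄ h3 h2 h4 f3.le f2.le (f4 h4).le m23.1.symm (nF (MA.symm' m23))
      m34.1 (nF m34))

/-- An inner vertex outside `A` followed by two vertices in `A`. -/
lemma out_in (hG : Cub G) (hFr : Frame G A F) (hCl : Clo G A c) (hCo : Cond G A F c)
    {x₁ x₂ x₃ x₄ x₅ : V} (m12 : MA G c x₁ x₂) (m23 : MA G c x₂ x₃) (m34 : MA G c x₃ x₄)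
    (m45 : MA G c x₄ x₅) (h13 : x₁ ≠ x₃) (h35 : x₃ ≠ x₅)
    (h2 : x₂ ∉ A) (h3 : x₃ ∈ A) (h4 : x₄ ∈ A) : False := by
  obtain ⟨-, h⟩ := only hG hFr hCl hCo h2 (MA.symm' m12) m23 h13 h3
  by_cases h5 : x₅ ∈ A
  · obtain ⟨a', ha', hne, hadj⟩ := hCl.k3 x₃ h3 x₄ h4 x₅ h5 m34 m45 h35 x₂ h2 m23.1.symm
    exact hne (h a' ha' hadj)
  · obtain ⟨a', ha', hne, hadj⟩ := hCl.k2 x₃ h3 x₄ h4 m34 x₂ h2 x₅ h5 m23.1.symm m45.1
    exact hne (h a' ha' hadj)

end

end ValidB

open ValidB in
/-- **VALID** -/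
theorem stmt_VALID : Stmt_VALID := by
  intro V _ G hG A F c hFr hCl hCo
  refine ⟨fun x => ?_, ?_⟩
  · -- degrees
    by_cases hx : x ∈ A
    · obtain ⟨a', _, hadj, hne⟩ := hCl.opp x hx
      have h1 : (univ.filter fun y => MA G c x y) ⊆ (nbs G x).erase a' := by
        intro y hy
        have h2 := (mem_filter.1 hy).2
        refine mem_erase.2 ⟨?_, mem_nbs.2 h2.1⟩
        rintro rfl
        exact hne h2.2.symm
      have h2 := card_le_card h1
      rw [card_erase_of_mem (mem_nbs.2 hadj), hG x] at h2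
      exact h2
    · rcases Nat.eq_zero_or_pos (fd F x) with h3 | h3
      · have := hCo.triv x hx h3
        omega
      · have h2 := md_add_fd hG hFr.le hCo.alt x
        omega
  · intro x₁ x₂ x₃ x₄ x₅ m12 m23 m34 m45 h13 h24 h35
    have f2 : x₂ ∉ A → fd F x₂ = 1 := fun h => fd_one hG hFr hCo h (MA.symm' m12) m23 h13
    have f3 : x₃ ∉ A → fd F x₃ = 1 := fun h => fd_one hG hFr hCo h (MA.symm' m23) m34 h24
    have f4 : x₄ ∉ A → fd F x₄ = 1 := fun h => fd_one hG hFr hCo h (MA.symm' m34) m45 h35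
    by_cases h2 : x₂ ∈ A
    · by_cases h3 : x₃ ∈ A
      · by_cases h4 : x₄ ∈ A
        · by_cases h1 : x₁ ∈ A
          · by_cases h5 : x₅ ∈ A
            · exact hCl.nb4 x₁ h1 x₂ h2 x₃ h3 x₄ h4 x₅ h5 m12 m23 m34 m45 h13 h24 h35
            · exact hCl.k4 x₄ h4 x₃ h3 x₂ h2 x₁ h1 (MA.symm' m34) (MA.symm' m23)
                (MA.symm' m12) h24.symm h13.symm x₅ h5 m45.1
          · by_cases h5 : x₅ ∈ A
            · exact hCl.k4 x₂ h2 x₃ h3 x₄ h4 x₅ h5 m23 m34 m45 h24 h35 x₁ h1 m12.1.symm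
            · exact hCl.k3' x₂ h2 x₃ h3 x₄ h4 m23 m34 h24 x₁ h1 x₅ h5 m12.1.symm m45.1
        · exact out_in hG hFr hCl hCo (MA.symm' m45) (MA.symm' m34) (MA.symm' m23)
            (MA.symm' m12) h35.symm h13.symm h4 h3 h2
      · by_cases h4 : x₄ ∈ A
        · exact hCl.cl x₃ h3 x₂ h2 x₄ h4 h24 m23.1 m34.1.symm (m23.2.trans m34.2)
        · exact two_out hG hFr hCo h4 h3 (f4 h4) (f3 h3) (MA.symm' m34) (MA.symm' m23)
            h24.symm f2
    · by_cases h3 : x₃ ∈ A
      · by_cases h4 : x₄ ∈ A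
        · exact out_in hG hFr hCl hCo m12 m23 m34 m45 h13 h35 h2 h3 h4
        · obtain ⟨-, o2⟩ := only hG hFr hCl hCo h2 (MA.symm' m12) m23 h13 h3
          obtain ⟨-, o4⟩ := only hG hFr hCl hCo h4 m45 (MA.symm' m34) h35.symm h3
          exact hCo.b1 x₃ h3 x₂ x₄ h24 h2 h4 m23.1.symm m34.1 (f2 h2) (f4 h4) o2 o4 m23.2
            m34.2.symm
      · exact two_out hG hFr hCo h2 h3 (f2 h2) (f3 h3) m23 m34 h24 f4

end Pool.Agent.Work.MP_1e13ac_Bis
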