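import Pool.Agent.Work.MP_1e13ac_Bis.BALL
import Pool.Agent.Work.MP_1e13ac_Bis.VALID

/-! MP_1e13ac_co, block CLOSE (helper99): closure of a gadget. -/

set_option autoImplicit false
set_option linter.unusedSectionVars false
set_option linter.unusedVariables false

namespace Pool.Agent.Work.MP_1e13ac_Bis

open Classical Finset

noncomputable section

namespace CloseB

open ValidB

variable {V : Type} [Fintype V] {G : SimpleGraph V}

/-- Weight of the pair of a vertex `a` of `A` and a vertex `w` outside `A`. -/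
def wt (G : SimpleGraph V) (A : Finset V) (c : V → Bool) (a w : V) : ℕ :=
  if ∃ a' ∈ A, a' ≠ a ∧ G.Adj a' w ∧ c a' = c a then 0
  else if ∃ a' ∈ A, a' ≠ a ∧ G.Adj a' w then 1 else 2

/-- The invariant. -/
structure Inv (G : SimpleGraph V) (A : Finset V) (c : V → Bool) : Prop where
  opp : ∀ a ∈ A, ∃ a' ∈ A, G.Adj a a' ∧ c a' ≠ c a
  nb4 : ∀ a₁ ∈ A, ∀ a₂ ∈ A, ∀ a₃ ∈ A, ∀ a₄ ∈ A, ∀ a₅ ∈ A,
    MA G c a₁ a₂ → MA G c a₂ a₃ → MA G c a₃ a₄ → MA G c a₄ a₅ →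
    a₁ ≠ a₃ → a₂ ≠ a₄ → a₃ ≠ a₅ → False
  j2 : ∀ a₁ ∈ A, ∀ a₂ ∈ A, MA G c a₁ a₂ → ∀ w₁, w₁ ∉ A → ∀ w₂, w₂ ∉ A →
    G.Adj a₁ w₁ → G.Adj a₂ w₂ → wt G A c a₁ w₁ + wt G A c a₂ w₂ ≤ 2
  j3 : ∀ a₁ ∈ A, ∀ a₂ ∈ A, ∀ a₃ ∈ A, MA G c a₁ a₂ → MA G c a₂ a₃ → a₁ ≠ a₃ →
    ∀ w, w ∉ A → G.Adj a₁ w → wt G A c a₁ w ≤ 1
  j3' : ∀ a₁ ∈ A, ∀ a₂ ∈ A, ∀ a₃ ∈ A, MA G c a₁ a₂ → MA G c a₂ a₃ → a₁ ≠ a₃ →
    ∀ w₁, w₁ ∉ A → ∀ w₃, w₃ ∉ A → G.Adj a₁ w₁ → G.Adj a₃ w₃ →
      wt G A c a₁ w₁ + wt G A c a₃ w₃ ≤ 1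
  j4 : ∀ a₁ ∈ A, ∀ a₂ ∈ A, ∀ a₃ ∈ A, ∀ a₄ ∈ A, MA G c a₁ a₂ → MA G c a₂ a₃ →
    MA G c a₃ a₄ → a₁ ≠ a₃ → a₂ ≠ a₄ → ∀ w, w ∉ A → G.Adj a₁ w → wt G A c a₁ w = 0

lemma inv_of_pre {A : Finset V} {c : V → Bool} (h : Pre G A c) : Inv G A c := by
  refine ⟨h.opp, h.nb4, ?_, ?_, ?_, ?_⟩
  · intro a₁ h1 a₂ h2 m w₁ hw₁ w₂ hw₂ e1 e2
    exact absurd e2 ((h.k2 a₁ h1 a₂ h2 m w₁ hw₁ e1).1 w₂ hw₂)
  · intro a₁ h1 a₂ h2 a₃ h3 m12 m23 hne w hw e
    exact absurd ((h.k2 a₁ h1 a₂ h2 m12 w hw e).2 a₃ h3 m23).symm hne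
  · intro a₁ h1 a₂ h2 a₃ h3 m12 m23 hne w hw w₃ hw₃ e e3
    exact absurd ((h.k2 a₁ h1 a₂ h2 m12 w hw e).2 a₃ h3 m23).symm hne
  · intro a₁ h1 a₂ h2 a₃ h3 a₄ h4 m12 m23 m34 hne hne' w hw e
    exact absurd ((h.k2 a₁ h1 a₂ h2 m12 w hw e).2 a₃ h3 m23).symm hne

/-- If no vertex outside has two neighbours of the same colour, the invariant is `Clo`. -/
lemma clo_of_inv {A : Finset V} {c : V → Bool} (h : Inv G A c)
    (hcl : ∀ w, w ∉ A → ∀ a ∈ A, ∀ a' ∈ A, a ≠ a' → G.Adj a w → G.Adj a' w → c a ≠ c a') :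
    Clo G A c := by
  have h0 : ∀ a ∈ A, ∀ w, w ∉ A → G.Adj a w →
      ¬ ∃ a' ∈ A, a' ≠ a ∧ G.Adj a' w ∧ c a' = c a := by
    rintro a ha w hw e ⟨a', ha', hne, e', hc⟩
    exact hcl w hw a' ha' a ha hne e' e hc
  have h1 : ∀ a ∈ A, ∀ w, w ∉ A → G.Adj a w → 1 ≤ wt G A c a w := by
    intro a ha w hw e
    unfold wt
    rw [if_neg (h0 a ha w hw e)]
    split_ifs <;> omega
  have h2 : ∀ a ∈ A, ∀ w, w ∉ A → G.Adj a w → wt G A c a w ≤ 1 →
      ∃ a' ∈ A, a' ≠ a ∧ G.Adj a' w := by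
    intro a ha w hw e hle
    by_contra hc
    unfold wt at hle
    rw [if_neg (h0 a ha w hw e), if_neg hc] at hle
    omega
  refine ⟨h.opp, h.nb4, ?_, ?_, ?_, ?_, hcl⟩
  · intro a₁ g1 a₂ g2 m w₁ hw₁ w₂ hw₂ e1 e2
    have h3 := h.j2 a₁ g1 a₂ g2 m w₁ hw₁ w₂ hw₂ e1 e2
    have h4 := h1 a₂ g2 w₂ hw₂ e2
    exact h2 a₁ g1 w₁ hw₁ e1 (by omega)
  · intro a₁ g1 a₂ g2 a₃ g3 m12 m23 hne w hw e
    exact h2 a₁ g1 w hw e (h.j3 a₁ g1 a₂ g2 a₃ g3 m12 m23 hne w hw e)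
  · intro a₁ g1 a₂ g2 a₃ g3 m12 m23 hne w hw w₃ hw₃ e e3
    have h3 := h.j3' a₁ g1 a₂ g2 a₃ g3 m12 m23 hne w hw w₃ hw₃ e e3
    have h4 := h1 a₁ g1 w hw e
    have h5 := h1 a₃ g3 w₃ hw₃ e3
    omega
  · intro a₁ g1 a₂ g2 a₃ g3 a₄ g4 m12 m23 m34 hne hne' w hw e
    have h3 := h.j4 a₁ g1 a₂ g2 a₃ g3 a₄ g4 m12 m23 m34 hne hne' w hw e
    have h4 := h1 a₁ g1 w hw e
    omega

/-- One step of the closure. -/
lemma step (hG : Cub G) {A : Finset V} {c : V → Bool} (h : Inv G A c) {w a a' : V}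
    (hw : w ∉ A) (ha : a ∈ A) (ha' : a' ∈ A) (hne : a ≠ a') (haw : G.Adj a w)
    (haw' : G.Adj a' w) (hc : c a = c a') :
    Inv G (insert w A) (Function.update c w (!(c a))) := by
  set c' := Function.update c w (!(c a)) with hc'_def
  have hcA : ∀ x ∈ A, c' x = c x := by
    intro x hx
    rw [hc'_def, Function.update_of_ne]
    rintro rfl
    exact hw hx
  have hcn : ∀ x, x ≠ w → c' x = c x := by
    intro x hx
    rw [hc'_def, Function.update_of_ne hx]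
  have hcw : c' w = !(c a) := by rw [hc'_def, Function.update_self]
  have hm : ∀ x ∈ A, ∀ y ∈ A, MA G c' x y → MA G c x y := by
    intro x hx y hy hxy
    refine ⟨hxy.1, ?_⟩
    rw [← hcA x hx, ← hcA y hy]
    exact hxy.2
  -- monochromatic neighbours of `w`
  have hnw : ∀ x, MA G c' w x → x ≠ a ∧ x ≠ a' := by
    intro x hx
    have h1 : c' w = c' x := hx.2
    have h2 : x ≠ w := hx.1.ne'
    rw [hcw, hcn x h2] at h1
    constructor
    · rintro rfl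
      simp at h1
    · rintro rfl
      rw [← hc] at h1
      simp at h1
  have uniq : ∀ x y, MA G c' w x → MA G c' w y → x = y := by
    intro x y hx hy
    by_contra hxy
    exact no4 hG hx.1 hy.1 haw.symm haw'.symm hxy (hnw x hx).1 (hnw x hx).2 (hnw y hy).1
      (hnw y hy).2 hne
  have noout : ∀ x ∈ A, MA G c' w x → ∀ w', w' ∉ A → ¬ G.Adj w w' := by
    intro x hx hmx w' hw' e
    refine no4 hG hmx.1 e haw.symm haw'.symm ?_ (hnw x hmx).1 (hnw x hmx).2 ?_ ?_ hne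
    · rintro rfl
      exact hw' hx
    · rintro rfl
      exact hw' ha
    · rintro rfl
      exact hw' ha'
  have wt1 : ∀ x ∈ A, MA G c' w x → 1 ≤ wt G A c x w := by
    intro x hx hmx
    have h1 : ¬ ∃ a'' ∈ A, a'' ≠ x ∧ G.Adj a'' w ∧ c a'' = c x := by
      rintro ⟨b, hb, hbx, hbw, hbc⟩
      have h2 : MA G c' w b := by
        refine ⟨hbw.symm, ?_⟩
        rw [hcA b hb, hbc, ← hcA x hx]
        exact hmx.2
      exact hbx (uniq b x h2 hmx)
    unfold wt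
    rw [if_neg h1]
    split_ifs <;> omega
  have wtm : ∀ x ∈ A, ∀ w', w' ∉ insert w A → wt G (insert w A) c' x w' ≤ wt G A c x w' := by
    intro x hx w' hw'
    unfold wt
    by_cases h1 : ∃ a'' ∈ A, a'' ≠ x ∧ G.Adj a'' w' ∧ c a'' = c x
    · have h2 : ∃ a'' ∈ insert w A, a'' ≠ x ∧ G.Adj a'' w' ∧ c' a'' = c' x := by
        obtain ⟨b, hb, h3, h4, h5⟩ := h1
        exact ⟨b, mem_insert_of_mem hb, h3, h4, by rw [hcA b hb, hcA x hx, h5]⟩
      rw [if_pos h1, if_pos h2]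
    · rw [if_neg h1]
      by_cases h6 : ∃ a'' ∈ A, a'' ≠ x ∧ G.Adj a'' w'
      · have h7 : ∃ a'' ∈ insert w A, a'' ≠ x ∧ G.Adj a'' w' := by
          obtain ⟨b, hb, h3, h4⟩ := h6
          exact ⟨b, mem_insert_of_mem hb, h3, h4⟩
        rw [if_pos h6, if_pos h7]
        split_ifs <;> omega
      · rw [if_neg h6]
        split_ifs <;> omega
  have hA : ∀ x, x ∈ insert w A → x ≠ w → x ∈ A := fun x hx hxw =>
    (mem_insert.1 hx).resolve_left hxw
  have hO : ∀ x, x ∉ insert w A → x ∉ A := fun x hx hx' => hx (mem_insert_of_mem hx')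
  refine ⟨?_, ?_, ?_, ?_, ?_, ?_⟩
  · -- opp
    intro x hx
    by_cases hxw : x = w
    · subst hxw
      refine ⟨a, mem_insert_of_mem ha, haw.symm, ?_⟩
      rw [hcw, hcA a ha]
      simp
    · obtain ⟨b, hb, h1, h2⟩ := h.opp x (hA x hx hxw)
      exact ⟨b, mem_insert_of_mem hb, h1, by rw [hcA b hb, hcA x (hA x hx hxw)]; exact h2⟩
  · -- nb4
    intro b1 h1 b2 h2 b3 h3 b4 h4 b5 h5 m12 m23 m34 m45 n13 n24 n35
    have g2 : b2 ≠ w := by
      rintro rfl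
      exact n13 (uniq b1 b3 (MA.symm' m12) m23)
    have g3 : b3 ≠ w := by
      rintro rfl
      exact n24 (uniq b2 b4 (MA.symm' m23) m34)
    have g4 : b4 ≠ w := by
      rintro rfl
      exact n35 (uniq b3 b5 (MA.symm' m34) m45)
    have k2 := hA b2 h2 g2
    have k3 := hA b3 h3 g3
    have k4 := hA b4 h4 g4
    by_cases g1 : b1 = w
    · subst g1
      have g5 : b5 ≠ b1 := by
        rintro rfl
        exact n24 (uniq b2 b4 m12 (MA.symm' m45))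
      have k5 := hA b5 h5 g5
      have h6 := h.j4 b2 k2 b3 k3 b4 k4 b5 k5 (hm _ k2 _ k3 m23) (hm _ k3 _ k4 m34)
        (hm _ k4 _ k5 m45) n24 n35 b1 hw m12.1.symm
      have h7 := wt1 b2 k2 m12
      omega
    · have k1 := hA b1 h1 g1
      by_cases g5 : b5 = w
      · subst g5
        have h6 := h.j4 b4 k4 b3 k3 b2 k2 b1 k1 (hm _ k4 _ k3 (MA.symm' m34))
          (hm _ k3 _ k2 (MA.symm' m23)) (hm _ k2 _ k1 (MA.symm' m12)) n24.symm n13.symm b5 hw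
          m45.1
        have h7 := wt1 b4 k4 (MA.symm' m45)
        omega
      · have k5 := hA b5 h5 g5
        exact h.nb4 b1 k1 b2 k2 b3 k3 b4 k4 b5 k5 (hm _ k1 _ k2 m12) (hm _ k2 _ k3 m23)
          (hm _ k3 _ k4 m34) (hm _ k4 _ k5 m45) n13 n24 n35
  · -- j2
    intro b1 h1 b2 h2 m w1 hw1 w2 hw2 e1 e2
    have g1 : b1 ≠ w := by
      rintro rfl
      have g2 : b2 ≠ b1 := m.1.ne'
      exact noout b2 (hA b2 h2 g2) m w1 (hO w1 hw1) e1
    have g2 : b2 ≠ w := by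
      rintro rfl
      exact noout b1 (hA b1 h1 g1) (MA.symm' m) w2 (hO w2 hw2) e2
    have k1 := hA b1 h1 g1
    have k2 := hA b2 h2 g2
    have h3 := h.j2 b1 k1 b2 k2 (hm _ k1 _ k2 m) w1 (hO w1 hw1) w2 (hO w2 hw2) e1 e2
    have h4 := wtm b1 k1 w1 hw1
    have h5 := wtm b2 k2 w2 hw2
    omega
  · -- j3
    intro b1 h1 b2 h2 b3 h3 m12 m23 n13 w1 hw1 e1
    have g2 : b2 ≠ w := by
      rintro rfl
      exact n13 (uniq b1 b3 (MA.symm' m12) m23)
    have k2 := hA b2 h2 g2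
    have g1 : b1 ≠ w := by
      rintro rfl
      exact noout b2 k2 m12 w1 (hO w1 hw1) e1
    have k1 := hA b1 h1 g1
    have h4 := wtm b1 k1 w1 hw1
    by_cases g3 : b3 = w
    · subst g3
      have h5 := h.j2 b1 k1 b2 k2 (hm _ k1 _ k2 m12) w1 (hO w1 hw1) b3 hw e1 m23.1
      have h6 := wt1 b2 k2 (MA.symm' m23)
      omega
    · have k3 := hA b3 h3 g3
      have h5 := h.j3 b1 k1 b2 k2 b3 k3 (hm _ k1 _ k2 m12) (hm _ k2 _ k3 m23) n13 w1
        (hO w1 hw1) e1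
      omega
  · -- j3'
    intro b1 h1 b2 h2 b3 h3 m12 m23 n13 w1 hw1 w3 hw3 e1 e3
    have g2 : b2 ≠ w := by
      rintro rfl
      exact n13 (uniq b1 b3 (MA.symm' m12) m23)
    have k2 := hA b2 h2 g2
    have g1 : b1 ≠ w := by
      rintro rfl
      exact noout b2 k2 m12 w1 (hO w1 hw1) e1
    have g3 : b3 ≠ w := by
      rintro rfl
      exact noout b2 k2 (MA.symm' m23) w3 (hO w3 hw3) e3
    have k1 := hA b1 h1 g1
    have k3 := hA b3 h3 g3
    have h5 := h.j3' b1 k1 b2 k2 b3 k3 (hm _ k1 _ k2 m12) (hm _ k2 _ k3 m23) n13 w1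
        (hO w1 hw1) w3 (hO w3 hw3) e1 e3
    have h6 := wtm b1 k1 w1 hw1
    have h7 := wtm b3 k3 w3 hw3
    omega
  · -- j4
    intro b1 h1 b2 h2 b3 h3 b4 h4 m12 m23 m34 n13 n24 w1 hw1 e1
    have g2 : b2 ≠ w := by
      rintro rfl
      exact n13 (uniq b1 b3 (MA.symm' m12) m23)
    have g3 : b3 ≠ w := by
      rintro rfl
      exact n24 (uniq b2 b4 (MA.symm' m23) m34)
    have k2 := hA b2 h2 g2
    have k3 := hA b3 h3 g3
    have g1 : b1 ≠ w := by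
      rintro rfl
      exact noout b2 k2 m12 w1 (hO w1 hw1) e1
    have k1 := hA b1 h1 g1
    have h6 := wtm b1 k1 w1 hw1
    by_cases g4 : b4 = w
    · subst g4
      have h5 := h.j3' b1 k1 b2 k2 b3 k3 (hm _ k1 _ k2 m12) (hm _ k2 _ k3 m23) n13 w1
        (hO w1 hw1) b4 hw e1 m34.1
      have h7 := wt1 b3 k3 (MA.symm' m34)
      omega
    · have k4 := hA b4 h4 g4
      have h5 := h.j4 b1 k1 b2 k2 b3 k3 b4 k4 (hm _ k1 _ k2 m12) (hm _ k2 _ k3 m23)
        (hm _ k3 _ k4 m34) n13 n24 w1 (hO w1 hw1) e1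
      omega

/-- The edges which leave `A`. -/
def out (G : SimpleGraph V) (A : Finset V) : Finset (V × V) :=
  univ.filter fun p => p.1 ∈ A ∧ p.2 ∉ A ∧ G.Adj p.1 p.2

lemma out_le (hG : Cub G) (A : Finset V) : (out G A).card ≤ 3 * A.card := by
  have h1 : out G A ⊆ A.biUnion fun a => (nbs G a).image fun y => (a, y) := by
    intro p hp
    have h2 := (mem_filter.1 hp).2
    exact mem_biUnion.2 ⟨p.1, h2.1, mem_image.2 ⟨p.2, mem_nbs.2 h2.2.2, rfl⟩⟩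
  refine (card_le_card h1).trans (card_biUnion_le.trans ?_)
  refine (sum_le_card_nsmul _ _ 3 fun a _ => ?_).trans ?_
  · exact card_image_le.trans (hG a).le
  · rw [smul_eq_mul, mul_comm]

lemma out_step (hG : Cub G) {A : Finset V} {w a a' : V} (hw : w ∉ A) (ha : a ∈ A)
    (ha' : a' ∈ A) (hne : a ≠ a') (haw : G.Adj a w) (haw' : G.Adj a' w) :
    (out G (insert w A)).card + 1 ≤ (out G A).card := by
  have h1 : out G (insert w A) ⊆ (((out G A).erase (a, w)).erase (a', w)) ∪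
      ((((nbs G w).erase a).erase a').image fun y => (w, y)) := by
    intro p hp
    obtain ⟨h2, h3, h4⟩ := (mem_filter.1 hp).2
    have h5 : p.2 ∉ A := fun h => h3 (mem_insert_of_mem h)
    have h6 : p.2 ≠ w := fun h => h3 (mem_insert.2 (Or.inl h))
    rcases mem_insert.1 h2 with h7 | h7
    · refine mem_union_right _ (mem_image.2 ⟨p.2, ?_, ?_⟩)
      · refine mem_erase.2 ⟨?_, mem_erase.2 ⟨?_, mem_nbs.2 (h7 ▸ h4)⟩⟩
        · rintro h8
          exact h5 (h8 ▸ ha')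
        · rintro h8
          exact h5 (h8 ▸ ha)
      · exact Prod.ext h7.symm rfl
    · refine mem_union_left _ (mem_erase.2 ⟨?_, mem_erase.2 ⟨?_, ?_⟩⟩)
      · rintro h8
        exact h6 (by rw [h8])
      · rintro h8
        exact h6 (by rw [h8])
      · exact mem_filter.2 ⟨mem_univ _, h7, h5, h4⟩
  have h2 : (a, w) ∈ out G A := mem_filter.2 ⟨mem_univ _, ha, hw, haw⟩
  have h3 : (a', w) ∈ (out G A).erase (a, w) := by
    refine mem_erase.2 ⟨?_, mem_filter.2 ⟨mem_univ _, ha', hw, haw'⟩⟩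
    intro h4
    exact hne (Prod.mk.inj h4).1.symm
  have h4 : a' ∈ (nbs G w).erase a := mem_erase.2 ⟨hne.symm, mem_nbs.2 haw'.symm⟩
  have h5 : a ∈ nbs G w := mem_nbs.2 haw.symm
  have h6 : ((((nbs G w).erase a).erase a').image fun y => (w, y)).card ≤ 1 := by
    refine card_image_le.trans ?_
    rw [card_erase_of_mem h4, card_erase_of_mem h5, hG w]
  have h7 : (((out G A).erase (a, w)).erase (a', w)).card + 2 = (out G A).card := by
    have h8 := card_erase_add_one h3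
    have h9 := card_erase_add_one h2
    omega
  have h8 := (card_le_card h1).trans (card_union_le _ _)
  omega

/-- The closure. -/
lemma closure (hG : Cub G) : ∀ (e : ℕ) (A : Finset V) (c : V → Bool), Inv G A c →
    (out G A).card ≤ e → ∃ (A' : Finset V) (c' : V → Bool), A ⊆ A' ∧ (∀ x ∈ A, c' x = c x) ∧
      Clo G A' c' ∧ ∀ x ∈ A', ∃ a ∈ A, x ∈ Bl G e a := by
  intro e
  induction e with
  | zero =>
    intro A c h he
    refine ⟨A, c, Subset.refl _, fun _ _ => rfl, clo_of_inv h ?_,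
      fun x hx => ⟨x, hx, BallB.self_mem 0 x⟩⟩
    intro w hw a ha a' ha' hne haw haw' hc
    have h1 := out_step hG hw ha ha' hne haw haw'
    omega
  | succ e ih =>
    intro A c h he
    by_cases hcl : ∀ w, w ∉ A → ∀ a ∈ A, ∀ a' ∈ A, a ≠ a' → G.Adj a w → G.Adj a' w → c a ≠ c a'
    · exact ⟨A, c, Subset.refl _, fun _ _ => rfl, clo_of_inv h hcl,
        fun x hx => ⟨x, hx, BallB.self_mem (e + 1) x⟩⟩
    · push Not at hcl
      obtain ⟨w, hw, a, ha, a', ha', hne, haw, haw', hc⟩ := hcl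
      have h1 := out_step hG hw ha ha' hne haw haw'
      obtain ⟨A', c', hsub, hcc, hClo, hball⟩ := ih (insert w A)
        (Function.update c w (!(c a))) (step hG h hw ha ha' hne haw haw' hc) (by omega)
      refine ⟨A', c', (subset_insert w A).trans hsub, ?_, hClo, ?_⟩
      · intro x hx
        rw [hcc x (mem_insert_of_mem hx), Function.update_of_ne]
        rintro rfl
        exact hw hx
      · intro x hx
        obtain ⟨b, hb, hxb⟩ := hball x hx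
        rcases mem_insert.1 hb with rfl | hb
        · refine ⟨a, ha, ?_⟩
          have h2 := BallB.trans' 1 e a b x (BallB.adj_mem haw) hxb
          rwa [Nat.add_comm] at h2
        · exact ⟨b, hb, BallB.mono_succ e b hxb⟩

/-- The statistics on `U` only depend on the colours in `A`. -/
lemma st_congr {A U : Finset V} {c c' : V → Bool} (hsub : U ⊆ A)
    (hnb : ∀ u ∈ U, ∀ w, G.Adj u w → w ∈ A)
    (hbi : ∀ u ∈ U, ∀ b ∈ A, b ∉ U → G.Adj u b → c u ≠ c b) (hcc : ∀ x ∈ A, c' x = c x) :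
    st G c' U = st G c U := by
  have hMA : ∀ u ∈ U, ∀ y, MA G c' u y ↔ MA G c u y := by
    intro u hu y
    constructor
    · rintro ⟨h1, h2⟩
      refine ⟨h1, ?_⟩
      rw [← hcc u (hsub hu), ← hcc y (hnb u hu y h1)]
      exact h2
    · rintro ⟨h1, h2⟩
      refine ⟨h1, ?_⟩
      rw [hcc u (hsub hu), hcc y (hnb u hu y h1)]
      exact h2
  have hmd : ∀ u ∈ U, md G c' u = md G c u := by
    intro u hu
    unfold md
    congr 1
    exact filter_congr fun y _ => hMA u hu y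
  have hin : ∀ u ∈ U, ∀ y, MA G c u y → y ∈ U := by
    intro u hu y hy
    by_contra hyU
    exact hbi u hu y (hnb u hu y hy.1) hyU hy.1 hy.2
  have h1 : ∀ u ∈ U, sg (c' u) = sg (c u) := fun u hu => by rw [hcc u (hsub hu)]
  have h2 : ∀ u ∈ U, locP G c' u = locP G c u := by
    intro u hu
    unfold locP
    rw [hmd u hu, h1 u hu]
  have h3 : ∀ u ∈ U, locQ G c' u = locQ G c u := by
    intro u hu
    unfold locQ
    have h4 : (md G c' u = 2 ∧ ∃ y, MA G c' u y ∧ md G c' y = 2) ↔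
        (md G c u = 2 ∧ ∃ y, MA G c u y ∧ md G c y = 2) := by
      rw [hmd u hu]
      refine and_congr_right fun _ => exists_congr fun y => ?_
      rw [hMA u hu y]
      refine and_congr_right fun hy => ?_
      rw [hmd y (hin u hu y hy)]
    rw [h1 u hu]
    by_cases h5 : md G c u = 2 ∧ ∃ y, MA G c u y ∧ md G c y = 2
    · rw [if_pos h5, if_pos (h4.2 h5)]
    · rw [if_neg h5, if_neg (fun h6 => h5 (h4.1 h6))]
  unfold st
  rw [sum_congr rfl h1, sum_congr rfl h2, sum_congr rfl h3]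

end CloseB

open CloseB ValidB in
/-- **CLOSE** -/
theorem stmt_CLOSE : Stmt_CLOSE := by
  intro V _ G hG A U c1 c2 h
  obtain ⟨A', c1', hAA, hcc, hClo, hball⟩ := closure hG (3 * A.card) A c1
    (inv_of_pre h.q1) (out_le hG A)
  set c2' : V → Bool := fun x => if x ∈ U then c2 x else c1' x with hc2'
  have hU : ∀ x ∈ U, c2' x = c2 x := fun x hx => by rw [hc2']; exact if_pos hx
  have hnU : ∀ x, x ∉ U → c2' x = c1' x := fun x hx => by rw [hc2']; exact if_neg hx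
  have hcc2 : ∀ x ∈ A, c2' x = c2 x := by
    intro x hx
    by_cases hxU : x ∈ U
    · exact hU x hxU
    · rw [hnU x hxU, hcc x hx, h.agree x hxU]
  have bi1 : ∀ u ∈ U, ∀ b ∈ A', b ∉ U → G.Adj u b → c1' u ≠ c1' b := by
    intro u hu b hb hbU e
    have hbA := h.nb u hu b e
    rw [hcc u (h.sub hu), hcc b hbA]
    exact h.bi1 u hu b hbA hbU e
  have bi2 : ∀ u ∈ U, ∀ b ∈ A', b ∉ U → G.Adj u b → c2' u ≠ c2' b := by
    intro u hu b hb hbU e
    have hbA := h.nb u hu b e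
    rw [hcc2 u (h.sub hu), hcc2 b hbA]
    exact h.bi2 u hu b hbA hbU e
  have nbU : ∀ u ∈ U, ∀ w, w ∉ A' → ¬ G.Adj u w := fun u hu w hw e => hw (hAA (h.nb u hu w e))
  -- monochromatic edges for `c2'`
  have stay : ∀ x ∈ A', ∀ y ∈ A', MA G c2' x y → x ∉ U → y ∉ U := by
    intro x hx y hy hxy hxU hyU
    exact bi2 y hyU x hx hxU hxy.1.symm hxy.2.symm
  have tr : ∀ x y, x ∉ U → y ∉ U → MA G c2' x y → MA G c1' x y := by
    intro x y hx hy hxy
    refine ⟨hxy.1, ?_⟩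
    rw [← hnU x hx, ← hnU y hy]
    exact hxy.2
  have trU : ∀ x ∈ A, ∀ y ∈ A, MA G c2' x y → MA G c2 x y := by
    intro x hx y hy hxy
    refine ⟨hxy.1, ?_⟩
    rw [← hcc2 x hx, ← hcc2 y hy]
    exact hxy.2
  refine ⟨A', c1', c2', hAA, ⟨h.sub.trans hAA, fun u hu w e => hAA (h.nb u hu w e),
    fun x hx => (hnU x hx).symm, bi1, bi2, hClo, ?_⟩, ?_, hball⟩
  · refine ⟨?_, ?_, ?_, ?_, ?_, ?_, ?_⟩
    · -- opp
      intro a ha
      by_cases haU : a ∈ U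
      · obtain ⟨a', ha', e, hne⟩ := h.q2.opp a (h.sub haU)
        refine ⟨a', hAA ha', e, ?_⟩
        rw [hcc2 a (h.sub haU), hcc2 a' ha']
        exact hne
      · obtain ⟨a', ha', e, hne⟩ := hClo.opp a ha
        refine ⟨a', ha', e, ?_⟩
        by_cases ha'U : a' ∈ U
        · exact bi2 a' ha'U a ha haU e.symm
        · rw [hnU a haU, hnU a' ha'U]
          exact hne
    · -- nb4
      intro a1 h1 a2 h2 a3 h3 a4 h4 a5 h5 m12 m23 m34 m45 n13 n24 n35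
      by_cases hU1 : a1 ∈ U
      · have hU2 : a2 ∈ U := by
          by_contra hc
          exact stay a2 h2 a1 h1 (MA.symm' m12) hc hU1
        have hU3 : a3 ∈ U := by
          by_contra hc
          exact stay a3 h3 a2 h2 (MA.symm' m23) hc hU2
        have hU4 : a4 ∈ U := by
          by_contra hc
          exact stay a4 h4 a3 h3 (MA.symm' m34) hc hU3
        have hU5 : a5 ∈ U := by
          by_contra hc
          exact stay a5 h5 a4 h4 (MA.symm' m45) hc hU4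
        exact h.q2.nb4 a1 (h.sub hU1) a2 (h.sub hU2) a3 (h.sub hU3) a4 (h.sub hU4) a5
          (h.sub hU5) (trU _ (h.sub hU1) _ (h.sub hU2) m12) (trU _ (h.sub hU2) _ (h.sub hU3) m23)
          (trU _ (h.sub hU3) _ (h.sub hU4) m34) (trU _ (h.sub hU4) _ (h.sub hU5) m45)
          n13 n24 n35
      · have hU2 := stay a1 h1 a2 h2 m12 hU1
        have hU3 := stay a2 h2 a3 h3 m23 hU2
        have hU4 := stay a3 h3 a4 h4 m34 hU3
        have hU5 := stay a4 h4 a5 h5 m45 hU4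
        exact hClo.nb4 a1 h1 a2 h2 a3 h3 a4 h4 a5 h5 (tr _ _ hU1 hU2 m12) (tr _ _ hU2 hU3 m23)
          (tr _ _ hU3 hU4 m34) (tr _ _ hU4 hU5 m45) n13 n24 n35
    · -- k2
      intro a1 h1 a2 h2 m w1 hw1 w2 hw2 e1 e2
      have hU1 : a1 ∉ U := fun hc => nbU a1 hc w1 hw1 e1
      have hU2 := stay a1 h1 a2 h2 m hU1
      exact hClo.k2 a1 h1 a2 h2 (tr _ _ hU1 hU2 m) w1 hw1 w2 hw2 e1 e2
    · -- k3
      intro a1 h1 a2 h2 a3 h3 m12 m23 n13 w hw e
      have hU1 : a1 ∉ U := fun hc => nbU a1 hc w hw e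
      have hU2 := stay a1 h1 a2 h2 m12 hU1
      have hU3 := stay a2 h2 a3 h3 m23 hU2
      exact hClo.k3 a1 h1 a2 h2 a3 h3 (tr _ _ hU1 hU2 m12) (tr _ _ hU2 hU3 m23) n13 w hw e
    · -- k3'
      intro a1 h1 a2 h2 a3 h3 m12 m23 n13 w hw w3 hw3 e e3
      have hU1 : a1 ∉ U := fun hc => nbU a1 hc w hw e
      have hU2 := stay a1 h1 a2 h2 m12 hU1
      have hU3 := stay a2 h2 a3 h3 m23 hU2
      exact hClo.k3' a1 h1 a2 h2 a3 h3 (tr _ _ hU1 hU2 m12) (tr _ _ hU2 hU3 m23) n13 w hw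
        w3 hw3 e e3
    · -- k4
      intro a1 h1 a2 h2 a3 h3 a4 h4 m12 m23 m34 n13 n24 w hw e
      have hU1 : a1 ∉ U := fun hc => nbU a1 hc w hw e
      have hU2 := stay a1 h1 a2 h2 m12 hU1
      have hU3 := stay a2 h2 a3 h3 m23 hU2
      have hU4 := stay a3 h3 a4 h4 m34 hU3
      exact hClo.k4 a1 h1 a2 h2 a3 h3 a4 h4 (tr _ _ hU1 hU2 m12) (tr _ _ hU2 hU3 m23)
        (tr _ _ hU3 hU4 m34) n13 n24 w hw e
    · -- cl
      intro w hw a ha a' ha' hne e e'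
      have hU1 : a ∉ U := fun hc => nbU a hc w hw e
      have hU2 : a' ∉ U := fun hc => nbU a' hc w hw e'
      rw [hnU a hU1, hnU a' hU2]
      exact hClo.cl w hw a ha a' ha' hne e e'
  · -- diff
    unfold diff
    rw [st_congr h.sub h.nb h.bi1 hcc, st_congr h.sub h.nb h.bi2 hcc2]

end

end Pool.Agent.Work.MP_1e13ac_Bis
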