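import Pool.Agent.Work.MP_1e13ac_Bis.Interface

/-! MP_1e13ac_co, project BIS, block CUT: cutting the long paths. -/

set_option autoImplicit false
set_option linter.unusedSectionVars false

namespace Pool.Agent.Work.MP_1e13ac_Bis

open Classical Finset

noncomputable section

namespace CUTaux

variable {V : Type} [Fintype V]

lemma fd_mono {F F₀ : SimpleGraph V} (h : F ≤ F₀) (x : V) : fd F x ≤ fd F₀ x := by
  unfold fd
  refine card_le_card fun y hy => ?_
  simp only [mem_filter, mem_univ, true_and] at hy ⊢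
  exact h hy

lemma cs_mono {F F₀ : SimpleGraph V} (h : F ≤ F₀) (x : V) : cs F x ≤ cs F₀ x := by
  unfold cs
  refine card_le_card fun y hy => ?_
  simp only [mem_filter, mem_univ, true_and] at hy ⊢
  exact hy.mono h

lemma ends_le (hP : Stmt_PATHREP) {F : SimpleGraph V} (hac : F.IsAcyclic)
    (hdeg : ∀ x, fd F x ≤ 2) (y : V) :
    (univ.filter fun u => F.Reachable y u ∧ fd F u ≤ 1).card ≤ 2 := by
  obtain ⟨p, inj, cov, adj⟩ := hP V F hac hdeg y
  have hsub : (univ.filter fun u => F.Reachable y u ∧ fd F u ≤ 1) ⊆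
      ({p 0, p (cs F y - 1)} : Finset V) := by
    intro u hu
    simp only [mem_filter, mem_univ, true_and] at hu
    obtain ⟨i, hi, rfl⟩ := (cov u).1 hu.1
    rw [mem_insert, mem_singleton]
    by_contra hcon
    push Not at hcon
    have hi0 : i ≠ 0 := fun h => hcon.1 (by rw [h])
    have hi1 : i ≠ cs F y - 1 := fun h => hcon.2 (by rw [← h])
    have h1 : F.Adj (p i) (p (i - 1)) := (adj i hi (i - 1) (by omega)).2 (by omega)
    have h2 : F.Adj (p i) (p (i + 1)) := (adj i hi (i + 1) (by omega)).2 (by omega)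
    have h3 : p (i - 1) ≠ p (i + 1) := fun h => by
      have := inj (i - 1) (by omega) (i + 1) (by omega) h
      omega
    have h4 : ({p (i - 1), p (i + 1)} : Finset V) ⊆ univ.filter fun y => F.Adj (p i) y := by
      intro z hz
      rw [mem_insert, mem_singleton] at hz
      simp only [mem_filter, mem_univ, true_and]
      rcases hz with rfl | rfl
      · exact h1
      · exact h2
    have h5 := card_le_card h4
    rw [card_pair h3] at h5
    have h6 : fd F (p i) = (univ.filter fun y => F.Adj (p i) y).card := rfl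
    omega
  exact (card_le_card hsub).trans card_le_two

lemma dcount (hP : Stmt_PATHREP) {F : SimpleGraph V} (hac : F.IsAcyclic)
    (hdeg : ∀ x, fd F x ≤ 2) (T : Finset V) (c s : ℕ)
    (hT : ∀ t ∈ T, fd F t ≤ 1 ∧ s ≤ c * cs F t) : T.card * s ≤ 2 * c * Fintype.card V := by
  have h1 : T.card * s ≤ ∑ t ∈ T, c * cs F t := by
    rw [← smul_eq_mul, ← sum_const]
    exact sum_le_sum fun t ht => (hT t ht).2
  have h2 : ∑ t ∈ T, cs F t ≤ ∑ _y : V, 2 := by
    have e1 : ∑ t ∈ T, cs F t = ∑ t ∈ T, ∑ y : V, if F.Reachable t y then 1 else 0 := by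
      refine sum_congr rfl fun t _ => ?_
      unfold cs
      rw [card_filter]
    rw [e1, sum_comm]
    refine sum_le_sum fun y _ => ?_
    rw [← card_filter]
    refine (card_le_card ?_).trans (ends_le hP hac hdeg y)
    intro t ht
    simp only [mem_filter, mem_univ, true_and] at ht ⊢
    exact ⟨ht.2.symm, (hT t ht.1).1⟩
  rw [← mul_sum] at h1
  calc T.card * s ≤ c * ∑ t ∈ T, cs F t := h1
    _ ≤ c * ∑ _y : V, 2 := Nat.mul_le_mul_left _ h2
    _ = 2 * c * Fintype.card V := by
      rw [sum_const, card_univ, smul_eq_mul]; ring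

lemma path_ball (hB : Stmt_BALL) (G : SimpleGraph V) (p : ℕ → V) (k : ℕ)
    (hp : ∀ j, j + 1 < k → G.Adj (p j) (p (j + 1))) (d : ℕ) :
    ∀ j, j + d < k → p (j + d) ∈ Bl G d (p j) := by
  obtain ⟨b1, b2, b3, b4, b5, b6⟩ := hB V G
  induction d with
  | zero => intro j _; simp [Bl]
  | succ d ih =>
    intro j hj
    have h1 := ih j (by omega)
    have h2 := b4 _ _ (hp (j + d) (by omega))
    exact b3 d 1 _ _ _ h1 h2

/-- the number of pairs in a window -/
def LL : ℕ := 4 ^ 97 + 1

/-- among `LL` consecutive pairs of a path there is one without neighbours in the places -/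
lemma window (hB : Stmt_BALL) (G : SimpleGraph V) (hG : Cub G) (X : Finset V)
    (A : V → Finset V) (hS : Sep G X A) (p : ℕ → V) (k i : ℕ)
    (hp : ∀ j, j + 1 < k → G.Adj (p j) (p (j + 1)))
    (hinj : ∀ j < k, ∀ j' < k, p j = p j' → j = j') (hi : i + 2 * LL ≤ k) :
    ∃ l < LL, (∀ a ∈ AU X A, ¬ G.Adj (p (i + 2 * l)) a) ∧
      ∀ a ∈ AU X A, ¬ G.Adj (p (i + 2 * l + 1)) a := by
  obtain ⟨b1, b2, b3, b4, b5, b6⟩ := hB V G
  by_contra hcon
  push Not at hcon
  have key : ∀ l : ℕ, ∃ (e : ℕ) (x : V), l < LL → e ≤ 1 ∧ x ∈ X ∧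
      p (i + 2 * l + e) ∈ Bl G 97 x := by
    intro l
    by_cases hl : l < LL
    · have aux : ∀ q : V, (∃ a ∈ AU X A, G.Adj q a) → ∃ x ∈ X, q ∈ Bl G 97 x := by
        rintro q ⟨a, ha, hqa⟩
        unfold AU at ha
        rw [mem_biUnion] at ha
        obtain ⟨x, hx, hax⟩ := ha
        exact ⟨x, hx, b3 96 1 _ _ _ (hS.ball x hx hax) (b4 _ _ hqa.symm)⟩
      by_cases h0 : ∀ a ∈ AU X A, ¬ G.Adj (p (i + 2 * l)) a
      · obtain ⟨x, hx, hq⟩ := aux _ (hcon l hl h0)
        exact ⟨1, x, fun _ => ⟨le_refl _, hx, hq⟩⟩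
      · push Not at h0
        obtain ⟨x, hx, hq⟩ := aux _ h0
        exact ⟨0, x, fun _ => ⟨by omega, hx, hq⟩⟩
    · exact ⟨0, p 0, fun h => absurd h hl⟩
  choose e x hex using key
  have hL : 0 < LL := by unfold LL; omega
  have hx : ∀ l, l < LL → x l = x 0 := by
    intro l
    induction l with
    | zero => intro _; rfl
    | succ l ih =>
      intro hl
      have hl' : l < LL := by omega
      rw [← ih hl']
      by_contra hne
      obtain ⟨e1, x1, q1⟩ := hex l hl'
      obtain ⟨e2, x2, q2⟩ := hex (l + 1) hl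
      have hd := hS.disj (x (l + 1)) x2 (x l) x1 hne
      have q3 : p (i + 2 * (l + 1) + e (l + 1)) ∈ Bl G 3 (p (i + 2 * l + e l)) := by
        have h := path_ball hB G p k hp (2 + e (l + 1) - e l) (i + 2 * l + e l) (by omega)
        have e3 : i + 2 * l + e l + (2 + e (l + 1) - e l) = i + 2 * (l + 1) + e (l + 1) := by
          omega
        rw [e3] at h
        have h' := b1 (2 + e (l + 1) - e l) (3 - (2 + e (l + 1) - e l)) (p (i + 2 * l + e l)) h
        have e4 : 2 + e (l + 1) - e l + (3 - (2 + e (l + 1) - e l)) = 3 := by omega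
        rwa [e4] at h'
      have q4 : p (i + 2 * (l + 1) + e (l + 1)) ∈ Bl G 100 (x l) := b3 97 3 _ _ _ q1 q3
      have q5 : p (i + 2 * (l + 1) + e (l + 1)) ∈ Bl G 100 (x (l + 1)) := b1 97 3 _ q2
      exact (Finset.disjoint_left.1 hd q5) q4
  have hcard : LL ≤ (Bl G 97 (x 0)).card := by
    rw [← card_range LL]
    refine card_le_card_of_injOn (fun l => p (i + 2 * l + e l)) ?_ ?_
    · intro l hl
      have hl' : l < LL := by simpa using hl
      have := (hex l hl').2.2
      rw [hx l hl'] at this
      exact_mod_cast this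
    · intro l hl l' hl' h
      have h1 : l < LL := by simpa using hl
      have h2 : l' < LL := by simpa using hl'
      have a1 := (hex l h1).1
      have a2 := (hex l' h2).1
      have := hinj (i + 2 * l + e l) (by omega) (i + 2 * l' + e l') (by omega) h
      omega
  have := b6 hG 97 (x 0)
  unfold LL at hcard
  omega

/-- admissible subforests -/
structure Adm (G : SimpleGraph V) (A : Finset V) (F₀ F : SimpleGraph V) (s : ℕ) : Prop where
  le : F ≤ F₀
  deg0 : ∀ u v, F₀.Adj u v → ¬ F.Adj u v → fd F₀ u = 2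
  one : ∀ u v, F₀.Adj u v → ¬ F.Adj u v → fd F u = 1
  noA : ∀ u v, F₀.Adj u v → ¬ F.Adj u v → ∀ a ∈ A, ¬ G.Adj u a
  third : ∀ u v, F₀.Adj u v → ¬ F.Adj u v → ∀ y, G.Adj u y → ¬ F₀.Adj u y → fd F y = 2
  big : ∀ x u v, F₀.Reachable x u → F₀.Adj u v → ¬ F.Adj u v → s ≤ 4 * cs F x

/-- remove the edge `u v` -/
def del (F : SimpleGraph V) (u v : V) : SimpleGraph V := F.deleteEdges {s(u, v)}

lemma del_adj (F : SimpleGraph V) (u v x y : V) :
    (del F u v).Adj x y ↔ F.Adj x y ∧ ¬ ((x = u ∧ y = v) ∨ (x = v ∧ y = u)) := by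
  unfold del
  rw [SimpleGraph.deleteEdges_adj, Set.mem_singleton_iff, Sym2.eq_iff]

lemma del_le (F : SimpleGraph V) (u v : V) : del F u v ≤ F := by
  intro x y h
  exact ((del_adj F u v x y).1 h).1

lemma fd_del_left (F : SimpleGraph V) {u v : V} (h : F.Adj u v) :
    fd (del F u v) u + 1 = fd F u := by
  unfold fd
  have e : (univ.filter fun y => (del F u v).Adj u y) = (univ.filter fun y => F.Adj u y).erase v := by
    ext y
    simp only [mem_filter, mem_univ, true_and, mem_erase, del_adj]
    have hne : u ≠ v := h.ne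
    constructor
    · rintro ⟨h1, h2⟩
      refine ⟨fun hy => h2 (Or.inl hy), h1⟩
    · rintro ⟨h1, h2⟩
      refine ⟨h2, ?_⟩
      rintro (h3 | ⟨h3, _⟩)
      · exact h1 h3
      · exact hne h3
  rw [e]
  exact card_erase_add_one (by simpa using h)

lemma fd_del_right (F : SimpleGraph V) {u v : V} (h : F.Adj u v) :
    fd (del F u v) v + 1 = fd F v := by
  have e : del F u v = del F v u := by
    unfold del
    rw [Sym2.eq_swap]
  rw [e]
  exact fd_del_left F h.symm

lemma fd_del_other (F : SimpleGraph V) {u v y : V} (h1 : y ≠ u) (h2 : y ≠ v) :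
    fd (del F u v) y = fd F y := by
  unfold fd
  congr 1
  ext z
  simp only [mem_filter, mem_univ, true_and, del_adj]
  tauto

/-- total degree, used for the minimal choice -/
def tot (F : SimpleGraph V) : ℕ := ∑ x, fd F x

lemma tot_del (F : SimpleGraph V) {u v : V} (h : F.Adj u v) : tot (del F u v) < tot F := by
  unfold tot
  refine sum_lt_sum (fun x _ => fd_mono (del_le F u v) x) ⟨u, mem_univ _, ?_⟩
  have := fd_del_left F h
  omega

/-- reachability along an interval of the path -/
lemma reach_interval (F : SimpleGraph V) (p : ℕ → V) (a b : ℕ)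
    (h : ∀ j, a ≤ j → j + 1 ≤ b → F.Adj (p j) (p (j + 1))) :
    ∀ j, a ≤ j → j ≤ b → F.Reachable (p a) (p j) := by
  intro j
  induction j with
  | zero =>
    intro h1 _
    have : a = 0 := by omega
    subst this
    exact SimpleGraph.Reachable.refl _
  | succ j ih =>
    intro h1 h2
    by_cases hj : a = j + 1
    · subst hj
      exact SimpleGraph.Reachable.refl _
    · exact (ih (by omega) (by omega)).trans (h j (by omega) (by omega)).reachable

/-- if `x` and `y` are `F₀`- but not `F`-connected there is a cut edge -/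
lemma exists_cut {F₀ F : SimpleGraph V} {x y : V} (h : F₀.Reachable x y)
    (h' : ¬ F.Reachable x y) : ∃ u v, F₀.Reachable x u ∧ F₀.Adj u v ∧ ¬ F.Adj u v := by
  obtain ⟨w⟩ := h
  induction w with
  | nil => exact absurd (SimpleGraph.Reachable.refl _) h'
  | cons hadj w ih =>
    rename_i a b c
    by_cases hF : F.Adj a b
    · by_cases hb : F.Reachable b c
      · exact absurd (hF.reachable.trans hb) h'
      · obtain ⟨u, v, h1, h2, h3⟩ := ih hb
        exact ⟨u, v, hadj.reachable.trans h1, h2, h3⟩
    · exact ⟨a, b, SimpleGraph.Reachable.refl _, hadj, hF⟩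

/-- the step: if a component of an admissible forest has more than `s` vertices, it can be cut -/
lemma step (hB : Stmt_BALL) (hP : Stmt_PATHREP) (G : SimpleGraph V) (hG : Cub G) (X : Finset V)
    (A : V → Finset V) (hS : Sep G X A) (b : V → Bool) (F₀ F : SimpleGraph V)
    (hF₀ : PF G (AU X A) b F₀) (s : ℕ) (hs : 1000 * LL ^ 2 * Fintype.card V ≤ s ^ 2)
    (hF : Adm G (AU X A) F₀ F s) (x : V) (hx : s < cs F x) :
    ∃ F', Adm G (AU X A) F₀ F' s ∧ tot F' < tot F := by
  have hac : F.IsAcyclic := hF₀.acyc.anti hF.le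
  have hdeg : ∀ y, fd F y ≤ 2 := fun y => (fd_mono hF.le y).trans (hF₀.deg y)
  have hn : 1 ≤ Fintype.card V := Fintype.card_pos_iff.2 ⟨x⟩
  have hL : 1 ≤ LL := by unfold LL; omega
  -- size of `s`
  have hs31 : 31 * LL ≤ s := by
    by_contra h
    have h1 : s < 31 * LL := by omega
    have h2 : s ^ 2 < (31 * LL) ^ 2 := Nat.pow_lt_pow_left h1 (by norm_num)
    have h3 : 1000 * LL ^ 2 * 1 ≤ 1000 * LL ^ 2 * Fintype.card V := Nat.mul_le_mul_left _ hn
    have h4 : (31 * LL) ^ 2 = 961 * LL ^ 2 := by ring
    have h5 : 1 ≤ LL ^ 2 := Nat.one_le_pow _ _ hL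
    omega
  -- the path
  obtain ⟨p, inj, cov, adj⟩ := hP V F hac hdeg x
  set k := cs F x with hk
  have hpF : ∀ j, j + 1 < k → F.Adj (p j) (p (j + 1)) := fun j hj =>
    (adj j (by omega) (j + 1) hj).2 (Or.inl rfl)
  have hpG : ∀ j, j + 1 < k → G.Adj (p j) (p (j + 1)) := fun j hj =>
    hF₀.le (hF.le (hpF j hj))
  -- forbidden vertices
  let CV : Finset V := univ.filter fun u => ∃ v, F₀.Adj u v ∧ ¬ F.Adj u v
  let T : Finset V := univ.filter fun t => fd F₀ t ≤ 1 ∧ s ≤ 2 * cs F₀ t
  have hCV : CV.card * s ≤ 8 * Fintype.card V := by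
    have := dcount hP hac hdeg CV 4 s (fun t ht => by
      simp only [CV, mem_filter, mem_univ, true_and] at ht
      obtain ⟨v, h1, h2⟩ := ht
      exact ⟨(hF.one t v h1 h2).le, hF.big t t v (SimpleGraph.Reachable.refl _) h1 h2⟩)
    omega
  have hT : T.card * s ≤ 4 * Fintype.card V := by
    have := dcount hP hF₀.acyc hF₀.deg T 2 s (fun t ht => by
      simpa [T] using ht)
    omega
  let Forb : Finset V := CV ∪ (CV.biUnion (nbs G) ∪ T.biUnion (nbs G))
  have hForb : Forb.card * s ≤ 44 * Fintype.card V := by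
    have h1 : (CV.biUnion (nbs G)).card ≤ CV.card * 3 :=
      card_biUnion_le_card_mul _ _ _ fun y _ => (hG y).le
    have h2 : (T.biUnion (nbs G)).card ≤ T.card * 3 :=
      card_biUnion_le_card_mul _ _ _ fun y _ => (hG y).le
    have h3 : Forb.card ≤ 4 * CV.card + 3 * T.card := by
      have a1 := card_union_le CV (CV.biUnion (nbs G) ∪ T.biUnion (nbs G))
      have a2 := card_union_le (CV.biUnion (nbs G)) (T.biUnion (nbs G))
      show (CV ∪ (CV.biUnion (nbs G) ∪ T.biUnion (nbs G))).card ≤ _
      omega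
    calc Forb.card * s ≤ (4 * CV.card + 3 * T.card) * s := Nat.mul_le_mul_right _ h3
      _ = 4 * (CV.card * s) + 3 * (T.card * s) := by ring
      _ ≤ 44 * Fintype.card V := by omega
  -- a good edge
  let a := s / 4 + 1
  let m := s / (4 * LL)
  have ha1 : s < 4 * a := by
    show s < 4 * (s / 4 + 1)
    omega
  have ha2 : 4 * a ≤ s + 4 := by
    show 4 * (s / 4 + 1) ≤ s + 4
    omega
  have hm1 : 4 * LL * m ≤ s := Nat.mul_div_le s (4 * LL)
  have hm2 : s < 4 * LL * (m + 1) := by
    have := Nat.lt_div_mul_add (a := s) (b := 4 * LL) (by omega)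
    show s < 4 * LL * (s / (4 * LL) + 1)
    calc s < s / (4 * LL) * (4 * LL) + 4 * LL := this
      _ = 4 * LL * (s / (4 * LL) + 1) := by ring
  have hroom : 4 * (a + 2 * LL * m) ≤ 3 * s + 4 := by
    have : 4 * (a + 2 * LL * m) = 4 * a + 2 * (4 * LL * m) := by ring
    omega
  have hkey : Forb.card < m := by
    by_contra hcon
    have h1 : m ≤ Forb.card := by omega
    have h2 : m * s ≤ 44 * Fintype.card V := (Nat.mul_le_mul_right s h1).trans hForb
    have h3 : s * s < 4 * LL * (m + 1) * s := Nat.mul_lt_mul_of_pos_right hm2 (by omega)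
    have h4 : 4 * LL * (m + 1) * s = 4 * LL * (m * s) + 4 * LL * s := by ring
    have h5 : 4 * LL * (m * s) ≤ 4 * LL * (44 * Fintype.card V) := Nat.mul_le_mul_left _ h2
    have h6 : 4 * LL * (44 * Fintype.card V) ≤ 176 * LL ^ 2 * Fintype.card V := by
      have : LL ≤ LL ^ 2 := by nlinarith
      calc 4 * LL * (44 * Fintype.card V) = 176 * Fintype.card V * LL := by ring
        _ ≤ 176 * Fintype.card V * LL ^ 2 := Nat.mul_le_mul_left _ this
        _ = 176 * LL ^ 2 * Fintype.card V := by ring
    have h7 : 31 * LL * s ≤ s * s := Nat.mul_le_mul_right s hs31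
    have h8 : 31 * LL * s = 31 * (LL * s) := by ring
    have h9 : 4 * LL * s = 4 * (LL * s) := by ring
    have h10 : 1000 * LL ^ 2 * Fintype.card V = 1000 * (LL ^ 2 * Fintype.card V) := by ring
    have h11 : 176 * LL ^ 2 * Fintype.card V = 176 * (LL ^ 2 * Fintype.card V) := by ring
    have h12 : s ^ 2 = s * s := by ring
    omega
  obtain ⟨i, hi1, hi2, hA1, hA2, hf1, hf2⟩ : ∃ i, a ≤ i ∧ i + 2 ≤ a + 2 * LL * m ∧
      (∀ c ∈ AU X A, ¬ G.Adj (p i) c) ∧ (∀ c ∈ AU X A, ¬ G.Adj (p (i + 1)) c) ∧
      p i ∉ Forb ∧ p (i + 1) ∉ Forb := by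
    by_contra hcon
    push Not at hcon
    have hw : ∀ w : ℕ, ∃ (l e : ℕ), w < m → l < LL ∧ e ≤ 1 ∧
        p (a + 2 * LL * w + 2 * l + e) ∈ Forb := by
      intro w
      by_cases hwm : w < m
      · have hle : a + 2 * LL * w + 2 * LL ≤ a + 2 * LL * m := by
          have : LL * w + LL ≤ LL * m := by
            calc LL * w + LL = LL * (w + 1) := by ring
              _ ≤ LL * m := Nat.mul_le_mul_left _ hwm
          have e1 : 2 * LL * w = 2 * (LL * w) := by ring
          have e2 : 2 * LL * m = 2 * (LL * m) := by ring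
          omega
        obtain ⟨l, hl, h1, h2⟩ := window hB G hG X A hS p k (a + 2 * LL * w) hpG inj (by omega)
        by_cases h3 : p (a + 2 * LL * w + 2 * l) ∈ Forb
        · exact ⟨l, 0, fun _ => ⟨hl, by omega, h3⟩⟩
        · have h4 := hcon (a + 2 * LL * w + 2 * l) (by omega) (by omega) h1 h2 h3
          exact ⟨l, 1, fun _ => ⟨hl, le_refl _, h4⟩⟩
      · exact ⟨0, 0, fun h => absurd h hwm⟩
    choose l e hle using hw
    have hcard : m ≤ Forb.card := by
      rw [← card_range m]
      refine card_le_card_of_injOn (fun w => p (a + 2 * LL * w + 2 * l w + e w)) ?_ ?_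
      · intro w hw
        have hw' : w < m := by simpa using hw
        exact_mod_cast (hle w hw').2.2
      · intro w hw w' hw' h
        have h1 : w < m := by simpa using hw
        have h2 : w' < m := by simpa using hw'
        obtain ⟨l1, e1, -⟩ := hle w h1
        obtain ⟨l2, e2, -⟩ := hle w' h2
        have b1 : 2 * LL * w + 2 * LL ≤ 2 * LL * m := by
          calc 2 * LL * w + 2 * LL = 2 * LL * (w + 1) := by ring
            _ ≤ 2 * LL * m := Nat.mul_le_mul_left _ h1
        have b2 : 2 * LL * w' + 2 * LL ≤ 2 * LL * m := by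
          calc 2 * LL * w' + 2 * LL = 2 * LL * (w' + 1) := by ring
            _ ≤ 2 * LL * m := Nat.mul_le_mul_left _ h2
        have h3 := inj (a + 2 * LL * w + 2 * l w + e w) (by omega)
          (a + 2 * LL * w' + 2 * l w' + e w') (by omega) h
        by_contra hne
        rcases Nat.lt_or_gt_of_ne hne with h4 | h4
        · have : 2 * LL * w + 2 * LL ≤ 2 * LL * w' := by
            calc 2 * LL * w + 2 * LL = 2 * LL * (w + 1) := by ring
              _ ≤ 2 * LL * w' := Nat.mul_le_mul_left _ h4
          omega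
        · have : 2 * LL * w' + 2 * LL ≤ 2 * LL * w := by
            calc 2 * LL * w' + 2 * LL = 2 * LL * (w' + 1) := by ring
              _ ≤ 2 * LL * w := Nat.mul_le_mul_left _ h4
          omega
    omega
  -- facts on the two ends
  have hik : i + 2 < k := by omega
  have hi0 : 1 ≤ i := by omega
  have huv : F.Adj (p i) (p (i + 1)) := hpF i (by omega)
  have hne : p i ≠ p (i + 1) := huv.ne
  have hfd : ∀ j, 1 ≤ j → j + 1 < k → fd F (p j) = 2 := by
    intro j h1 h2
    have e1 : F.Adj (p j) (p (j - 1)) := (adj j (by omega) (j - 1) (by omega)).2 (by omega)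
    have e2 : F.Adj (p j) (p (j + 1)) := hpF j h2
    have e3 : p (j - 1) ≠ p (j + 1) := fun h => by
      have := inj (j - 1) (by omega) (j + 1) (by omega) h
      omega
    have e4 : ({p (j - 1), p (j + 1)} : Finset V) ⊆ univ.filter fun y => F.Adj (p j) y := by
      intro z hz
      rw [mem_insert, mem_singleton] at hz
      simp only [mem_filter, mem_univ, true_and]
      rcases hz with rfl | rfl
      · exact e1
      · exact e2
    have e5 := card_le_card e4
    rw [card_pair e3] at e5
    have e6 : fd F (p j) = (univ.filter fun y => F.Adj (p j) y).card := rfl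
    have e7 := hdeg (p j)
    omega
  have hu2 : fd F (p i) = 2 := hfd i hi0 (by omega)
  have hv2 : fd F (p (i + 1)) = 2 := hfd (i + 1) (by omega) (by omega)
  have full : ∀ y, fd F y = 2 → fd F₀ y = 2 := fun y h => by
    have h1 := fd_mono hF.le y
    have h2 := hF₀.deg y
    omega
  have memCV : ∀ y, y ∉ CV → ∀ z, F₀.Adj y z → F.Adj y z := by
    intro y hy z hz
    by_contra h
    exact hy (by simp only [CV, mem_filter, mem_univ, true_and]; exact ⟨z, hz, h⟩)
  have outCV : ∀ q, q ∉ Forb → q ∉ CV := fun q hq h => hq (mem_union_left _ h)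
  have outN : ∀ q, q ∉ Forb → ∀ y, G.Adj q y → y ∉ CV := fun q hq y hy h => hq (by
    refine mem_union_right _ (mem_union_left _ ?_)
    rw [mem_biUnion]
    exact ⟨y, h, by simp only [nbs, mem_filter, mem_univ, true_and]; exact hy.symm⟩)
  have outT : ∀ q, q ∉ Forb → ∀ y, G.Adj q y → y ∉ T := fun q hq y hy h => hq (by
    refine mem_union_right _ (mem_union_right _ ?_)
    rw [mem_biUnion]
    exact ⟨y, h, by simp only [nbs, mem_filter, mem_univ, true_and]; exact hy.symm⟩)
  -- third neighbours of the new cut vertices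
  have thirdnew : ∀ q, F.Reachable x q → fd F q = 2 → q ∉ Forb →
      (∀ c ∈ AU X A, ¬ G.Adj q c) → ∀ y, G.Adj q y → ¬ F₀.Adj q y → fd F y = 2 := by
    intro q hxq hq2 hqF hqA y hqy hqy0
    have hqs : s < cs F q := by
      have : cs F q = cs F x := by
        unfold cs
        congr 1
        ext z
        simp only [mem_filter, mem_univ, true_and]
        exact ⟨fun h => hxq.trans h, fun h => hxq.symm.trans h⟩
      omega
    have hqs0 : s < cs F₀ q := lt_of_lt_of_le hqs (cs_mono hF.le q)
    have hyT := outT q hqF y hqy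
    have hyA : y ∉ AU X A := fun h => hqA y h hqy
    have hqA' : q ∉ AU X A := by
      have h0 : 0 < fd F₀ q := by rw [full q hq2]; norm_num
      unfold fd at h0
      obtain ⟨z, hz⟩ := card_pos.1 h0
      simp only [mem_filter, mem_univ, true_and] at hz
      exact hF₀.out q z hz
    have hy2 : fd F₀ y = 2 := by
      by_contra h
      have h1 : fd F₀ y ≤ 1 := by
        have := hF₀.deg y
        omega
      refine hyT ?_
      simp only [T, mem_filter, mem_univ, true_and]
      refine ⟨h1, ?_⟩
      by_cases hr : F₀.Reachable q y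
      · have : cs F₀ y = cs F₀ q := by
          unfold cs
          congr 1
          ext z
          simp only [mem_filter, mem_univ, true_and]
          exact ⟨fun h => hr.trans h, fun h => hr.symm.trans h⟩
        omega
      · have := hF₀.bal q y hqA' hyA hqy (full q hq2) h1 hr
        omega
    have hyCV := outN q hqF y hqy
    have : fd F y = fd F₀ y := by
      unfold fd
      congr 1
      ext z
      simp only [mem_filter, mem_univ, true_and]
      exact ⟨fun h => hF.le h, fun h => memCV y hyCV z h⟩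
    omega
  have hxu : F.Reachable x (p i) := (cov _).2 ⟨i, by omega, rfl⟩
  have hxv : F.Reachable x (p (i + 1)) := (cov _).2 ⟨i + 1, by omega, rfl⟩
  have huCV := outCV _ hf1
  have hvCV := outCV _ hf2
  -- the new forest
  have newcut : ∀ u v, F₀.Adj u v → ¬ (del F (p i) (p (i + 1))).Adj u v →
      (¬ F.Adj u v ∧ u ≠ p i ∧ u ≠ p (i + 1)) ∨ (u = p i ∧ v = p (i + 1)) ∨
        (u = p (i + 1) ∧ v = p i) := by
    intro u v h1 h2
    rw [del_adj] at h2
    by_cases hc : (u = p i ∧ v = p (i + 1)) ∨ (u = p (i + 1) ∧ v = p i)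
    · exact Or.inr hc
    · have h3 : ¬ F.Adj u v := fun h => h2 ⟨h, hc⟩
      refine Or.inl ⟨h3, ?_, ?_⟩
      · rintro rfl
        exact h3 (memCV _ huCV _ h1)
      · rintro rfl
        exact h3 (memCV _ hvCV _ h1)
  refine ⟨del F (p i) (p (i + 1)), ?_, tot_del F huv⟩
  constructor
  · exact (del_le F _ _).trans hF.le
  · intro u v h1 h2
    rcases newcut u v h1 h2 with ⟨h3, -, -⟩ | ⟨rfl, -⟩ | ⟨rfl, -⟩
    · exact hF.deg0 u v h1 h3
    · exact full _ hu2
    · exact full _ hv2
  · intro u v h1 h2
    rcases newcut u v h1 h2 with ⟨h3, h4, h5⟩ | ⟨rfl, -⟩ | ⟨rfl, -⟩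
    · rw [fd_del_other F h4 h5]
      exact hF.one u v h1 h3
    · have := fd_del_left F huv
      omega
    · have := fd_del_right F huv
      omega
  · intro u v h1 h2
    rcases newcut u v h1 h2 with ⟨h3, -, -⟩ | ⟨rfl, -⟩ | ⟨rfl, -⟩
    · exact hF.noA u v h1 h3
    · exact hA1
    · exact hA2
  · intro u v h1 h2 y hy1 hy2
    rcases newcut u v h1 h2 with ⟨h3, -, -⟩ | ⟨rfl, -⟩ | ⟨rfl, -⟩
    · have huC : u ∈ CV := by
        simp only [CV, mem_filter, mem_univ, true_and]
        exact ⟨v, h1, h3⟩
      have e1 : y ≠ p i := by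
        rintro rfl
        exact outN _ hf1 u hy1.symm huC
      have e2 : y ≠ p (i + 1) := by
        rintro rfl
        exact outN _ hf2 u hy1.symm huC
      rw [fd_del_other F e1 e2]
      exact hF.third u v h1 h3 y hy1 hy2
    · have e1 : y ≠ p i := fun h => hy1.ne h.symm
      have e2 : y ≠ p (i + 1) := by
        rintro rfl
        exact hy2 (hF.le huv)
      rw [fd_del_other F e1 e2]
      exact thirdnew _ hxu hu2 hf1 hA1 y hy1 hy2
    · have e1 : y ≠ p i := by
        rintro rfl
        exact hy2 (hF.le huv).symm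
      have e2 : y ≠ p (i + 1) := fun h => hy1.ne h.symm
      rw [fd_del_other F e1 e2]
      exact thirdnew _ hxv hv2 hf2 hA2 y hy1 hy2
  · intro z u v hzu h1 h2
    by_cases hz : F.Reachable x z
    · -- a piece of the path
      obtain ⟨l, hl, rfl⟩ := (cov z).1 hz
      by_cases hli : l ≤ i
      · have hr : ∀ j ≤ i, (del F (p i) (p (i + 1))).Reachable (p 0) (p j) := by
          intro j hj
          refine reach_interval _ p 0 i ?_ j (by omega) hj
          intro j' _ hj'
          rw [del_adj]
          refine ⟨hpF j' (by omega), ?_⟩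
          rintro (⟨h3, -⟩ | ⟨h3, -⟩)
          · have := inj j' (by omega) i (by omega) h3
            omega
          · have := inj j' (by omega) (i + 1) (by omega) h3
            omega
        have hc : i + 1 ≤ cs (del F (p i) (p (i + 1))) (p l) := by
          unfold cs
          rw [← card_range (i + 1)]
          refine card_le_card_of_injOn p ?_ ?_
          · intro j hj
            have hj' : j < i + 1 := by simpa using hj
            have := (hr l hli).symm.trans (hr j (by omega))
            simpa using this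
          · intro j hj j' hj' h
            have e1 : j < i + 1 := by simpa using hj
            have e2 : j' < i + 1 := by simpa using hj'
            exact inj j (by omega) j' (by omega) h
        omega
      · have hr : ∀ j, i + 1 ≤ j → j ≤ k - 1 →
            (del F (p i) (p (i + 1))).Reachable (p (i + 1)) (p j) := by
          intro j hj hj2
          refine reach_interval _ p (i + 1) (k - 1) ?_ j hj hj2
          intro j' h3 hj'
          rw [del_adj]
          refine ⟨hpF j' (by omega), ?_⟩
          rintro (⟨h4, -⟩ | ⟨-, h4⟩)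
          · have := inj j' (by omega) i (by omega) h4
            omega
          · have := inj (j' + 1) (by omega) i (by omega) h4
            omega
        have hc : k - (i + 1) ≤ cs (del F (p i) (p (i + 1))) (p l) := by
          unfold cs
          rw [← card_range (k - (i + 1))]
          refine card_le_card_of_injOn (fun j => p (i + 1 + j)) ?_ ?_
          · intro j hj
            have hj' : j < k - (i + 1) := by simpa using hj
            have := (hr l (by omega) (by omega)).symm.trans (hr (i + 1 + j) (by omega) (by omega))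
            simpa using this
          · intro j hj j' hj' h
            have e1 : j < k - (i + 1) := by simpa using hj
            have e2 : j' < k - (i + 1) := by simpa using hj'
            have := inj (i + 1 + j) (by omega) (i + 1 + j') (by omega) h
            omega
        omega
    · -- another component
      have hcs : cs (del F (p i) (p (i + 1))) z = cs F z := by
        unfold cs
        congr 1
        ext y
        simp only [mem_filter, mem_univ, true_and]
        constructor
        · intro h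
          exact h.mono (del_le F _ _)
        · intro h
          by_contra hcon
          obtain ⟨u', v', h3, h4, h5⟩ := exists_cut h hcon
          rw [del_adj] at h5
          have h6 : (u' = p i ∧ v' = p (i + 1)) ∨ (u' = p (i + 1) ∧ v' = p i) := by
            by_contra h7
            exact h5 ⟨h4, h7⟩
          rcases h6 with ⟨rfl, -⟩ | ⟨rfl, -⟩
          · exact hz (hxu.trans h3.symm)
          · exact hz (hxv.trans h3.symm)
      rw [hcs]
      rcases newcut u v h1 h2 with ⟨h3, -, -⟩ | ⟨rfl, -⟩ | ⟨rfl, -⟩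
      · exact hF.big z u v hzu h1 h3
      · obtain ⟨u', v', h3, h4, h5⟩ := exists_cut hzu (fun h => hz (hxu.trans h.symm))
        exact hF.big z u' v' h3 h4 h5
      · obtain ⟨u', v', h3, h4, h5⟩ := exists_cut hzu (fun h => hz (hxv.trans h.symm))
        exact hF.big z u' v' h3 h4 h5

end CUTaux

open CUTaux in
theorem stmt_CUT (hB : Stmt_BALL) (hP : Stmt_PATHREP) : Stmt_CUT := by
  refine ⟨1000 * LL ^ 2, ?_⟩
  intro V _ G hG X A hS b F₀ hF₀ s hs
  have h0 : Adm G (AU X A) F₀ F₀ s := by
    constructor
    · exact le_refl _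
    · intro u v h1 h2; exact absurd h1 h2
    · intro u v h1 h2; exact absurd h1 h2
    · intro u v h1 h2; exact absurd h1 h2
    · intro u v h1 h2; exact absurd h1 h2
    · intro x u v _ h1 h2; exact absurd h1 h2
  obtain ⟨F, hF, hmin⟩ := WellFounded.has_min
    (InvImage.wf (fun F : SimpleGraph V => tot F) Nat.lt_wfRel.wf)
    {F | Adm G (AU X A) F₀ F s} ⟨F₀, h0⟩
  refine ⟨F, hF.le, hF.deg0, hF.one, hF.noA, hF.third, ?_⟩
  intro x
  by_contra hx
  obtain ⟨F', h1, h2⟩ := step hB hP G hG X A hS b F₀ F hF₀ s hs hF x (by omega)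
  exact hmin F' h1 h2

end

end Pool.Agent.Work.MP_1e13ac_Bis
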