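import Pool.Agent.Work.MP_1e13ac_Bis.Interface

/-!
# Checker for the pattern search (block PAT of MP_1e13ac_co)

Patterns are lists of adjacency lists. All functions here are structural recursions which the
kernel evaluates quickly.
-/

set_option autoImplicit false

namespace Pool.Agent.Work.MP_1e13ac_Bis

/-- bit test -/
def tb (x i : ℕ) : Bool := Nat.beq (Nat.mod (Nat.shiftRight x i) 2) 1

/-- membership -/
def memB (x : ℕ) : List ℕ → Bool
  | [] => false
  | y :: t => Nat.beq x y || memB x t

def nodupB : List ℕ → Bool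
  | [] => true
  | x :: t => !(memB x t) && nodupB t

/-- entry of a list of lists, default `[]` -/
def gl : List (List ℕ) → ℕ → List ℕ
  | [], _ => []
  | l :: _, 0 => l
  | _ :: t, n + 1 => gl t n

/-- entry of a list of numbers, default `0` -/
def gn : List ℕ → ℕ → ℕ
  | [], _ => 0
  | x :: _, 0 => x
  | _ :: t, n + 1 => gn t n

/-- entry of a list of patterns, default `[]` -/
def gp : List (List (List ℕ)) → ℕ → List (List ℕ)
  | [], _ => []
  | P :: _, 0 => P
  | _ :: t, n + 1 => gp t n

/-- `m` digits of `x` in base 32 -/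
def digits : ℕ → ℕ → List ℕ
  | 0, _ => []
  | m + 1, x => (Nat.mod x 32) :: digits m (Nat.div x 32)

/-- the digits different from 31 -/
def drop31 : List ℕ → List ℕ
  | [] => []
  | x :: t => if Nat.beq x 31 then drop31 t else x :: drop31 t

/-- adjacency lists from a code: for each vertex three digits, the digit 31 means no neighbour -/
def decPat : ℕ → ℕ → List (List ℕ)
  | 0, _ => []
  | m + 1, x => drop31 (digits 3 x) :: decPat m (Nat.div x 32768)

/-- elements `j` with `S` bit, and the colour bit `b` under `c` -/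
def filtC (S c : ℕ) (b : Bool) : List ℕ → List ℕ
  | [] => []
  | j :: t => if tb S j && (tb c j == b) then j :: filtC S c b t else filtC S c b t

def filtS (S : ℕ) : List ℕ → List ℕ
  | [] => []
  | j :: t => if tb S j then j :: filtS S t else filtS S t

/-- restrict adjacency lists to `S` and to equal colours; entries outside `S` become empty -/
def mono (S c : ℕ) : ℕ → List (List ℕ) → List (List ℕ)
  | _, [] => []
  | i, l :: t => (if tb S i then filtC S c (tb c i) l else []) :: mono S c (i + 1) t

/-- restrict adjacency lists to `S`; entries outside `S` become empty -/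
def restr (S : ℕ) : ℕ → List (List ℕ) → List (List ℕ)
  | _, [] => []
  | i, l :: t => (if tb S i then filtS S l else []) :: restr S (i + 1) t

/-- `f i (L i)` for all `i` -/
def allIdx (f : ℕ → List ℕ → Bool) : ℕ → List (List ℕ) → Bool
  | _, [] => true
  | i, l :: t => f i l && allIdx f (i + 1) t

/-- `Pre` for the colouring on `S`; `N = restr S 0 P`, `M = mono S c 0 P` -/
def chkPre (S : ℕ) (N M : List (List ℕ)) : Bool :=
  allIdx (fun i n =>
    !(tb S i) ||
      (Nat.blt (gl M i).length n.length &&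
       (Nat.beq n.length 3 ||
         (gl M i).all fun j => Nat.beq (gl N j).length 3 && (gl M j).all fun k => Nat.beq k i) &&
       (gl M i).all fun j => (gl M j).all fun k => Nat.beq k i || (gl M k).all fun l =>
         Nat.beq l j || (gl M l).all fun p => Nat.beq p k)) 0 N

/-- the statistics on `U`; call with both lists equal to `mono S c 0 P` -/
def stat (U c : ℕ) (M : List (List ℕ)) : ℕ → List (List ℕ) → ℤ × ℤ × ℤ
  | _, [] => (0, 0, 0)
  | i, l :: t =>
    if tb U i then
      let s : ℤ := if tb c i then 1 else -1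
      let r := stat U c M (i + 1) t
      (s + r.1, (if Nat.beq l.length 2 then s else 0) + r.2.1,
        (if Nat.beq l.length 2 && l.any (fun j => Nat.beq (gl M j).length 2) then s else 0) + r.2.2)
    else stat U c M (i + 1) t

/-- check of one gadget `(S, U, c1, c2)` on the pattern `P` -/
def chkGdt (P : List (List ℕ)) (S U c1 c2 : ℕ) : Bool :=
  (Nat.beq (Nat.land U S) U) && (Nat.beq (Nat.land (Nat.xor c1 c2) U) (Nat.xor c1 c2)) &&
    allIdx (fun i n => !(tb U i) || (Nat.beq n.length 3 &&
      ((gl (mono S c1 0 P) i).all fun j => tb U j) &&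
      ((gl (mono S c2 0 P) i).all fun j => tb U j))) 0 (restr S 0 P) &&
    chkPre S (restr S 0 P) (mono S c1 0 P) && chkPre S (restr S 0 P) (mono S c2 0 P)

/-- difference vector of a gadget -/
def gdiff (P : List (List ℕ)) (S U c1 c2 : ℕ) : ℤ × ℤ × ℤ :=
  ((stat U c2 (mono S c2 0 P) 0 (mono S c2 0 P)).1 -
    (stat U c1 (mono S c1 0 P) 0 (mono S c1 0 P)).1,
   (stat U c2 (mono S c2 0 P) 0 (mono S c2 0 P)).2.1 -
    (stat U c1 (mono S c1 0 P) 0 (mono S c1 0 P)).2.1,
   (stat U c2 (mono S c2 0 P) 0 (mono S c2 0 P)).2.2 -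
    (stat U c1 (mono S c1 0 P) 0 (mono S c1 0 P)).2.2)

/-- decode a gadget: four blocks of 24 bits -/
def gS (x : ℕ) : ℕ := Nat.mod x 16777216
def gU (x : ℕ) : ℕ := Nat.mod (Nat.div x 16777216) 16777216
def gc1 (x : ℕ) : ℕ := Nat.mod (Nat.div x 281474976710656) 16777216
def gc2 (x : ℕ) : ℕ := Nat.div x 4722366482869645213696

def gOK (P : List (List ℕ)) (x : ℕ) : Bool := chkGdt P (gS x) (gU x) (gc1 x) (gc2 x)

def gD (P : List (List ℕ)) (x : ℕ) : ℤ × ℤ × ℤ := gdiff P (gS x) (gU x) (gc1 x) (gc2 x)

/-- integer combination of vectors -/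
def comb : List ℤ → List (ℤ × ℤ × ℤ) → ℤ × ℤ × ℤ
  | a :: s, d :: t => (a * d.1 + (comb s t).1, a * d.2.1 + (comb s t).2.1,
      a * d.2.2 + (comb s t).2.2)
  | _, _ => (0, 0, 0)

def inBox (d : ℤ × ℤ × ℤ) : Bool :=
  Nat.ble d.1.natAbs 50 && (Nat.ble d.2.1.natAbs 50 && Nat.ble d.2.2.natAbs 50)

/-- well formed pattern -/
def wf (P : List (List ℕ)) : Bool :=
  allIdx (fun i l => nodupB l && Nat.ble l.length 3 &&
    l.all fun j => Nat.blt j P.length && !(Nat.beq j i) && memB i (gl P j)) 0 P

/-- check of a leaf -/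
def chkLeaf (P : List (List ℕ)) (gs : List ℕ) (u v w : List ℤ) : Bool :=
  wf P && Nat.ble P.length 23 && gs.all (gOK P) && (gs.map (gD P)).all inBox &&
    decide (comb u (gs.map (gD P)) = (2, 0, 0)) && decide (comb v (gs.map (gD P)) = (0, 1, 0)) &&
    decide (comb w (gs.map (gD P)) = (0, 0, 2))

/-- apply `ρ` to a list -/
def mapR (ρ : List ℕ) : List ℕ → List ℕ
  | [] => []
  | x :: t => gn ρ x :: mapR ρ t

/-- `Q` contains `P` as an induced subgraph via `k ↦ ρ k` -/
def chkSub (Q P : List (List ℕ)) (ρ : List ℕ) : Bool :=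
  nodupB ρ && Nat.beq ρ.length P.length && (ρ.all fun i => Nat.blt i Q.length) &&
    allIdx (fun k l =>
      ((mapR ρ l).all fun y => memB y (gl Q (gn ρ k))) &&
      ((gl Q (gn ρ k)).all fun y => !(memB y ρ) || memB y (mapR ρ l))) 0 P

/-- stub vertices different from `a` -/
def stubsOf (a : ℕ) : ℕ → List (List ℕ) → List ℕ
  | _, [] => []
  | i, l :: t => if !(Nat.beq i a) && Nat.blt l.length 3 then i :: stubsOf a (i + 1) t
      else stubsOf a (i + 1) t

def pairs (x : ℕ) : List ℕ → List (List ℕ)
  | [] => []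
  | y :: t => [x, y] :: pairs x t

/-- sublists with at most two elements -/
def subs2 : List ℕ → List (List ℕ)
  | [] => [[]]
  | x :: t => pairs x t ++ [x] :: subs2 t

/-- add the vertex `m` to the lists of `a` and of the elements of `T` -/
def addTo (a m : ℕ) (T : List ℕ) : ℕ → List (List ℕ) → List (List ℕ)
  | _, [] => []
  | i, l :: t => (if Nat.beq i a || memB i T then l ++ [m] else l) :: addTo a m T (i + 1) t

/-- the child pattern -/
def child (P : List (List ℕ)) (a : ℕ) (T : List ℕ) : List (List ℕ) :=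
  addTo a P.length T 0 P ++ [a :: T]

/-- complete pattern: all degrees are three -/
def complete (P : List (List ℕ)) : Bool := P.all fun l => Nat.beq l.length 3

/-- one child: `c = 2 t + 1 + 16384 * ρ` refers to the leaf `t`, `c = 2 t + 16384 * ρ` to the
open pattern `t` -/
def chkChild (leaves opens : List (List (List ℕ))) (Q : List (List ℕ)) (c : ℕ) : Bool :=
  if Nat.beq (Nat.mod c 2) 1 then
    !((gp leaves (Nat.div (Nat.mod c 16384) 2)).isEmpty) &&
      chkSub Q (gp leaves (Nat.div (Nat.mod c 16384) 2))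
        (digits (gp leaves (Nat.div (Nat.mod c 16384) 2)).length (Nat.div c 16384))
  else
    Nat.beq (gp opens (Nat.div (Nat.mod c 16384) 2)).length Q.length &&
      chkSub Q (gp opens (Nat.div (Nat.mod c 16384) 2)) (digits Q.length (Nat.div c 16384))

def chkChildren (leaves opens : List (List (List ℕ))) (P : List (List ℕ)) (a : ℕ) :
    List (List ℕ) → List ℕ → Bool
  | [], _ => true
  | T :: ts, cs =>
    if complete (child P a T) then chkChildren leaves opens P a ts cs
    else match cs with
      | [] => false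
      | c :: cs' => chkChild leaves opens (child P a T) c && chkChildren leaves opens P a ts cs'

/-- check of an open pattern, expanded at `a` -/
def chkNode (leaves opens : List (List (List ℕ))) (P : List (List ℕ)) (a : ℕ) (cs : List ℕ) : Bool :=
  wf P && Nat.blt a P.length && Nat.blt (gl P a).length 3 && Nat.ble P.length 22 &&
    chkChildren leaves opens P a (subs2 (stubsOf a 0 P)) cs

/-! ## Semantics -/

open Classical Finset

noncomputable section

/-- occurrence of a pattern in a ball of radius `r` around `v` -/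
structure Occ {V : Type} [Fintype V] (G : SimpleGraph V) (v : V) (r : ℕ) (P : List (List ℕ))
    (φ : ℕ → V) : Prop where
  inj : ∀ i < P.length, ∀ j < P.length, φ i = φ j → i = j
  adj : ∀ i < P.length, ∀ j < P.length, G.Adj (φ i) (φ j) ↔ j ∈ gl P i
  ball : ∀ i < P.length, φ i ∈ Bl G r v

/-- the conclusion of PAT at `v` -/
def Concl {V : Type} [Fintype V] (G : SimpleGraph V) (v : V) : Prop :=
  ∃ D : Finset (ℤ × ℤ × ℤ), Gen D ∧
    ∀ d ∈ D, ∃ A U : Finset V, ∃ c1 c2 : V → Bool, Gdt Pre G A U c1 c2 ∧ A ⊆ Bl G 23 v ∧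
      A.card ≤ 23 ∧ diff G U c1 c2 = d

/-- leaf patterns: every occurrence in the ball of radius 22 gives the conclusion -/
def LeafOK (P : List (List ℕ)) : Prop := ∀ (V : Type) [Fintype V] (G : SimpleGraph V), Cub G →
  ∀ (v : V) (φ : ℕ → V), Occ G v 22 P φ → Concl G v

/-- open patterns: every occurrence in the ball of radius `m - 1` gives the conclusion -/
def NodeOK (P : List (List ℕ)) : Prop := ∀ (V : Type) [Fintype V] (G : SimpleGraph V), Cub G →
  ∀ (v : V) (φ : ℕ → V), Big G v → Occ G v (P.length - 1) P φ → Concl G v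

/-- GADG: soundness of the gadget check -/
def Stmt_GADG : Prop := ∀ (P : List (List ℕ)) (S U c1 c2 : ℕ), wf P = true →
  chkGdt P S U c1 c2 = true → P.length ≤ 23 →
  ∀ (V : Type) [Fintype V] (G : SimpleGraph V), Cub G → ∀ (v : V) (φ : ℕ → V), Occ G v 22 P φ →
    ∃ (A U' : Finset V) (c1' c2' : V → Bool), Gdt Pre G A U' c1' c2' ∧ A ⊆ Bl G 22 v ∧
      A.card ≤ 23 ∧ diff G U' c1' c2' = gdiff P S U c1 c2

/-- LEAF: soundness of the leaf check -/
def Stmt_LEAF : Prop := ∀ (P : List (List ℕ)) (gs : List ℕ) (u v w : List ℤ),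
  chkLeaf P gs u v w = true → LeafOK P

/-- SUB: soundness of the induced subgraph check -/
def Stmt_SUB : Prop := ∀ (Q P : List (List ℕ)) (ρ : List ℕ), wf P = true → chkSub Q P ρ = true →
  ∀ (V : Type) [Fintype V] (G : SimpleGraph V) (v : V) (r : ℕ) (φ : ℕ → V), Occ G v r Q φ →
    Occ G v r P (fun k => φ (gn ρ k))

/-- EXT: expansion of a pattern -/
def Stmt_EXT : Prop := ∀ (P : List (List ℕ)) (a : ℕ), wf P = true → a < P.length →
  (gl P a).length < 3 → P.length ≤ 22 →
  ∀ (V : Type) [Fintype V] (G : SimpleGraph V), Cub G → ∀ (v : V) (φ : ℕ → V), Big G v →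
    Occ G v (P.length - 1) P φ →
    ∃ T ∈ subs2 (stubsOf a 0 P), ∃ φ' : ℕ → V, complete (child P a T) = false ∧
      Occ G v P.length (child P a T) φ'

/-- TREE: the induction over the table -/
def Stmt_TREE : Prop := ∀ (leaves opens : List (List (List ℕ))),
  (∀ P ∈ leaves, wf P = true ∧ LeafOK P) →
  (∀ P ∈ opens, ∃ (a : ℕ) (cs : List ℕ), chkNode leaves opens P a cs = true) →
  ∀ P ∈ opens, NodeOK P

end

end Pool.Agent.Work.MP_1e13ac_Bis
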