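import Mathlib
import Pool.Agent.Work.MP_1e13ac_Bis.Interface

set_option autoImplicit false

namespace Pool.Agent.Work.MP_1e13ac_Bis

open Classical Finset

theorem stmt_DENSE (hP : Stmt_PLACES) (hA : Stmt_ASM) : Stmt_DENSE := by
  intro d
  obtain ⟨K, N, h⟩ := hP d
  obtain ⟨N', h'⟩ := hA K
  exact ⟨max N N', fun V _ G hG hN hd =>
    h' V G hG ((le_max_right _ _).trans hN) (h V G hG ((le_max_left _ _).trans hN) hd)⟩

end Pool.Agent.Work.MP_1e13ac_Bis
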