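import Pool.Agent.Work.MP_1e13ac_Bis.Interface

/-! Block ES: the Efron-Stein inequality on the cube. -/

set_option autoImplicit false

namespace Pool.Agent.Work.MP_1e13ac_Bis

open Classical Finset

namespace EsBlock

section

variable {I : Type} [Fintype I]

/-- flip of a coordinate -/
noncomputable def fl (i : I) (σ : I → Bool) : I → Bool := Function.update σ i (!σ i)

lemma fl_same (i : I) (σ : I → Bool) : fl i σ i = !σ i := by simp [fl]

lemma fl_ne (i j : I) (σ : I → Bool) (h : j ≠ i) : fl i σ j = σ j := by simp [fl, h]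

lemma fl_inv (i : I) : Function.Involutive (fl i) := by
  intro σ
  ext j
  by_cases h : j = i
  · subst h; rw [fl_same, fl_same]; simp
  · rw [fl_ne _ _ _ h, fl_ne _ _ _ h]

lemma fl_comm (i j : I) (σ : I → Bool) : fl i (fl j σ) = fl j (fl i σ) := by
  by_cases hij : i = j
  · rw [hij]
  · ext k
    by_cases h : k = i
    · subst h
      rw [fl_same, fl_ne _ _ _ hij, fl_ne _ _ _ hij, fl_same]
    · by_cases h' : k = j
      · subst h'
        rw [fl_ne _ _ _ h, fl_same, fl_same, fl_ne _ _ _ h]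
      · rw [fl_ne _ _ _ h, fl_ne _ _ _ h', fl_ne _ _ _ h', fl_ne _ _ _ h]

lemma sum_fl (i : I) (h : (I → Bool) → ℝ) : ∑ σ, h (fl i σ) = ∑ σ, h σ :=
  Equiv.sum_comp (Function.Involutive.toPerm (fl i) (fl_inv i)) h

lemma step (f : (I → Bool) → ℝ) (S : Finset I) : ∃ g : (I → Bool) → ℝ,
    (∀ i ∈ S, ∀ σ, g (fl i σ) = g σ) ∧ ∑ σ, g σ = ∑ σ, f σ ∧
    (∀ i, ∑ σ, (g σ - g (fl i σ)) ^ 2 ≤ ∑ σ, (f σ - f (fl i σ)) ^ 2) ∧
    4 * ∑ σ, f σ ^ 2 ≤ 4 * ∑ σ, g σ ^ 2 + ∑ i ∈ S, ∑ σ, (f σ - f (fl i σ)) ^ 2 := by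
  induction S using Finset.induction_on with
  | empty => exact ⟨f, by simp, rfl, fun i => le_rfl, by simp⟩
  | insert j S hj ih =>
    obtain ⟨g, h1, h2, h3, h4⟩ := ih
    refine ⟨fun σ => (g σ + g (fl j σ)) / 2, ?_, ?_, ?_, ?_⟩
    · intro i hi σ
      simp only
      rcases mem_insert.1 hi with rfl | hi
      · rw [fl_inv i σ]; ring
      · rw [h1 i hi, fl_comm j i, h1 i hi]
    · rw [← h2]
      simp only [add_div]
      rw [Finset.sum_add_distrib, ← Finset.sum_div, ← Finset.sum_div, sum_fl j g]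
      ring
    · intro i
      refine le_trans ?_ (h3 i)
      have e1 : ∑ σ, (g (fl j σ) - g (fl i (fl j σ))) ^ 2 = ∑ σ, (g σ - g (fl i σ)) ^ 2 :=
        sum_fl j (fun σ => (g σ - g (fl i σ)) ^ 2)
      calc ∑ σ, ((g σ + g (fl j σ)) / 2 - (g (fl i σ) + g (fl j (fl i σ))) / 2) ^ 2
          ≤ ∑ σ, ((g σ - g (fl i σ)) ^ 2 / 2 + (g (fl j σ) - g (fl i (fl j σ))) ^ 2 / 2) := by
            refine Finset.sum_le_sum fun σ _ => ?_
            rw [fl_comm j i]
            nlinarith [sq_nonneg ((g σ - g (fl i σ)) - (g (fl j σ) - g (fl i (fl j σ))))]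
        _ = ∑ σ, (g σ - g (fl i σ)) ^ 2 := by
            rw [Finset.sum_add_distrib, ← Finset.sum_div, ← Finset.sum_div, e1]
            ring
    · rw [Finset.sum_insert hj]
      have e1 : 4 * ∑ σ, ((g σ + g (fl j σ)) / 2) ^ 2 + ∑ σ, (g σ - g (fl j σ)) ^ 2 =
          4 * ∑ σ, g σ ^ 2 := by
        have e2 : ∑ σ, g (fl j σ) ^ 2 = ∑ σ, g σ ^ 2 := sum_fl j (fun σ => g σ ^ 2)
        calc 4 * ∑ σ, ((g σ + g (fl j σ)) / 2) ^ 2 + ∑ σ, (g σ - g (fl j σ)) ^ 2
            = ∑ σ, (2 * g σ ^ 2 + 2 * g (fl j σ) ^ 2) := by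
              rw [Finset.mul_sum, ← Finset.sum_add_distrib]
              refine Finset.sum_congr rfl fun σ _ => ?_
              ring
          _ = 4 * ∑ σ, g σ ^ 2 := by
              rw [Finset.sum_add_distrib, ← Finset.mul_sum, ← Finset.mul_sum, e2]
              ring
      have e3 := h3 j
      simp only
      linarith

lemma const (g : (I → Bool) → ℝ) (h : ∀ i, ∀ σ, g (fl i σ) = g σ) (σ τ : I → Bool) :
    g τ = g σ := by
  have h1 : ∀ T : Finset I, g (fun i => if i ∈ T then τ i else σ i) = g σ := by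
    intro T
    induction T using Finset.induction_on with
    | empty => simp
    | insert j T hj ih =>
      rw [← ih]
      by_cases hjj : τ j = σ j
      · congr 1
        ext i
        by_cases hi : i = j
        · subst hi; simp [hjj]
        · simp [hi]
      · have h2 : (fun i => if i ∈ insert j T then τ i else σ i) =
            fl j (fun i => if i ∈ T then τ i else σ i) := by
          ext i
          by_cases hi : i = j
          · subst hi
            rw [fl_same]
            simp only [mem_insert, true_or, if_true, hj, if_false]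
            revert hjj
            cases τ i <;> cases σ i <;> simp
          · rw [fl_ne _ _ _ hi]
            simp [hi]
        rw [h2, h]
  have h2 := h1 univ
  simpa using h2

end

end EsBlock

open EsBlock

theorem stmt_ES : Stmt_ES := by
  intro I _ f hf
  obtain ⟨g, h1, h2, h3, h4⟩ := step f univ
  have hg : ∀ σ, g σ = 0 := by
    intro σ
    have h5 : ∑ τ, g τ = Fintype.card (I → Bool) * g σ := by
      rw [Finset.sum_congr rfl fun τ _ => const g (fun i => h1 i (mem_univ i)) σ τ,
        Finset.sum_const, nsmul_eq_mul, Finset.card_univ]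
    rw [h2, hf] at h5
    have h6 : (Fintype.card (I → Bool) : ℝ) ≠ 0 := by
      have : 0 < Fintype.card (I → Bool) := Fintype.card_pos
      exact_mod_cast this.ne'
    rcases mul_eq_zero.1 h5.symm with h7 | h7
    · exact absurd h7 h6
    · exact h7
  have h5 : ∑ σ, g σ ^ 2 = 0 := Finset.sum_eq_zero fun σ _ => by rw [hg σ]; norm_num
  rw [h5, mul_zero, zero_add] at h4
  exact h4

end Pool.Agent.Work.MP_1e13ac_Bis
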