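import Pool.Agent.Work.MP_1e13ac_Bis.Checker

/-!
# Block EXT of MP_1e13ac_co (helper31): expansion of a pattern
-/

set_option autoImplicit false

namespace Pool.Agent.Work.MP_1e13ac_Bis

open Classical Finset

namespace EXT

theorem beq_iff {a b : ℕ} : Nat.beq a b = true ↔ a = b :=
  ⟨Nat.eq_of_beq_eq_true, fun h => h ▸ Nat.beq_refl a⟩

theorem memB_iff (x : ℕ) : ∀ l : List ℕ, memB x l = true ↔ x ∈ l
  | [] => by simp [memB]
  | y :: t => by simp [memB, memB_iff x t]

theorem nodupB_iff : ∀ l : List ℕ, nodupB l = true ↔ l.Nodup
  | [] => by simp [nodupB]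
  | x :: t => by
    have h := memB_iff x t
    simp only [nodupB, Bool.and_eq_true, Bool.not_eq_true', List.nodup_cons, nodupB_iff t]
    rw [← h, Bool.not_eq_true]

theorem allIdx_iff (f : ℕ → List ℕ → Bool) :
    ∀ (P : List (List ℕ)) (k : ℕ),
      allIdx f k P = true ↔ ∀ i < P.length, f (k + i) (gl P i) = true
  | [], k => by simp [allIdx]
  | l :: t, k => by
    simp only [allIdx, Bool.and_eq_true, allIdx_iff f t (k + 1), List.length_cons]
    constructor
    · rintro ⟨h1, h2⟩ i hi
      cases i with
      | zero => simpa [gl] using h1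
      | succ n =>
        have := h2 n (by omega)
        rw [show k + (n + 1) = k + 1 + n by omega]
        simpa [gl] using this
    · intro h
      refine ⟨by simpa [gl] using h 0 (by omega), fun i hi => ?_⟩
      have := h (i + 1) (by omega)
      rw [show k + 1 + i = k + (i + 1) by omega]
      simpa [gl] using this

theorem gl_append : ∀ (A B : List (List ℕ)) (i : ℕ),
    gl (A ++ B) i = if i < A.length then gl A i else gl B (i - A.length)
  | [], B, i => by simp
  | l :: t, B, 0 => by simp [gl]
  | l :: t, B, i + 1 => by
    simp only [List.cons_append, gl, gl_append t B i, List.length_cons]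
    by_cases h : i < t.length
    · simp [h]
    · simp only [h, if_false]
      rw [if_neg (by omega)]
      congr 1
      omega

theorem addTo_length (a m : ℕ) (T : List ℕ) :
    ∀ (P : List (List ℕ)) (k : ℕ), (addTo a m T k P).length = P.length
  | [], k => by simp [addTo]
  | l :: t, k => by simp [addTo, addTo_length a m T t (k + 1)]

theorem gl_addTo (a m : ℕ) (T : List ℕ) :
    ∀ (P : List (List ℕ)) (k i : ℕ), i < P.length →
      gl (addTo a m T k P) i =
        if k + i = a ∨ (k + i) ∈ T then gl P i ++ [m] else gl P i
  | [], k, i, h => by simp at h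
  | l :: t, k, 0, _ => by
    simp only [addTo, gl, Bool.or_eq_true, beq_iff, memB_iff, Nat.add_zero]
  | l :: t, k, i + 1, h => by
    simp only [addTo, gl]
    rw [gl_addTo a m T t (k + 1) i (by simpa using h)]
    rw [show k + 1 + i = k + (i + 1) by omega]

theorem mem_stubs (a : ℕ) : ∀ (P : List (List ℕ)) (k x : ℕ),
    x ∈ stubsOf a k P ↔ ∃ i < P.length, x = k + i ∧ x ≠ a ∧ (gl P i).length < 3
  | [], k, x => by simp [stubsOf]
  | l :: t, k, x => by
    have hcond : ((!(Nat.beq k a) && Nat.blt l.length 3) = true) ↔ (k ≠ a ∧ l.length < 3) := by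
      rw [Bool.and_eq_true, Bool.not_eq_true', ← Bool.not_eq_true, beq_iff]
      simp [Nat.blt_eq]
    have ih := mem_stubs a t (k + 1) x
    simp only [stubsOf]
    constructor
    · intro h
      by_cases hc : (k ≠ a ∧ l.length < 3)
      · rw [if_pos (hcond.2 hc)] at h
        rcases List.mem_cons.1 h with h | h
        · exact ⟨0, by simp, by simpa using h, by rw [h]; exact hc.1, by simpa [gl] using hc.2⟩
        · obtain ⟨i, hi, h1, h2, h3⟩ := ih.1 h
          exact ⟨i + 1, by simpa using hi, by omega, h2, by simpa [gl] using h3⟩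
      · rw [if_neg (fun h' => hc (hcond.1 h'))] at h
        obtain ⟨i, hi, h1, h2, h3⟩ := ih.1 h
        exact ⟨i + 1, by simpa using hi, by omega, h2, by simpa [gl] using h3⟩
    · rintro ⟨i, hi, h1, h2, h3⟩
      cases i with
      | zero =>
        have hc : (k ≠ a ∧ l.length < 3) := ⟨by rw [h1] at h2; simpa using h2, by simpa [gl] using h3⟩
        rw [if_pos (hcond.2 hc)]
        exact List.mem_cons.2 (Or.inl (by simpa using h1))
      | succ n =>
        have hx : x ∈ stubsOf a (k + 1) t :=
          ih.2 ⟨n, by simpa using hi, by omega, h2, by simpa [gl] using h3⟩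
        split_ifs
        · exact List.mem_cons.2 (Or.inr hx)
        · exact hx

theorem nodup_stubs (a : ℕ) : ∀ (P : List (List ℕ)) (k : ℕ), (stubsOf a k P).Nodup
  | [], k => by simp [stubsOf]
  | l :: t, k => by
    simp only [stubsOf]
    split_ifs
    · refine List.nodup_cons.2 ⟨fun h => ?_, nodup_stubs a t (k + 1)⟩
      obtain ⟨i, _, h1, _⟩ := (mem_stubs a t (k + 1) k).1 h
      omega
    · exact nodup_stubs a t (k + 1)

theorem mem_pairs (x y : ℕ) : ∀ t : List ℕ, y ∈ t → [x, y] ∈ pairs x t
  | [], h => by simp at h
  | z :: t, h => by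
    simp only [pairs]
    rcases List.mem_cons.1 h with h | h
    · rw [h]; exact List.mem_cons_self
    · exact List.mem_cons.2 (Or.inr (mem_pairs x y t h))

theorem mem_subs2 {T L : List ℕ} (h : List.Sublist T L) : T.length ≤ 2 → T ∈ subs2 L := by
  induction h with
  | slnil => intro _; simp [subs2]
  | cons x _ ih =>
    intro h2
    simp only [subs2]
    exact List.mem_append.2 (Or.inr (List.mem_cons.2 (Or.inr (ih h2))))
  | @cons_cons T' t x hs ih =>
    intro h2
    simp only [subs2]
    match T', hs, h2 with
    | [], _, _ => exact List.mem_append.2 (Or.inr List.mem_cons_self)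
    | [y], hs, _ =>
      exact List.mem_append.2 (Or.inl (mem_pairs x y _ (hs.subset List.mem_cons_self)))
    | _ :: _ :: _, _, h2 => simp at h2

theorem complete_iff (P : List (List ℕ)) :
    complete P = true ↔ ∀ i < P.length, (gl P i).length = 3 := by
  have key : ∀ P : List (List ℕ), (P.all fun l => Nat.beq l.length 3) = true ↔
      ∀ i < P.length, (gl P i).length = 3 := by
    intro P
    induction P with
    | nil => simp
    | cons l t ih =>
      simp only [List.all_cons, Bool.and_eq_true, ih, beq_iff, List.length_cons]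
      constructor
      · rintro ⟨h1, h2⟩ i hi
        cases i with
        | zero => simpa [gl] using h1
        | succ n => simpa [gl] using h2 n (by omega)
      · intro h
        exact ⟨by simpa [gl] using h 0 (by omega),
          fun i hi => by simpa [gl] using h (i + 1) (by omega)⟩
  exact key P

/-- the content of `wf` -/
theorem wf_iff (P : List (List ℕ)) : wf P = true ↔ ∀ i < P.length,
    (gl P i).Nodup ∧ (gl P i).length ≤ 3 ∧
      ∀ j ∈ gl P i, j < P.length ∧ j ≠ i ∧ i ∈ gl P j := by
  unfold wf
  rw [allIdx_iff]
  refine forall_congr' fun i => imp_congr_right fun _ => ?_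
  simp only [Nat.zero_add, Bool.and_eq_true, nodupB_iff, List.all_eq_true, Bool.not_eq_true',
    memB_iff, Nat.blt_eq, Nat.ble_eq, and_assoc]
  refine and_congr_right fun _ => and_congr_right fun _ => forall_congr' fun j =>
    imp_congr_right fun _ => and_congr_right fun _ => and_congr_left fun _ => ?_
  rw [← Bool.not_eq_true, beq_iff]

section graph

variable {V : Type} [Fintype V] {G : SimpleGraph V}

theorem mem_nbs {x y : V} : y ∈ nbs G x ↔ G.Adj x y := by simp [nbs]

theorem bl_succ {r : ℕ} {v x : V} (h : x ∈ Bl G r v) : x ∈ Bl G (r + 1) v := by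
  simp only [Bl, mem_filter, mem_univ, true_and]
  exact ⟨x, h, Or.inl rfl⟩

theorem bl_adj {r : ℕ} {v x y : V} (h : x ∈ Bl G r v) (ha : G.Adj x y) :
    y ∈ Bl G (r + 1) v := by
  simp only [Bl, mem_filter, mem_univ, true_and]
  exact ⟨x, h, Or.inr ha⟩

theorem bl_reach {v : V} : ∀ (r : ℕ) (x : V), x ∈ Bl G r v → G.Reachable v x
  | 0, x, h => by
    simp only [Bl, mem_singleton] at h
    rw [h]
  | r + 1, x, h => by
    simp only [Bl, mem_filter, mem_univ, true_and] at h
    obtain ⟨y, hy, h⟩ := h
    have := bl_reach r y hy
    rcases h with h | h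
    · rw [h]; exact this
    · exact this.trans h.reachable

omit [Fintype V] in
theorem closed_reach {S : Finset V} (hS : ∀ x ∈ S, ∀ y, G.Adj x y → y ∈ S) {x y : V}
    (hx : x ∈ S) (h : G.Reachable x y) : y ∈ S := by
  obtain ⟨p⟩ := h
  induction p with
  | nil => exact hx
  | cons ha _ ih => exact ih (hS _ hx _ ha)

end graph

end EXT

open EXT in
theorem stmt_EXT : Stmt_EXT := by
  intro P a hwf ha hdeg hlen V _ G hcub v φ hbig hocc
  have hW := (wf_iff P).1 hwf
  set m := P.length with hm
  -- neighbours inside the image
  have hin : ∀ i < m, ∀ j ∈ gl P i, φ j ∈ nbs G (φ i) := by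
    intro i hi j hj
    rw [mem_nbs]
    exact (hocc.adj i hi j ((hW i hi).2.2 j hj).1).2 hj
  -- a new neighbour of `φ a`
  obtain ⟨w, hwa, hwim⟩ : ∃ w, G.Adj (φ a) w ∧ ∀ i < m, φ i ≠ w := by
    by_contra hcon
    push Not at hcon
    have hsub : nbs G (φ a) ⊆ (gl P a).toFinset.image φ := by
      intro w hw
      rw [mem_nbs] at hw
      obtain ⟨i, hi, hiw⟩ := hcon w hw
      rw [mem_image]
      refine ⟨i, ?_, hiw⟩
      rw [List.mem_toFinset]
      rw [← hiw] at hw
      exact (hocc.adj a ha i hi).1 hw
    have h1 := card_le_card hsub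
    have h2 : ((gl P a).toFinset.image φ).card ≤ (gl P a).length :=
      card_image_le.trans (List.toFinset_card_le _)
    rw [hcub] at h1
    omega
  set T := (stubsOf a 0 P).filter (fun i => decide (G.Adj (φ i) w)) with hT
  have hTsub : List.Sublist T (stubsOf a 0 P) := List.filter_sublist
  have hTnd : T.Nodup := (nodup_stubs a P 0).sublist hTsub
  have hTmem : ∀ x, x ∈ T ↔ (x < m ∧ x ≠ a ∧ (gl P x).length < 3) ∧ G.Adj (φ x) w := by
    intro x
    rw [hT, List.mem_filter, mem_stubs, decide_eq_true_iff]
    constructor
    · rintro ⟨⟨i, hi, h1, h2, h3⟩, h4⟩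
      have : x = i := by omega
      subst this
      exact ⟨⟨hi, h2, h3⟩, h4⟩
    · rintro ⟨⟨h1, h2, h3⟩, h4⟩
      exact ⟨⟨x, h1, by omega, h2, h3⟩, h4⟩
  -- adjacency to `w`
  have hadjw : ∀ i < m, (G.Adj (φ i) w ↔ i = a ∨ i ∈ T) := by
    intro i hi
    constructor
    · intro h
      by_cases hia : i = a
      · exact Or.inl hia
      · right
        rw [hTmem]
        refine ⟨⟨hi, hia, ?_⟩, h⟩
        -- the degree of `i` in the pattern is at most two
        have hsub : (gl P i).toFinset.image φ ⊆ (nbs G (φ i)).erase w := by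
          intro x hx
          rw [mem_image] at hx
          obtain ⟨j, hj, rfl⟩ := hx
          rw [List.mem_toFinset] at hj
          rw [mem_erase]
          exact ⟨hwim j ((hW i hi).2.2 j hj).1, hin i hi j hj⟩
        have h1 := card_le_card hsub
        rw [card_erase_of_mem (mem_nbs.2 h), hcub, card_image_of_injOn,
          List.toFinset_card_of_nodup (hW i hi).1] at h1
        · omega
        · intro j hj j' hj' he
          have hj := List.mem_toFinset.1 hj
          have hj' := List.mem_toFinset.1 hj'
          exact hocc.inj j ((hW i hi).2.2 j hj).1 j' ((hW i hi).2.2 j' hj').1 he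
    · rintro (h | h)
      · rw [h]; exact hwa
      · exact ((hTmem i).1 h).2
  have haT : a ∉ T := fun h => ((hTmem a).1 h).1.2.1 rfl
  -- at most two further neighbours
  have hTlen : T.length ≤ 2 := by
    have hsub : (a :: T).toFinset.image φ ⊆ nbs G w := by
      intro x hx
      rw [mem_image] at hx
      obtain ⟨j, hj, rfl⟩ := hx
      rw [List.mem_toFinset, List.mem_cons] at hj
      rw [mem_nbs]
      rcases hj with hj | hj
      · rw [hj]; exact hwa.symm
      · exact ((hTmem j).1 hj).2.symm
    have h1 := card_le_card hsub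
    have hlt : ∀ j ∈ (a :: T), j < m := by
      intro j hj
      rcases List.mem_cons.1 hj with hj | hj
      · rw [hj]; exact ha
      · exact ((hTmem j).1 hj).1.1
    rw [hcub, card_image_of_injOn,
      List.toFinset_card_of_nodup (List.nodup_cons.2 ⟨haT, hTnd⟩)] at h1
    · simp only [List.length_cons] at h1
      omega
    · intro j hj j' hj' he
      exact hocc.inj j (hlt j (List.mem_toFinset.1 hj)) j' (hlt j' (List.mem_toFinset.1 hj')) he
  set φ' : ℕ → V := fun i => if i = m then w else φ i with hφ'
  have hφm : φ' m = w := by simp [hφ']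
  have hφi : ∀ i, i < m → φ' i = φ i := by
    intro i hi
    simp only [hφ']
    rw [if_neg (by omega)]
  -- the lists of the child
  have hclen : (child P a T).length = m + 1 := by
    simp [child, addTo_length, hm]
  have hcgl : ∀ i < m, gl (child P a T) i =
      if i = a ∨ i ∈ T then gl P i ++ [m] else gl P i := by
    intro i hi
    unfold child
    rw [gl_append, addTo_length, if_pos hi, gl_addTo a P.length T P 0 i hi]
    simp only [Nat.zero_add, ← hm]
  have hcglm : gl (child P a T) m = a :: T := by
    unfold child
    rw [gl_append, addTo_length, if_neg (by omega)]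
    simp [gl, hm]
  have hm_notin : ∀ i < m, m ∉ gl P i := fun i hi h => by
    have := ((hW i hi).2.2 m h).1
    omega
  have hOcc : Occ G v P.length (child P a T) φ' := by
    refine ⟨?_, ?_, ?_⟩
    · rw [hclen]
      intro i hi j hj he
      rcases Nat.lt_succ_iff_lt_or_eq.1 hi with hi | hi <;>
        rcases Nat.lt_succ_iff_lt_or_eq.1 hj with hj | hj
      · rw [hφi i hi, hφi j hj] at he
        exact hocc.inj i hi j hj he
      · subst hj
        rw [hφi i hi, hφm] at he
        exact absurd he (hwim i hi)
      · subst hi
        rw [hφi j hj, hφm] at he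
        exact absurd he.symm (hwim j hj)
      · rw [hi, hj]
    · rw [hclen]
      intro i hi j hj
      rcases Nat.lt_succ_iff_lt_or_eq.1 hi with hi | hi <;>
        rcases Nat.lt_succ_iff_lt_or_eq.1 hj with hj | hj
      · rw [hφi i hi, hφi j hj, hocc.adj i hi j hj, hcgl i hi]
        split_ifs
        · rw [List.mem_append, List.mem_singleton]
          constructor
          · exact Or.inl
          · rintro (h | h)
            · exact h
            · omega
        · exact Iff.rfl
      · subst hj
        rw [hφi i hi, hφm, hadjw i hi, hcgl i hi]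
        split_ifs with h
        · simp [h]
        · exact ⟨fun h' => absurd h' h, fun h' => absurd h' (hm_notin i hi)⟩
      · subst hi
        rw [hφi j hj, hφm, G.adj_comm, hadjw j hj, hcglm, List.mem_cons]
      · subst hi
        subst hj
        rw [hcglm, List.mem_cons]
        constructor
        · intro h
          exact absurd h (G.loopless.irrefl _)
        · rintro (h | h)
          · omega
          · have := ((hTmem _).1 h).1.1
            omega
    · rw [hclen]
      intro i hi
      have hms : P.length = (P.length - 1) + 1 := by omega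
      rw [hms]
      rcases Nat.lt_succ_iff_lt_or_eq.1 hi with hi | hi
      · rw [hφi i hi]
        exact bl_succ (hocc.ball i hi)
      · rw [hi, hφm]
        exact bl_adj (hocc.ball a ha) hwa
  refine ⟨T, mem_subs2 hTsub hTlen, φ', ?_, hOcc⟩
  -- not complete
  by_contra hcomp
  rw [Bool.not_eq_false] at hcomp
  rw [complete_iff, hclen] at hcomp
  have hnd : ∀ i < m + 1, (gl (child P a T) i).Nodup ∧ ∀ j ∈ gl (child P a T) i, j < m + 1 := by
    intro i hi
    rcases Nat.lt_succ_iff_lt_or_eq.1 hi with hi | hi
    · rw [hcgl i hi]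
      split_ifs
      · refine ⟨?_, ?_⟩
        · rw [List.nodup_append]
          refine ⟨(hW i hi).1, by simp, ?_⟩
          intro x hx y hy
          rw [List.mem_singleton] at hy
          rintro rfl
          rw [hy] at hx
          exact hm_notin i hi hx
        · intro j hj
          rcases List.mem_append.1 hj with hj | hj
          · have := ((hW i hi).2.2 j hj).1
            omega
          · rw [List.mem_singleton] at hj
            omega
      · refine ⟨(hW i hi).1, fun j hj => ?_⟩
        have := ((hW i hi).2.2 j hj).1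
        omega
    · subst hi
      rw [hcglm]
      refine ⟨List.nodup_cons.2 ⟨haT, hTnd⟩, fun j hj => ?_⟩
      rcases List.mem_cons.1 hj with hj | hj
      · omega
      · have := ((hTmem j).1 hj).1.1
        omega
  set S : Finset V := (range (m + 1)).image φ' with hS
  have hclosed : ∀ x ∈ S, ∀ y, G.Adj x y → y ∈ S := by
    intro x hx y hxy
    rw [hS, mem_image] at hx
    obtain ⟨i, hi, rfl⟩ := hx
    rw [mem_range] at hi
    have hsub : (gl (child P a T) i).toFinset.image φ' ⊆ nbs G (φ' i) := by
      intro z hz
      rw [mem_image] at hz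
      obtain ⟨j, hj, rfl⟩ := hz
      rw [List.mem_toFinset] at hj
      rw [mem_nbs]
      exact (hOcc.adj i (by rw [hclen]; exact hi) j
        (by rw [hclen]; exact (hnd i hi).2 j hj)).2 hj
    have hcard : ((gl (child P a T) i).toFinset.image φ').card = 3 := by
      rw [card_image_of_injOn, List.toFinset_card_of_nodup (hnd i hi).1, hcomp i hi]
      intro j hj j' hj' he
      have hj := (hnd i hi).2 j (List.mem_toFinset.1 hj)
      have hj' := (hnd i hi).2 j' (List.mem_toFinset.1 hj')
      exact hOcc.inj j (by rw [hclen]; exact hj) j' (by rw [hclen]; exact hj') he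
    have heq := eq_of_subset_of_card_le hsub (by rw [hcub, hcard])
    have hy : y ∈ nbs G (φ' i) := mem_nbs.2 hxy
    rw [← heq, mem_image] at hy
    obtain ⟨j, hj, rfl⟩ := hy
    rw [hS, mem_image]
    exact ⟨j, mem_range.2 ((hnd i hi).2 j (List.mem_toFinset.1 hj)), rfl⟩
  have haS : φ a ∈ S := by
    rw [hS, mem_image]
    exact ⟨a, mem_range.2 (by omega), hφi a ha⟩
  have hva : G.Reachable v (φ a) := bl_reach _ _ (hocc.ball a ha)
  have hsub : (univ.filter fun x => G.Reachable v x) ⊆ S := by
    intro x hx
    rw [mem_filter] at hx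
    exact closed_reach hclosed haS (hva.symm.trans hx.2)
  have h1 := card_le_card hsub
  have h2 : S.card ≤ m + 1 := by
    rw [hS]
    exact card_image_le.trans (by rw [card_range])
  have h3 : 24 ≤ (univ.filter fun x => G.Reachable v x).card := hbig
  omega

end Pool.Agent.Work.MP_1e13ac_Bis
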