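import Pool.Agent.Work.MP_1e13ac_Bis.LEAF
import Pool.Agent.Work.MP_1e13ac_Fast.Defs

/-! MP_1e13ac_co: soundness of the fast leaf check. -/

set_option autoImplicit false

namespace Pool.Agent.Work.MP_1e13ac_Bis

open Pool.Agent.Work.MP_1e13ac_Fast

namespace FastB

theorem recAnd (a b : Bool) : (Bool.rec (motive := fun _ => Bool) false b a : Bool) = (a && b) := by
  cases a <;> rfl

theorem recOr (a b : Bool) : (Bool.rec (motive := fun _ => Bool) b true a : Bool) = (a || b) := by
  cases a <;> rfl

theorem recNot (a b : Bool) : (Bool.rec (motive := fun _ => Bool) b false a : Bool) = (!a && b) := by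
  cases a <;> rfl

theorem recImp (a b : Bool) : (Bool.rec (motive := fun _ => Bool) true b a : Bool) = (!a || b) := by
  cases a <;> rfl

theorem recIte {α : Type} (a : Bool) (x y : α) :
    (Bool.rec (motive := fun _ => α) x y a : α) = if a = true then y else x := by
  cases a <;> rfl

theorem tbR_eq (x i : ℕ) : tbR x i = tb x i := rfl

theorem memR_eq (x : ℕ) (l : List ℕ) : memR x l = memB x l := by
  induction l with
  | nil => rfl
  | cons y t ih =>
    show (Bool.rec (motive := fun _ => Bool) (memR x t) true (Nat.beq x y) : Bool) = _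
    rw [recOr, ih]
    rfl

theorem nodupR_eq (l : List ℕ) : nodupR l = nodupB l := by
  induction l with
  | nil => rfl
  | cons y t ih =>
    show (Bool.rec (motive := fun _ => Bool) (nodupR t) false (memR y t) : Bool) = _
    rw [recNot, ih, memR_eq]
    rfl

theorem glR_eq (L : List (List ℕ)) (n : ℕ) : glR L n = gl L n := by
  induction L generalizing n with
  | nil => rfl
  | cons l t ih =>
    cases n with
    | zero => rfl
    | succ n => exact ih n

theorem allR_eq (f : ℕ → Bool) (l : List ℕ) : allR f l = l.all f := by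
  induction l with
  | nil => rfl
  | cons y t ih =>
    show (Bool.rec (motive := fun _ => Bool) false (allR f t) (f y) : Bool) = _
    rw [recAnd, ih]
    rfl

theorem anyR_eq (f : ℕ → Bool) (l : List ℕ) : anyR f l = l.any f := by
  induction l with
  | nil => rfl
  | cons y t ih =>
    show (Bool.rec (motive := fun _ => Bool) (anyR f t) true (f y) : Bool) = _
    rw [recOr, ih]
    rfl

theorem allIdxR_eq (f : ℕ → List ℕ → Bool) (L : List (List ℕ)) (i : ℕ) :
    allIdxR f L i = allIdx f i L := by
  induction L generalizing i with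
  | nil => rfl
  | cons l t ih =>
    show (Bool.rec (motive := fun _ => Bool) false (allIdxR f t (i + 1)) (f i l) : Bool) = _
    rw [recAnd, ih]
    rfl

theorem lenR_eq (L : List (List ℕ)) : lenR L = L.length := by
  induction L with
  | nil => rfl
  | cons l t ih =>
    show lenR t + 1 = _
    rw [ih]
    rfl

theorem lenN_eq (L : List ℕ) : lenN L = L.length := by
  induction L with
  | nil => rfl
  | cons l t ih =>
    show lenN t + 1 = _
    rw [ih]
    rfl

theorem wfR_eq (P : List (List ℕ)) : wfR (lenR P) P = wf P := by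
  unfold wfR wf
  rw [allIdxR_eq]
  congr 1
  funext i l
  simp only [recAnd, recNot, allR_eq, memR_eq, glR_eq, lenN_eq, lenR_eq, nodupR_eq, Bool.and_assoc]
  rfl

theorem filtSR_eq (S : ℕ) (l : List ℕ) : filtSR S l = filtS S l := by
  induction l with
  | nil => rfl
  | cons j t ih =>
    show (Bool.rec (motive := fun _ => List ℕ) (filtSR S t) (j :: filtSR S t) (tbR S j) : List ℕ) = _
    rw [recIte, ih]
    rfl

theorem restrR_eq (S : ℕ) (L : List (List ℕ)) (i : ℕ) : restrR S L i = restr S i L := by
  induction L generalizing i with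
  | nil => rfl
  | cons l t ih =>
    show (Bool.rec (motive := fun _ => List ℕ) [] (filtSR S l) (tbR S i) : List ℕ) ::
      restrR S t (i + 1) = _
    rw [recIte, ih, filtSR_eq]
    rfl

theorem tb_iff (x i : ℕ) : tb x i = x.testBit i := by
  have h : tb x i = decide (x >>> i % 2 = 1) := by
    show Nat.beq (x >>> i % 2) 1 = _
    by_cases h : x >>> i % 2 = 1
    · rw [h]
      rfl
    · rw [decide_eq_false h]
      rw [Bool.eq_false_iff]
      intro h1
      exact h (Nat.eq_of_beq_eq_true h1)
  rw [h, Nat.testBit_eq_decide_div_mod_eq, Nat.shiftRight_eq_div_pow]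

theorem filtC_eq (S c : ℕ) (b : Bool) (l : List ℕ) :
    filtC S c b l = filtS (if b = true then Nat.land S c else Nat.land S (Nat.xor S c)) l := by
  induction l with
  | nil => rfl
  | cons j t ih =>
    have h : (tb S j && (tb c j == b)) =
        tb (if b = true then Nat.land S c else Nat.land S (Nat.xor S c)) j := by
      cases b
      · have h1 : Nat.land S (Nat.xor S c) = S &&& (S ^^^ c) := rfl
        rw [if_neg (by simp), h1]
        simp only [tb_iff, Nat.testBit_and, Nat.testBit_xor]
        cases S.testBit j <;> cases c.testBit j <;> rfl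
      · have h1 : Nat.land S c = S &&& c := rfl
        rw [if_pos rfl, h1]
        simp only [tb_iff, Nat.testBit_and]
        cases S.testBit j <;> cases c.testBit j <;> rfl
    show (if (tb S j && (tb c j == b)) = true then j :: filtC S c b t else filtC S c b t) = _
    rw [h, ih]
    rfl

theorem monoR_eq (S c : ℕ) (L : List (List ℕ)) (i : ℕ) :
    monoR S c (Nat.land S c) (Nat.land S (Nat.xor S c)) L i = mono S c i L := by
  induction L generalizing i with
  | nil => rfl
  | cons l t ih =>
    show (Bool.rec (motive := fun _ => List ℕ) []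
      (filtSR (Bool.rec (motive := fun _ => ℕ) (Nat.land S (Nat.xor S c)) (Nat.land S c)
        (tbR c i)) l) (tbR S i) : List ℕ) ::
      monoR S c (Nat.land S c) (Nat.land S (Nat.xor S c)) t (i + 1) = _
    rw [recIte, recIte, ih, filtSR_eq, tbR_eq, tbR_eq, ← filtC_eq]
    rfl

theorem monR_eq (S c : ℕ) (P : List (List ℕ)) : monR S c P = mono S c 0 P := monoR_eq S c P 0

theorem chkPreR_eq (S : ℕ) (N M : List (List ℕ)) : chkPreR S N M = chkPre S N M := by
  unfold chkPreR chkPre
  rw [allIdxR_eq]
  congr 1
  funext i n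
  simp only [recAnd, recOr, recImp, allR_eq, glR_eq, lenN_eq, tbR_eq, Bool.and_assoc]
  rfl

/-- number of vertices of `U` from `i` on -/
def szU (U : ℕ) : ℕ → List (List ℕ) → ℤ
  | _, [] => 0
  | i, _ :: t => (if tb U i then 1 else 0) + szU U (i + 1) t

/-- signed count -/
def sgn (U c : ℕ) (f : List ℕ → Bool) : ℕ → List (List ℕ) → ℤ
  | _, [] => 0
  | i, l :: t => (if tb U i then (if f l then (if tb c i then 1 else -1) else 0) else 0) +
      sgn U c f (i + 1) t

theorem cntR_eq (U c : ℕ) (f : List ℕ → Bool) (L : List (List ℕ)) (i : ℕ) :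
    ((cntR U c f L i : ℕ) : ℤ) = sgn U c f i L + szU U i L := by
  induction L generalizing i with
  | nil => rfl
  | cons l t ih =>
    have h : cntR U c f (l :: t) i = if tb U i = true then
        (if f l = true then (if tb c i = true then 2 else 0) else 1) + cntR U c f t (i + 1)
        else cntR U c f t (i + 1) := by
      show (Bool.rec (motive := fun _ => ℕ) (cntR U c f t (i + 1))
        (Nat.add (Bool.rec (motive := fun _ => ℕ) 1
          (Bool.rec (motive := fun _ => ℕ) 0 2 (tbR c i)) (f l))
          (cntR U c f t (i + 1))) (tbR U i) : ℕ) = _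
      rw [recIte, recIte, recIte]
      rfl
    rw [h]
    simp only [sgn, szU]
    have h2 := ih (i + 1)
    by_cases h1 : tb U i = true
    · rw [if_pos h1, if_pos h1, if_pos h1]
      by_cases h3 : f l = true
      · by_cases h4 : tb c i = true
        · rw [if_pos h3, if_pos h4, if_pos h3, if_pos h4]
          push_cast
          omega
        · rw [if_pos h3, if_neg h4, if_pos h3, if_neg h4]
          push_cast
          omega
      · rw [if_neg h3, if_neg h3]
        push_cast
        omega
    · rw [if_neg h1, if_neg h1, if_neg h1]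
      omega

theorem stat_eq (U c : ℕ) (M L : List (List ℕ)) (i : ℕ) :
    stat U c M i L = (sgn U c (fun _ => true) i L,
      sgn U c (fun l => Nat.beq l.length 2) i L,
      sgn U c (fun l => Nat.beq l.length 2 && l.any (fun j => Nat.beq (gl M j).length 2)) i L) := by
  induction L generalizing i with
  | nil => rfl
  | cons l t ih =>
    unfold stat
    rw [ih]
    simp only [sgn]
    by_cases h1 : tb U i = true
    · rw [if_pos h1, if_pos h1, if_pos h1, if_pos h1]
      rfl
    · rw [if_neg h1, if_neg h1, if_neg h1, if_neg h1]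
      simp

theorem szU_congr (U i : ℕ) (L L' : List (List ℕ)) (h : L.length = L'.length) :
    szU U i L = szU U i L' := by
  induction L generalizing L' i with
  | nil =>
    cases L' with
    | nil => rfl
    | cons l t => simp at h
  | cons l t ih =>
    cases L' with
    | nil => simp at h
    | cons l' t' =>
      simp only [szU]
      rw [ih (i + 1) t' (by simpa using h)]

theorem mono_length (S c i : ℕ) (P : List (List ℕ)) : (mono S c i P).length = P.length := by
  induction P generalizing i with
  | nil => rfl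
  | cons l t ih => simp [mono, ih]

theorem chkG_spec (P : List (List ℕ)) (S U c1 c2 d0 d1 d2 : ℕ)
    (h : chkG P S U c1 c2 d0 d1 d2 = true) :
    chkGdt P S U c1 c2 = true ∧
      gdiff P S U c1 c2 = ((d0 : ℤ) - 50, (d1 : ℤ) - 50, (d2 : ℤ) - 50) := by
  unfold chkG at h
  simp only [recAnd, recImp, allR_eq, anyR_eq, glR_eq, lenN_eq, tbR_eq, monR_eq, restrR_eq,
    allIdxR_eq, chkPreR_eq] at h
  simp only [Bool.and_eq_true] at h
  obtain ⟨h1, h2, h3, h4, h5, h6, h7, h8⟩ := h
  refine ⟨?_, ?_⟩
  · unfold chkGdt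
    simp only [Bool.and_eq_true]
    refine ⟨⟨⟨⟨h1, h2⟩, ?_⟩, h4⟩, h5⟩
    rw [← h3]
    congr 1
    funext i n
    simp only [Bool.and_assoc]
  · have e6 := Nat.eq_of_beq_eq_true h6
    have e7 := Nat.eq_of_beq_eq_true h7
    have e8 := Nat.eq_of_beq_eq_true h8
    have hs : szU U 0 (mono S c2 0 P) = szU U 0 (mono S c1 0 P) :=
      szU_congr _ _ _ _ (by rw [mono_length, mono_length])
    unfold gdiff
    rw [stat_eq, stat_eq]
    have k6 := cntR_eq U c2 (fun _ => true) (mono S c2 0 P) 0
    have k6' := cntR_eq U c1 (fun _ => true) (mono S c1 0 P) 0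
    have k7 := cntR_eq U c2 (fun l => Nat.beq l.length 2) (mono S c2 0 P) 0
    have k7' := cntR_eq U c1 (fun l => Nat.beq l.length 2) (mono S c1 0 P) 0
    have k8 := cntR_eq U c2 (fun l => Nat.beq l.length 2 &&
      l.any (fun j => Nat.beq (gl (mono S c2 0 P) j).length 2)) (mono S c2 0 P) 0
    have k8' := cntR_eq U c1 (fun l => Nat.beq l.length 2 &&
      l.any (fun j => Nat.beq (gl (mono S c1 0 P) j).length 2)) (mono S c1 0 P) 0
    change cntR U c2 (fun _ => true) (mono S c2 0 P) 0 + 50 =
      cntR U c1 (fun _ => true) (mono S c1 0 P) 0 + d0 at e6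
    change cntR U c2 (fun l => Nat.beq l.length 2) (mono S c2 0 P) 0 + 50 =
      cntR U c1 (fun l => Nat.beq l.length 2) (mono S c1 0 P) 0 + d1 at e7
    change cntR U c2 (fun l => Nat.beq l.length 2 &&
      l.any (fun j => Nat.beq (gl (mono S c2 0 P) j).length 2)) (mono S c2 0 P) 0 + 50 =
      cntR U c1 (fun l => Nat.beq l.length 2 &&
      l.any (fun j => Nat.beq (gl (mono S c1 0 P) j).length 2)) (mono S c1 0 P) 0 + d2 at e8
    refine Prod.ext ?_ (Prod.ext ?_ ?_)
    · show sgn U c2 _ 0 _ - sgn U c1 _ 0 _ = (d0 : ℤ) - 50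
      omega
    · show sgn U c2 _ 0 _ - sgn U c1 _ 0 _ = (d1 : ℤ) - 50
      omega
    · show sgn U c2 _ 0 _ - sgn U c1 _ 0 _ = (d2 : ℤ) - 50
      omega

/-- the difference vector with a given code -/
def dvec1 (d : ℕ) : ℤ × ℤ × ℤ :=
  (((d % 128 : ℕ) : ℤ) - 50, ((d / 128 % 128 : ℕ) : ℤ) - 50, ((d / 16384 : ℕ) : ℤ) - 50)

/-- the three difference vectors -/
def dvec (d : ℕ) : List (ℤ × ℤ × ℤ) :=
  [dvec1 (d % 2097152), dvec1 (d / 2097152 % 2097152), dvec1 (d / 4398046511104)]

/-- the three vectors with code `d` generate the lattice -/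
def GenD (d : ℕ) : Prop := (dvec d).all inBox = true ∧ ∃ u v w : List ℤ,
  comb u (dvec d) = (2, 0, 0) ∧ comb v (dvec d) = (0, 1, 0) ∧ comb w (dvec d) = (0, 0, 2)

theorem chkGX_spec (P : List (List ℕ)) (x d : ℕ) (h : chkGX P x d = true) :
    gOK P x = true ∧ gD P x = dvec1 d := by
  obtain ⟨h1, h2⟩ := chkG_spec P _ _ _ _ _ _ _ h
  exact ⟨h1, h2⟩

theorem chkLeafR_spec (P : List (List ℕ)) (x y z d : ℕ) (hd : d ≠ 0 → GenD d)
    (h : chkLeafR P x y z d = true) : wf P = true ∧ LeafOK P := by
  unfold chkLeafR at h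
  simp only [recAnd, recNot] at h
  rw [Bool.and_eq_true, Bool.and_eq_true, Bool.and_eq_true, Bool.and_eq_true, Bool.and_eq_true,
    wfR_eq, lenR_eq] at h
  obtain ⟨h0, h1, h2, h3, h4, h5⟩ := h
  have hd0 : d ≠ 0 := by
    rintro rfl
    exact absurd h0 (by decide)
  obtain ⟨hb, u, v, w, hu, hv, hw⟩ := hd hd0
  obtain ⟨a3, b3⟩ := chkGX_spec P _ _ h3
  obtain ⟨a4, b4⟩ := chkGX_spec P _ _ h4
  obtain ⟨a5, b5⟩ := chkGX_spec P _ _ h5
  have hm : [x, y, z].map (gD P) = dvec d := by
    show [gD P x, gD P y, gD P z] = _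
    rw [b3, b4, b5]
    rfl
  refine ⟨h2, stmt_LEAF P [x, y, z] u v w ?_⟩
  unfold chkLeaf
  rw [hm, hu, hv, hw, hb, h1, h2]
  have ha : [x, y, z].all (gOK P) = true := by
    simp [a3, a4, a5]
  rw [ha]
  rfl

theorem gnR_mem (D : List ℕ) (k : ℕ) (h : gnR D k ≠ 0) : gnR D k ∈ D := by
  induction D generalizing k with
  | nil => exact absurd rfl h
  | cons y t ih =>
    cases k with
    | zero => exact List.mem_cons_self
    | succ k => exact List.mem_cons_of_mem _ (ih k h)

theorem leafAllR_spec (D : List ℕ) (hD : ∀ d ∈ D, GenD d) (Ps : List (List (List ℕ))) :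
    ∀ cs, leafAllR D Ps cs = true → ∀ P ∈ Ps, wf P = true ∧ LeafOK P := by
  induction Ps with
  | nil => intro cs _ P hP; simp at hP
  | cons Q Qs ih =>
    intro cs h P hP
    cases cs with
    | nil => exact absurd h Bool.false_ne_true
    | cons c cs =>
      change (Bool.rec (motive := fun _ => Bool) false (leafAllR D Qs cs) _ : Bool) = true at h
      rw [recAnd, Bool.and_eq_true] at h
      rcases List.mem_cons.1 hP with rfl | hP
      · exact chkLeafR_spec _ _ _ _ _ (fun h0 => hD _ (gnR_mem D _ h0)) h.1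
      · exact ih cs h.2 P hP

end FastB

end Pool.Agent.Work.MP_1e13ac_Bis
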