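import Pool.Agent.Work.MP_1e13ac_Bis.Checker

/-! MP_1e13ac_co, block SUB (helper96): soundness of the induced subgraph check. -/

set_option autoImplicit false
set_option linter.unusedSectionVars false

namespace Pool.Agent.Work.MP_1e13ac_Bis

namespace SubB

lemma memB_iff (x : ℕ) (l : List ℕ) : memB x l = true ↔ x ∈ l := by
  induction l with
  | nil => simp [memB]
  | cons y t ih =>
    show (Nat.beq x y || memB x t) = true ↔ x ∈ y :: t
    rw [Bool.or_eq_true, ih, List.mem_cons, Nat.beq_eq]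

lemma nodupB_iff (l : List ℕ) : nodupB l = true ↔ l.Nodup := by
  induction l with
  | nil => simp [nodupB]
  | cons y t ih =>
    show (!(memB y t) && nodupB t) = true ↔ (y :: t).Nodup
    rw [Bool.and_eq_true, ih, List.nodup_cons, Bool.not_eq_true', ← memB_iff, Bool.not_eq_true]

lemma gn_eq (l : List ℕ) (k : ℕ) (h : k < l.length) : gn l k = l[k] := by
  induction l generalizing k with
  | nil => exact absurd h (Nat.not_lt_zero _)
  | cons y t ih =>
    cases k with
    | zero => rfl
    | succ k =>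
      show gn t k = _
      rw [List.getElem_cons_succ]
      exact ih k (Nat.lt_of_succ_lt_succ h)

lemma gn_mem (l : List ℕ) (k : ℕ) (h : k < l.length) : gn l k ∈ l := by
  rw [gn_eq l k h]
  exact List.getElem_mem h

lemma gn_inj (l : List ℕ) (hl : l.Nodup) (i j : ℕ) (hi : i < l.length) (hj : j < l.length)
    (h : gn l i = gn l j) : i = j := by
  rw [gn_eq l i hi, gn_eq l j hj] at h
  exact (List.Nodup.getElem_inj_iff hl).1 h

lemma gl_eq (l : List (List ℕ)) (k : ℕ) (h : k < l.length) : gl l k = l[k] := by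
  induction l generalizing k with
  | nil => exact absurd h (Nat.not_lt_zero _)
  | cons y t ih =>
    cases k with
    | zero => rfl
    | succ k =>
      show gl t k = _
      rw [List.getElem_cons_succ]
      exact ih k (Nat.lt_of_succ_lt_succ h)

lemma mem_mapR (ρ l : List ℕ) (y : ℕ) : y ∈ mapR ρ l ↔ ∃ x ∈ l, gn ρ x = y := by
  induction l with
  | nil => simp [mapR]
  | cons z t ih =>
    show y ∈ gn ρ z :: mapR ρ t ↔ _
    rw [List.mem_cons, ih]
    constructor
    · rintro (h | ⟨x, hx, h⟩)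
      · exact ⟨z, List.mem_cons_self, h.symm⟩
      · exact ⟨x, List.mem_cons_of_mem _ hx, h⟩
    · rintro ⟨x, hx, h⟩
      rcases List.mem_cons.1 hx with rfl | hx
      · exact Or.inl h.symm
      · exact Or.inr ⟨x, hx, h⟩

lemma allIdx_iff (f : ℕ → List ℕ → Bool) (n : ℕ) (L : List (List ℕ)) :
    allIdx f n L = true ↔ ∀ i < L.length, f (n + i) (gl L i) = true := by
  induction L generalizing n with
  | nil =>
    show true = true ↔ _
    simp
  | cons l t ih =>
    show (f n l && allIdx f (n + 1) t) = true ↔ _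
    rw [Bool.and_eq_true, ih]
    constructor
    · rintro ⟨h1, h2⟩ i hi
      cases i with
      | zero => exact h1
      | succ i =>
        have h3 := h2 i (Nat.lt_of_succ_lt_succ hi)
        rw [Nat.add_assoc, Nat.add_comm 1 i] at h3
        exact h3
    · intro h
      refine ⟨h 0 (Nat.succ_pos _), fun i hi => ?_⟩
      have h3 := h (i + 1) (Nat.succ_lt_succ hi)
      rw [Nat.add_assoc, Nat.add_comm 1 i]
      exact h3

lemma wf_lt (P : List (List ℕ)) (h : wf P = true) (i j : ℕ) (hi : i < P.length)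
    (hj : j ∈ gl P i) : j < P.length := by
  have h1 := (allIdx_iff _ 0 P).1 h i hi
  rw [Bool.and_eq_true, Bool.and_eq_true, List.all_eq_true] at h1
  have h2 := h1.2 j hj
  rw [Bool.and_eq_true, Bool.and_eq_true] at h2
  exact (Nat.blt_eq ▸ h2.1.1)

end SubB

open SubB in
/-- **SUB** -/
theorem stmt_SUB : Stmt_SUB := by
  intro Q P ρ hP hc V _ G v r φ hφ
  unfold chkSub at hc
  rw [Bool.and_eq_true, Bool.and_eq_true, Bool.and_eq_true] at hc
  obtain ⟨⟨⟨h1, h2⟩, h3⟩, h4⟩ := hc
  have hnd := (nodupB_iff ρ).1 h1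
  have hlen : ρ.length = P.length := Nat.eq_of_beq_eq_true h2
  have hlt : ∀ k < P.length, gn ρ k < Q.length := by
    intro k hk
    have h5 := List.all_eq_true.1 h3 (gn ρ k) (gn_mem ρ k (hlen ▸ hk))
    exact (Nat.blt_eq ▸ h5)
  have hinj : ∀ i < P.length, ∀ j < P.length, gn ρ i = gn ρ j → i = j :=
    fun i hi j hj h => gn_inj ρ hnd i j (hlen ▸ hi) (hlen ▸ hj) h
  refine ⟨?_, ?_, ?_⟩
  · intro i hi j hj h
    exact hinj i hi j hj (hφ.inj _ (hlt i hi) _ (hlt j hj) h)
  · intro i hi j hj
    have h5 := (allIdx_iff _ 0 P).1 h4 i hi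
    rw [Bool.and_eq_true, List.all_eq_true, List.all_eq_true, Nat.zero_add] at h5
    rw [hφ.adj _ (hlt i hi) _ (hlt j hj)]
    constructor
    · intro h
      have h6 := h5.2 _ h
      rw [Bool.or_eq_true, Bool.not_eq_true'] at h6
      rcases h6 with h6 | h6
      · have h7 := (memB_iff (gn ρ j) ρ).2 (gn_mem ρ j (hlen ▸ hj))
        rw [h7] at h6
        exact absurd h6 (by decide)
      · obtain ⟨x, hx, h7⟩ := (mem_mapR _ _ _).1 ((memB_iff _ _).1 h6)
        have h8 := hinj x (wf_lt P hP i x hi hx) j hj h7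
        exact h8 ▸ hx
    · intro h
      exact (memB_iff _ _).1 (h5.1 _ ((mem_mapR _ _ _).2 ⟨j, h, rfl⟩))
  · intro i hi
    exact hφ.ball _ (hlt i hi)

end Pool.Agent.Work.MP_1e13ac_Bis
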