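import Pool.Agent.Work.MP_1e13ac_Bis.FASTL
import Pool.Agent.Work.MP_1e13ac_Bis.SUB
import Pool.Agent.Work.MP_1e13ac_Bis.BALL

/-! MP_1e13ac_co: soundness of the fast node check and the induction over the tables. -/

set_option autoImplicit false

namespace Pool.Agent.Work.MP_1e13ac_Bis

open Pool.Agent.Work.MP_1e13ac_Fast

namespace FastB

theorem dgR_lt (r k : ℕ) : dgR r k < 32 := Nat.mod_lt _ (by norm_num)

theorem bit_one (a b : ℕ) : (1 <<< a).testBit b = decide (a = b) := by
  rw [Nat.one_shiftLeft, Nat.testBit_two_pow]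

theorem mskL_testBit (l : List ℕ) (j : ℕ) : (mskL l).testBit j = true ↔ j ∈ l := by
  induction l with
  | nil =>
    show (0 : ℕ).testBit j = true ↔ _
    simp
  | cons x t ih =>
    show ((1 <<< x) ||| mskL t).testBit j = true ↔ _
    rw [Nat.testBit_or, Bool.or_eq_true, ih, bit_one, decide_eq_true_iff, List.mem_cons, eq_comm]

theorem shift_row (m : ℕ) (i j k : ℕ) (hm : ∀ x, m.testBit x = true → x < 32) (hj : j < 32) :
    (m <<< (32 * k)).testBit (32 * i + j) = true ↔ i = k ∧ m.testBit j = true := by
  rw [Nat.testBit_shiftLeft, Bool.and_eq_true, decide_eq_true_iff]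
  constructor
  · rintro ⟨h1, h2⟩
    have h3 := hm _ h2
    have h4 : i = k := by omega
    subst h4
    refine ⟨rfl, ?_⟩
    rwa [Nat.add_sub_cancel_left] at h2
  · rintro ⟨rfl, h⟩
    refine ⟨by omega, ?_⟩
    rwa [Nat.add_sub_cancel_left]

theorem codR_testBit (L : List (List ℕ)) (k i j : ℕ) (hj : j < 32)
    (hL : ∀ l ∈ L, ∀ x ∈ l, x < 32) :
    (codR L k).testBit (32 * i + j) = true ↔ k ≤ i ∧ j ∈ gl L (i - k) := by
  induction L generalizing k with
  | nil =>
    show (0 : ℕ).testBit _ = true ↔ _
    simp [gl]
  | cons l t ih =>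
    show ((mskL l <<< (32 * k)) ||| codR t (k + 1)).testBit (32 * i + j) = true ↔ _
    rw [Nat.testBit_or, Bool.or_eq_true, ih (k + 1) (fun l' h' => hL l' (List.mem_cons_of_mem _ h')),
      shift_row _ _ _ _ (fun x hx => hL l List.mem_cons_self x ((mskL_testBit l x).1 hx)) hj,
      mskL_testBit]
    constructor
    · rintro (⟨rfl, h⟩ | ⟨h1, h2⟩)
      · refine ⟨le_refl _, ?_⟩
        rw [Nat.sub_self]
        exact h
      · refine ⟨by omega, ?_⟩
        have h3 : i - k = (i - (k + 1)) + 1 := by omega
        rw [h3]
        exact h2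
    · rintro ⟨h1, h2⟩
      rcases Nat.eq_or_lt_of_le h1 with h3 | h3
      · left
        subst h3
        rw [Nat.sub_self] at h2
        exact ⟨rfl, h2⟩
      · right
        refine ⟨h3, ?_⟩
        have h4 : i - k = (i - (k + 1)) + 1 := by omega
        rw [h4] at h2
        exact h2

theorem b2R_testBit (x m i j : ℕ) (hx : x < 32) (hm : m < 32) (hj : j < 32) :
    (b2R x m).testBit (32 * i + j) = true ↔ (i = x ∧ j = m) ∨ (i = m ∧ j = x) := by
  show ((1 <<< (32 * x + m)) ||| (1 <<< (32 * m + x))).testBit (32 * i + j) = true ↔ _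
  rw [Nat.testBit_or, Bool.or_eq_true, bit_one, bit_one, decide_eq_true_iff, decide_eq_true_iff]
  omega

theorem nbT_testBit (m i j : ℕ) (T : List ℕ) (hm : m < 32) (hj : j < 32)
    (hT : ∀ x ∈ T, x < 32) :
    (nbT m T).testBit (32 * i + j) = true ↔ (i ∈ T ∧ j = m) ∨ (i = m ∧ j ∈ T) := by
  induction T with
  | nil =>
    show (0 : ℕ).testBit _ = true ↔ _
    simp
  | cons x t ih =>
    show (b2R x m ||| nbT m t).testBit (32 * i + j) = true ↔ _
    rw [Nat.testBit_or, Bool.or_eq_true, ih (fun y hy => hT y (List.mem_cons_of_mem _ hy)),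
      b2R_testBit x m i j (hT x List.mem_cons_self) hm hj, List.mem_cons, List.mem_cons]
    tauto

theorem imgL_testBit (r : ℕ) (l : List ℕ) (j : ℕ) :
    (imgL r l).testBit j = true ↔ ∃ x ∈ l, dgR r x = j := by
  induction l with
  | nil =>
    show (0 : ℕ).testBit j = true ↔ _
    simp
  | cons x t ih =>
    show ((1 <<< dgR r x) ||| imgL r t).testBit j = true ↔ _
    rw [Nat.testBit_or, Bool.or_eq_true, ih, bit_one, decide_eq_true_iff]
    simp

theorem imgR_testBit (r : ℕ) (L : List (List ℕ)) (k i j : ℕ) (hj : j < 32) :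
    (imgR r L k).testBit (32 * i + j) = true ↔
      ∃ t < L.length, dgR r (k + t) = i ∧ ∃ x ∈ gl L t, dgR r x = j := by
  induction L generalizing k with
  | nil =>
    show (0 : ℕ).testBit _ = true ↔ _
    simp
  | cons l t ih =>
    show ((imgL r l <<< (32 * dgR r k)) ||| imgR r t (k + 1)).testBit (32 * i + j) = true ↔ _
    rw [Nat.testBit_or, Bool.or_eq_true, ih (k + 1), shift_row _ _ _ _ ?_ hj, imgL_testBit]
    · constructor
      · rintro (⟨rfl, h⟩ | ⟨s, hs, h1, h2⟩)
        · exact ⟨0, Nat.succ_pos _, rfl, h⟩
        · refine ⟨s + 1, Nat.succ_lt_succ hs, ?_, h2⟩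
          rw [← h1]
          congr 1
          omega
      · rintro ⟨s, hs, h1, h2⟩
        cases s with
        | zero => exact Or.inl ⟨h1.symm, h2⟩
        | succ s =>
          refine Or.inr ⟨s, Nat.lt_of_succ_lt_succ hs, ?_, h2⟩
          rw [← h1]
          congr 1
          omega
    · intro x hx
      obtain ⟨y, _, hy⟩ := (imgL_testBit r l x).1 hx
      rw [← hy]
      exact dgR_lt r y

theorem mskR_testBit (r m : ℕ) (L : List (List ℕ)) (k t j : ℕ) (ht : t < L.length)
    (hj : m.testBit j = true) :
    (mskR r m L k).testBit (32 * dgR r (k + t) + j) = true := by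
  induction L generalizing k t with
  | nil => exact absurd ht (Nat.not_lt_zero _)
  | cons l u ih =>
    show ((m <<< (32 * dgR r k)) ||| mskR r m u (k + 1)).testBit _ = true
    rw [Nat.testBit_or, Bool.or_eq_true]
    cases t with
    | zero =>
      left
      rw [Nat.testBit_shiftLeft, Bool.and_eq_true, decide_eq_true_iff]
      refine ⟨by rw [Nat.add_zero]; omega, ?_⟩
      rw [Nat.add_zero, Nat.add_sub_cancel_left]
      exact hj
    | succ t =>
      right
      have h := ih (k + 1) t (Nat.lt_of_succ_lt_succ ht)
      have e : k + 1 + t = k + (t + 1) := by omega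
      rw [e] at h
      exact h

theorem rmR_spec (r : ℕ) (L : List (List ℕ)) (k acc : ℕ) (h : rmR r L k acc ≠ 0) :
    (∀ b, acc.testBit b = true → (rmR r L k acc).testBit b = true) ∧
    (∀ t < L.length, acc.testBit (dgR r (k + t)) = false ∧
      (rmR r L k acc).testBit (dgR r (k + t)) = true) ∧
    (∀ s < L.length, ∀ t < L.length, dgR r (k + s) = dgR r (k + t) → s = t) := by
  induction L generalizing k acc with
  | nil =>
    refine ⟨fun b hb => hb, ?_, ?_⟩
    · intro t ht
      exact absurd ht (Nat.not_lt_zero _)
    · intro s hs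
      exact absurd hs (Nat.not_lt_zero _)
  | cons l u ih =>
    have e : rmR r (l :: u) k acc =
        if tbR acc (dgR r k) = true then 0 else rmR r u (k + 1) (acc ||| (1 <<< dgR r k)) :=
      recIte _ _ _
    by_cases h1 : tbR acc (dgR r k) = true
    · rw [e, if_pos h1] at h
      exact absurd rfl h
    · rw [e, if_neg h1] at h
      rw [e, if_neg h1]
      obtain ⟨i1, i2, i3⟩ := ih (k + 1) _ h
      rw [Bool.not_eq_true, tbR_eq, tb_iff] at h1
      have key : ∀ t < u.length, acc.testBit (dgR r (k + (t + 1))) = false ∧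
          dgR r k ≠ dgR r (k + (t + 1)) := by
        intro t ht
        have h2 := (i2 t ht).1
        rw [Nat.testBit_or, bit_one, Bool.or_eq_false_iff, decide_eq_false_iff_not] at h2
        have e1 : k + 1 + t = k + (t + 1) := by omega
        rw [e1] at h2
        exact h2
      refine ⟨?_, ?_, ?_⟩
      · intro b hb
        apply i1
        rw [Nat.testBit_or, hb, Bool.true_or]
      · intro t ht
        cases t with
        | zero =>
          refine ⟨h1, i1 _ ?_⟩
          rw [Nat.testBit_or, bit_one, Nat.add_zero]
          simp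
        | succ t =>
          have ht' : t < u.length := Nat.lt_of_succ_lt_succ ht
          refine ⟨(key t ht').1, ?_⟩
          have h3 := (i2 t ht').2
          have e1 : k + 1 + t = k + (t + 1) := by omega
          rw [e1] at h3
          exact h3
      · intro s hs t ht hst
        cases s with
        | zero =>
          cases t with
          | zero => rfl
          | succ t => exact absurd hst (key t (Nat.lt_of_succ_lt_succ ht)).2
        | succ s =>
          cases t with
          | zero => exact absurd hst.symm (key s (Nat.lt_of_succ_lt_succ hs)).2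
          | succ t =>
            have e1 : k + 1 + s = k + (s + 1) := by omega
            have e2 : k + 1 + t = k + (t + 1) := by omega
            have h4 := i3 s (Nat.lt_of_succ_lt_succ hs) t (Nat.lt_of_succ_lt_succ ht)
              (by rw [e1, e2]; exact hst)
            rw [h4]

theorem gpR_mem (L : List (List (List ℕ))) (k : ℕ) (h : gpR L k ≠ []) : gpR L k ∈ L := by
  induction L generalizing k with
  | nil => exact absurd rfl h
  | cons y t ih =>
    cases k with
    | zero => exact List.mem_cons_self
    | succ k => exact List.mem_cons_of_mem _ (ih k h)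

theorem gqR_mem (L : List (List (List (List ℕ)))) (k : ℕ) (h : gqR L k ≠ []) : gqR L k ∈ L := by
  induction L generalizing k with
  | nil => exact absurd rfl h
  | cons y t ih =>
    cases k with
    | zero => exact List.mem_cons_self
    | succ k => exact List.mem_cons_of_mem _ (ih k h)

theorem lkR_mem (T : List (List (List (List ℕ)))) (t : ℕ) (h : lkR T t ≠ []) :
    ∃ B ∈ T, lkR T t ∈ B := by
  have h1 : lkR T t ∈ gqR T (Nat.div t 32) := gpR_mem _ _ h
  refine ⟨_, gqR_mem T (Nat.div t 32) ?_, h1⟩
  intro h2
  rw [h2] at h1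
  exact absurd h1 List.not_mem_nil

/-- the bit code `q` describes the adjacency of the first `n` points -/
def CodeOK {V : Type} (G : SimpleGraph V) (φ : ℕ → V) (n q : ℕ) : Prop :=
  ∀ i < n, ∀ j < n, (G.Adj (φ i) (φ j) ↔ q.testBit (32 * i + j) = true)

theorem hitC_spec {V : Type} [Fintype V] (G : SimpleGraph V) (v : V) (rad : ℕ) (φ : ℕ → V)
    (T : List (List (List (List ℕ)))) (n q c : ℕ) (hn : n ≤ 32)
    (hinj : ∀ i < n, ∀ j < n, φ i = φ j → i = j) (hcode : CodeOK G φ n q)
    (hball : ∀ i < n, φ i ∈ Bl G rad v) (hwf : wf (tgR T c) = true)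
    (h : hitC T n q c = true) :
    Occ G v rad (tgR T c) (fun k => φ (dgR (c / 4096) k)) := by
  unfold hitC vdC at h
  rw [recAnd, recNot, Bool.and_eq_true, Bool.and_eq_true, Bool.not_eq_true'] at h
  obtain ⟨h1, h2, h3⟩ := h
  have hne : rmC T c ≠ 0 := by
    intro h0
    rw [h0] at h2
    exact absurd h2 (by decide)
  have hlt : rmC T c < 2 ^ n := by
    have h4 := Nat.le_of_ble_eq_true h3
    have h5 : Nat.shiftLeft 1 n = 2 ^ n := Nat.one_shiftLeft n
    rw [h5] at h4
    exact h4
  have hand : q &&& mkC T c = imC T c := Nat.eq_of_beq_eq_true h1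
  obtain ⟨-, hbit, hdinj⟩ := rmR_spec (c / 4096) (tgR T c) 0 0 hne
  set P := tgR T c with hP
  set r := c / 4096 with hr
  have hdlt : ∀ t < P.length, dgR r t < n := by
    intro t ht
    have h4 := (hbit t ht).2
    rw [Nat.zero_add] at h4
    by_contra hcon
    rw [not_lt] at hcon
    have h5 : (rmR r P 0 0).testBit (dgR r t) = false :=
      Nat.testBit_lt_two_pow (lt_of_lt_of_le hlt (Nat.pow_le_pow_right (by norm_num) hcon))
    rw [h5] at h4
    exact absurd h4 Bool.false_ne_true
  have hdi : ∀ s < P.length, ∀ t < P.length, dgR r s = dgR r t → s = t := by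
    intro s hs t ht hst
    exact hdinj s hs t ht (by rw [Nat.zero_add, Nat.zero_add]; exact hst)
  refine ⟨?_, ?_, ?_⟩
  · intro i hi j hj hij
    exact hdi i hi j hj (hinj _ (hdlt i hi) _ (hdlt j hj) hij)
  · intro i hi j hj
    rw [hcode _ (hdlt i hi) _ (hdlt j hj)]
    have hm : (mkC T c).testBit (32 * dgR r i + dgR r j) = true := by
      have h4 := mskR_testBit r (rmC T c) P 0 i (dgR r j) hi (by
        have h5 := (hbit j hj).2
        rw [Nat.zero_add] at h5
        exact h5)
      rw [Nat.zero_add] at h4
      exact h4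
    have h6 : q.testBit (32 * dgR r i + dgR r j) = (imC T c).testBit (32 * dgR r i + dgR r j) := by
      rw [← hand, Nat.testBit_and, hm, Bool.and_true]
    rw [h6]
    have h7 := imgR_testBit r P 0 (dgR r i) (dgR r j) (dgR_lt r j)
    change (imC T c).testBit _ = true ↔ _ at h7
    rw [h7]
    constructor
    · rintro ⟨t, ht, h8, x, hx, h9⟩
      rw [Nat.zero_add] at h8
      have h10 := hdi t ht i hi h8
      subst h10
      have h11 := hdi x (SubB.wf_lt P hwf t x hi hx) j hj h9
      exact h11 ▸ hx
    · intro h8
      exact ⟨i, hi, by rw [Nat.zero_add], j, h8, rfl⟩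
  · intro i hi
    exact hball _ (hdlt i hi)

theorem cplR_eq (L : List (List ℕ)) : cplR L = complete L := by
  induction L with
  | nil => rfl
  | cons l t ih =>
    show (Bool.rec (motive := fun _ => Bool) false (cplR t) (Nat.beq (lenN l) 3) : Bool) = _
    rw [recAnd, ih, lenN_eq]
    rfl

theorem appR_eq (l : List ℕ) (m : ℕ) : appR l m = l ++ [m] := by
  induction l with
  | nil => rfl
  | cons x t ih =>
    show x :: appR t m = _
    rw [ih]
    rfl

theorem chdR_eq (a m : ℕ) (T : List ℕ) (L : List (List ℕ)) (i : ℕ) :
    chdR a m T L i = addTo a m T i L ++ [a :: T] := by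
  induction L generalizing i with
  | nil => rfl
  | cons l t ih =>
    show (Bool.rec (motive := fun _ => List ℕ)
      (Bool.rec (motive := fun _ => List ℕ) l (appR l m) (memR i T)) (appR l m) (Nat.beq i a) :
      List ℕ) :: chdR a m T t (i + 1) = _
    rw [recIte, recIte, ih, appR_eq, memR_eq]
    have h : addTo a m T i (l :: t) =
      (if (Nat.beq i a || memB i T) = true then l ++ [m] else l) :: addTo a m T (i + 1) t := rfl
    rw [h, List.cons_append]
    congr 1
    by_cases h1 : Nat.beq i a = true
    · rw [if_pos h1, h1, Bool.true_or, if_pos rfl]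
    · rw [if_neg h1]
      rw [Bool.not_eq_true] at h1
      rw [h1, Bool.false_or]

theorem stbR_eq (a : ℕ) (L : List (List ℕ)) (i : ℕ) (s : List ℕ) (h : stbR a L i s = true) :
    s = stubsOf a i L := by
  induction L generalizing i s with
  | nil =>
    cases s with
    | nil => rfl
    | cons x t => exact absurd h Bool.false_ne_true
  | cons l t ih =>
    have e : stbR a (l :: t) i s = (if Nat.beq i a = true then stbR a t (i + 1) s else
        if Nat.ble (lenN l) 2 = true then (List.rec (motive := fun _ => Bool) false
          (fun x t' _ => Bool.rec (motive := fun _ => Bool) false (stbR a t (i + 1) t')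
            (Nat.beq x i)) s : Bool) else stbR a t (i + 1) s) := by
      show (Bool.rec (motive := fun _ => Bool)
        (Bool.rec (motive := fun _ => Bool) (stbR a t (i + 1) s)
          (List.rec (motive := fun _ => Bool) false
            (fun x t' _ => Bool.rec (motive := fun _ => Bool) false (stbR a t (i + 1) t')
              (Nat.beq x i)) s)
          (Nat.ble (lenN l) 2))
        (stbR a t (i + 1) s) (Nat.beq i a) : Bool) = _
      rw [recIte, recIte]
    have e2 : stubsOf a i (l :: t) = if (!(Nat.beq i a) && Nat.blt l.length 3) = true then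
      i :: stubsOf a (i + 1) t else stubsOf a (i + 1) t := rfl
    rw [e2]
    rw [e] at h
    by_cases h1 : Nat.beq i a = true
    · rw [if_pos h1] at h
      rw [h1, if_neg (by simp)]
      exact ih (i + 1) s h
    · rw [if_neg h1] at h
      rw [Bool.not_eq_true] at h1
      rw [h1, Bool.not_false, Bool.true_and]
      have e3 : Nat.blt l.length 3 = Nat.ble (lenN l) 2 := by
        rw [lenN_eq]
        rfl
      rw [e3]
      by_cases h2 : Nat.ble (lenN l) 2 = true
      · rw [if_pos h2] at h
        rw [if_pos h2]
        cases s with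
        | nil => exact absurd h Bool.false_ne_true
        | cons x u =>
          change (Bool.rec (motive := fun _ => Bool) false (stbR a t (i + 1) u)
            (Nat.beq x i) : Bool) = true at h
          rw [recAnd, Bool.and_eq_true] at h
          rw [← ih (i + 1) u h.2, Nat.eq_of_beq_eq_true h.1]
      · rw [if_neg h2] at h
        rw [if_neg h2]
        exact ih (i + 1) s h

theorem prsR_eq (x : ℕ) (r : List (List ℕ)) (t : List ℕ) : prsR x r t = pairs x t ++ r := by
  induction t with
  | nil => rfl
  | cons y u ih =>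
    show [x, y] :: prsR x r u = _
    rw [ih]
    rfl

theorem sb2R_eq (s : List ℕ) : sb2R s = subs2 s := by
  induction s with
  | nil => rfl
  | cons x t ih =>
    show prsR x ([x] :: sb2R t) t = _
    rw [prsR_eq, ih]
    rfl

theorem subs2_mem (s T : List ℕ) (h : T ∈ subs2 s) : ∀ x ∈ T, x ∈ s := by
  induction s generalizing T with
  | nil =>
    have h1 : T = [] := by simpa [subs2] using h
    subst h1
    intro x hx
    exact absurd hx List.not_mem_nil
  | cons y t ih =>
    have h0 : subs2 (y :: t) = pairs y t ++ [y] :: subs2 t := rfl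
    rw [h0, List.mem_append, List.mem_cons] at h
    rcases h with h | h | h
    · have hp : ∀ u : List ℕ, T ∈ pairs y u → ∃ z ∈ u, T = [y, z] := by
        intro u
        induction u with
        | nil => intro h1; exact absurd h1 List.not_mem_nil
        | cons w u ihu =>
          intro h1
          have h2 : pairs y (w :: u) = [y, w] :: pairs y u := rfl
          rw [h2, List.mem_cons] at h1
          rcases h1 with h1 | h1
          · exact ⟨w, List.mem_cons_self, h1⟩
          · obtain ⟨z, hz, hz'⟩ := ihu h1
            exact ⟨z, List.mem_cons_of_mem _ hz, hz'⟩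
      obtain ⟨z, hz, rfl⟩ := hp t h
      intro x hx
      rcases List.mem_cons.1 hx with rfl | hx
      · exact List.mem_cons_self
      · rw [List.mem_singleton] at hx
        subst hx
        exact List.mem_cons_of_mem _ hz
    · subst h
      intro x hx
      rw [List.mem_singleton] at hx
      subst hx
      exact List.mem_cons_self
    · intro x hx
      exact List.mem_cons_of_mem _ (ih T h x hx)

theorem stubs_lt (a : ℕ) (P : List (List ℕ)) (k x : ℕ) (h : x ∈ stubsOf a k P) :
    x < k + P.length := by
  induction P generalizing k with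
  | nil => exact absurd h List.not_mem_nil
  | cons l t ih =>
    have e2 : stubsOf a k (l :: t) = if (!(Nat.beq k a) && Nat.blt l.length 3) = true then
      k :: stubsOf a (k + 1) t else stubsOf a (k + 1) t := rfl
    rw [e2] at h
    have h3 : x = k ∨ x ∈ stubsOf a (k + 1) t := by
      split_ifs at h
      · exact List.mem_cons.1 h
      · exact Or.inr h
    rcases h3 with rfl | h3
    · simp
    · have h4 := ih (k + 1) h3
      rw [List.length_cons]
      omega

theorem gl_addTo_mem (a m : ℕ) (T : List ℕ) (P : List (List ℕ)) (k i j : ℕ)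
    (hi : i < P.length) :
    j ∈ gl (addTo a m T k P) i ↔ j ∈ gl P i ∨ ((k + i = a ∨ k + i ∈ T) ∧ j = m) := by
  induction P generalizing k i with
  | nil => exact absurd hi (Nat.not_lt_zero _)
  | cons l t ih =>
    have h : addTo a m T k (l :: t) =
      (if (Nat.beq k a || memB k T) = true then l ++ [m] else l) :: addTo a m T (k + 1) t := rfl
    rw [h]
    cases i with
    | zero =>
      show j ∈ (if (Nat.beq k a || memB k T) = true then l ++ [m] else l) ↔ j ∈ l ∨ _
      have hb : (Nat.beq k a || memB k T) = true ↔ (k = a ∨ k ∈ T) := by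
        rw [Bool.or_eq_true, Nat.beq_eq, SubB.memB_iff]
      rw [Nat.add_zero]
      by_cases h1 : (Nat.beq k a || memB k T) = true
      · rw [if_pos h1, List.mem_append, List.mem_singleton]
        have h2 := hb.1 h1
        tauto
      · rw [if_neg h1]
        have h2 := fun h => h1 (hb.2 h)
        tauto
    | succ i =>
      show j ∈ gl (addTo a m T (k + 1) t) i ↔ j ∈ gl t i ∨ _
      rw [ih (k + 1) i (Nat.lt_of_succ_lt_succ hi)]
      have e : k + 1 + i = k + (i + 1) := by omega
      rw [e]

theorem gl_append_lt (A B : List (List ℕ)) (i : ℕ) (h : i < A.length) :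
    gl (A ++ B) i = gl A i := by
  induction A generalizing i with
  | nil => exact absurd h (Nat.not_lt_zero _)
  | cons l t ih =>
    cases i with
    | zero => rfl
    | succ i => exact ih i (Nat.lt_of_succ_lt_succ h)

theorem gl_append_self (A : List (List ℕ)) (l : List ℕ) : gl (A ++ [l]) A.length = l := by
  induction A with
  | nil => rfl
  | cons x t ih => exact ih

theorem addTo_len (a m : ℕ) (T : List ℕ) (k : ℕ) (P : List (List ℕ)) :
    (addTo a m T k P).length = P.length := by
  induction P generalizing k with
  | nil => rfl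
  | cons l t ih =>
    have h : addTo a m T k (l :: t) =
      (if (Nat.beq k a || memB k T) = true then l ++ [m] else l) :: addTo a m T (k + 1) t := rfl
    rw [h, List.length_cons, ih, List.length_cons]

theorem child_len (P : List (List ℕ)) (a : ℕ) (T : List ℕ) :
    (child P a T).length = P.length + 1 := by
  unfold child
  rw [List.length_append, addTo_len, List.length_singleton]

theorem mem_of_gl (L : List (List ℕ)) (i x : ℕ) (h : x ∈ gl L i) : i < L.length := by
  induction L generalizing i with
  | nil => exact absurd h List.not_mem_nil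
  | cons l t ih =>
    cases i with
    | zero => exact Nat.succ_pos _
    | succ i => exact Nat.succ_lt_succ (ih i h)

theorem gl_of_mem (L : List (List ℕ)) (l : List ℕ) (h : l ∈ L) :
    ∃ i < L.length, gl L i = l := by
  induction L with
  | nil => exact absurd h List.not_mem_nil
  | cons y t ih =>
    rcases List.mem_cons.1 h with rfl | h
    · exact ⟨0, Nat.succ_pos _, rfl⟩
    · obtain ⟨i, hi, h2⟩ := ih h
      exact ⟨i + 1, Nat.succ_lt_succ hi, h2⟩

/-- the bit code of the child -/
theorem child_code {V : Type} [Fintype V] (G : SimpleGraph V) (v : V) (rad : ℕ) (φ : ℕ → V)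
    (P : List (List ℕ)) (a : ℕ) (T : List ℕ) (hP : wf P = true) (hlen : P.length ≤ 22)
    (ha : a < P.length) (hT : ∀ x ∈ T, x < P.length)
    (h : Occ G v rad (child P a T) φ) :
    CodeOK G φ (P.length + 1)
      (Nat.lor (Nat.lor (codR P 0) (b2R a P.length)) (nbT P.length T)) := by
  intro i hi j hj
  have hcl := child_len P a T
  rw [h.adj i (by rw [hcl]; exact hi) j (by rw [hcl]; exact hj)]
  have hrow : ∀ l ∈ P, ∀ x ∈ l, x < P.length := by
    intro l hl x hx
    obtain ⟨k, hk, rfl⟩ := gl_of_mem P l hl
    exact SubB.wf_lt P hP k x hk hx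
  have e : Nat.lor (Nat.lor (codR P 0) (b2R a P.length)) (nbT P.length T) =
    (codR P 0 ||| b2R a P.length) ||| nbT P.length T := rfl
  rw [e, Nat.testBit_or, Nat.testBit_or, Bool.or_eq_true, Bool.or_eq_true,
    codR_testBit P 0 i j (by omega) (fun l hl x hx => by have := hrow l hl x hx; omega),
    b2R_testBit a P.length i j (by omega) (by omega) (by omega),
    nbT_testBit P.length i j T (by omega) (by omega) (fun x hx => by have := hT x hx; omega),
    Nat.sub_zero]
  unfold child
  by_cases hin : i < P.length
  · rw [gl_append_lt _ _ _ (by rw [addTo_len]; exact hin), gl_addTo_mem a _ T P 0 i j hin,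
      Nat.zero_add]
    constructor
    · rintro (h1 | ⟨h1 | h1, h2⟩)
      · exact Or.inl (Or.inl ⟨Nat.zero_le _, h1⟩)
      · exact Or.inl (Or.inr (Or.inl ⟨h1, h2⟩))
      · exact Or.inr (Or.inl ⟨h1, h2⟩)
    · rintro ((⟨_, h1⟩ | ⟨h1, h2⟩ | ⟨h1, _⟩) | ⟨h1, h2⟩ | ⟨h1, _⟩)
      · exact Or.inl h1
      · exact Or.inr ⟨Or.inl h1, h2⟩
      · omega
      · exact Or.inr ⟨Or.inr h1, h2⟩
      · omega
  · have hie : i = (addTo a P.length T 0 P).length := by
      rw [addTo_len]
      omega
    have hg : gl (addTo a P.length T 0 P ++ [a :: T]) i = a :: T := by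
      rw [hie]
      exact gl_append_self _ _
    rw [hg, List.mem_cons]
    rw [addTo_len] at hie
    constructor
    · rintro (h1 | h1)
      · exact Or.inl (Or.inr (Or.inr ⟨hie, h1⟩))
      · exact Or.inr (Or.inr ⟨hie, h1⟩)
    · rintro ((⟨_, h1⟩ | ⟨h1, _⟩ | ⟨_, h2⟩) | ⟨h1, _⟩ | ⟨_, h2⟩)
      · have := mem_of_gl P i j h1
        omega
      · omega
      · exact Or.inl h2
      · have := hT i h1
        omega
      · exact Or.inr h2

theorem kidsR_spec (lv op : List (List (List (List ℕ)))) (P : List (List ℕ)) (n q a : ℕ)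
    (Ts : List (List ℕ)) (cs : List ℕ) (h : kidsR lv op P n q a Ts cs = true)
    (T : List ℕ) (hT : T ∈ Ts) : ∃ c, kidR lv op P n q a T c = true := by
  induction Ts generalizing cs with
  | nil => exact absurd hT List.not_mem_nil
  | cons T' ts ih =>
    cases cs with
    | nil => exact absurd h Bool.false_ne_true
    | cons c cs' =>
      change (Bool.rec (motive := fun _ => Bool) false (kidsR lv op P n q a ts cs')
        (kidR lv op P n q a T' c) : Bool) = true at h
      rw [recAnd, Bool.and_eq_true] at h
      rcases List.mem_cons.1 hT with rfl | hT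
      · exact ⟨c, h.1⟩
      · exact ih cs' h.2 hT

theorem kidR_spec (lv op : List (List (List (List ℕ)))) (P : List (List ℕ)) (n q a : ℕ)
    (T : List ℕ) (c : ℕ) (h : kidR lv op P n q a T c = true) :
    hitC lv (n + 1) (Nat.lor q (nbT n T)) c = true ∨
    (hitC op (n + 1) (Nat.lor q (nbT n T)) c = true ∧ (tgR op c).length = n + 1) ∨
    cplR (chdR a n T P 0) = true := by
  unfold kidR at h
  generalize Nat.mod c 4 = k at h
  cases k with
  | zero => exact Or.inl h
  | succ k =>
    cases k with
    | zero =>
      change (Bool.rec (motive := fun _ => Bool) false _ _ : Bool) = true at h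
      rw [recAnd, Bool.and_eq_true, lenR_eq] at h
      exact Or.inr (Or.inl ⟨h.2, Nat.eq_of_beq_eq_true h.1⟩)
    | succ k => exact Or.inr (Or.inr h)

end FastB

open FastB in
/-- the induction over the two level tables -/
theorem stmt_TREEF (hE : Stmt_EXT) (lv op : List (List (List (List ℕ))))
    (hl : ∀ B ∈ lv, ∀ P ∈ B, wf P = true ∧ LeafOK P)
    (ho : ∀ B ∈ op, ∀ P ∈ B, ∃ (a : ℕ) (s cs : List ℕ), nodR lv op P a s cs = true) :
    ∀ B ∈ op, ∀ P ∈ B, NodeOK P := by
  have key : ∀ n : ℕ, ∀ B ∈ op, ∀ P ∈ B, 23 - P.length = n → NodeOK P := by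
    intro n
    induction n using Nat.strong_induction_on with
    | _ n ih =>
      intro B hB P hP hn
      obtain ⟨a, s, cs, hc⟩ := ho B hB P hP
      unfold nodR at hc
      simp only [recAnd] at hc
      rw [Bool.and_eq_true, Bool.and_eq_true, Bool.and_eq_true, Bool.and_eq_true,
        Bool.and_eq_true, wfR_eq, lenR_eq, glR_eq, lenN_eq] at hc
      obtain ⟨h1, h4, h2, h3, h5, h6⟩ := hc
      have h2' : a < P.length := Nat.le_of_ble_eq_true h2
      have h3' : (gl P a).length < 3 := Nat.lt_succ_of_le (Nat.le_of_ble_eq_true h3)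
      have h4' : P.length ≤ 22 := Nat.le_of_ble_eq_true h4
      have hs : s = stubsOf a 0 P := stbR_eq a P 0 s h5
      intro V _ G hG v φ hv hφ
      obtain ⟨T, hT, φ', hcomp, hφ'⟩ := hE P a h1 h2' h3' h4' V G hG v φ hv hφ
      have hTlt : ∀ x ∈ T, x < P.length := by
        intro x hx
        have h7 := stubs_lt a P 0 x (subs2_mem _ T hT x hx)
        omega
      obtain ⟨c, hcc⟩ := kidsR_spec lv op P _ _ a _ cs h6 T (by rw [sb2R_eq, hs]; exact hT)
      have hcode := child_code G v P.length φ' P a T h1 h4' h2' hTlt hφ'
      have hlen := child_len P a T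
      have hinj : ∀ i < P.length + 1, ∀ j < P.length + 1, φ' i = φ' j → i = j := by
        intro i hi j hj
        exact hφ'.inj i (by rw [hlen]; exact hi) j (by rw [hlen]; exact hj)
      have hball : ∀ i < P.length + 1, φ' i ∈ Bl G P.length v := by
        intro i hi
        exact hφ'.ball i (by rw [hlen]; exact hi)
      have hne : ∀ (T' : List (List (List (List ℕ)))) (q : ℕ),
          hitC T' (P.length + 1) q c = true → tgR T' c ≠ [] := by
        intro T' q hh h0
        unfold hitC vdC at hh
        rw [recAnd, recNot, Bool.and_eq_true, Bool.and_eq_true, Bool.not_eq_true'] at hh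
        have h8 : rmC T' c = 0 := by
          unfold rmC
          rw [h0]
          rfl
        rw [h8] at hh
        exact absurd hh.2.1 (by decide)
      rcases kidR_spec lv op P _ _ a T c hcc with h7 | ⟨h7, h8⟩ | h7
      · obtain ⟨B', hB', hm⟩ := lkR_mem lv _ (hne lv _ h7)
        obtain ⟨hw, hL⟩ := hl B' hB' _ hm
        have hocc := hitC_spec G v P.length φ' lv _ _ c (by omega) hinj hcode hball hw h7
        refine hL V G hG v _ ⟨hocc.inj, hocc.adj, fun i hi => ?_⟩
        have h9 := BallB.mono (G := G) P.length (22 - P.length) v (hocc.ball i hi)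
        rwa [Nat.add_sub_cancel' h4'] at h9
      · obtain ⟨B', hB', hm⟩ := lkR_mem op _ (hne op _ h7)
        obtain ⟨a', s', cs', hc'⟩ := ho B' hB' _ hm
        have hw : wf (tgR op c) = true := by
          unfold nodR at hc'
          rw [recAnd, Bool.and_eq_true, wfR_eq] at hc'
          exact hc'.1
        have hocc := hitC_spec G v P.length φ' op _ _ c (by omega) hinj hcode hball hw h7
        have hOK := ih (23 - (tgR op c).length) (by rw [h8]; omega) B' hB' _ hm rfl
        refine hOK V G hG v (fun k => φ' (dgR (c / 4096) k)) hv ?_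
        have h9 : (tgR op c).length - 1 = P.length := by
          rw [h8]
          rfl
        change Occ G v ((tgR op c).length - 1) (tgR op c) _
        rw [h9]
        exact hocc
      · rw [cplR_eq, chdR_eq] at h7
        have h8 : complete (child P a T) = true := h7
        rw [h8] at hcomp
        exact absurd hcomp (by decide)
  intro B hB P hP
  exact key _ B hB P hP rfl

namespace FastB

theorem nodeAllR_spec (lv op : List (List (List (List ℕ)))) (Ps : List (List (List ℕ))) :
    ∀ cs, nodeAllR lv op Ps cs = true →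
      ∀ P ∈ Ps, ∃ (a : ℕ) (s cs : List ℕ), nodR lv op P a s cs = true := by
  induction Ps with
  | nil => intro cs _ P hP; simp at hP
  | cons Q Qs ih =>
    intro cs h P hP
    cases cs with
    | nil => exact absurd h Bool.false_ne_true
    | cons c cs =>
      change (Bool.rec (motive := fun _ => Bool) false (nodeAllR lv op Qs cs) _ : Bool) = true at h
      rw [recAnd, Bool.and_eq_true] at h
      rcases List.mem_cons.1 hP with rfl | hP
      · exact ⟨_, _, _, h.1⟩
      · exact ih cs h.2 P hP

end FastB

end Pool.Agent.Work.MP_1e13ac_Bis
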