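import Pool.Agent.Work.MP_1e13ac_Bis.Interface

/-! MP_1e13ac_co, block PATHREP: components of linear forests are paths. -/

set_option autoImplicit false

namespace Pool.Agent.Work.MP_1e13ac_Bis

open Classical Finset

noncomputable section

theorem stmt_PATHREP : Stmt_PATHREP := by
  intro V _ F hac hdeg x
  -- a longest path in the component of `x`
  set P : ℕ → Prop := fun n => ∃ (u v : V) (w : F.Walk u v), w.IsPath ∧ w.length = n ∧
    F.Reachable x u with hP
  have hP0 : P 0 := ⟨x, x, SimpleGraph.Walk.nil, SimpleGraph.Walk.IsPath.nil, rfl,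
    SimpleGraph.Reachable.refl x⟩
  have hb : ∀ n, P n → n ≤ Fintype.card V := by
    rintro n ⟨u, v, w, hw, rfl, -⟩
    exact hw.length_lt.le
  have hmaxP := Nat.findGreatest_spec (P := P) (Nat.zero_le (Fintype.card V)) hP0
  have hmax : ∀ n, P n → n ≤ Nat.findGreatest P (Fintype.card V) := fun n hn =>
    Nat.le_findGreatest (hb n hn) hn
  obtain ⟨u, v, w, hw, hlen, hxu⟩ := hmaxP
  rw [← hlen] at hmax
  have hinj := hw.getVert_injOn
  -- adjacency of a vertex of the path
  have hclosed : ∀ i ≤ w.length, ∀ y, F.Adj (w.getVert i) y → y ∈ w.support := by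
    intro i hi y hy
    by_contra hys
    rcases Nat.eq_zero_or_pos i with h0 | h0
    · subst h0
      rw [SimpleGraph.Walk.getVert_zero] at hy
      have h1 : P (w.length + 1) := ⟨y, v, SimpleGraph.Walk.cons hy.symm w,
        (SimpleGraph.Walk.cons_isPath_iff _ _).2 ⟨hw, hys⟩, by simp,
        hxu.trans hy.reachable⟩
      have := hmax _ h1
      omega
    rcases Nat.lt_or_ge i w.length with h1 | h1
    · -- three different neighbours
      have ha : F.Adj (w.getVert i) (w.getVert (i + 1)) := w.adj_getVert_succ h1
      have hb' : F.Adj (w.getVert i) (w.getVert (i - 1)) := by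
        have := w.adj_getVert_succ (i := i - 1) (by omega)
        rw [Nat.sub_add_cancel h0] at this
        exact this.symm
      have hne : w.getVert (i + 1) ≠ w.getVert (i - 1) := by
        intro h
        have := hinj (by simp; omega) (by simp; omega) h
        omega
      have hy1 : y ≠ w.getVert (i + 1) := fun h => hys (h ▸ SimpleGraph.Walk.getVert_mem_support _ _)
      have hy2 : y ≠ w.getVert (i - 1) := fun h => hys (h ▸ SimpleGraph.Walk.getVert_mem_support _ _)
      have h3 : ({y, w.getVert (i + 1), w.getVert (i - 1)} : Finset V) ⊆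
          univ.filter fun z => F.Adj (w.getVert i) z := by
        intro z hz
        simp only [mem_insert, mem_singleton] at hz
        rw [mem_filter]
        rcases hz with rfl | rfl | rfl
        · exact ⟨mem_univ _, hy⟩
        · exact ⟨mem_univ _, ha⟩
        · exact ⟨mem_univ _, hb'⟩
      have h4 := card_le_card h3
      rw [card_insert_of_notMem (by simp [hy1, hy2]), card_insert_of_notMem (by simp [hne]),
        card_singleton] at h4
      have h5 := hdeg (w.getVert i)
      unfold fd at h5
      omega
    · have hi' : i = w.length := by omega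
      subst hi'
      rw [SimpleGraph.Walk.getVert_length] at hy
      have h1 : P (w.length + 1) := ⟨u, y, w.concat hy, (SimpleGraph.Walk.concat_isPath_iff _).2 ⟨hw, hys⟩,
        by simp, hxu⟩
      have := hmax _ h1
      omega
  have hsup : ∀ y, y ∈ w.support ↔ ∃ i < w.length + 1, w.getVert i = y := by
    intro y
    rw [SimpleGraph.Walk.mem_support_iff_exists_getVert]
    constructor
    · rintro ⟨n, h1, h2⟩; exact ⟨n, by omega, h1⟩
    · rintro ⟨n, h1, h2⟩; exact ⟨n, h2, by omega⟩
  have hclosed' : ∀ y ∈ w.support, ∀ z, F.Adj y z → z ∈ w.support := by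
    intro y hy z hz
    obtain ⟨i, hi, rfl⟩ := (hsup y).1 hy
    exact hclosed i (by omega) z hz
  have hreach : ∀ y z, F.Reachable y z → y ∈ w.support → z ∈ w.support := by
    rintro y z ⟨q⟩ hy
    induction q with
    | nil => exact hy
    | cons h _ ih => exact ih (hclosed' _ hy _ h)
  have hsupr : ∀ y, F.Reachable x y ↔ y ∈ w.support := by
    intro y
    constructor
    · intro h
      exact hreach u y (hxu.symm.trans h) (SimpleGraph.Walk.start_mem_support w)
    · intro h
      exact hxu.trans ⟨w.takeUntil y h⟩
  have hcs : cs F x = w.length + 1 := by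
    unfold cs
    have : (univ.filter fun y => F.Reachable x y) = w.support.toFinset := by
      ext y
      rw [mem_filter, List.mem_toFinset, ← hsupr]
      simp
    rw [this, List.toFinset_card_of_nodup hw.support_nodup, SimpleGraph.Walk.length_support]
  rw [hcs]
  have hinj' : ∀ i < w.length + 1, ∀ i' < w.length + 1, w.getVert i = w.getVert i' → i = i' :=
    fun i hi i' hi' h => hinj (by simp; omega) (by simp; omega) h
  have hsucc : ∀ i, i + 1 < w.length + 1 → F.Adj (w.getVert i) (w.getVert (i + 1)) :=
    fun i hi => w.adj_getVert_succ (by omega)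
  refine ⟨w.getVert, hinj', fun y => by rw [hsupr, hsup], ?_⟩
  -- no chords
  have key : ∀ i < w.length + 1, ∀ i' < w.length + 1, i < i' → F.Adj (w.getVert i) (w.getVert i') →
      i' = i + 1 := by
    intro i hi i' hi' hlt hadj
    by_contra hne
    have deg3 : ∀ k < w.length + 1, 0 < k → k < w.length → ∀ m < w.length + 1, m ≠ k + 1 → m + 1 ≠ k →
        ¬ F.Adj (w.getVert k) (w.getVert m) := by
      intro k hk hk0 hk1 m hm h1 h2 ha
      have hkm : k ≠ m := fun h => by subst h; exact F.loopless.irrefl _ ha
      have ha1 := hsucc k (by omega)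
      have ha2 : F.Adj (w.getVert k) (w.getVert (k - 1)) := by
        have := hsucc (k - 1) (by omega)
        rw [Nat.sub_add_cancel hk0] at this
        exact this.symm
      have n1 : w.getVert m ≠ w.getVert (k + 1) := fun h => h1 (hinj' _ hm _ (by omega) h)
      have n2 : w.getVert m ≠ w.getVert (k - 1) := fun h => by
        have := hinj' _ hm _ (by omega) h
        omega
      have n3 : w.getVert (k + 1) ≠ w.getVert (k - 1) := fun h => by
        have := hinj' _ (by omega) _ (by omega) h
        omega
      have h3 : ({w.getVert m, w.getVert (k + 1), w.getVert (k - 1)} : Finset V) ⊆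
          univ.filter fun z => F.Adj (w.getVert k) z := by
        intro z hz
        simp only [mem_insert, mem_singleton] at hz
        rw [mem_filter]
        rcases hz with rfl | rfl | rfl
        · exact ⟨mem_univ _, ha⟩
        · exact ⟨mem_univ _, ha1⟩
        · exact ⟨mem_univ _, ha2⟩
      have h4 := card_le_card h3
      rw [card_insert_of_notMem (by simp [n1, n2]), card_insert_of_notMem (by simp [n3]),
        card_singleton] at h4
      have h5 := hdeg (w.getVert k)
      unfold fd at h5
      omega
    have hi0 : i = 0 := by
      by_contra h0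
      exact deg3 i hi (by omega) (by omega) i' hi' (by omega) (by omega) hadj
    have hi1 : i' = w.length := by
      by_contra h0
      exact deg3 i' hi' (by omega) (by omega) i hi (by omega) (by omega) hadj.symm
    subst hi0
    subst hi1
    rw [SimpleGraph.Walk.getVert_zero, SimpleGraph.Walk.getVert_length] at hadj
    have hss := SimpleGraph.isAcyclic_iff_subsingleton_path.1 hac u v
    have h1 : (⟨w, hw⟩ : F.Path u v) = SimpleGraph.Path.singleton hadj := Subsingleton.elim _ _
    have h2 := congrArg (fun q : F.Path u v => (q : F.Walk u v).length) h1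
    simp at h2
    omega
  intro i hi i' hi'
  constructor
  · intro h
    rcases lt_trichotomy i i' with h1 | h1 | h1
    · exact Or.inl (key i hi i' hi' h1 h)
    · subst h1; exact absurd h (F.loopless.irrefl _)
    · exact Or.inr (key i' hi' i hi h1 h.symm)
  · rintro (rfl | rfl)
    · exact hsucc i hi'
    · exact (hsucc i' hi).symm

end

end Pool.Agent.Work.MP_1e13ac_Bis
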