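import Pool.Agent.Work.MP_1e13ac_Bis.Interface
import Pool.Agent.Work.MP_1e13ac_Bis.PATHREP

/-! MP_1e13ac_co, block FRAME (helper60): path factor and cuts give a frame. -/

set_option autoImplicit false

namespace Pool.Agent.Work.MP_1e13ac_Bis

open Classical Finset

namespace FrameB

variable {V : Type} [Fintype V]

lemma fd_mono {F F₀ : SimpleGraph V} (h : F ≤ F₀) (x : V) : fd F x ≤ fd F₀ x := by
  unfold fd
  exact card_le_card (monotone_filter_right _ fun y _ hy => h hy)

/-- not a cut vertex: same degree -/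
lemma fd_eq {F F₀ : SimpleGraph V} (h : F ≤ F₀) {x : V}
    (hx : ∀ v, F₀.Adj x v → F.Adj x v) : fd F₀ x = fd F x := by
  unfold fd
  congr 1
  exact filter_congr fun y _ => ⟨fun hy => hx y hy, fun hy => h hy⟩

/-- in a linear forest, at most two vertices of a component have degree at most one -/
lemma ends {F : SimpleGraph V} (ha : F.IsAcyclic) (hd : ∀ x, fd F x ≤ 2) {x y z : V}
    (hxy : x ≠ y) (hxz : x ≠ z) (hx : fd F x ≤ 1) (hy : fd F y ≤ 1) (hz : fd F z ≤ 1)
    (h1 : F.Reachable x y) (h2 : F.Reachable x z) : y = z := by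
  obtain ⟨p, hp1, hp2, hp3⟩ := stmt_PATHREP V F ha hd x
  have key : ∀ i < cs F x, fd F (p i) ≤ 1 → i = 0 ∨ i + 1 = cs F x := by
    intro i hi hf
    by_contra hc
    push Not at hc
    have hi0 : 0 < i := Nat.pos_of_ne_zero hc.1
    have hi1 : i + 1 < cs F x := lt_of_le_of_ne hi hc.2
    have hi2 : i - 1 < cs F x := by omega
    have h3 : ({p (i - 1), p (i + 1)} : Finset V) ⊆ univ.filter fun y => F.Adj (p i) y := by
      intro w hw
      rw [mem_insert, mem_singleton] at hw
      refine mem_filter.2 ⟨mem_univ _, ?_⟩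
      rcases hw with rfl | rfl
      · exact (hp3 i hi (i - 1) hi2).2 (Or.inr (by omega))
      · exact (hp3 i hi (i + 1) hi1).2 (Or.inl rfl)
    have h4 := card_le_card h3
    have hne : p (i - 1) ≠ p (i + 1) := by
      intro h
      have := hp1 (i - 1) hi2 (i + 1) hi1 h
      omega
    rw [card_pair hne] at h4
    unfold fd at hf
    omega
  obtain ⟨i, hi, hix⟩ := (hp2 x).1 (SimpleGraph.Reachable.refl x)
  obtain ⟨i', hi', hiy⟩ := (hp2 y).1 h1
  obtain ⟨i'', hi'', hiz⟩ := (hp2 z).1 h2
  have k1 := key i hi (by rw [hix]; exact hx)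
  have k2 := key i' hi' (by rw [hiy]; exact hy)
  have k3 := key i'' hi'' (by rw [hiz]; exact hz)
  have n1 : i ≠ i' := by
    rintro rfl
    exact hxy (hix.symm.trans hiy)
  have n2 : i ≠ i'' := by
    rintro rfl
    exact hxz (hix.symm.trans hiz)
  have h5 : i' = i'' := by omega
  rw [← hiy, ← hiz, h5]

end FrameB

open FrameB in
/-- **FRAME** -/
theorem stmt_FRAME : Stmt_FRAME := by
  intro V _ G hG A b F₀ F s hP hC
  -- a neighbour `y` with `fd F y ≤ 1` of a vertex `x` with `fd F x ≤ 1`, not joined in `F₀`,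
  -- is not a cut vertex
  have hnc : ∀ x y, fd F x ≤ 1 → G.Adj x y → ¬ F₀.Adj x y → ∀ v, F₀.Adj y v → F.Adj y v := by
    intro x y hx hxy hn v hv
    by_contra hc
    have := hC.third y v hv hc x hxy.symm (fun h => hn h.symm)
    omega
  refine ⟨hC.le.trans hP.le, fun x y h => hP.out x y (hC.le h),
    fun x => (fd_mono hC.le x).trans (hP.deg x), ?_, ?_⟩
  · intro x y z hxA hyA hzA hx hy hz hxy hnxy hxz hnxz
    by_cases hcut : ∀ v, F₀.Adj x v → F.Adj x v
    · have hxy0 : ¬ F₀.Adj x y := fun h => hnxy (hcut y h)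
      have hxz0 : ¬ F₀.Adj x z := fun h => hnxz (hcut z h)
      have hcy := hnc x y hx hxy hxy0
      have hcz := hnc x z hx hxz hxz0
      have hx0 : fd F₀ x ≤ 1 := by rw [fd_eq hC.le hcut]; exact hx
      have hy0 : fd F₀ y ≤ 1 := by rw [fd_eq hC.le hcy]; exact hy
      have hz0 : fd F₀ z ≤ 1 := by rw [fd_eq hC.le hcz]; exact hz
      exact ends hP.acyc hP.deg hxy.ne hxz.ne hx0 hy0 hz0
        (hP.max x y hxy.ne hxA hyA hxy hx0 hy0) (hP.max x z hxz.ne hxA hzA hxz hx0 hz0)
    · push Not at hcut
      obtain ⟨v, hv, hnv⟩ := hcut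
      have hxy0 : F₀.Adj x y := by
        by_contra hc
        have := hC.third x v hv hnv y hxy hc
        omega
      have hxz0 : F₀.Adj x z := by
        by_contra hc
        have := hC.third x v hv hnv z hxz hc
        omega
      by_contra hyz
      have h1 := hC.one x v hv hnv
      have h2 := hC.deg0 x v hv hnv
      unfold fd at h1 h2
      have h3 : insert y (insert z (univ.filter fun w => F.Adj x w)) ⊆
          univ.filter fun w => F₀.Adj x w := by
        intro w hw
        rw [mem_insert, mem_insert, mem_filter] at hw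
        refine mem_filter.2 ⟨mem_univ _, ?_⟩
        rcases hw with rfl | rfl | hw
        · exact hxy0
        · exact hxz0
        · exact hC.le hw.2
      have h4 := card_le_card h3
      rw [card_insert_of_notMem, card_insert_of_notMem] at h4
      · omega
      · rw [mem_filter]
        exact fun h => hnxz h.2
      · rw [mem_insert, mem_filter]
        rintro (h | h)
        · exact hyz h
        · exact hnxy h.2
  · intro x y hxA hyA hx hy hxy
    have hcut : ∀ v, F₀.Adj x v → F.Adj x v := by
      intro v hv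
      by_contra hc
      have := hC.one x v hv hc
      omega
    have hx0 : fd F₀ x = 0 := by rw [fd_eq hC.le hcut]; exact hx
    have hno : ∀ v, ¬ F₀.Adj x v := by
      intro v hv
      unfold fd at hx0
      have : v ∈ univ.filter fun w => F₀.Adj x w := mem_filter.2 ⟨mem_univ _, hv⟩
      rw [card_eq_zero.1 hx0] at this
      simp at this
    have hcy := hnc x y (by omega) hxy (hno y)
    have hy0 : fd F₀ y ≤ 1 := by rw [fd_eq hC.le hcy]; exact hy
    obtain ⟨w⟩ := hP.max x y hxy.ne hxA hyA hxy (by omega) hy0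
    cases w with
    | nil => exact hxy.ne rfl
    | cons h _ => exact hno _ h

end Pool.Agent.Work.MP_1e13ac_Bis
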