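import Pool.Agent.Work.MP_1e13ac_Bis.Interface

/-!
# Block LATT: small coefficients
-/

set_option autoImplicit false

namespace Pool.Agent.Work.MP_1e13ac_Bis

open Classical Finset

noncomputable section

namespace LATT

lemma exists_coef (D : Finset (ℤ × ℤ × ℤ)) (z : ℤ × ℤ × ℤ)
    (hz : z ∈ AddSubgroup.closure (D : Set (ℤ × ℤ × ℤ))) :
    ∃ m : ℤ × ℤ × ℤ → ℤ, (∀ d, d ∉ D → m d = 0) ∧ ∑ d ∈ D, m d • d = z := by
  rw [← Submodule.span_int_eq_addSubgroupClosure] at hz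
  have hz' : z ∈ Submodule.span ℤ (D : Set (ℤ × ℤ × ℤ)) := hz
  rw [Submodule.mem_span_finset] at hz'
  obtain ⟨f, hf, hs⟩ := hz'
  refine ⟨f, ?_, hs⟩
  intro d hd
  by_contra h
  exact hd (hf h)

/-- one `D` -/
lemma one (D : Finset (ℤ × ℤ × ℤ)) (hD : Gen D) :
    ∃ κ : ℕ, ∀ z : ℤ × ℤ × ℤ, (2 : ℤ) ∣ z.1 → (2 : ℤ) ∣ z.2.2 → ∃ m : ℤ × ℤ × ℤ → ℤ,
      ∑ d ∈ D, m d • d = z ∧ ∀ d, |m d| ≤ κ * (|z.1| + |z.2.1| + |z.2.2|) := by
  obtain ⟨m1, h1, e1⟩ := exists_coef D (2, 0, 0) (hD.2 _ (by simp) (by simp))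
  obtain ⟨m2, h2, e2⟩ := exists_coef D (0, 1, 0) (hD.2 _ (by simp) (by simp))
  obtain ⟨m3, h3, e3⟩ := exists_coef D (0, 0, 2) (hD.2 _ (by simp) (by simp))
  set κ : ℕ := ∑ d ∈ D, ((m1 d).natAbs + (m2 d).natAbs + (m3 d).natAbs) with hκ
  refine ⟨κ, ?_⟩
  rintro ⟨x, y, w⟩ ⟨a, ha⟩ ⟨b, hb⟩
  simp only at ha hb
  subst ha hb
  refine ⟨fun d => a * m1 d + y * m2 d + b * m3 d, ?_, ?_⟩
  · have : ∀ d ∈ D, (a * m1 d + y * m2 d + b * m3 d) • d
        = a • (m1 d • d) + y • (m2 d • d) + b • (m3 d • d) := by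
      intro d _
      rw [add_smul, add_smul, mul_smul, mul_smul, mul_smul]
    rw [sum_congr rfl this, sum_add_distrib, sum_add_distrib, ← smul_sum, ← smul_sum, ← smul_sum,
      e1, e2, e3]
    simp [mul_comm]
  · intro d
    simp only
    by_cases hd : d ∈ D
    · have hk : (m1 d).natAbs + (m2 d).natAbs + (m3 d).natAbs ≤ κ := by
        rw [hκ]
        exact single_le_sum (f := fun d => (m1 d).natAbs + (m2 d).natAbs + (m3 d).natAbs)
          (fun i _ => Nat.zero_le _) hd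
      have hk' : |m1 d| + |m2 d| + |m3 d| ≤ (κ : ℤ) := by
        have := (Int.ofNat_le).2 hk
        push_cast at this
        simpa [Int.natCast_natAbs] using this
      have p1 := abs_nonneg (m1 d)
      have p2 := abs_nonneg (m2 d)
      have p3 := abs_nonneg (m3 d)
      have q1 := abs_nonneg a
      have q2 := abs_nonneg y
      have q3 := abs_nonneg b
      have t1 : |a * m1 d| ≤ |a| * κ := by
        rw [abs_mul]; exact mul_le_mul_of_nonneg_left (by linarith) q1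
      have t2 : |y * m2 d| ≤ |y| * κ := by
        rw [abs_mul]; exact mul_le_mul_of_nonneg_left (by linarith) q2
      have t3 : |b * m3 d| ≤ |b| * κ := by
        rw [abs_mul]; exact mul_le_mul_of_nonneg_left (by linarith) q3
      have s1 : |2 * a| = 2 * |a| := by rw [abs_mul]; norm_num
      have s3 : |2 * b| = 2 * |b| := by rw [abs_mul]; norm_num
      rw [s1, s3]
      have hκ0 : (0 : ℤ) ≤ κ := by positivity
      calc |a * m1 d + y * m2 d + b * m3 d| ≤ |a * m1 d| + |y * m2 d| + |b * m3 d| :=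
            abs_add_three _ _ _
        _ ≤ |a| * κ + |y| * κ + |b| * κ := by linarith
        _ ≤ κ * (2 * |a| + |y| + 2 * |b|) := by nlinarith
    · rw [h1 d hd, h2 d hd, h3 d hd]
      simp only [mul_zero, add_zero, abs_zero]
      positivity

end LATT

namespace LATT

lemma box : ∃ B : Finset (Finset (ℤ × ℤ × ℤ)), ∀ D : Finset (ℤ × ℤ × ℤ), Gen D → D ∈ B := by
  obtain ⟨I, hI⟩ : ∃ I : Finset ℤ, ∀ a : ℤ, a ∈ I ↔ (-50 ≤ a ∧ a ≤ 50) :=
    ⟨Icc (-50 : ℤ) 50, fun a => mem_Icc⟩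
  refine ⟨(I ×ˢ (I ×ˢ I)).powerset, ?_⟩
  intro D hD
  rw [mem_powerset]
  intro d hd
  obtain ⟨a, b, c⟩ := hD.1 d hd
  rw [abs_le] at a b c
  simp only [mem_product, hI]
  exact ⟨a, b, c⟩

end LATT

theorem stmt_LATT : Stmt_LATT := by
  classical
  obtain ⟨B, hsub⟩ := LATT.box
  refine ⟨∑ D ∈ B, (if h : Gen D then (LATT.one D h).choose else 0), ?_⟩
  intro D hD z h1 h2
  obtain ⟨m, hm, hb⟩ := (LATT.one D hD).choose_spec z h1 h2
  refine ⟨m, hm, fun d => (hb d).trans ?_⟩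
  have : (if h : Gen D then (LATT.one D h).choose else 0)
      ≤ ∑ D ∈ B, (if h : Gen D then (LATT.one D h).choose else 0) :=
    single_le_sum (f := fun D => (if h : Gen D then (LATT.one D h).choose else 0))
      (fun i _ => Nat.zero_le _) (hsub D hD)
  rw [dif_pos hD] at this
  have h0 : (0 : ℤ) ≤ |z.1| + |z.2.1| + |z.2.2| := by positivity
  exact mul_le_mul_of_nonneg_right (by exact_mod_cast this) h0

end

end Pool.Agent.Work.MP_1e13ac_Bis
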