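import Mathlib
import Pool.Agent.Work.MP_1e13ac_Bis.Interface

/-!
# Adding and removing one edge: degrees `fd`, component sizes `cs`, acyclicity
-/

set_option autoImplicit false
set_option linter.unusedSectionVars false

namespace Pool.Agent.Work.MP_1e13ac_Bis

open Classical Finset

namespace Surg

variable {V : Type} [Fintype V]

lemma fd_of (F : SimpleGraph V) (x : V) (S : Finset V) (h : ∀ y, y ∈ S ↔ F.Adj x y) :
    fd F x = S.card := by
  unfold fd
  congr 1
  ext y
  simp [h]

/-- the neighbours in `F` -/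
noncomputable def nf (F : SimpleGraph V) (x : V) : Finset V := univ.filter fun y => F.Adj x y

lemma mem_nf {F : SimpleGraph V} {x y : V} : y ∈ nf F x ↔ F.Adj x y := by simp [nf]

lemma fd_eq (F : SimpleGraph V) (x : V) : fd F x = (nf F x).card := rfl

lemma fd_sup_edge (H : SimpleGraph V) {x y : V} (hxy : x ≠ y) (hn : ¬ H.Adj x y) (z : V) :
    fd (H ⊔ SimpleGraph.edge x y) z = fd H z + if z = x ∨ z = y then 1 else 0 := by
  by_cases hz : z = x
  · subst hz
    rw [fd_of (H ⊔ SimpleGraph.edge z y) z (insert y (nf H z)) ?_,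
      card_insert_of_notMem (by simpa [mem_nf] using hn), fd_eq]
    · simp
    · intro w
      rw [mem_insert, mem_nf, SimpleGraph.sup_adj, SimpleGraph.edge_adj]
      constructor
      · rintro (h | h)
        · subst h
          exact Or.inr ⟨Or.inl ⟨rfl, rfl⟩, hxy⟩
        · exact Or.inl h
      · rintro (h | ⟨⟨_, h⟩ | ⟨h, _⟩, _⟩)
        · exact Or.inr h
        · exact Or.inl h
        · exact absurd h hxy
  · by_cases hz' : z = y
    · subst hz'
      rw [fd_of (H ⊔ SimpleGraph.edge x z) z (insert x (nf H z)) ?_,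
        card_insert_of_notMem (by simpa [mem_nf] using fun h : H.Adj z x => hn h.symm), fd_eq]
      · simp
      · intro w
        rw [mem_insert, mem_nf, SimpleGraph.sup_adj, SimpleGraph.edge_adj]
        constructor
        · rintro (h | h)
          · subst h
            exact Or.inr ⟨Or.inr ⟨rfl, rfl⟩, hz⟩
          · exact Or.inl h
        · rintro (h | ⟨⟨h, _⟩ | ⟨_, h⟩, _⟩)
          · exact Or.inr h
          · exact absurd h hz
          · exact Or.inl h
    · rw [fd_of (H ⊔ SimpleGraph.edge x y) z (nf H z) ?_, fd_eq]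
      · simp [hz, hz']
      · intro w
        rw [mem_nf, SimpleGraph.sup_adj, SimpleGraph.edge_adj]
        simp [hz, hz']

lemma reach_sup_edge (H : SimpleGraph V) {x y : V} (hxy : x ≠ y) (z w : V) :
    (H ⊔ SimpleGraph.edge x y).Reachable z w ↔
      H.Reachable z w ∨ (H.Reachable z x ∧ H.Reachable y w) ∨
        (H.Reachable z y ∧ H.Reachable x w) := by
  constructor
  · rintro ⟨p⟩
    induction p with
    | nil => exact Or.inl (SimpleGraph.Reachable.refl _)
    | @cons a b c hab q ih =>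
      rw [SimpleGraph.sup_adj, SimpleGraph.edge_adj] at hab
      rcases hab with h | ⟨⟨h1, h2⟩ | ⟨h1, h2⟩, _⟩
      · rcases ih with ih | ⟨ih1, ih2⟩ | ⟨ih1, ih2⟩
        · exact Or.inl (h.reachable.trans ih)
        · exact Or.inr (Or.inl ⟨h.reachable.trans ih1, ih2⟩)
        · exact Or.inr (Or.inr ⟨h.reachable.trans ih1, ih2⟩)
      · subst h1; subst h2
        rcases ih with ih | ⟨ih1, ih2⟩ | ⟨ih1, ih2⟩
        · exact Or.inr (Or.inl ⟨SimpleGraph.Reachable.refl _, ih⟩)
        · exact Or.inr (Or.inl ⟨SimpleGraph.Reachable.refl _, ih2⟩)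
        · exact Or.inl ih2
      · subst h1; subst h2
        rcases ih with ih | ⟨ih1, ih2⟩ | ⟨ih1, ih2⟩
        · exact Or.inr (Or.inr ⟨SimpleGraph.Reachable.refl _, ih⟩)
        · exact Or.inl ih2
        · exact Or.inr (Or.inr ⟨SimpleGraph.Reachable.refl _, ih2⟩)
  · have hle : H ≤ H ⊔ SimpleGraph.edge x y := le_sup_left
    have hadj : (H ⊔ SimpleGraph.edge x y).Adj x y := by
      rw [SimpleGraph.sup_adj, SimpleGraph.edge_adj]
      exact Or.inr ⟨Or.inl ⟨rfl, rfl⟩, hxy⟩
    rintro (h | ⟨h1, h2⟩ | ⟨h1, h2⟩)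
    · exact h.mono hle
    · exact (h1.mono hle).trans (hadj.reachable.trans (h2.mono hle))
    · exact (h1.mono hle).trans (hadj.symm.reachable.trans (h2.mono hle))

/-- the component of `x` as a finset -/
noncomputable def comp (H : SimpleGraph V) (x : V) : Finset V := univ.filter fun y => H.Reachable x y

lemma mem_comp {H : SimpleGraph V} {x y : V} : y ∈ comp H x ↔ H.Reachable x y := by
  simp [comp]

lemma cs_eq (H : SimpleGraph V) (x : V) : cs H x = (comp H x).card := rfl

lemma cs_congr {H : SimpleGraph V} {x y : V} (h : H.Reachable x y) : cs H x = cs H y := by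
  rw [cs_eq, cs_eq]
  congr 1
  ext z
  rw [mem_comp, mem_comp]
  exact ⟨fun h' => h.symm.trans h', fun h' => h.trans h'⟩

lemma cs_pos (H : SimpleGraph V) (x : V) : 1 ≤ cs H x := by
  rw [cs_eq]
  exact card_pos.mpr ⟨x, mem_comp.mpr (SimpleGraph.Reachable.refl _)⟩

lemma disj_comp {H : SimpleGraph V} {x y : V} (h : ¬ H.Reachable x y) :
    Disjoint (comp H x) (comp H y) := by
  rw [Finset.disjoint_left]
  intro z hz hz'
  rw [mem_comp] at hz hz'
  exact h (hz.trans hz'.symm)

lemma cs_sup_edge_left (H : SimpleGraph V) {x y : V} (hn : ¬ H.Reachable x y) (z : V)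
    (hz : H.Reachable z x ∨ H.Reachable z y) :
    cs (H ⊔ SimpleGraph.edge x y) z = cs H x + cs H y := by
  have hxy : x ≠ y := fun h => hn (h ▸ SimpleGraph.Reachable.refl _)
  rw [cs_eq, cs_eq, cs_eq, ← card_union_of_disjoint (disj_comp hn)]
  congr 1
  ext w
  rw [mem_comp, mem_union, mem_comp, mem_comp, reach_sup_edge H hxy]
  constructor
  · rintro (h | ⟨_, h⟩ | ⟨_, h⟩)
    · rcases hz with hz | hz
      · exact Or.inl (hz.symm.trans h)
      · exact Or.inr (hz.symm.trans h)
    · exact Or.inr h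
    · exact Or.inl h
  · rintro (h | h)
    · rcases hz with hz | hz
      · exact Or.inl (hz.trans h)
      · exact Or.inr (Or.inr ⟨hz, h⟩)
    · rcases hz with hz | hz
      · exact Or.inr (Or.inl ⟨hz, h⟩)
      · exact Or.inl (hz.trans h)

lemma cs_sup_edge_right (H : SimpleGraph V) {x y : V} (hxy : x ≠ y) (z : V)
    (hz : ¬ (H.Reachable z x ∨ H.Reachable z y)) :
    cs (H ⊔ SimpleGraph.edge x y) z = cs H z := by
  rw [cs_eq, cs_eq]
  congr 1
  ext w
  rw [mem_comp, mem_comp, reach_sup_edge H hxy]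
  push Not at hz
  constructor
  · rintro (h | ⟨h, _⟩ | ⟨h, _⟩)
    · exact h
    · exact absurd h hz.1
    · exact absurd h hz.2
  · intro h
    exact Or.inl h

/-- sum of the component sizes over all vertices -/
noncomputable def Phi (H : SimpleGraph V) : ℕ := ∑ x, cs H x

lemma Phi_sup_edge (H : SimpleGraph V) {x y : V} (hn : ¬ H.Reachable x y) :
    Phi (H ⊔ SimpleGraph.edge x y) = Phi H + 2 * (cs H x * cs H y) := by
  have hxy : x ≠ y := fun h => hn (h ▸ SimpleGraph.Reachable.refl _)
  have key : ∀ z, cs (H ⊔ SimpleGraph.edge x y) z =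
      cs H z + ((if z ∈ comp H x then cs H y else 0) + (if z ∈ comp H y then cs H x else 0)) := by
    intro z
    by_cases hz : H.Reachable x z
    · have hz2 : ¬ H.Reachable y z := fun h => hn (hz.trans h.symm)
      rw [cs_sup_edge_left H hn z (Or.inl hz.symm)]
      rw [if_pos (mem_comp.mpr hz), if_neg (fun h => hz2 (mem_comp.mp h)), cs_congr hz]
      ring
    · by_cases hz2 : H.Reachable y z
      · rw [cs_sup_edge_left H hn z (Or.inr hz2.symm)]
        rw [if_neg (fun h => hz (mem_comp.mp h)), if_pos (mem_comp.mpr hz2), cs_congr hz2]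
        ring
      · rw [cs_sup_edge_right H hxy z (by
          rintro (h | h)
          · exact hz h.symm
          · exact hz2 h.symm)]
        rw [if_neg (fun h => hz (mem_comp.mp h)), if_neg (fun h => hz2 (mem_comp.mp h))]
        ring
  unfold Phi
  rw [sum_congr rfl (fun z _ => key z), sum_add_distrib, sum_add_distrib]
  rw [← sum_filter, ← sum_filter]
  simp only [sum_const, smul_eq_mul]
  have h1 : (univ.filter fun z => z ∈ comp H x) = comp H x := by ext; simp
  have h2 : (univ.filter fun z => z ∈ comp H y) = comp H y := by ext; simp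
  rw [h1, h2, ← cs_eq, ← cs_eq]
  ring

/-- remove the edge `uv` -/
noncomputable def del (F : SimpleGraph V) (u v : V) : SimpleGraph V := F.deleteEdges {s(u, v)}

lemma del_adj {F : SimpleGraph V} {u v x y : V} :
    (del F u v).Adj x y ↔ F.Adj x y ∧ ¬ (x = u ∧ y = v ∨ x = v ∧ y = u) := by
  unfold del
  rw [SimpleGraph.deleteEdges_adj]
  simp

lemma del_le (F : SimpleGraph V) (u v : V) : del F u v ≤ F := fun _ _ h => (del_adj.mp h).1

lemma del_sup (F : SimpleGraph V) {u v : V} (h : F.Adj u v) :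
    del F u v ⊔ SimpleGraph.edge u v = F := by
  ext x y
  rw [SimpleGraph.sup_adj, SimpleGraph.edge_adj, del_adj]
  constructor
  · rintro (h' | ⟨⟨h1, h2⟩ | ⟨h1, h2⟩, _⟩)
    · exact h'.1
    · subst h1; subst h2; exact h
    · subst h1; subst h2; exact h.symm
  · intro h'
    by_cases hc : x = u ∧ y = v ∨ x = v ∧ y = u
    · exact Or.inr ⟨hc, h'.ne⟩
    · exact Or.inl ⟨h', hc⟩

lemma del_nadj (F : SimpleGraph V) (u v : V) : ¬ (del F u v).Adj u v := by
  rw [del_adj]
  rintro ⟨_, h⟩
  exact h (Or.inl ⟨rfl, rfl⟩)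

lemma fd_del (F : SimpleGraph V) {u v : V} (h : F.Adj u v) (z : V) :
    fd F z = fd (del F u v) z + if z = u ∨ z = v then 1 else 0 := by
  conv_lhs => rw [← del_sup F h]
  exact fd_sup_edge _ h.ne (del_nadj F u v) z

lemma not_reach_del {F : SimpleGraph V} (hF : F.IsAcyclic) {u v : V} (h : F.Adj u v) :
    ¬ (del F u v).Reachable u v := by
  have := (SimpleGraph.isAcyclic_iff_forall_adj_isBridge.mp hF) h
  rw [SimpleGraph.isBridge_iff] at this
  exact this

lemma Phi_del {F : SimpleGraph V} (hF : F.IsAcyclic) {u v : V} (h : F.Adj u v) :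
    Phi F = Phi (del F u v) + 2 * (cs (del F u v) u * cs (del F u v) v) := by
  conv_lhs => rw [← del_sup F h]
  exact Phi_sup_edge _ (not_reach_del hF h)

lemma acyc_sup {H : SimpleGraph V} (hH : H.IsAcyclic) {x y : V} (hn : ¬ H.Reachable x y) :
    (H ⊔ SimpleGraph.edge x y).IsAcyclic :=
  SimpleGraph.IsAcyclic.sup_edge_of_not_reachable hn hH

lemma acyc_del {F : SimpleGraph V} (hF : F.IsAcyclic) (u v : V) : (del F u v).IsAcyclic :=
  hF.anti (del_le F u v)

lemma sum_fd_sup_edge (H : SimpleGraph V) {x y : V} (hxy : x ≠ y) (hn : ¬ H.Adj x y) :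
    ∑ z, fd (H ⊔ SimpleGraph.edge x y) z = ∑ z, fd H z + 2 := by
  rw [sum_congr rfl (fun z _ => fd_sup_edge H hxy hn z), sum_add_distrib]
  congr 1
  rw [← sum_filter]
  have : (univ.filter fun z => z = x ∨ z = y) = {x, y} := by ext; simp
  rw [this, sum_pair hxy]

lemma sum_fd_del (F : SimpleGraph V) {u v : V} (h : F.Adj u v) :
    ∑ z, fd F z = ∑ z, fd (del F u v) z + 2 := by
  conv_lhs => rw [← del_sup F h]
  exact sum_fd_sup_edge _ h.ne (del_nadj F u v)

lemma ex_min {α : Type*} (S : Set α) (hS : S.Nonempty) (f : α → ℕ) :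
    ∃ a ∈ S, ∀ b ∈ S, f a ≤ f b := by
  obtain ⟨a, ha, hm⟩ := (measure f).wf.has_min S hS
  exact ⟨a, ha, fun b hb => not_lt.mp (hm b hb)⟩

/-- every acyclic graph has a proper 2-colouring -/
lemma acyc_two (F : SimpleGraph V) (hF : F.IsAcyclic) :
    ∃ ε : V → Bool, ∀ x y, F.Adj x y → ε x ≠ ε y := by
  obtain ⟨C⟩ : Nonempty (F.Coloring Bool) := by
    have := hF.isBipartite
    exact this.elim fun c => ⟨(SimpleGraph.Embedding.completeGraph
      (finTwoEquiv.toEmbedding)).toHom.comp c⟩
  exact ⟨C, fun x y h => C.valid h⟩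

end Surg

end Pool.Agent.Work.MP_1e13ac_Bis
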