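import Mathlib
import Pool.Agent.Work.MP_1e13ac_Bis.Interface
import Pool.Agent.Work.MP_1e13ac_Bis.Surg

/-!
# PF: the extremal path factor of the complement of `A` (uses PATHREP)
-/

set_option autoImplicit false
set_option linter.unusedSectionVars false

namespace Pool.Agent.Work.MP_1e13ac_Bis

open Classical Finset Surg

namespace PFx

variable {V : Type} [Fintype V]

/-- linear forests in the complement of `A` -/
structure Adm (G : SimpleGraph V) (A : Finset V) (F : SimpleGraph V) : Prop where
  le : F ≤ G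
  out : ∀ x y, F.Adj x y → x ∉ A
  acyc : F.IsAcyclic
  deg : ∀ x, fd F x ≤ 2

/-- violations of `clos` -/
def VP (G : SimpleGraph V) (A : Finset V) (b : V → Bool) (F : SimpleGraph V) (t h : V) : Prop :=
  t ∉ A ∧ h ∉ A ∧ G.Adj t h ∧ ¬ F.Adj t h ∧ fd F t = 1 ∧ fd F h = 1 ∧
    (∃ ε : V → Bool, (∀ x y, F.Adj x y → ε x ≠ ε y) ∧ ε t = ε h) ∧
    ∃ a ∈ A, ∃ a' ∈ A, G.Adj t a ∧ G.Adj h a' ∧ b a ≠ b a'

/-- set of violations -/
noncomputable def Viol (G : SimpleGraph V) (A : Finset V) (b : V → Bool) (F : SimpleGraph V) :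
    Finset (V × V) := univ.filter fun p => VP G A b F p.1 p.2

/-- extremal choice -/
structure Ext (G : SimpleGraph V) (A : Finset V) (b : V → Bool) (F : SimpleGraph V) : Prop where
  adm : Adm G A F
  m1 : ∀ F', Adm G A F' → ∑ z, fd F' z ≤ ∑ z, fd F z
  m2 : ∀ F', Adm G A F' → ∑ z, fd F' z = ∑ z, fd F z → Phi F ≤ Phi F'
  m3 : ∀ F', Adm G A F' → ∑ z, fd F' z = ∑ z, fd F z → Phi F' = Phi F →
    (Viol G A b F).card ≤ (Viol G A b F').card

lemma adm_bot (G : SimpleGraph V) (A : Finset V) : Adm G A ⊥ where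
  le := bot_le
  out := fun x y h => absurd h (by simp)
  acyc := SimpleGraph.isAcyclic_bot
  deg := fun x => by
    rw [fd_of ⊥ x ∅ (by simp)]
    simp

lemma ext_exists (G : SimpleGraph V) (A : Finset V) (b : V → Bool) : ∃ F, Ext G A b F := by
  obtain ⟨F1, h1, hm1⟩ := ex_min {F | Adm G A F} ⟨⊥, adm_bot G A⟩
    (fun F => 2 * Fintype.card V - ∑ z, fd F z)
  have hsum : ∀ F, Adm G A F → ∑ z, fd F z ≤ 2 * Fintype.card V := by
    intro F hF
    calc ∑ z, fd F z ≤ ∑ _z : V, 2 := sum_le_sum (fun z _ => hF.deg z)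
      _ = 2 * Fintype.card V := by simp [mul_comm]
  have hm1' : ∀ F', Adm G A F' → ∑ z, fd F' z ≤ ∑ z, fd F1 z := by
    intro F' hF'
    have := hm1 F' hF'
    have h2 := hsum F' hF'
    have h3 := hsum F1 h1
    omega
  obtain ⟨F2, h2, hm2⟩ := ex_min {F | Adm G A F ∧ ∑ z, fd F z = ∑ z, fd F1 z} ⟨F1, h1, rfl⟩ Phi
  obtain ⟨F3, h3, hm3⟩ := ex_min
    {F | Adm G A F ∧ ∑ z, fd F z = ∑ z, fd F1 z ∧ Phi F = Phi F2} ⟨F2, h2.1, h2.2, rfl⟩
    (fun F => (Viol G A b F).card)
  refine ⟨F3, h3.1, ?_, ?_, ?_⟩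
  · intro F' hF'
    rw [h3.2.1]
    exact hm1' F' hF'
  · intro F' hF' hs
    rw [h3.2.2]
    exact hm2 F' ⟨hF', hs.trans h3.2.1⟩
  · intro F' hF' hs hp
    exact hm3 F' ⟨hF', hs.trans h3.2.1, hp.trans h3.2.2⟩

lemma adm_sup {G : SimpleGraph V} {A : Finset V} {H : SimpleGraph V} (hle : H ≤ G)
    (hout : ∀ x y, H.Adj x y → x ∉ A) (hac : H.IsAcyclic) {x y : V} (hn : ¬ H.Reachable x y)
    (hG : G.Adj x y) (hx : x ∉ A) (hy : y ∉ A)
    (hdeg : ∀ z, fd H z + (if z = x ∨ z = y then 1 else 0) ≤ 2) :
    Adm G A (H ⊔ SimpleGraph.edge x y) where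
  le := by
    intro a c hac'
    rw [SimpleGraph.sup_adj, SimpleGraph.edge_adj] at hac'
    rcases hac' with h | ⟨⟨h1, h2⟩ | ⟨h1, h2⟩, _⟩
    · exact hle h
    · subst h1; subst h2; exact hG
    · subst h1; subst h2; exact hG.symm
  out := by
    intro a c hac'
    rw [SimpleGraph.sup_adj, SimpleGraph.edge_adj] at hac'
    rcases hac' with h | ⟨⟨h1, h2⟩ | ⟨h1, h2⟩, _⟩
    · exact hout _ _ h
    · subst h1; exact hx
    · subst h1; exact hy
  acyc := acyc_sup hac hn
  deg := by
    intro z
    rw [fd_sup_edge H hG.ne (fun h => hn h.reachable)]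
    exact hdeg z

lemma max_of {G : SimpleGraph V} {A : Finset V} {F : SimpleGraph V} (hF : Adm G A F)
    (hm : ∀ F', Adm G A F' → ∑ z, fd F' z ≤ ∑ z, fd F z) :
    ∀ x y, x ∉ A → y ∉ A → G.Adj x y → fd F x ≤ 1 → fd F y ≤ 1 → F.Reachable x y := by
  intro x y hx hy hG h1 h2
  by_contra hn
  have := hm _ (adm_sup hF.le hF.out hF.acyc hn hG hx hy (by
    intro z
    split_ifs with hz
    · rcases hz with hz | hz
      · subst hz; omega
      · subst hz; omega
    · have := hF.deg z
      omega))
  rw [sum_fd_sup_edge F hG.ne (fun h => hn h.reachable)] at this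
  omega

lemma cs_mono {H F : SimpleGraph V} (h : H ≤ F) (x : V) : cs H x ≤ cs F x := by
  rw [cs_eq, cs_eq]
  apply card_le_card
  intro y hy
  rw [mem_comp] at hy ⊢
  exact hy.mono h

lemma fd_mono {H F : SimpleGraph V} (h : H ≤ F) (x : V) : fd H x ≤ fd F x := by
  rw [fd_eq, fd_eq]
  apply card_le_card
  intro y hy
  rw [mem_nf] at hy ⊢
  exact h hy

lemma bal_v {G : SimpleGraph V} {A : Finset V} {b : V → Bool} {F : SimpleGraph V}
    (hF : Ext G A b F) {u t : V} (hu : u ∉ A) (ht : t ∉ A) (hG : G.Adj u t)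
    (hft : fd F t ≤ 1) (hn : ¬ F.Reachable u t) {v : V} (hv : F.Adj u v) :
    cs (del F u v) v ≤ cs F t := by
  have hHF := del_le F u v
  have hnH : ¬ (del F u v).Reachable u t := fun h => hn (h.mono hHF)
  have hadm : Adm G A (del F u v ⊔ SimpleGraph.edge u t) := by
    refine adm_sup (hHF.trans hF.adm.le) (fun x y h => hF.adm.out x y (hHF h))
      (acyc_del hF.adm.acyc u v) hnH hG hu ht ?_
    intro z
    have h1 := fd_del F hv z
    have h2 := hF.adm.deg z
    by_cases hzu : z = u
    · rw [if_pos (Or.inl hzu)] at h1 ⊢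
      omega
    · by_cases hzt : z = t
      · rw [if_pos (Or.inr hzt)]
        have := fd_mono hHF z
        subst hzt
        omega
      · rw [if_neg (by tauto)]
        have := fd_mono hHF z
        omega
  have hs : ∑ z, fd (del F u v ⊔ SimpleGraph.edge u t) z = ∑ z, fd F z := by
    rw [sum_fd_sup_edge _ hG.ne (fun h => hnH h.reachable), sum_fd_del F hv]
  have h3 := hF.m2 _ hadm hs
  rw [Phi_sup_edge _ hnH, Phi_del hF.adm.acyc hv] at h3
  have h4 : 0 < cs (del F u v) u := cs_pos _ _
  have h5 : cs (del F u v) u * cs (del F u v) v ≤ cs (del F u v) u * cs (del F u v) t := by omega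
  have h6 := Nat.le_of_mul_le_mul_left h5 h4
  exact h6.trans (cs_mono hHF t)

lemma cs_le_sum (F : SimpleGraph V) (u : V) :
    cs F u ≤ 1 + ∑ v ∈ nf F u, cs (del F u v) v := by
  have hsub : comp F u ⊆ insert u ((nf F u).biUnion fun v => comp (del F u v) v) := by
    intro z hz
    rw [mem_comp] at hz
    obtain ⟨p, hp⟩ := hz.exists_isPath
    cases p with
    | nil => simp
    | @cons _ v _ hadj q =>
      rw [mem_insert, mem_biUnion]
      right
      refine ⟨v, mem_nf.mpr hadj, ?_⟩
      rw [mem_comp]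
      unfold del
      rw [SimpleGraph.reachable_deleteEdges_iff_exists_walk]
      refine ⟨q, fun hmem => ?_⟩
      rw [SimpleGraph.Walk.cons_isPath_iff] at hp
      exact hp.2 (SimpleGraph.Walk.fst_mem_support_of_mem_edges q hmem)
  rw [cs_eq]
  calc (comp F u).card ≤ (insert u ((nf F u).biUnion fun v => comp (del F u v) v)).card :=
        card_le_card hsub
    _ ≤ ((nf F u).biUnion fun v => comp (del F u v) v).card + 1 := card_insert_le _ _
    _ ≤ ∑ v ∈ nf F u, (comp (del F u v) v).card + 1 := Nat.add_le_add_right card_biUnion_le 1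
    _ = 1 + ∑ v ∈ nf F u, cs (del F u v) v := by
        rw [add_comm]
        rfl

lemma bal_of {G : SimpleGraph V} {A : Finset V} {b : V → Bool} {F : SimpleGraph V}
    (hF : Ext G A b F) : ∀ u t, u ∉ A → t ∉ A → G.Adj u t → fd F u = 2 → fd F t ≤ 1 →
    ¬ F.Reachable u t → cs F u ≤ 2 * cs F t + 1 := by
  intro u t hu ht hG h2 h1 hn
  have h3 := cs_le_sum F u
  have h4 : ∑ v ∈ nf F u, cs (del F u v) v ≤ ∑ _v ∈ nf F u, cs F t :=
    sum_le_sum fun v hv => bal_v hF hu ht hG h1 hn (mem_nf.mp hv)
  rw [sum_const, ← fd_eq, h2, smul_eq_mul] at h4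
  omega

lemma bne1 (p q r : Bool) (h : p ≠ q) (hp : p = r) : q = !r := by
  subst hp
  revert h
  cases p <;> cases q <;> simp

lemma bne2 (p q r : Bool) (h : p ≠ q) (hp : p = !r) : q = r := by
  subst hp
  revert h
  cases r <;> cases q <;> simp

lemma bself (p : Bool) (h : p = !p) : False := by
  revert h
  cases p <;> simp

/-- four different neighbours are impossible in a cubic graph -/
lemma no_four {G : SimpleGraph V} (hc : Cub G) {x a1 a2 y z : V} (h1 : G.Adj x a1)
    (h2 : G.Adj x a2) (h3 : G.Adj x y) (h4 : G.Adj x z) (hyz : y ≠ z) (h1y : a1 ≠ y)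
    (h1z : a1 ≠ z) (h2y : a2 ≠ y) (h2z : a2 ≠ z) : a1 = a2 := by
  by_contra hne
  have hsub : ({a1, a2, y, z} : Finset V) ⊆ nbs G x := by
    intro w hw
    simp only [mem_insert, mem_singleton] at hw
    simp only [nbs, mem_filter, mem_univ, true_and]
    rcases hw with h | h | h | h <;> subst h <;> assumption
  have hcard := card_le_card hsub
  rw [hc x, card_insert_of_notMem (by simp [hne, h1y, h1z]),
    card_insert_of_notMem (by simp [h2y, h2z]), card_pair hyz] at hcard
  omega

lemma core {G : SimpleGraph V} (hc : Cub G) {A : Finset V} {b : V → Bool} {F : SimpleGraph V}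
    (hF : Ext G A b F) (k : ℕ) (p : ℕ → V) (hk : 2 ≤ k)
    (inj : ∀ i < k, ∀ j < k, p i = p j → i = j)
    (rea : ∀ y, F.Reachable (p 0) y ↔ ∃ i < k, p i = y)
    (adj : ∀ i < k, ∀ j < k, F.Adj (p i) (p j) ↔ (j = i + 1 ∨ i = j + 1))
    (ε : V → Bool) (hε : ∀ x y, F.Adj x y → ε x ≠ ε y)
    (htA : p 0 ∉ A) (hhA : p (k - 1) ∉ A) (hG : G.Adj (p 0) (p (k - 1)))
    (hnF : ¬ F.Adj (p 0) (p (k - 1))) (hft : fd F (p 0) = 1) (hfh : fd F (p (k - 1)) = 1)
    (hεe : ε (p 0) = ε (p (k - 1))) (a a' : V) (ha : a ∈ A) (ha' : a' ∈ A)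
    (hGa : G.Adj (p 0) a) (hGa' : G.Adj (p (k - 1)) a') (hb : b a ≠ b a') : False := by
  -- the colours alternate
  have halt : ∀ i < k, ε (p i) = if Even i then ε (p 0) else !ε (p 0) := by
    intro i
    induction i with
    | zero => intro _; simp
    | succ i ih =>
      intro hi
      have h1 := ih (by omega)
      have h2 := hε _ _ ((adj i (by omega) (i + 1) hi).mpr (Or.inl rfl))
      by_cases he : Even i
      · rw [if_pos he] at h1
        rw [if_neg (by simpa [Nat.even_add_one] using he)]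
        exact bne1 _ _ _ h2 h1
      · rw [if_neg he] at h1
        rw [if_pos (by simpa [Nat.even_add_one] using he)]
        exact bne2 _ _ _ h2 h1
  have hodd : Even (k - 1) := by
    by_contra hne
    have := halt (k - 1) (by omega)
    rw [if_neg hne, ← hεe] at this
    exact bself _ this
  have hk3 : 3 ≤ k := by
    rcases hodd with ⟨m, hm⟩
    omega
  have hpA : ∀ i < k, p i ∉ A := by
    intro i hi
    by_cases h0 : i + 1 < k
    · exact hF.adm.out _ _ ((adj i hi (i + 1) h0).mpr (Or.inl rfl))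
    · have : i = k - 1 := by omega
      rw [this]; exact hhA
  -- at most one neighbour in A
  have huniq : ∀ i < k, ∀ a1 ∈ A, ∀ a2 ∈ A, G.Adj (p i) a1 → G.Adj (p i) a2 → a1 = a2 := by
    intro i hi a1 h1 a2 h2 hg1 hg2
    have hneA : ∀ j < k, ∀ c ∈ A, c ≠ p j := fun j hj c hc' he => hpA j hj (he ▸ hc')
    by_cases h0 : i = 0
    · subst h0
      have hadj1 : G.Adj (p 0) (p 1) :=
        hF.adm.le ((adj 0 (by omega) 1 (by omega)).mpr (Or.inl rfl))
      refine no_four hc hg1 hg2 hadj1 hG (fun h => ?_) (hneA 1 (by omega) _ h1)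
        (hneA (k - 1) (by omega) _ h1) (hneA 1 (by omega) _ h2) (hneA (k - 1) (by omega) _ h2)
      have := inj 1 (by omega) (k - 1) (by omega) h
      omega
    · by_cases h1' : i = k - 1
      · subst h1'
        have hadj1 : G.Adj (p (k - 1)) (p (k - 2)) :=
          hF.adm.le ((adj (k - 1) (by omega) (k - 2) (by omega)).mpr (Or.inr (by omega)))
        refine no_four hc hg1 hg2 hadj1 hG.symm (fun h => ?_) (hneA (k - 2) (by omega) _ h1)
          (hneA 0 (by omega) _ h1) (hneA (k - 2) (by omega) _ h2) (hneA 0 (by omega) _ h2)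
        have := inj (k - 2) (by omega) 0 (by omega) h
        omega
      · have hadj1 : G.Adj (p i) (p (i - 1)) :=
          hF.adm.le ((adj i (by omega) (i - 1) (by omega)).mpr (Or.inr (by omega)))
        have hadj2 : G.Adj (p i) (p (i + 1)) :=
          hF.adm.le ((adj i (by omega) (i + 1) (by omega)).mpr (Or.inl (by omega)))
        refine no_four hc hg1 hg2 hadj1 hadj2 (fun h => ?_) (hneA (i - 1) (by omega) _ h1)
          (hneA (i + 1) (by omega) _ h1) (hneA (i - 1) (by omega) _ h2)
          (hneA (i + 1) (by omega) _ h2)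
        have := inj (i - 1) (by omega) (i + 1) (by omega) h
        omega
  -- the good index
  obtain ⟨i, hi, hgood⟩ : ∃ i, i + 1 < k ∧ ∀ a1 ∈ A, ∀ a2 ∈ A, G.Adj (p i) a1 →
      G.Adj (p (i + 1)) a2 → b a1 = b a2 := by
    by_contra hcon
    push Not at hcon
    have hall : ∀ i < k, ∃ a1 ∈ A, G.Adj (p i) a1 ∧
        b a1 = if Even i then b a else !b a := by
      intro i
      induction i with
      | zero => intro _; exact ⟨a, ha, hGa, by simp⟩
      | succ i ih =>
        intro hi
        obtain ⟨a1, h1, h2, h3⟩ := ih (by omega)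
        obtain ⟨a1', h1', a2', h2', hg1, hg2, hne⟩ := hcon i hi
        have := huniq i (by omega) a1 h1 a1' h1' h2 hg1
        subst this
        refine ⟨a2', h2', hg2, ?_⟩
        by_cases he : Even i
        · rw [if_pos he] at h3
          rw [if_neg (by simpa [Nat.even_add_one] using he)]
          exact bne1 _ _ _ hne h3
        · rw [if_neg he] at h3
          rw [if_pos (by simpa [Nat.even_add_one] using he)]
          exact bne2 _ _ _ hne h3
    obtain ⟨a1, h1, h2, h3⟩ := hall (k - 1) (by omega)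
    rw [if_pos hodd] at h3
    have := huniq (k - 1) (by omega) a1 h1 a' ha' h2 hGa'
    subst this
    exact hb h3.symm
  set x := p i with hx
  set y := p (i + 1) with hy
  set t := p 0 with ht
  set h := p (k - 1) with hh
  have hxy : F.Adj x y := (adj i (by omega) (i + 1) hi).mpr (Or.inl rfl)
  set H := del F x y with hH
  have hHF : H ≤ F := del_le F x y
  -- reachability in H
  have hr1 : ∀ j ≤ i, H.Reachable t (p j) := by
    intro j
    induction j with
    | zero => intro _; exact SimpleGraph.Reachable.refl _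
    | succ j ih =>
      intro hj
      refine (ih (by omega)).trans (SimpleGraph.Adj.reachable ?_)
      rw [hH, del_adj]
      refine ⟨(adj j (by omega) (j + 1) (by omega)).mpr (Or.inl rfl), ?_⟩
      rintro (⟨h1, h2⟩ | ⟨h1, h2⟩)
      · have := inj j (by omega) i (by omega) h1
        omega
      · have := inj j (by omega) (i + 1) (by omega) h1
        omega
  have hr2 : ∀ j, i + 1 + j < k → H.Reachable y (p (i + 1 + j)) := by
    intro j
    induction j with
    | zero => intro _; exact SimpleGraph.Reachable.refl _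
    | succ j ih =>
      intro hj
      refine (ih (by omega)).trans (SimpleGraph.Adj.reachable ?_)
      rw [hH, del_adj]
      refine ⟨(adj (i + 1 + j) (by omega) (i + 1 + (j + 1)) (by omega)).mpr
        (Or.inl (by omega)), ?_⟩
      rintro (⟨h1, h2⟩ | ⟨h1, h2⟩)
      · have := inj (i + 1 + j) (by omega) i (by omega) h1
        omega
      · have := inj (i + 1 + (j + 1)) (by omega) i (by omega) h2
        omega
  have htx : H.Reachable t x := hr1 i le_rfl
  have hyh : H.Reachable y h := by
    have := hr2 (k - 1 - (i + 1)) (by omega)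
    rwa [show i + 1 + (k - 1 - (i + 1)) = k - 1 by omega] at this
  have hnxy : ¬ H.Reachable x y := not_reach_del hF.adm.acyc hxy
  have hnth : ¬ H.Reachable t h := fun hh' => hnxy ((htx.symm.trans hh').trans hyh.symm)
  have hth : t ≠ h := hG.ne
  -- the new forest
  set F' := H ⊔ SimpleGraph.edge t h with hF'
  have hnHth : ¬ H.Adj t h := fun h' => hnth h'.reachable
  have hfdF' : ∀ z, fd F' z = fd H z + if z = t ∨ z = h then 1 else 0 :=
    fun z => fd_sup_edge H hth hnHth z
  have hfdF : ∀ z, fd F z = fd H z + if z = x ∨ z = y then 1 else 0 := fun z => fd_del F hxy z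
  have hadm : Adm G A F' := by
    refine adm_sup (hHF.trans hF.adm.le) (fun x y h => hF.adm.out x y (hHF h))
      (acyc_del hF.adm.acyc _ _) hnth hG htA hhA ?_
    intro z
    have h1 := fd_mono hHF z
    have h2 := hF.adm.deg z
    split_ifs with hz
    · rcases hz with hz | hz
      · rw [hz] at h1 ⊢; omega
      · rw [hz] at h1 ⊢; omega
    · omega
  have hsum : ∑ z, fd F' z = ∑ z, fd F z := by
    rw [hF', sum_fd_sup_edge H hth hnHth, sum_fd_del F hxy]
  have hPhi : Phi F' = Phi F := by
    rw [hF', Phi_sup_edge H hnth, Phi_del hF.adm.acyc hxy, cs_congr htx, cs_congr hyh]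
  have hm3 := hF.m3 F' hadm hsum hPhi
  -- degrees on the path
  have hdegP : ∀ j < k, 2 ≤ fd F (p j) + if p j = t ∨ p j = h then 1 else 0 := by
    intro j hj
    by_cases h0 : j = 0
    · rw [if_pos (Or.inl (by rw [h0]))]
      have : fd F (p j) = 1 := by rw [h0]; exact hft
      omega
    · by_cases h1 : j = k - 1
      · rw [if_pos (Or.inr (by rw [h1]))]
        have : fd F (p j) = 1 := by rw [h1]; exact hfh
        omega
      · have hsub : ({p (j - 1), p (j + 1)} : Finset V) ⊆ nf F (p j) := by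
          intro w hw
          simp only [mem_insert, mem_singleton] at hw
          rw [mem_nf]
          rcases hw with h' | h'
          · rw [h']; exact (adj j hj (j - 1) (by omega)).mpr (Or.inr (by omega))
          · rw [h']; exact (adj j hj (j + 1) (by omega)).mpr (Or.inl rfl)
        have hcard := card_le_card hsub
        rw [card_pair (fun h' => by
          have := inj (j - 1) (by omega) (j + 1) (by omega) h'
          omega), ← fd_eq] at hcard
        omega
  have hends : ∀ j < k, fd F' (p j) = 1 → p j = x ∨ p j = y := by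
    intro j hj h1
    by_contra hne
    have h2 := hdegP j hj
    have h3 := hfdF' (p j)
    have h4 := hfdF (p j)
    rw [if_neg hne] at h4
    omega
  -- F'-reachability implies F-reachability
  have hreachF : ∀ z w, F'.Reachable z w → F.Reachable z w := by
    intro z w hzw
    rw [hF', reach_sup_edge H hth] at hzw
    have hthF : F.Reachable t h := (rea h).mpr ⟨k - 1, by omega, rfl⟩
    rcases hzw with h' | ⟨h1, h2⟩ | ⟨h1, h2⟩
    · exact h'.mono hHF
    · exact (h1.mono hHF).trans (hthF.trans (h2.mono hHF))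
    · exact (h1.mono hHF).trans (hthF.symm.trans (h2.mono hHF))
  have hmax' := max_of hadm (fun F'' hF'' => by
    rw [hsum]; exact hF.m1 F'' hF'')
  have hinP : ∀ z, F.Reachable t z → (z = t ∨ z = h ∨ z = x ∨ z = y ∨ True) := by
    intro z _; tauto
  -- vertices outside the component
  have hout : ∀ z, ¬ F.Reachable t z → z ≠ t ∧ z ≠ h ∧ z ≠ x ∧ z ≠ y := by
    intro z hz
    refine ⟨?_, ?_, ?_, ?_⟩
    · rintro rfl; exact hz (SimpleGraph.Reachable.refl _)
    · rintro rfl; exact hz ((rea _).mpr ⟨k - 1, by omega, rfl⟩)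
    · rintro rfl; exact hz ((rea _).mpr ⟨i, by omega, rfl⟩)
    · rintro rfl; exact hz ((rea _).mpr ⟨i + 1, by omega, rfl⟩)
  have hadjout : ∀ z w, ¬ F.Reachable t z → (F'.Adj z w ↔ F.Adj z w) := by
    intro z w hz
    obtain ⟨h1, h2, h3, h4⟩ := hout z hz
    rw [hF', SimpleGraph.sup_adj, SimpleGraph.edge_adj, hH, del_adj]
    constructor
    · rintro (h' | ⟨⟨h', _⟩ | ⟨h', _⟩, _⟩)
      · exact h'.1
      · exact absurd h' h1
      · exact absurd h' h2
    · intro h'
      refine Or.inl ⟨h', ?_⟩
      rintro (⟨h5, _⟩ | ⟨h5, _⟩)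
      · exact h3 h5
      · exact h4 h5
  have hfdout : ∀ z, ¬ F.Reachable t z → fd F' z = fd F z := by
    intro z hz
    obtain ⟨h1, h2, h3, h4⟩ := hout z hz
    rw [hfdF' z, hfdF z, if_neg (by tauto), if_neg (by tauto)]
  have hss : Viol G A b F' ⊂ Viol G A b F := by
    rw [Finset.ssubset_iff_of_subset]
    · refine ⟨(t, h), ?_, ?_⟩
      · simp only [Viol, mem_filter, mem_univ, true_and]
        exact ⟨htA, hhA, hG, hnF, hft, hfh, ⟨ε, hε, hεe⟩, a, ha, a', ha', hGa, hGa', hb⟩
      · simp only [Viol, mem_filter, mem_univ, true_and]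
        rintro ⟨_, _, _, hnn, _⟩
        apply hnn
        rw [hF', SimpleGraph.sup_adj, SimpleGraph.edge_adj]
        exact Or.inr ⟨Or.inl ⟨rfl, rfl⟩, hth⟩
    · rintro ⟨t', h'⟩ hmem
      simp only [Viol, mem_filter, mem_univ, true_and] at hmem ⊢
      obtain ⟨q1, q2, q3, q4, q5, q6, ⟨ε', hε', q7⟩, a1, q8, a2, q9, q10, q11, q12⟩ := hmem
      have hre := hreachF _ _ (hmax' t' h' q1 q2 q3 q5.le q6.le)
      by_cases hcase : F.Reachable t t'
      · exfalso
        obtain ⟨j, hj, hj'⟩ := (rea t').mp hcase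
        obtain ⟨j2, hj2, hj2'⟩ := (rea h').mp (hcase.trans hre)
        have e1 := hends j hj (by rw [hj']; exact q5)
        have e2 := hends j2 hj2 (by rw [hj2']; exact q6)
        rw [hj'] at e1
        rw [hj2'] at e2
        have hne := q3.ne
        rcases e1 with e1 | e1 <;> rcases e2 with e2 | e2
        · exact hne (e1.trans e2.symm)
        · rw [e1] at q10
          rw [e2] at q11
          exact q12 (hgood a1 q8 a2 q9 q10 q11)
        · rw [e1] at q10
          rw [e2] at q11
          exact q12 (hgood a2 q9 a1 q8 q11 q10).symm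
        · exact hne (e1.trans e2.symm)
      · have hcase' : ¬ F.Reachable t h' := fun h1 => hcase (h1.trans hre.symm)
        refine ⟨q1, q2, q3, fun h1 => q4 ((hadjout t' h' hcase).mpr h1),
          (hfdout t' hcase) ▸ q5, (hfdout h' hcase') ▸ q6, ?_, a1, q8, a2, q9, q10, q11, q12⟩
        refine ⟨fun z => if F.Reachable t z then ε z else ε' z, ?_, ?_⟩
        · intro z w hzw
          by_cases hz : F.Reachable t z
          · have hw : F.Reachable t w := hz.trans hzw.reachable
            simp only [if_pos hz, if_pos hw]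
            exact hε z w hzw
          · have hw : ¬ F.Reachable t w := fun h1 => hz (h1.trans hzw.symm.reachable)
            simp only [if_neg hz, if_neg hw]
            exact hε' z w ((hadjout z w hz).mpr hzw)
        · simp only [if_neg hcase, if_neg hcase']
          exact q7
  have := card_lt_card hss
  omega

end PFx

open PFx in
theorem stmt_PF (hP : Stmt_PATHREP) : Stmt_PF := by
  intro V _ G hc A b
  obtain ⟨F, hF⟩ := ext_exists G A b
  have hmax := max_of hF.adm hF.m1
  refine ⟨F, hF.adm.le, hF.adm.out, hF.adm.acyc, hF.adm.deg, fun x y _ => hmax x y,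
    bal_of hF, ?_⟩
  intro ε hε t h ht hh hG hnF hft hfh hεe a ha a' ha' hGa hGa'
  by_contra hb
  have hre := hmax t h ht hh hG hft.le hfh.le
  obtain ⟨p, inj, rea, adj⟩ := hP V F hF.adm.acyc hF.adm.deg t
  set k := cs F t with hk
  obtain ⟨i0, hi0, hp0⟩ := (rea t).mp (SimpleGraph.Reachable.refl _)
  obtain ⟨i1, hi1, hp1⟩ := (rea h).mp hre
  have hne : i0 ≠ i1 := by
    rintro rfl
    exact hG.ne (hp0.symm.trans hp1)
  have hk2 : 2 ≤ k := by omega
  have hend : ∀ j < k, fd F (p j) = 1 → j = 0 ∨ j = k - 1 := by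
    intro j hj h1
    by_contra hcon
    push Not at hcon
    have hsub : ({p (j - 1), p (j + 1)} : Finset V) ⊆ nf F (p j) := by
      intro w hw
      simp only [mem_insert, mem_singleton] at hw
      rw [mem_nf]
      rcases hw with h' | h'
      · rw [h']; exact (adj j hj (j - 1) (by omega)).mpr (Or.inr (by omega))
      · rw [h']; exact (adj j hj (j + 1) (by omega)).mpr (Or.inl rfl)
    have hcard := card_le_card hsub
    rw [card_pair (fun h' => by
      have := inj (j - 1) (by omega) (j + 1) (by omega) h'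
      omega), ← fd_eq] at hcard
    omega
  have e0 := hend i0 hi0 (by rw [hp0]; exact hft)
  have e1 := hend i1 hi1 (by rw [hp1]; exact hfh)
  have hrea0 : ∀ y, F.Reachable (p 0) y ↔ ∃ i < k, p i = y := by
    have h0 : F.Reachable t (p 0) := (rea (p 0)).mpr ⟨0, by omega, rfl⟩
    intro y
    rw [← rea y]
    exact ⟨fun h1 => h0.trans h1, fun h1 => h0.symm.trans h1⟩
  rcases e0 with e0 | e0
  · have e1' : i1 = k - 1 := by
      rcases e1 with e1 | e1
      · omega
      · exact e1
    subst e0
    rw [e1'] at hp1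
    subst hp0
    subst hp1
    exact core hc hF k p hk2 inj hrea0 adj ε hε ht hh hG hnF hft hfh hεe a a' ha ha' hGa hGa' hb
  · have e1' : i1 = 0 := by
      rcases e1 with e1 | e1
      · exact e1
      · omega
    subst e1'
    rw [e0] at hp0
    subst hp1
    have hk' : p (k - 1) = t := hp0
    exact core hc hF k p hk2 inj hrea0 adj ε hε hh (by rw [hk']; exact ht)
      (by rw [hk']; exact hG.symm) (by rw [hk']; exact fun h1 => hnF h1.symm) hfh
      (by rw [hk']; exact hft) (by rw [hk']; exact hεe.symm) a' a ha' ha hGa'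
      (by rw [hk']; exact hGa) (Ne.symm hb)

end Pool.Agent.Work.MP_1e13ac_Bis
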