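import Mathlib
import Pool.Agent.Work.MP_1e13ac_Bis.Interface

set_option autoImplicit false

namespace Pool.Agent.Work.MP_1e13ac_Bis

open Classical Finset

namespace PLACES

/-- distribution of the elements of `X` over `D` -/
lemma distribute {V T : Type} (D : Finset T) (hD : D.Nonempty) (q : ℕ) :
    ∀ X : Finset V, D.card * q ≤ X.card →
      ∃ f : V → T, (∀ x ∈ X, f x ∈ D) ∧ ∀ t ∈ D, q ≤ (X.filter fun x => f x = t).card := by
  induction hD using Finset.Nonempty.cons_induction with
  | singleton a =>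
    intro X hX
    refine ⟨fun _ => a, fun x _ => by simp, fun t ht => ?_⟩
    rw [mem_singleton] at ht
    subst ht
    simpa using hX
  | cons a s ha hs ih =>
    intro X hX
    rw [card_cons] at hX
    have h1 : q ≤ X.card := by nlinarith
    obtain ⟨Y, hY, hYc⟩ := exists_subset_card_eq h1
    have h2 : s.card * q ≤ (X \ Y).card := by
      rw [card_sdiff_of_subset hY, hYc]
      have : (s.card + 1) * q = s.card * q + q := by ring
      omega
    obtain ⟨f, hf1, hf2⟩ := ih (X \ Y) h2
    refine ⟨fun x => if x ∈ Y then a else f x, fun x hx => ?_, fun t ht => ?_⟩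
    · by_cases hxY : x ∈ Y
      · simp [hxY]
      · simp only [hxY, if_false]
        exact mem_cons_of_mem (hf1 x (mem_sdiff.2 ⟨hx, hxY⟩))
    · rw [mem_cons] at ht
      rcases ht with ht | ht
      · subst ht
        rw [← hYc]
        apply card_le_card
        intro x hx
        rw [mem_filter]
        exact ⟨hY hx, by simp [hx]⟩
      · refine (hf2 t ht).trans (card_le_card ?_)
        intro x hx
        rw [mem_filter, mem_sdiff] at hx
        rw [mem_filter]
        exact ⟨hx.1.1, by simp [hx.1.2, hx.2]⟩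

lemma exists_box : ∃ box : Finset (ℤ × ℤ × ℤ), ∀ D : Finset (ℤ × ℤ × ℤ), Gen D → D ⊆ box := by
  refine ⟨((Set.finite_Icc (-50 : ℤ) 50).prod ((Set.finite_Icc (-50 : ℤ) 50).prod
    (Set.finite_Icc (-50 : ℤ) 50))).toFinset, ?_⟩
  intro D h d hd
  obtain ⟨h1, h2, h3⟩ := h.1 d hd
  rw [abs_le] at h1 h2 h3
  rw [Set.Finite.mem_toFinset]
  exact ⟨h1, h2, h3⟩

lemma gen_nonempty (D : Finset (ℤ × ℤ × ℤ)) (h : Gen D) : D.Nonempty := by
  by_contra hne
  rw [not_nonempty_iff_eq_empty] at hne
  subst hne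
  have h1 := h.2 (2, 0, 0) (by simp) (by simp)
  simp at h1

end PLACES

open PLACES

theorem stmt_PLACES (hPAT : Stmt_PAT) (hCLOSE : Stmt_CLOSE) (hMANY : Stmt_MANY)
    (hBALL : Stmt_BALL) : Stmt_PLACES := by
  intro d
  obtain ⟨K₃, hM⟩ := hMANY
  obtain ⟨box, gen_sub⟩ := exists_box
  set B := box.powerset.card with hB
  refine ⟨2 * (d * K₃ * B * box.card), d * K₃ * B * box.card + 1, ?_⟩
  intro V _ G hG hN hd
  obtain ⟨X0, hX0, hX0c, hX0d⟩ := hM V G hG (univ.filter fun v => Big G v)
  -- the difference sets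
  have hD : ∀ v, ∃ D : Finset (ℤ × ℤ × ℤ), Big G v → (Gen D ∧
    ∀ d ∈ D, ∃ A U : Finset V, ∃ c1 c2 : V → Bool, Gdt Pre G A U c1 c2 ∧ A ⊆ Bl G 23 v ∧
      A.card ≤ 23 ∧ diff G U c1 c2 = d) := by
    intro v
    by_cases hv : Big G v
    · obtain ⟨D, h⟩ := hPAT V G hG v hv
      exact ⟨D, fun _ => h⟩
    · exact ⟨∅, fun h => absurd h hv⟩
  choose Df hDf using hD
  have hbig : ∀ x ∈ X0, Big G x := fun x hx => by
    have := hX0 hx
    simpa using this
  -- pigeonhole
  have hmaps : ∀ x ∈ X0, Df x ∈ box.powerset := fun x hx =>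
    mem_powerset.2 (gen_sub _ (hDf x (hbig x hx)).1)
  have hpos : 1 ≤ Fintype.card V := by omega
  have hX0ne : X0.card ≠ 0 := by
    intro h0
    rw [h0] at hX0c
    have : (univ.filter fun v => Big G v).card = 0 := by omega
    rw [this] at hd
    omega
  obtain ⟨D, hDmem, hDle⟩ : ∃ D ∈ box.powerset, X0.card ≤ B * (X0.filter fun x => Df x = D).card := by
    by_contra hcon
    push Not at hcon
    have h1 : X0.card = ∑ D ∈ box.powerset, (X0.filter fun x => Df x = D).card :=
      card_eq_sum_card_fiberwise hmaps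
    have h2 : B * X0.card = ∑ D ∈ box.powerset, B * (X0.filter fun x => Df x = D).card := by
      rw [← mul_sum, ← h1]
    have h3 : ∑ D ∈ box.powerset, B * (X0.filter fun x => Df x = D).card <
        ∑ D ∈ box.powerset, X0.card :=
      sum_lt_sum_of_nonempty ⟨∅, by simp⟩ hcon
    rw [sum_const, smul_eq_mul, ← hB, ← h2] at h3
    exact lt_irrefl _ h3
  set X1 := X0.filter fun x => Df x = D with hX1
  have hX1ne : X1.Nonempty := by
    rw [← card_pos]
    by_contra h0
    have : X1.card = 0 := by omega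
    rw [this] at hDle
    omega
  have hX1big : ∀ x ∈ X1, Big G x := fun x hx => hbig x (mem_filter.1 hx).1
  have hX1D : ∀ x ∈ X1, Df x = D := fun x hx => (mem_filter.1 hx).2
  have hGen : Gen D := by
    obtain ⟨x, hx⟩ := hX1ne
    rw [← hX1D x hx]
    exact (hDf x (hX1big x hx)).1
  have hDsub : D.card ≤ box.card := card_le_card (gen_sub D hGen)
  have hDpos : 1 ≤ D.card := card_pos.2 (gen_nonempty D hGen)
  -- sizes
  have hV : Fintype.card V ≤ d * K₃ * B * X1.card := by
    calc Fintype.card V ≤ d * (univ.filter fun v => Big G v).card := hd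
      _ ≤ d * (K₃ * X0.card) := Nat.mul_le_mul_left _ hX0c
      _ ≤ d * (K₃ * (B * X1.card)) := by gcongr
      _ = d * K₃ * B * X1.card := by ring
  have hDX : D.card ≤ X1.card := by
    by_contra hlt
    push Not at hlt
    have h1 : d * K₃ * B * X1.card ≤ d * K₃ * B * box.card := by
      apply Nat.mul_le_mul_left
      omega
    omega
  set q := X1.card / D.card with hq
  have hq1 : 1 ≤ q := (Nat.one_le_div_iff (by omega)).2 hDX
  have hq2 : D.card * q ≤ X1.card := Nat.mul_div_le _ _
  have hq3 : X1.card ≤ 2 * box.card * q := by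
    have h1 : X1.card < D.card * q + D.card := by
      have := Nat.lt_mul_div_succ X1.card (show 0 < D.card by omega)
      rw [mul_add, mul_one] at this
      exact this
    have h2 : D.card ≤ D.card * q := Nat.le_mul_of_pos_right _ hq1
    have h3 : D.card * q ≤ box.card * q := Nat.mul_le_mul_right _ hDsub
    have h4 : 2 * box.card * q = box.card * q + box.card * q := by ring
    omega
  obtain ⟨f, hf1, hf2⟩ := distribute D (gen_nonempty D hGen) q X1 hq2
  -- the gadgets
  have hgad : ∀ x : V, ∃ (A U : Finset V) (c1 c2 : V → Bool), x ∈ X1 →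
      (A ⊆ Bl G 96 x ∧ Gdt Clo G A U c1 c2 ∧ diff G U c1 c2 = f x) := by
    intro x
    by_cases hx : x ∈ X1
    · obtain ⟨A, U, c1, c2, hg, hA, hAc, hdiff⟩ := (hDf x (hX1big x hx)).2 (f x)
        (by rw [hX1D x hx]; exact hf1 x hx)
      obtain ⟨A', c1', c2', hAA', hg', hdiff', hball⟩ := hCLOSE V G hG A U c1 c2 hg
      refine ⟨A', U, c1', c2', fun _ => ⟨?_, hg', hdiff'.trans hdiff⟩⟩
      intro y hy
      obtain ⟨a, ha, hya⟩ := hball y hy
      have h1 : a ∈ Bl G 23 x := hA ha
      have h2 : y ∈ Bl G (23 + 3 * A.card) x := (hBALL V G).2.2.1 _ _ x a y h1 hya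
      have h3 : 96 = (23 + 3 * A.card) + (96 - (23 + 3 * A.card)) := by omega
      rw [h3]
      exact (hBALL V G).1 _ _ x h2
    · exact ⟨∅, ∅, fun _ => true, fun _ => true, fun h => absurd h hx⟩
  choose A U c1 c2 hgad using hgad
  refine ⟨D, X1, A, U, c1, c2, hGen, ⟨fun x hx => (hgad x hx).1, fun x hx y hy hxy =>
    hX0d x (mem_filter.1 hx).1 y (mem_filter.1 hy).1 hxy⟩, fun x hx => (hgad x hx).2.1,
    fun x hx => ?_, fun δ hδ => ?_⟩
  · rw [(hgad x hx).2.2]; exact hf1 x hx
  · have h1 : (X1.filter fun x => diff G (U x) (c1 x) (c2 x) = δ) = X1.filter fun x => f x = δ := by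
      apply filter_congr
      intro x hx
      rw [(hgad x hx).2.2]
    rw [h1]
    calc Fintype.card V ≤ d * K₃ * B * X1.card := hV
      _ ≤ d * K₃ * B * (2 * box.card * q) := Nat.mul_le_mul_left _ hq3
      _ ≤ d * K₃ * B * (2 * box.card * (X1.filter fun x => f x = δ).card) := by
          have h2 := hf2 δ hδ
          have h3 : q ≤ (X1.filter fun x => f x = δ).card := by convert h2
          exact Nat.mul_le_mul_left _ (Nat.mul_le_mul_left _ h3)
      _ = 2 * (d * K₃ * B * box.card) * (X1.filter fun x => f x = δ).card := by ring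

end Pool.Agent.Work.MP_1e13ac_Bis
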