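import Pool.Agent.Work.MP_1e13ac_Bis.RED

/-!
# MP_1e13ac_co, block RED2: every graph violating Q1 is a bounded one plus two copies of a graph
-/

set_option autoImplicit false

namespace Pool.Agent.Work.MP_1e13ac_Bis

open Classical Finset

namespace RED

open MAIN

/-- removal of two isomorphic components -/
lemma combine2 {V : Type} [Fintype V] (G : SimpleGraph V) (hG : Cub G) (hANY : Stmt_ANY)
    (v v' : V) (k : ℕ) (p p' : Fin k → V) (hvv : ¬ G.Reachable v v')
    (hp : Function.Injective p) (hp' : Function.Injective p')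
    (hr : ∀ y, G.Reachable v y ↔ ∃ i, p i = y) (hr' : ∀ y, G.Reachable v' y ↔ ∃ i, p' i = y)
    (hadj : ∀ i j, G.Adj (p i) (p j) ↔ G.Adj (p' i) (p' j))
    (hR : Good' (G.comap
      (Subtype.val : {y : V // ¬ G.Reachable v y ∧ ¬ G.Reachable v' y} → V))) : Good' G := by
  -- the rest
  let R : Type := {y : V // ¬ G.Reachable v y ∧ ¬ G.Reachable v' y}
  let ρ : R → V := Subtype.val
  let H : SimpleGraph (Fin k) := G.comap p
  let GR : SimpleGraph R := G.comap ρ
  have L1 : Loc H G p := by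
    refine ⟨hp, fun x y => Iff.rfl, fun x y hxy => ?_⟩
    exact (hr y).1 (((hr (p x)).2 ⟨x, rfl⟩).trans hxy.reachable)
  have L2 : Loc H G p' := by
    refine ⟨hp', fun x y => (hadj x y).symm, fun x y hxy => ?_⟩
    exact (hr' y).1 (((hr' (p' x)).2 ⟨x, rfl⟩).trans hxy.reachable)
  have L3 : Loc GR G ρ := by
    refine ⟨Subtype.val_injective, fun x y => Iff.rfl, fun x y hxy => ?_⟩
    refine ⟨⟨y, fun h => x.2.1 (h.trans hxy.symm.reachable),
      fun h => x.2.2 (h.trans hxy.symm.reachable)⟩, rfl⟩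
  obtain ⟨cR, hcR, hstR⟩ : Good' GR := hR
  obtain ⟨c0, hc0⟩ := hANY (Fin k) H (L1.cub hG)
  -- the bijection
  let F : (Fin k ⊕ Fin k) ⊕ R → V := Sum.elim (Sum.elim p p') ρ
  have hF : Function.Bijective F := by
    constructor
    · have hd : ∀ i j, p i ≠ p' j := by
        intro i j hij
        apply hvv
        have h1 := (hr (p i)).2 ⟨i, rfl⟩
        have h2 := (hr' (p' j)).2 ⟨j, rfl⟩
        rw [← hij] at h2
        exact h1.trans h2.symm
      have hd1 : ∀ i (r : R), p i ≠ ρ r := fun i r h =>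
        r.2.1 ((hr _).2 ⟨i, h⟩)
      have hd2 : ∀ i (r : R), p' i ≠ ρ r := fun i r h =>
        r.2.2 ((hr' _).2 ⟨i, h⟩)
      rintro ((i | i) | r) ((j | j) | s) h
      · exact congrArg _ (congrArg _ (hp h))
      · exact absurd h (hd i j)
      · exact absurd h (hd1 i s)
      · exact absurd h.symm (hd j i)
      · exact congrArg _ (congrArg _ (hp' h))
      · exact absurd h (hd2 i s)
      · exact absurd h.symm (hd1 j r)
      · exact absurd h.symm (hd2 j r)
      · exact congrArg _ (Subtype.ext h)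
    · intro y
      by_cases h1 : G.Reachable v y
      · obtain ⟨i, hi⟩ := (hr y).1 h1
        exact ⟨Sum.inl (Sum.inl i), hi⟩
      · by_cases h2 : G.Reachable v' y
        · obtain ⟨i, hi⟩ := (hr' y).1 h2
          exact ⟨Sum.inl (Sum.inr i), hi⟩
        · exact ⟨Sum.inr ⟨y, h1, h2⟩, rfl⟩
  let e := Equiv.ofBijective F hF
  let c : V → Bool := fun y => Sum.elim (Sum.elim c0 (fun x => !c0 x)) cR (e.symm y)
  have hce : ∀ z, c (F z) = Sum.elim (Sum.elim c0 (fun x => !c0 x)) cR z := by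
    intro z
    show Sum.elim (Sum.elim c0 (fun x => !c0 x)) cR (e.symm (e z)) = _
    rw [e.symm_apply_apply]
  have hc1 : ∀ x, c (p x) = xor false (c0 x) := fun x => by
    have := hce (Sum.inl (Sum.inl x))
    simpa [F] using this
  have hc2 : ∀ x, c (p' x) = xor true (c0 x) := fun x => by
    have := hce (Sum.inl (Sum.inr x))
    simpa [F] using this
  have hc3 : ∀ x, c (ρ x) = xor false (cR x) := fun x => by
    have := hce (Sum.inr x)
    simpa [F] using this
  refine ⟨c, ⟨?_, ?_⟩, ?_⟩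
  · intro y
    obtain ⟨z, rfl⟩ := hF.2 y
    rcases z with (x | x) | x
    · show md G c (p x) ≤ 2
      rw [L1.md hc1]; exact hc0.deg x
    · show md G c (p' x) ≤ 2
      rw [L2.md hc2]; exact hc0.deg x
    · show md G c (ρ x) ≤ 2
      rw [L3.md hc3]; exact hcR.deg x
  · intro y
    obtain ⟨z, rfl⟩ := hF.2 y
    rcases z with (x | x) | x
    · exact L1.nb4 hc1 hc0 x
    · exact L2.nb4 hc2 hc0 x
    · exact L3.nb4 hc3 hcR x
  · have hsum : ∀ f : V → ℤ, ∑ y, f y = ∑ x, f (p x) + ∑ x, f (p' x) + ∑ x, f (ρ x) := by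
      intro f
      rw [← Equiv.sum_comp e f, Fintype.sum_sum_type, Fintype.sum_sum_type]
      rfl
    have s1 := L1.stsum hc1
    have s2 := L2.stsum hc2
    have s3 := L3.stsum hc3
    rw [hstR] at s3
    simp only [Prod.mk.injEq, fl] at s1 s2 s3
    obtain ⟨a1, a2, a3⟩ := s1
    obtain ⟨b1, b2, b3⟩ := s2
    obtain ⟨d1, d2, d3⟩ := s3
    unfold st
    rw [hsum (fun y => sg (c y)), hsum (fun y => locP G c y), hsum (fun y => locQ G c y),
      a1, a2, a3, b1, b2, b3, d1, d2, d3]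
    simp


/-- the decomposition of `G` along two isomorphic components -/
lemma decomp {V : Type} [Fintype V] (G : SimpleGraph V)
    (v v' : V) (k : ℕ) (p p' : Fin k → V) (hvv : ¬ G.Reachable v v')
    (hp : Function.Injective p) (hp' : Function.Injective p')
    (hr : ∀ y, G.Reachable v y ↔ ∃ i, p i = y) (hr' : ∀ y, G.Reachable v' y ↔ ∃ i, p' i = y)
    (hadj : ∀ i j, G.Adj (p i) (p j) ↔ G.Adj (p' i) (p' j)) :
    Nonempty (G ≃g (G.comap (Subtype.val :
      {y : V // ¬ G.Reachable v y ∧ ¬ G.Reachable v' y} → V)) ⊕g (G.comap p ⊕g G.comap p)) := by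
  let R : Type := {y : V // ¬ G.Reachable v y ∧ ¬ G.Reachable v' y}
  let ρ : R → V := Subtype.val
  let F : R ⊕ (Fin k ⊕ Fin k) → V := Sum.elim ρ (Sum.elim p p')
  have hvr : ∀ i, G.Reachable v (p i) := fun i => (hr _).2 ⟨i, rfl⟩
  have hvr' : ∀ i, G.Reachable v' (p' i) := fun i => (hr' _).2 ⟨i, rfl⟩
  have hF : Function.Bijective F := by
    constructor
    · have hd : ∀ i j, p i ≠ p' j := by
        intro i j hij
        apply hvv
        have h2 := hvr' j
        rw [← hij] at h2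
        exact (hvr i).trans h2.symm
      have hd1 : ∀ i (r : R), p i ≠ ρ r := fun i r h => r.2.1 ((hr _).2 ⟨i, h⟩)
      have hd2 : ∀ i (r : R), p' i ≠ ρ r := fun i r h => r.2.2 ((hr' _).2 ⟨i, h⟩)
      rintro (r | (i | i)) (s | (j | j)) h
      · exact congrArg _ (Subtype.ext h)
      · exact absurd h.symm (hd1 j r)
      · exact absurd h.symm (hd2 j r)
      · exact absurd h (hd1 i s)
      · exact congrArg _ (congrArg _ (hp h))
      · exact absurd h (hd i j)
      · exact absurd h (hd2 i s)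
      · exact absurd h.symm (hd j i)
      · exact congrArg _ (congrArg _ (hp' h))
    · intro y
      by_cases h1 : G.Reachable v y
      · obtain ⟨i, hi⟩ := (hr y).1 h1
        exact ⟨Sum.inr (Sum.inl i), hi⟩
      · by_cases h2 : G.Reachable v' y
        · obtain ⟨i, hi⟩ := (hr' y).1 h2
          exact ⟨Sum.inr (Sum.inr i), hi⟩
        · exact ⟨Sum.inl ⟨y, h1, h2⟩, rfl⟩
  have n1 : ∀ i (r : R), ¬ G.Adj (p i) (ρ r) := fun i r h => r.2.1 ((hvr i).trans h.reachable)
  have n2 : ∀ i (r : R), ¬ G.Adj (p' i) (ρ r) := fun i r h => r.2.2 ((hvr' i).trans h.reachable)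
  have n3 : ∀ i j, ¬ G.Adj (p i) (p' j) := fun i j h =>
    hvv (((hvr i).trans h.reachable).trans (hvr' j).symm)
  refine ⟨(⟨Equiv.ofBijective F hF, ?_⟩ : _ ≃g G).symm⟩
  rintro (r | (i | i)) (s | (j | j))
  · exact Iff.rfl
  · exact ⟨fun h => absurd h.symm (n1 j r), fun h => absurd h (by simp)⟩
  · exact ⟨fun h => absurd h.symm (n2 j r), fun h => absurd h (by simp)⟩
  · exact ⟨fun h => absurd h (n1 i s), fun h => absurd h (by simp)⟩
  · exact Iff.rfl
  · exact ⟨fun h => absurd h (n3 i j), fun h => absurd h (by simp)⟩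
  · exact ⟨fun h => absurd h (n2 i s), fun h => absurd h (by simp)⟩
  · exact ⟨fun h => absurd h.symm (n3 j i), fun h => absurd h (by simp)⟩
  · exact (hadj i j).symm

/-- the part away from two components is cubic -/
lemma rest_cub {V : Type} [Fintype V] (G : SimpleGraph V) (hG : Cub G) (v v' : V) :
    Cub (G.comap (Subtype.val :
      {y : V // ¬ G.Reachable v y ∧ ¬ G.Reachable v' y} → V)) := by
  have L3 : Loc (G.comap (Subtype.val :
      {y : V // ¬ G.Reachable v y ∧ ¬ G.Reachable v' y} → V)) G Subtype.val := by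
    refine ⟨Subtype.val_injective, fun x y => Iff.rfl, fun x y hxy => ?_⟩
    refine ⟨⟨y, fun h => x.2.1 (h.trans hxy.symm.reachable),
      fun h => x.2.2 (h.trans hxy.symm.reachable)⟩, rfl⟩
  exact L3.cub hG

/-- rearrangement -/
lemma rearr {A B C D : Type} (G : SimpleGraph A) (H : SimpleGraph B) (K : SimpleGraph C)
    (L : SimpleGraph D) (R : Type) (GR : SimpleGraph R)
    (h1 : Nonempty (G ≃g GR ⊕g (L ⊕g L))) (h2 : Nonempty (GR ≃g H ⊕g (K ⊕g K))) :
    Nonempty (G ≃g H ⊕g ((K ⊕g L) ⊕g (K ⊕g L))) := by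
  obtain ⟨e1⟩ := h1
  obtain ⟨e2⟩ := h2
  let e3 : ((B ⊕ (C ⊕ C)) ⊕ (D ⊕ D)) ≃ (B ⊕ ((C ⊕ D) ⊕ (C ⊕ D))) :=
    (Equiv.sumAssoc B (C ⊕ C) (D ⊕ D)).trans
      (Equiv.sumCongr (Equiv.refl B) (Equiv.sumSumSumComm C C D D))
  have h3 : ∀ x y, (H ⊕g ((K ⊕g L) ⊕g (K ⊕g L))).Adj (e3 x) (e3 y) ↔
      ((H ⊕g (K ⊕g K)) ⊕g (L ⊕g L)).Adj x y := by
    rintro ((a | (a | a)) | (a | a)) ((b | (b | b)) | (b | b)) <;>
      simp [e3, Equiv.sumSumSumComm]
  let e4 : ((H ⊕g (K ⊕g K)) ⊕g (L ⊕g L)) ≃g (H ⊕g ((K ⊕g L) ⊕g (K ⊕g L))) :=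
    ⟨e3, fun {x y} => h3 x y⟩
  exact ⟨(e1.trans (SimpleGraph.Iso.sumCongr e2 (SimpleGraph.Iso.refl))).trans e4⟩

end RED

open RED in
/-- every cubic graph violating Q1 is a cubic graph with at most `N₁` vertices violating Q1 plus
two copies of some graph -/
theorem stmt_RED2 (hMAIN : Stmt_MAIN) (hANY : Stmt_ANY) : ∃ N₁ : ℕ,
    ∀ (V : Type) [Fintype V] (G : SimpleGraph V), Cub G → ¬ Good' G →
      ∃ (W : Type) (_ : Fintype W) (H : SimpleGraph W), Fintype.card W ≤ N₁ ∧ Cub H ∧ ¬ Good' H ∧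
        ∃ (U : Type) (K : SimpleGraph U), Nonempty (G ≃g H ⊕g (K ⊕g K)) := by
  obtain ⟨N, hN⟩ := hMAIN
  refine ⟨Fintype.card (Fin (max N 24) × (Fin (max N 24) → Fin (max N 24) → Bool)) *
    max N 24, ?_⟩
  have main : ∀ n : ℕ, ∀ (V : Type) [Fintype V] (G : SimpleGraph V), Fintype.card V = n →
      Cub G → ¬ Good' G →
      ∃ (W : Type) (_ : Fintype W) (H : SimpleGraph W), Fintype.card W ≤
        Fintype.card (Fin (max N 24) × (Fin (max N 24) → Fin (max N 24) → Bool)) * max N 24 ∧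
        Cub H ∧ ¬ Good' H ∧
        ∃ (U : Type) (K : SimpleGraph U), Nonempty (G ≃g H ⊕g (K ⊕g K)) := by
    intro n
    induction n using Nat.strong_induction_on with
    | _ n ih =>
    intro V _ G hn hG hbad
    by_cases hbig : N ≤ (univ.filter fun v => Big G v).card
    · exact absurd (hN V G hG hbig) hbad
    · push Not at hbig
      by_cases hcard : Fintype.card V ≤
          Fintype.card (Fin (max N 24) × (Fin (max N 24) → Fin (max N 24) → Bool)) * max N 24
      · refine ⟨V, inferInstance, G, hcard, hG, hbad, Empty, ⊥, ?_⟩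
        let e : V ≃ V ⊕ (Empty ⊕ Empty) := (Equiv.sumEmpty V (Empty ⊕ Empty)).symm
        refine ⟨⟨e, ?_⟩⟩
        intro x y
        exact Iff.rfl
      · push Not at hcard
        obtain ⟨v, v', k, p, p', h1, h2, h3, h4, h5, h6⟩ := two_iso G (max N 24)
          (small G N hbig) hcard
        have hR : ¬ Good' (G.comap (Subtype.val :
            {y : V // ¬ G.Reachable v y ∧ ¬ G.Reachable v' y} → V)) := fun h =>
          hbad (combine2 G hG hANY v v' k p p' h1 h2 h3 h4 h5 h6 h)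
        have hlt : Fintype.card {y : V // ¬ G.Reachable v y ∧ ¬ G.Reachable v' y} < n := by
          rw [← hn]
          apply Fintype.card_subtype_lt (x := v)
          intro h
          exact h.1 (SimpleGraph.Reachable.refl _)
        obtain ⟨W, iW, H, hW, hH, hHb, U, K, hK⟩ := ih _ hlt _ (G.comap (Subtype.val :
            {y : V // ¬ G.Reachable v y ∧ ¬ G.Reachable v' y} → V)) rfl (rest_cub G hG v v') hR
        exact ⟨W, iW, H, hW, hH, hHb, _, _,
          rearr G H K (G.comap p) _ _ (decomp G v v' k p p' h1 h2 h3 h4 h5 h6) hK⟩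
  intro V _ G hG hbad
  exact main _ V G rfl hG hbad

end Pool.Agent.Work.MP_1e13ac_Bis
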