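import Pool.Agent.Work.MP_1e13ac_Bis.Interface

/-! Block SIGN: second moment over the signs. -/

set_option autoImplicit false

namespace Pool.Agent.Work.MP_1e13ac_Bis

open Classical Finset

namespace SignBlock

section

variable {V : Type} [Fintype V]

lemma sg_neg (b : Bool) : sg (!b) = -sg b := by cases b <;> simp [sg]

lemma mino_neg (G : SimpleGraph V) (hG : Cub G) (c : V → Bool) (z : V) :
    mino G (fun y => !c y) z = !mino G c z := by
  have h1 := Finset.card_filter_add_card_filter_not (s := nbs G z) (fun y => c y = true)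
  rw [hG z] at h1
  have h2 : ((nbs G z).filter fun y => (!c y) = true) =
      (nbs G z).filter fun y => ¬ c y = true := by
    refine filter_congr fun y _ => ?_
    cases c y <;> simp
  unfold mino
  rw [h2]
  split_ifs with h3 h4 h4
  · exfalso; omega
  · rfl
  · rfl
  · exfalso; omega

lemma col_neg (G : SimpleGraph V) (hG : Cub G) (Z : Finset V) (j : V → Bool × V)
    (ε : V → Bool) (σ : Bool × V → Bool) (v : V) :
    col G Z j ε (fun i => !σ i) v = !col G Z j ε σ v := by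
  unfold col
  split_ifs with h
  · have h1 : (fun y => xor (!σ (j y)) (ε y)) = fun y => !(xor (σ (j y)) (ε y)) := by
      funext y; cases σ (j y) <;> cases ε y <;> rfl
    rw [h1]
    exact mino_neg G hG _ v
  · change xor (!σ (j v)) (ε v) = !(xor (σ (j v)) (ε v))
    cases σ (j v) <;> cases ε v <;> rfl

lemma md_neg (G : SimpleGraph V) (c : V → Bool) (x : V) : md G (fun v => !c v) x = md G c x := by
  unfold md MA
  congr 1
  ext y
  simp

lemma locP_neg (G : SimpleGraph V) (c : V → Bool) (x : V) :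
    locP G (fun v => !c v) x = -locP G c x := by
  unfold locP
  rw [md_neg]
  split_ifs
  · exact sg_neg _
  · simp

lemma locQ_neg (G : SimpleGraph V) (c : V → Bool) (x : V) :
    locQ G (fun v => !c v) x = -locQ G c x := by
  have h : (md G (fun v => !c v) x = 2 ∧ ∃ y, MA G (fun v => !c v) x y ∧
      md G (fun v => !c v) y = 2) ↔ (md G c x = 2 ∧ ∃ y, MA G c x y ∧ md G c y = 2) := by
    simp only [md_neg]
    unfold MA
    simp
  unfold locQ
  by_cases h1 : md G c x = 2 ∧ ∃ y, MA G c x y ∧ md G c y = 2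
  · rw [if_pos h1, if_pos (h.2 h1)]
    exact sg_neg _
  · rw [if_neg h1, if_neg (fun h2 => h1 (h.1 h2))]
    simp

lemma st_neg (G : SimpleGraph V) (c : V → Bool) (S : Finset V) :
    st G (fun v => !c v) S = -st G c S := by
  unfold st
  have h1 : ∑ x ∈ S, sg (!c x) = -∑ x ∈ S, sg (c x) := by
    rw [← Finset.sum_neg_distrib]; exact Finset.sum_congr rfl fun x _ => sg_neg _
  have h2 : ∑ x ∈ S, locP G (fun v => !c v) x = -∑ x ∈ S, locP G c x := by
    rw [← Finset.sum_neg_distrib]; exact Finset.sum_congr rfl fun x _ => locP_neg _ _ _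
  have h3 : ∑ x ∈ S, locQ G (fun v => !c v) x = -∑ x ∈ S, locQ G c x := by
    rw [← Finset.sum_neg_distrib]; exact Finset.sum_congr rfl fun x _ => locQ_neg _ _ _
  rw [h1, h2, h3]
  rfl

end

/-- Second moment of an odd function with bounded influences. -/
lemma moment (hES : Stmt_ES) {I : Type} [Fintype I] (f : (I → Bool) → ℤ)
    (hodd : ∀ σ : I → Bool, f (fun i => !σ i) = -f σ) (a : I → ℝ)
    (ha : ∀ (σ : I → Bool) (i : I),
      |((f σ - f (Function.update σ i (!σ i)) : ℤ) : ℝ)| ≤ a i) :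
    4 * ∑ σ, (f σ : ℝ) ^ 2 ≤ Fintype.card (I → Bool) * ∑ i, a i ^ 2 := by
  have hinv : Function.Involutive (fun (σ : I → Bool) => fun i => !σ i) := by
    intro σ; funext i; simp
  have h0 : ∑ σ, (f σ : ℝ) = 0 := by
    have h1 : ∑ σ : I → Bool, (f (fun i => !σ i) : ℝ) = ∑ σ, (f σ : ℝ) :=
      Equiv.sum_comp (Function.Involutive.toPerm _ hinv) (fun σ => (f σ : ℝ))
    have h2 : ∑ σ : I → Bool, (f (fun i => !σ i) : ℝ) = -∑ σ, (f σ : ℝ) := by
      rw [← Finset.sum_neg_distrib]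
      refine Finset.sum_congr rfl fun σ _ => ?_
      rw [hodd]; push_cast; ring
    linarith
  refine (hES I (fun σ => (f σ : ℝ)) h0).trans ?_
  rw [Finset.mul_sum]
  refine Finset.sum_le_sum fun i _ => ?_
  calc ∑ σ : I → Bool, ((f σ : ℝ) - (f (Function.update σ i (!σ i)) : ℝ)) ^ 2
      ≤ ∑ _σ : I → Bool, a i ^ 2 := by
        refine Finset.sum_le_sum fun σ _ => ?_
        have h1 := ha σ i
        push_cast at h1
        rw [← sq_abs]
        exact pow_le_pow_left₀ (abs_nonneg _) h1 2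
    _ = Fintype.card (I → Bool) * a i ^ 2 := by
        rw [Finset.sum_const, nsmul_eq_mul, Finset.card_univ]

/-- The linear statistics. -/
lemma moment_lin (hES : Stmt_ES) {I : Type} [Fintype I] (Y : Finset I) :
    ∑ σ : I → Bool, ((∑ i ∈ Y, sg (σ i) : ℤ) : ℝ) ^ 2 ≤
      Fintype.card (I → Bool) * Y.card := by
  have h := moment hES (fun σ : I → Bool => ∑ i ∈ Y, sg (σ i))
    (fun σ => by
      rw [← Finset.sum_neg_distrib]; exact Finset.sum_congr rfl fun x _ => sg_neg _)
    (fun i => if i ∈ Y then 2 else 0)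
    (fun σ i => by
      by_cases hi : i ∈ Y
      · rw [if_pos hi, ← Finset.sum_sub_distrib]
        rw [Finset.sum_eq_single_of_mem i hi (fun k _ hk => by
          rw [Function.update_of_ne hk, sub_self])]
        rw [Function.update_self]
        cases σ i <;> norm_num [sg]
      · rw [if_neg hi]
        have h1 : ∑ k ∈ Y, sg (σ k) - ∑ k ∈ Y, sg (Function.update σ i (!σ i) k) = 0 := by
          rw [sub_eq_zero]
          refine Finset.sum_congr rfl fun k hk => ?_
          have hki : k ≠ i := fun h => hi (by rw [← h]; exact hk)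
          rw [Function.update_of_ne hki]
        rw [h1]; simp)
  have h2 : ∑ i : I, (if i ∈ Y then (2 : ℝ) else 0) ^ 2 = 4 * Y.card := by
    have h3 : ∀ i : I, (if i ∈ Y then (2 : ℝ) else 0) ^ 2 = if i ∈ Y then 4 else 0 := by
      intro i; split_ifs <;> norm_num
    rw [Finset.sum_congr rfl fun i _ => h3 i, ← Finset.sum_filter, Finset.sum_const, nsmul_eq_mul,
      Finset.filter_mem_eq_inter, Finset.univ_inter]
    ring
  rw [h2] at h
  linarith

/-- Choice of the signs. -/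
lemma choice (hES : Stmt_ES) {I : Type} [Fintype I] (f : Fin 3 → (I → Bool) → ℤ) (m : I → ℕ)
    (n s r t : ℕ) (Y : Fin r → Finset I) (hI : Fintype.card I ≤ 2 * n) (hs : 1 ≤ s)
    (hm : ∀ i, m i ≤ s) (hmsum : ∑ i, m i = n)
    (hodd : ∀ k σ, f k (fun i => !σ i) = -f k σ)
    (hinf : ∀ k (σ : I → Bool) (i : I),
      |f k σ - f k (Function.update σ i (!σ i))| ≤ 80 * (m i : ℤ))
    (ht : 4800 * (r + 1) * s * n ≤ t ^ 2) :
    ∃ σ : I → Bool, (∀ k, |f k σ| ≤ t) ∧ ∀ k, |∑ i ∈ Y k, sg (σ i)| ≤ t := by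
  obtain ⟨M, hM⟩ : ∃ M : ℝ, M = ((Fintype.card (I → Bool) : ℕ) : ℝ) := ⟨_, rfl⟩
  have hM0 : 0 < M := by
    rw [hM]; exact_mod_cast (Fintype.card_pos : 0 < Fintype.card (I → Bool))
  have hmsq : ∑ i, (80 * (m i : ℝ)) ^ 2 ≤ 6400 * ((s : ℝ) * n) := by
    calc ∑ i, (80 * (m i : ℝ)) ^ 2 ≤ ∑ i, 6400 * ((s : ℝ) * (m i : ℝ)) := by
          refine Finset.sum_le_sum fun i _ => ?_
          have h1 : (m i : ℝ) ≤ s := by exact_mod_cast hm i
          have h2 : (0 : ℝ) ≤ m i := Nat.cast_nonneg _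
          nlinarith
      _ = 6400 * ((s : ℝ) * n) := by
          rw [← Finset.mul_sum, ← Finset.mul_sum, ← hmsum]
          push_cast; ring
  have k1 : ∀ k, ∑ σ : I → Bool, (f k σ : ℝ) ^ 2 ≤ M * (1600 * ((s : ℝ) * n)) := by
    intro k
    have h := moment hES (f k) (hodd k) (fun i => 80 * (m i : ℝ)) (fun σ i => by
      have h1 := hinf k σ i
      rw [← Int.cast_abs]
      exact_mod_cast h1)
    rw [← hM] at h
    have h3 := mul_le_mul_of_nonneg_left hmsq hM0.le
    linarith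
  have k4 : ∀ k, ∑ σ : I → Bool, ((∑ i ∈ Y k, sg (σ i) : ℤ) : ℝ) ^ 2 ≤ M * (2 * n) := by
    intro k
    refine (moment_lin hES (Y k)).trans ?_
    rw [← hM]
    refine mul_le_mul_of_nonneg_left ?_ hM0.le
    have h1 : (Y k).card ≤ 2 * n := (Finset.card_le_univ _).trans hI
    exact_mod_cast h1
  have havg : ∑ σ : I → Bool, (∑ k, (f k σ : ℝ) ^ 2 +
      ∑ k, ((∑ i ∈ Y k, sg (σ i) : ℤ) : ℝ) ^ 2) ≤ ∑ _σ : I → Bool, (t : ℝ) ^ 2 := by
    have c1 : ∑ σ : I → Bool, ∑ k, (f k σ : ℝ) ^ 2 = ∑ k, ∑ σ : I → Bool, (f k σ : ℝ) ^ 2 :=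
      Finset.sum_comm
    have c2 : ∑ σ : I → Bool, ∑ k, ((∑ i ∈ Y k, sg (σ i) : ℤ) : ℝ) ^ 2 =
      ∑ k, ∑ σ : I → Bool, ((∑ i ∈ Y k, sg (σ i) : ℤ) : ℝ) ^ 2 := Finset.sum_comm
    rw [Finset.sum_add_distrib, c1, c2, Finset.sum_const, nsmul_eq_mul, Finset.card_univ, ← hM]
    have h4 : ∑ k, ∑ σ : I → Bool, (f k σ : ℝ) ^ 2 ≤ 3 * (M * (1600 * ((s : ℝ) * n))) := by
      calc _ ≤ ∑ _k : Fin 3, M * (1600 * ((s : ℝ) * n)) := Finset.sum_le_sum fun k _ => k1 k
        _ = 3 * (M * (1600 * ((s : ℝ) * n))) := by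
          rw [Finset.sum_const, nsmul_eq_mul, Finset.card_univ, Fintype.card_fin]
          norm_num
    have h5 : ∑ k, ∑ σ : I → Bool, ((∑ i ∈ Y k, sg (σ i) : ℤ) : ℝ) ^ 2 ≤
        r * (M * (2 * n)) := by
      calc _ ≤ ∑ _k : Fin r, M * (2 * (n : ℝ)) := Finset.sum_le_sum fun k _ => k4 k
        _ = r * (M * (2 * n)) := by
          rw [Finset.sum_const, nsmul_eq_mul, Finset.card_univ, Fintype.card_fin]
    have h6 : (4800 * (r + 1) * s * n : ℝ) ≤ (t : ℝ) ^ 2 := by exact_mod_cast ht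
    have h7 := mul_le_mul_of_nonneg_left h6 hM0.le
    have h8 : (1 : ℝ) ≤ s := by exact_mod_cast hs
    have h9 : (0 : ℝ) ≤ n := Nat.cast_nonneg _
    have h10 : (0 : ℝ) ≤ r := Nat.cast_nonneg _
    have h12 : (n : ℝ) ≤ s * n := by nlinarith
    have h13 : 0 ≤ (r : ℝ) * M := by positivity
    have h14 := mul_le_mul_of_nonneg_left h12 h13
    have h15 : 0 ≤ (r : ℝ) * M * (s * n) := by positivity
    refine le_trans (add_le_add h4 h5) (le_trans ?_ h7)
    have e1 : M * (4800 * ((r : ℝ) + 1) * s * n) =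
      3 * (M * (1600 * ((s : ℝ) * n))) + 4800 * ((r : ℝ) * M * (s * n)) := by ring
    rw [e1]
    have e2 : (r : ℝ) * (M * (2 * n)) = 2 * ((r : ℝ) * M * n) := by ring
    rw [e2]
    linarith
  obtain ⟨σ, _, hσ⟩ := Finset.exists_le_of_sum_le (Finset.univ_nonempty) havg
  have hsum0 : 0 ≤ ∑ k, ((∑ i ∈ Y k, sg (σ i) : ℤ) : ℝ) ^ 2 :=
    Finset.sum_nonneg fun k _ => sq_nonneg _
  have hsum1 : 0 ≤ ∑ k, (f k σ : ℝ) ^ 2 := Finset.sum_nonneg fun k _ => sq_nonneg _
  have hone : ∀ z : ℤ, (z : ℝ) ^ 2 ≤ (t : ℝ) ^ 2 → |z| ≤ t := by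
    intro z hz
    have h1 := abs_le_of_sq_le_sq hz (Nat.cast_nonneg t)
    rw [← Int.cast_abs] at h1
    exact_mod_cast h1
  refine ⟨σ, fun k => hone _ ?_, fun k => hone _ ?_⟩
  · have h1 := Finset.single_le_sum (f := fun k => (f k σ : ℝ) ^ 2)
      (fun k _ => sq_nonneg _) (mem_univ k)
    linarith
  · have h1 := Finset.single_le_sum (f := fun k => ((∑ i ∈ Y k, sg (σ i) : ℤ) : ℝ) ^ 2)
      (fun k _ => sq_nonneg _) (mem_univ k)
    linarith

end SignBlock

open SignBlock

theorem stmt_SIGN (hES : Stmt_ES) (hINF : Stmt_INF) : Stmt_SIGN := by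
  refine ⟨4800, ?_⟩
  intro V _ G hG Z j ε s r t Y hs hm ht
  have hmsum : ∑ i, (univ.filter fun v => j v = i).card = Fintype.card V := by
    rw [← Finset.card_univ, Finset.card_eq_sum_card_fiberwise (f := j) (t := univ)
      (fun _ _ => by simp)]
  have hstneg : ∀ σ : Bool × V → Bool, st G (col G Z j ε (fun i => !σ i)) univ =
      -st G (col G Z j ε σ) univ := by
    intro σ
    rw [← st_neg]
    congr 1
    funext v
    exact col_neg G hG Z j ε σ v
  obtain ⟨σ, h1, h2⟩ := choice hES (I := Bool × V)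
    (fun k σ => if k = 0 then (st G (col G Z j ε σ) univ).1 else
      if k = 1 then (st G (col G Z j ε σ) univ).2.1 else (st G (col G Z j ε σ) univ).2.2)
    (fun i => (univ.filter fun v => j v = i).card) (Fintype.card V) s r t Y
    (by rw [Fintype.card_prod, Fintype.card_bool]) hs hm hmsum
    (fun k σ => by
      simp only [hstneg]
      split_ifs <;> rfl)
    (fun k σ i => by
      have h := hINF V G hG Z j ε σ i
      have e : ∀ i1 i2 : DecidableEq (Bool × V),
          @Function.update (Bool × V) (fun _ => Bool) i1 σ i (!σ i) =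
            @Function.update (Bool × V) (fun _ => Bool) i2 σ i (!σ i) := by
        intro i1 i2
        rw [Subsingleton.elim i1 i2]
      rw [e _ (fun a b => Classical.propDecidable (a = b))] at h
      have h3 := h.1
      have h4 := h.2.1
      have h5 := h.2.2
      split_ifs
      · exact h3
      · exact h4
      · exact h5) ht
  refine ⟨σ, ?_, ?_, ?_, h2⟩
  · have := h1 0
    simpa using this
  · have := h1 1
    simpa using this
  · have := h1 2
    simpa using this

end Pool.Agent.Work.MP_1e13ac_Bis
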