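import Pool.Agent.Work.MP_1e13ac_Bis.Interface

/-! MP_1e13ac_co, block SWITCH (helper60): effect of recolouring a set all of whose boundary
edges stay bichromatic. -/

set_option autoImplicit false

namespace Pool.Agent.Work.MP_1e13ac_Bis

open Classical Finset

namespace SwitchB

variable {V : Type} [Fintype V] {G : SimpleGraph V} {U : Finset V} {c c' : V → Bool}

lemma ma_iff (h1 : ∀ x, x ∉ U → c x = c' x)
    (h2 : ∀ u ∈ U, ∀ w, w ∉ U → G.Adj u w → c u ≠ c w ∧ c' u ≠ c' w) {x : V} (hx : x ∉ U)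
    (y : V) : MA G c x y ↔ MA G c' x y := by
  unfold MA
  by_cases hy : y ∈ U
  · constructor
    · rintro ⟨ha, hc⟩
      exact absurd hc.symm (h2 y hy x hx ha.symm).1
    · rintro ⟨ha, hc⟩
      exact absurd hc.symm (h2 y hy x hx ha.symm).2
  · rw [h1 x hx, h1 y hy]

lemma ma_notMem (h2 : ∀ u ∈ U, ∀ w, w ∉ U → G.Adj u w → c u ≠ c w ∧ c' u ≠ c' w) {x y : V}
    (hx : x ∉ U) (h : MA G c x y) : y ∉ U :=
  fun hy => (h2 y hy x hx h.1.symm).1 h.2.symm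

lemma md_eq (h1 : ∀ x, x ∉ U → c x = c' x)
    (h2 : ∀ u ∈ U, ∀ w, w ∉ U → G.Adj u w → c u ≠ c w ∧ c' u ≠ c' w) {x : V} (hx : x ∉ U) :
    md G c x = md G c' x := by
  unfold md
  congr 1
  exact filter_congr fun y _ => ma_iff h1 h2 hx y

lemma locP_eq (h1 : ∀ x, x ∉ U → c x = c' x)
    (h2 : ∀ u ∈ U, ∀ w, w ∉ U → G.Adj u w → c u ≠ c w ∧ c' u ≠ c' w) {x : V} (hx : x ∉ U) :
    locP G c x = locP G c' x := by
  unfold locP
  rw [md_eq h1 h2 hx, h1 x hx]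

lemma locQ_eq (h1 : ∀ x, x ∉ U → c x = c' x)
    (h2 : ∀ u ∈ U, ∀ w, w ∉ U → G.Adj u w → c u ≠ c w ∧ c' u ≠ c' w) {x : V} (hx : x ∉ U) :
    locQ G c x = locQ G c' x := by
  have h3 : (∃ y, MA G c x y ∧ md G c y = 2) ↔ ∃ y, MA G c' x y ∧ md G c' y = 2 := by
    constructor
    · rintro ⟨y, hy, h⟩
      exact ⟨y, (ma_iff h1 h2 hx y).1 hy, by rw [← md_eq h1 h2 (ma_notMem h2 hx hy)]; exact h⟩
    · rintro ⟨y, hy, h⟩
      have hy' := (ma_iff h1 h2 hx y).2 hy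
      exact ⟨y, hy', by rw [md_eq h1 h2 (ma_notMem h2 hx hy')]; exact h⟩
  unfold locQ
  rw [md_eq h1 h2 hx, h1 x hx]
  simp only [h3]

lemma sum_diff (f f' : V → ℤ) (h : ∀ x, x ∉ U → f x = f' x) :
    ∑ x, f' x - ∑ x, f x = ∑ x ∈ U, f' x - ∑ x ∈ U, f x := by
  rw [← sum_sub_distrib, ← sum_sub_distrib]
  symm
  refine sum_subset (subset_univ _) fun x _ hx => ?_
  rw [h x hx, sub_self]

end SwitchB

open SwitchB in
/-- **SWITCH** -/
theorem stmt_SWITCH : Stmt_SWITCH := by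
  intro V _ G U c c' h1 h2
  unfold st
  refine Prod.ext ?_ (Prod.ext ?_ ?_)
  · exact sum_diff (fun x => sg (c x)) (fun x => sg (c' x)) fun x hx => by rw [h1 x hx]
  · exact sum_diff (fun x => locP G c x) (fun x => locP G c' x) fun x hx => locP_eq h1 h2 hx
  · exact sum_diff (fun x => locQ G c x) (fun x => locQ G c' x) fun x hx => locQ_eq h1 h2 hx

end Pool.Agent.Work.MP_1e13ac_Bis
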