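import Pool.Agent.Work.MP_1e13ac_Bis.Interface
import Pool.Agent.Work.MP_1e13ac_Bis.BALL

/-! MP_1e13ac_co, block UNION (helper60): places far apart. -/

set_option autoImplicit false
set_option linter.unusedSectionVars false

namespace Pool.Agent.Work.MP_1e13ac_Bis

open Classical Finset

namespace UnionB

variable {V : Type} [Fintype V] {G : SimpleGraph V} {X : Finset V} {A : V → Finset V}

/-- vertices of two places with a common vertex in their closed neighbourhoods -/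
lemma eq_of_common (hS : Sep G X A) {x y : V} (hx : x ∈ X) (hy : y ∈ X) {a a' w : V}
    (ha : a ∈ A x) (ha' : a' ∈ A y) (h1 : w = a ∨ G.Adj a w) (h2 : w = a' ∨ G.Adj a' w) :
    x = y := by
  by_contra hne
  have h3 : w ∈ Bl G 97 x := BallB.mem_succ.2 ⟨a, hS.ball x hx ha, h1⟩
  have h4 : w ∈ Bl G 97 y := BallB.mem_succ.2 ⟨a', hS.ball y hy ha', h2⟩
  exact disjoint_left.1 (hS.disj x hx y hy hne) (BallB.mono 97 3 x h3) (BallB.mono 97 3 y h4)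

lemma adj_mem (hS : Sep G X A) {x : V} (hx : x ∈ X) {a a' : V} (ha : a ∈ A x)
    (ha' : a' ∈ AU X A) (h : G.Adj a a') : a' ∈ A x := by
  obtain ⟨y, hy, h1⟩ := mem_biUnion.1 ha'
  rwa [eq_of_common hS hx hy ha h1 (Or.inr h) (Or.inl rfl)]

lemma common_mem (hS : Sep G X A) {x : V} (hx : x ∈ X) {a a' w : V} (ha : a ∈ A x)
    (ha' : a' ∈ AU X A) (h : G.Adj a w) (h' : G.Adj a' w) : a' ∈ A x := by
  obtain ⟨y, hy, h1⟩ := mem_biUnion.1 ha'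
  rwa [eq_of_common hS hx hy ha h1 (Or.inr h) (Or.inr h')]

lemma ma_iff {B : Finset V} {τ : Bool} {c c' : V → Bool} (h : ∀ v ∈ B, c v = xor τ (c' v))
    {a a' : V} (ha : a ∈ B) (ha' : a' ∈ B) : MA G c a a' ↔ MA G c' a a' := by
  unfold MA
  rw [h a ha, h a' ha']
  cases τ <;> cases c' a <;> cases c' a' <;> simp

end UnionB

open UnionB in
/-- **UNION** -/
theorem stmt_UNION : Stmt_UNION := by
  intro V _ G X A hS c hc
  have hout : ∀ {x w : V}, x ∈ X → w ∉ AU X A → w ∉ A x :=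
    fun {x w} hx hw h => hw (mem_biUnion.2 ⟨x, hx, h⟩)
  have hin : ∀ {x w : V}, x ∈ X → w ∈ A x → w ∈ AU X A :=
    fun {x w} hx h => mem_biUnion.2 ⟨x, hx, h⟩
  refine ⟨?_, ?_, ?_, ?_, ?_, ?_, ?_⟩
  · -- opp
    intro a ha
    obtain ⟨x, hx, hax⟩ := mem_biUnion.1 ha
    obtain ⟨τ, c', hC, hcc⟩ := hc x hx
    obtain ⟨a', ha', hadj, hne⟩ := hC.opp a hax
    refine ⟨a', hin hx ha', hadj, ?_⟩
    rw [hcc a hax, hcc a' ha']
    intro h
    apply hne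
    cases τ <;> simpa using h
  · -- nb4
    intro a₁ h1 a₂ h2 a₃ h3 a₄ h4 a₅ h5 m12 m23 m34 m45
    obtain ⟨x, hx, h1x⟩ := mem_biUnion.1 h1
    obtain ⟨τ, c', hC, hcc⟩ := hc x hx
    have h2x := adj_mem hS hx h1x h2 m12.1
    have h3x := adj_mem hS hx h2x h3 m23.1
    have h4x := adj_mem hS hx h3x h4 m34.1
    have h5x := adj_mem hS hx h4x h5 m45.1
    exact hC.nb4 a₁ h1x a₂ h2x a₃ h3x a₄ h4x a₅ h5x ((ma_iff hcc h1x h2x).1 m12)
      ((ma_iff hcc h2x h3x).1 m23) ((ma_iff hcc h3x h4x).1 m34) ((ma_iff hcc h4x h5x).1 m45)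
  · -- k2
    intro a₁ h1 a₂ h2 m12 w₁ hw1 w₂ hw2 e1 e2
    obtain ⟨x, hx, h1x⟩ := mem_biUnion.1 h1
    obtain ⟨τ, c', hC, hcc⟩ := hc x hx
    have h2x := adj_mem hS hx h1x h2 m12.1
    obtain ⟨a', ha', hne, hadj⟩ := hC.k2 a₁ h1x a₂ h2x ((ma_iff hcc h1x h2x).1 m12) w₁
      (hout hx hw1) w₂ (hout hx hw2) e1 e2
    exact ⟨a', hin hx ha', hne, hadj⟩
  · -- k3
    intro a₁ h1 a₂ h2 a₃ h3 m12 m23 n13 w hw e
    obtain ⟨x, hx, h1x⟩ := mem_biUnion.1 h1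
    obtain ⟨τ, c', hC, hcc⟩ := hc x hx
    have h2x := adj_mem hS hx h1x h2 m12.1
    have h3x := adj_mem hS hx h2x h3 m23.1
    obtain ⟨a', ha', hne, hadj⟩ := hC.k3 a₁ h1x a₂ h2x a₃ h3x ((ma_iff hcc h1x h2x).1 m12)
      ((ma_iff hcc h2x h3x).1 m23) n13 w (hout hx hw) e
    exact ⟨a', hin hx ha', hne, hadj⟩
  · -- k3'
    intro a₁ h1 a₂ h2 a₃ h3 m12 m23 n13 w₁ hw1 w₃ hw3 e1 e3
    obtain ⟨x, hx, h1x⟩ := mem_biUnion.1 h1
    obtain ⟨τ, c', hC, hcc⟩ := hc x hx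
    have h2x := adj_mem hS hx h1x h2 m12.1
    have h3x := adj_mem hS hx h2x h3 m23.1
    exact hC.k3' a₁ h1x a₂ h2x a₃ h3x ((ma_iff hcc h1x h2x).1 m12)
      ((ma_iff hcc h2x h3x).1 m23) n13 w₁ (hout hx hw1) w₃ (hout hx hw3) e1 e3
  · -- k4
    intro a₁ h1 a₂ h2 a₃ h3 a₄ h4 m12 m23 m34 n13 n24 w hw e
    obtain ⟨x, hx, h1x⟩ := mem_biUnion.1 h1
    obtain ⟨τ, c', hC, hcc⟩ := hc x hx
    have h2x := adj_mem hS hx h1x h2 m12.1
    have h3x := adj_mem hS hx h2x h3 m23.1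
    have h4x := adj_mem hS hx h3x h4 m34.1
    exact hC.k4 a₁ h1x a₂ h2x a₃ h3x a₄ h4x ((ma_iff hcc h1x h2x).1 m12)
      ((ma_iff hcc h2x h3x).1 m23) ((ma_iff hcc h3x h4x).1 m34) n13 n24 w (hout hx hw) e
  · -- cl
    intro w hw a ha a' ha' hne e e'
    obtain ⟨x, hx, hax⟩ := mem_biUnion.1 ha
    obtain ⟨τ, c', hC, hcc⟩ := hc x hx
    have hax' := common_mem hS hx hax ha' e e'
    have h1 := hC.cl w (hout hx hw) a hax a' hax' hne e e'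
    rw [hcc a hax, hcc a' hax']
    intro h
    apply h1
    cases τ <;> simpa using h

end Pool.Agent.Work.MP_1e13ac_Bis
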