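import Pool.Agent.Work.MP_1e13ac_Bis.PAT
import Pool.Agent.Work.MP_1e13ac_Bis.ANY
import Pool.Agent.Work.MP_1e13ac_Bis.ASM
import Pool.Agent.Work.MP_1e13ac_Bis.ASSIGN
import Pool.Agent.Work.MP_1e13ac_Bis.BALL
import Pool.Agent.Work.MP_1e13ac_Bis.CLOSE
import Pool.Agent.Work.MP_1e13ac_Bis.CUT
import Pool.Agent.Work.MP_1e13ac_Bis.DENSE
import Pool.Agent.Work.MP_1e13ac_Bis.ES
import Pool.Agent.Work.MP_1e13ac_Bis.EVEN
import Pool.Agent.Work.MP_1e13ac_Bis.FRAME
import Pool.Agent.Work.MP_1e13ac_Bis.INF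
import Pool.Agent.Work.MP_1e13ac_Bis.ISO
import Pool.Agent.Work.MP_1e13ac_Bis.LATT
import Pool.Agent.Work.MP_1e13ac_Bis.MAIN
import Pool.Agent.Work.MP_1e13ac_Bis.PATHREP
import Pool.Agent.Work.MP_1e13ac_Bis.PF
import Pool.Agent.Work.MP_1e13ac_Bis.PLACES
import Pool.Agent.Work.MP_1e13ac_Bis.SIGN
import Pool.Agent.Work.MP_1e13ac_Bis.SWITCH
import Pool.Agent.Work.MP_1e13ac_Bis.UNION
import Pool.Agent.Work.MP_1e13ac_Bis.VALID
import Pool.Agent.Work.MP_1e13ac_Bis.REV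
import Pool.Agent.Work.MP_1e13ac_Bis.RED2

/-! Final assembly of MP_1e13ac_Bis. -/

set_option autoImplicit false

namespace Pool.Agent.Work.MP_1e13ac_Bis

open Classical Finset

theorem all_PF : Stmt_PF := stmt_PF stmt_PATHREP

theorem all_ASM : Stmt_ASM :=
  stmt_ASM stmt_LATT stmt_EVEN stmt_SWITCH stmt_UNION stmt_VALID stmt_FRAME all_PF
    (stmt_CUT stmt_BALL stmt_PATHREP) (stmt_ASSIGN stmt_BALL stmt_PATHREP)
    (stmt_SIGN stmt_ES stmt_INF)

theorem all_PLACES : Stmt_PLACES := stmt_PLACES stmt_PAT stmt_CLOSE stmt_MANY stmt_BALL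

theorem all_DENSE : Stmt_DENSE := stmt_DENSE all_PLACES all_ASM

theorem all_ANY : Stmt_ANY := stmt_ANY all_PF stmt_FRAME stmt_VALID

theorem all_MAIN : Stmt_MAIN := stmt_MAIN all_DENSE all_ANY

theorem cub_of_regular {V : Type} [Fintype V] [DecidableEq V] (G : SimpleGraph V)
    [DecidableRel G.Adj] (h : G.IsRegularOfDegree 3) : Cub G := by
  intro x
  have h1 := h x
  rw [← SimpleGraph.card_neighborFinset_eq_degree] at h1
  rw [← h1]
  congr 1
  ext y
  simp [nbs]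

theorem big_iff {V : Type} [Fintype V] (G : SimpleGraph V) (v : V) :
    Big G v ↔ 24 ≤ (G.connectedComponentMk v).supp.ncard := by
  have h : (G.connectedComponentMk v).supp = ↑(univ.filter fun x => G.Reachable v x) := by
    ext x
    simp only [SimpleGraph.ConnectedComponent.mem_supp_iff, SimpleGraph.ConnectedComponent.eq,
      coe_filter, mem_univ, true_and, Set.mem_setOf_eq]
    exact ⟨fun h => h.symm, fun h => h.symm⟩
  rw [h, Set.ncard_coe_finset]
  rfl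

theorem final : ∃ N : ℕ, ∀ (V : Type) [Fintype V] [DecidableEq V] (G : SimpleGraph V)
    [DecidableRel G.Adj], G.IsRegularOfDegree 3 →
    N ≤ {v : V | 24 ≤ (G.connectedComponentMk v).supp.ncard}.ncard → Good V G := by
  obtain ⟨N, hN⟩ := all_MAIN
  refine ⟨N, fun V _ _ G _ hG hb => ?_⟩
  have hc := cub_of_regular G hG
  apply stmt_ISO V G hc
  apply hN V G hc
  refine hb.trans (le_of_eq ?_)
  rw [← Set.ncard_coe_finset]
  congr 1
  ext v
  simp [big_iff]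

theorem final2 : ∃ N₁ : ℕ,
    ∀ (V : Type) [Fintype V] [DecidableEq V] (G : SimpleGraph V) [DecidableRel G.Adj],
      G.IsRegularOfDegree 3 → ¬ Good V G →
      ∃ (W : Type) (_ : Fintype W) (H : SimpleGraph W), Fintype.card W ≤ N₁ ∧
        (∀ w, (H.neighborSet w).ncard = 3) ∧ ¬ Good W H ∧
        ∃ (U : Type) (K : SimpleGraph U), Nonempty (G ≃g H ⊕g (K ⊕g K)) := by
  obtain ⟨N₁, hN⟩ := stmt_RED2 all_MAIN all_ANY
  refine ⟨N₁, fun V _ _ G _ hG hbad => ?_⟩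
  have hc := cub_of_regular G hG
  obtain ⟨W, iW, H, hW, hH, hHb, U, K, hK⟩ := hN V G hc fun h => hbad (stmt_ISO V G hc h)
  refine ⟨W, iW, H, hW, fun w => ?_, fun h => hHb (stmt_REV W H hH h), U, K, hK⟩
  have h1 := hH w
  rw [← h1, ← Set.ncard_coe_finset]
  congr 1
  ext y
  simp [nbs]

end Pool.Agent.Work.MP_1e13ac_Bis
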