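import Pool.Agent.Work.MP_1e13ac_Bis_h63.GADG

/-! MP_1e13ac_co, block GADG (helper63): soundness of the gadget check. -/

set_option autoImplicit false

namespace Pool.Agent.Work.MP_1e13ac_Bis

theorem stmt_GADG : Stmt_GADG := h63.stmt_GADG

end Pool.Agent.Work.MP_1e13ac_Bis
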