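import Pool.Agent.Work.MP_1e13ac_Bis.Interface

/-! Block INF: influence of one sign on the statistics. -/

set_option autoImplicit false

namespace Pool.Agent.Work.MP_1e13ac_Bis

open Classical Finset

namespace InfBlock

section

variable {V : Type} [Fintype V]

/-- A sum of values in `[-1, 1]` which changes only on `S`. -/
lemma inf_sum (f f' : V → ℤ) (S : Finset V) (h1 : ∀ x, |f x| ≤ 1) (h1' : ∀ x, |f' x| ≤ 1)
    (h : ∀ x, x ∉ S → f x = f' x) : |∑ x, f x - ∑ x, f' x| ≤ 2 * (S.card : ℤ) := by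
  rw [← Finset.sum_sub_distrib]
  have h2 : ∑ x, (f x - f' x) = ∑ x ∈ S, (f x - f' x) := by
    symm
    refine Finset.sum_subset (Finset.subset_univ _) fun x _ hx => ?_
    rw [h x hx, sub_self]
  rw [h2]
  refine (Finset.abs_sum_le_sum_abs _ _).trans ?_
  calc ∑ x ∈ S, |f x - f' x| ≤ ∑ x ∈ S, (2 : ℤ) := by
        refine Finset.sum_le_sum fun x _ => ?_
        have h3 := abs_le.1 (h1 x)
        have h4 := abs_le.1 (h1' x)
        rw [abs_le]
        constructor <;> linarith [h3.1, h3.2, h4.1, h4.2]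
    _ = 2 * (S.card : ℤ) := by rw [Finset.sum_const, nsmul_eq_mul]; ring

lemma abs_sg (b : Bool) : |sg b| ≤ 1 := by cases b <;> simp [sg]

lemma abs_locP (G : SimpleGraph V) (c : V → Bool) (x : V) : |locP G c x| ≤ 1 := by
  unfold locP
  split_ifs
  · exact abs_sg _
  · simp

lemma abs_locQ (G : SimpleGraph V) (c : V → Bool) (x : V) : |locQ G c x| ≤ 1 := by
  unfold locQ
  split_ifs
  · exact abs_sg _
  · simp

/-- closed neighbourhood -/
noncomputable def N1 (G : SimpleGraph V) (x : V) : Finset V := insert x (nbs G x)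

/-- ball of radius 2 -/
noncomputable def N2 (G : SimpleGraph V) (x : V) : Finset V :=
  N1 G x ∪ (nbs G x).biUnion fun y => (nbs G y).erase x

lemma mem_nbs (G : SimpleGraph V) (x y : V) : y ∈ nbs G x ↔ G.Adj x y := by simp [nbs]

lemma mem_N1 (G : SimpleGraph V) (x y : V) : y ∈ N1 G x ↔ y = x ∨ G.Adj x y := by
  simp [N1, mem_nbs]

lemma mem_N2 (G : SimpleGraph V) (x z : V) :
    z ∈ N2 G x ↔ z = x ∨ G.Adj x z ∨ ∃ y, G.Adj x y ∧ G.Adj y z := by
  unfold N2
  rw [mem_union, mem_N1, mem_biUnion]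
  constructor
  · rintro ((h | h) | ⟨y, hy, hz⟩)
    · exact Or.inl h
    · exact Or.inr (Or.inl h)
    · exact Or.inr (Or.inr ⟨y, (mem_nbs G x y).1 hy, (mem_nbs G y z).1 (mem_of_mem_erase hz)⟩)
  · rintro (h | h | ⟨y, hy, hz⟩)
    · exact Or.inl (Or.inl h)
    · exact Or.inl (Or.inr h)
    · by_cases hzx : z = x
      · exact Or.inl (Or.inl hzx)
      · exact Or.inr ⟨y, (mem_nbs G x y).2 hy, mem_erase.2 ⟨hzx, (mem_nbs G y z).2 hz⟩⟩

lemma card_N1 (G : SimpleGraph V) (hG : Cub G) (x : V) : (N1 G x).card ≤ 4 := by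
  unfold N1
  refine (card_insert_le _ _).trans ?_
  rw [hG x]

lemma card_N2 (G : SimpleGraph V) (hG : Cub G) (x : V) : (N2 G x).card ≤ 10 := by
  unfold N2
  refine (card_union_le _ _).trans ?_
  have h1 := card_N1 G hG x
  have h2 : ((nbs G x).biUnion fun y => (nbs G y).erase x).card ≤ 3 * 2 := by
    rw [← hG x]
    refine card_biUnion_le_card_mul _ _ _ fun y hy => ?_
    have h3 : x ∈ nbs G y := (mem_nbs G y x).2 ((mem_nbs G x y).1 hy).symm
    rw [card_erase_of_mem h3, hG y]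
  omega

lemma N1_symm (G : SimpleGraph V) (x y : V) : y ∈ N1 G x ↔ x ∈ N1 G y := by
  rw [mem_N1, mem_N1]
  constructor
  · rintro (h | h)
    · exact Or.inl h.symm
    · exact Or.inr h.symm
  · rintro (h | h)
    · exact Or.inl h.symm
    · exact Or.inr h.symm

lemma N2_symm (G : SimpleGraph V) (x y : V) (h : y ∈ N2 G x) : x ∈ N2 G y := by
  rw [mem_N2] at h ⊢
  rcases h with h | h | ⟨z, h1, h2⟩
  · exact Or.inl h.symm
  · exact Or.inr (Or.inl h.symm)
  · exact Or.inr (Or.inr ⟨z, h2.symm, h1.symm⟩)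

lemma md_congr (G : SimpleGraph V) (c c' : V → Bool) (x : V) (h : ∀ y ∈ N1 G x, c y = c' y) :
    md G c x = md G c' x := by
  unfold md MA
  congr 1
  ext y
  simp only [mem_filter, mem_univ, true_and]
  have hx := h x ((mem_N1 G x x).2 (Or.inl rfl))
  constructor
  · rintro ⟨h1, h2⟩
    refine ⟨h1, ?_⟩
    rw [← hx, ← h y ((mem_N1 G x y).2 (Or.inr h1))]; exact h2
  · rintro ⟨h1, h2⟩
    refine ⟨h1, ?_⟩
    rw [hx, h y ((mem_N1 G x y).2 (Or.inr h1))]; exact h2

lemma locP_congr (G : SimpleGraph V) (c c' : V → Bool) (x : V) (h : ∀ y ∈ N1 G x, c y = c' y) :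
    locP G c x = locP G c' x := by
  unfold locP
  rw [md_congr G c c' x h, h x ((mem_N1 G x x).2 (Or.inl rfl))]

lemma locQ_congr (G : SimpleGraph V) (c c' : V → Bool) (x : V) (h : ∀ y ∈ N2 G x, c y = c' y) :
    locQ G c x = locQ G c' x := by
  have h1 : ∀ y ∈ N1 G x, c y = c' y := fun y hy => h y (by
    rw [mem_N1] at hy; rw [mem_N2]; tauto)
  have h2 : ∀ y, G.Adj x y → md G c y = md G c' y := fun y hy => md_congr G c c' y fun z hz => by
    rw [mem_N1] at hz
    apply h
    rw [mem_N2]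
    rcases hz with rfl | hz
    · exact Or.inr (Or.inl hy)
    · exact Or.inr (Or.inr ⟨y, hy, hz⟩)
  have hx := h1 x ((mem_N1 G x x).2 (Or.inl rfl))
  unfold locQ
  rw [md_congr G c c' x h1, hx]
  have h3 : (∃ y, MA G c x y ∧ md G c y = 2) ↔ ∃ y, MA G c' x y ∧ md G c' y = 2 := by
    refine exists_congr fun y => ?_
    unfold MA
    constructor
    · rintro ⟨⟨h4, h5⟩, h6⟩
      refine ⟨⟨h4, ?_⟩, by rw [← h2 y h4]; exact h6⟩
      rw [← hx, ← h1 y ((mem_N1 G x y).2 (Or.inr h4))]; exact h5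
    · rintro ⟨⟨h4, h5⟩, h6⟩
      refine ⟨⟨h4, ?_⟩, by rw [h2 y h4]; exact h6⟩
      rw [hx, h1 y ((mem_N1 G x y).2 (Or.inr h4))]; exact h5
  simp only [h3]

end

end InfBlock

open InfBlock

theorem stmt_INF : Stmt_INF := by
  intro V _ G hG Z j ε σ i
  obtain ⟨c, hc⟩ : ∃ c, c = col G Z j ε σ := ⟨_, rfl⟩
  obtain ⟨c', hc'⟩ : ∃ c', c' = col G Z j ε (Function.update σ i (!σ i)) := ⟨_, rfl⟩
  obtain ⟨M, hM⟩ : ∃ M : Finset V, M = univ.filter fun v => j v = i := ⟨_, rfl⟩
  rw [← hc, ← hc', ← hM]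
  have hdiff : ∀ x, (∀ y ∈ N1 G x, y ∉ M) → c x = c' x := by
    intro x hx
    have h1 : ∀ y ∈ N1 G x, (Function.update σ i (!σ i)) (j y) = σ (j y) := by
      intro y hy
      refine Function.update_of_ne ?_ _ _
      have := hx y hy
      rw [hM, mem_filter] at this
      exact fun h => this ⟨mem_univ _, h⟩
    rw [hc, hc']
    unfold col
    split_ifs with hZ
    · unfold mino
      have h2 : ((nbs G x).filter fun y => (xor (σ (j y)) (ε y)) = true) =
          (nbs G x).filter fun y =>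
            (xor ((Function.update σ i (!σ i)) (j y)) (ε y)) = true := by
        refine filter_congr fun y hy => ?_
        rw [h1 y ((mem_N1 G x y).2 (Or.inr ((mem_nbs G x y).1 hy)))]
      rw [h2]
    · rw [h1 x ((mem_N1 G x x).2 (Or.inl rfl))]
  obtain ⟨D, hD⟩ : ∃ D : Finset V, D = M.biUnion fun v => N1 G v := ⟨_, rfl⟩
  have hDc : D.card ≤ M.card * 4 := by
    rw [hD]; exact card_biUnion_le_card_mul _ _ _ fun v _ => card_N1 G hG v
  have hoff : ∀ x, x ∉ D → c x = c' x := by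
    intro x hx
    refine hdiff x fun y hy hyM => hx ?_
    rw [hD, mem_biUnion]
    exact ⟨y, hyM, (N1_symm G x y).1 hy⟩
  have hA : (D.biUnion fun v => N1 G v).card ≤ D.card * 4 :=
    card_biUnion_le_card_mul _ _ _ fun v _ => card_N1 G hG v
  have hB : (D.biUnion fun v => N2 G v).card ≤ D.card * 10 :=
    card_biUnion_le_card_mul _ _ _ fun v _ => card_N2 G hG v
  have e1 := inf_sum (fun x => sg (c x)) (fun x => sg (c' x)) D (fun x => abs_sg _)
    (fun x => abs_sg _) (fun x hx => by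
      change sg (c x) = sg (c' x)
      rw [hoff x hx])
  have e2 := inf_sum (fun x => locP G c x) (fun x => locP G c' x) (D.biUnion fun v => N1 G v)
    (fun x => abs_locP G c x) (fun x => abs_locP G c' x) (fun x hx => by
      refine locP_congr G c c' x fun y hy => hoff y fun hyD => hx ?_
      rw [mem_biUnion]
      exact ⟨y, hyD, (N1_symm G x y).1 hy⟩)
  have e3 := inf_sum (fun x => locQ G c x) (fun x => locQ G c' x) (D.biUnion fun v => N2 G v)
    (fun x => abs_locQ G c x) (fun x => abs_locQ G c' x) (fun x hx => by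
      refine locQ_congr G c c' x fun y hy => hoff y fun hyD => hx ?_
      rw [mem_biUnion]
      exact ⟨y, hyD, N2_symm G x y hy⟩)
  have hDc' : (D.card : ℤ) ≤ M.card * 4 := by exact_mod_cast hDc
  have hA' : ((D.biUnion fun v => N1 G v).card : ℤ) ≤ D.card * 4 := by exact_mod_cast hA
  have hB' : ((D.biUnion fun v => N2 G v).card : ℤ) ≤ D.card * 10 := by exact_mod_cast hB
  have hM0 : (0 : ℤ) ≤ M.card := Int.natCast_nonneg _
  refine ⟨?_, ?_, ?_⟩
  · refine le_trans e1 ?_
    linarith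
  · refine le_trans e2 ?_
    linarith
  · refine le_trans e3 ?_
    linarith

end Pool.Agent.Work.MP_1e13ac_Bis
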