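import Pool.Agent.Work.MP_1e13ac_Bis.GADG
import Pool.Agent.Work.MP_1e13ac_Bis.BALL

/-! MP_1e13ac_co, block LEAF (helper63): soundness of the leaf check. -/

set_option autoImplicit false

namespace Pool.Agent.Work.MP_1e13ac_Bis

open Classical Finset

namespace LeafB

theorem comb_mem (s : List ℤ) (l : List (ℤ × ℤ × ℤ)) (H : AddSubgroup (ℤ × ℤ × ℤ))
    (hl : ∀ d ∈ l, d ∈ H) : comb s l ∈ H := by
  induction s generalizing l with
  | nil =>
    rw [comb]
    · exact H.zero_mem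
    · intro a s d t h
      exact absurd h (by simp)
  | cons a s ih =>
    cases l with
    | nil =>
      rw [comb]
      · exact H.zero_mem
      · intro a s d t _ h
        exact absurd h (by simp)
    | cons d t =>
      have h1 : comb (a :: s) (d :: t) = a • d + comb s t := by
        rw [comb]
        refine Prod.ext ?_ (Prod.ext ?_ ?_)
        · simp
        · simp
        · simp
      rw [h1]
      exact H.add_mem (H.zsmul_mem (hl d (by simp)) a)
        (ih t fun d' hd' => hl d' (List.mem_cons_of_mem _ hd'))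

theorem abs_le_of_natAbs (a : ℤ) (h : Nat.ble a.natAbs 50 = true) : |a| ≤ 50 := by
  have h1 : a.natAbs ≤ 50 := Nat.le_of_ble_eq_true h
  rw [← Int.natCast_natAbs]
  exact_mod_cast h1

end LeafB

theorem stmt_LEAF : Stmt_LEAF := by
  intro P gs u v w h V _ G hG x φ hO
  unfold chkLeaf at h
  rw [Bool.and_eq_true, Bool.and_eq_true, Bool.and_eq_true, Bool.and_eq_true, Bool.and_eq_true,
    Bool.and_eq_true, decide_eq_true_iff, decide_eq_true_iff, decide_eq_true_iff,
    List.all_eq_true, List.all_eq_true] at h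
  obtain ⟨⟨⟨⟨⟨⟨hwf, hlen⟩, hgs⟩, hbox⟩, hu⟩, hv⟩, hw⟩ := h
  have hlen' : P.length ≤ 23 := Nat.le_of_ble_eq_true hlen
  refine ⟨(gs.map (gD P)).toFinset, ⟨?_, ?_⟩, ?_⟩
  · intro d hd
    rw [List.mem_toFinset] at hd
    have h1 := hbox d hd
    unfold inBox at h1
    rw [Bool.and_eq_true, Bool.and_eq_true] at h1
    exact ⟨LeafB.abs_le_of_natAbs _ h1.1, LeafB.abs_le_of_natAbs _ h1.2.1,
      LeafB.abs_le_of_natAbs _ h1.2.2⟩
  · intro z h1 h2
    set H := AddSubgroup.closure ((gs.map (gD P)).toFinset : Set (ℤ × ℤ × ℤ)) with hH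
    have hl : ∀ d ∈ gs.map (gD P), d ∈ H := by
      intro d hd
      refine AddSubgroup.subset_closure ?_
      rw [Finset.mem_coe, List.mem_toFinset]
      exact hd
    have m1 := LeafB.comb_mem u _ H hl
    have m2 := LeafB.comb_mem v _ H hl
    have m3 := LeafB.comb_mem w _ H hl
    rw [hu] at m1
    rw [hv] at m2
    rw [hw] at m3
    obtain ⟨a, ha⟩ := h1
    obtain ⟨b, hb⟩ := h2
    have hz : z = a • ((2, 0, 0) : ℤ × ℤ × ℤ) + (z.2.1 • ((0, 1, 0) : ℤ × ℤ × ℤ)
        + b • ((0, 0, 2) : ℤ × ℤ × ℤ)) := by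
      refine Prod.ext ?_ (Prod.ext ?_ ?_)
      · simp [ha, mul_comm]
      · simp
      · simp [hb, mul_comm]
    rw [hz]
    exact H.add_mem (H.zsmul_mem m1 a) (H.add_mem (H.zsmul_mem m2 _) (H.zsmul_mem m3 b))
  · intro d hd
    rw [List.mem_toFinset, List.mem_map] at hd
    obtain ⟨g, hg, rfl⟩ := hd
    have h1 := hgs g hg
    unfold gOK at h1
    obtain ⟨A, U, c1, c2, hgd, hA, hcard, hdiff⟩ :=
      stmt_GADG P (gS g) (gU g) (gc1 g) (gc2 g) hwf h1 hlen' V G hG x φ hO
    exact ⟨A, U, c1, c2, hgd, hA.trans ((stmt_BALL V G).1 22 1 x), hcard, hdiff⟩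

end Pool.Agent.Work.MP_1e13ac_Bis
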