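import Pool.Agent.Work.MP_1e13ac_Bis.FASTN
import Pool.Agent.Work.MP_1e13ac_Bis.EXT
import Pool.Agent.Work.MP_1e13ac_Fast.Lf0
import Pool.Agent.Work.MP_1e13ac_Fast.Lf1
import Pool.Agent.Work.MP_1e13ac_Fast.Lf2
import Pool.Agent.Work.MP_1e13ac_Fast.Lf3
import Pool.Agent.Work.MP_1e13ac_Fast.Lf4
import Pool.Agent.Work.MP_1e13ac_Fast.Lf5
import Pool.Agent.Work.MP_1e13ac_Fast.Nd0
import Pool.Agent.Work.MP_1e13ac_Fast.Nd1
import Pool.Agent.Work.MP_1e13ac_Fast.Nd2
import Pool.Agent.Work.MP_1e13ac_Fast.Nd3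

/-! Block PAT of MP_1e13ac_co: assembly of the finite search. -/

set_option autoImplicit false

namespace Pool.Agent.Work.MP_1e13ac_Bis

open Pool.Agent.Work.MP_1e13ac_Fast FastB

/-- codes of the triples of difference vectors with the coefficients of the combinations -/
def dCoef : List (ℕ × List ℤ × List ℤ × List ℤ) := [
  (3776498717751548340, [1, -1, 0], [0, 1, 0], [-1, -1, 1]),
  (3776498718024178100, [2, -1, 0], [-1, 1, 0], [0, -1, 1]),
  (3775926971977734580, [2, -1, 0], [-1, 1, 0], [1, -1, 1]),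
  (3776489990650632628, [0, 1, -1], [1, -1, 1], [-2, 2, -1]),
  (3776498786739460532, [0, -1, 1], [1, 1, -1], [-2, -1, 2]),
  (3777061736697076148, [1, 1, -1], [0, -1, 1], [-1, 2, -1]),
  (3776498717755742642, [-1, 1, 0], [1, 0, 0], [-1, -1, 1]),
  (3775364021751683508, [1, -1, 0], [0, 1, 0], [0, 0, 1]),
  (3631811852621355444, [1, 0, -1], [0, 0, 1], [-1, 1, -1]),
  (3775926971709299252, [-1, 2, 0], [1, -1, 0], [-1, 1, 1]),
  (3631811852348725684, [1, 0, -1], [0, 0, 1], [0, 1, -1]),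
  (3777061667709196852, [1, 1, -1], [-1, 0, 1], [2, -1, -1]),
  (3776489921658526132, [1, -1, 0], [0, 1, 0], [0, -2, 1]),
  (3775364090743790004, [2, -1, 1], [-1, 1, -1], [0, 0, 1]),
  (3631820648441748020, [-1, 0, 2], [1, 0, -1], [-1, 1, 1]),
  (3776498786202589620, [2, 1, -1], [-1, -1, 1], [0, 1, 0]),
  (3775926971705104820, [1, -1, 0], [0, 1, 0], [0, -1, 1]),
  (3777061667977599412, [2, -1, 0], [-1, 1, 0], [1, -2, 1]),
  (3776498718024210866, [-2, -1, 2], [1, 1, -1], [0, -1, 1]),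
  (3632383598667798964, [2, 0, -1], [-1, 0, 1], [0, 1, -1]),
  (3776498717755775538, [-1, 0, 1], [1, 1, -1], [-1, -2, 2]),
  (3775364021755877810, [-1, 1, 0], [1, 0, 0], [0, 0, 1]),
  (3777061736697076276, [1, 2, -2], [0, -1, 1], [-1, 1, 0]),
  (3631820648441747890, [-1, 0, 1], [1, 0, 0], [-1, 1, 0]),
  (3775926971705137716, [1, -1, -1], [0, 1, 0], [0, -1, 1]),
  (3776489990378002868, [1, 1, -1], [0, -1, 1], [0, 2, -1]),
  (3776498717755742772, [-1, 2, 0], [1, -1, 0], [-1, 0, 1]),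
  (3775364022024346034, [-2, 1, 2], [1, 0, -1], [0, 0, 1]),
  (3776498787012090292, [1, -1, 1], [0, 1, -1], [-1, -1, 2]),
  (3631811852080323124, [1, -1, -2], [0, 0, 1], [0, 1, 0]),
  (3776498786471025204, [-1, -2, 2], [1, 1, -1], [-1, 0, 1]),
  (3775926971705104948, [1, -2, 0], [0, 1, 0], [0, -1, 1]),
  (3631820579722303794, [0, -1, 1], [0, 1, 0], [1, 0, 0]),
  (3632383598395202100, [2, -2, -1], [-1, 1, 1], [1, 0, -1]),
  (3775364091012258356, [3, -2, -1], [-1, 1, 0], [0, 0, 1]),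
  (3632383529679919668, [0, 2, -1], [0, -1, 1], [1, 0, -1]),
  (3775927040697211444, [-1, 2, -2], [1, -1, 1], [-1, 1, 0]),
  (3631811852080290228, [1, 0, -1], [0, 0, 1], [0, 1, 0]),
  (3775927040156146100, [1, 1, -1], [0, -1, 1], [0, 1, 0]),
  (3631820648714377780, [-1, 0, 2], [1, 0, -1], [-1, 1, 0]),
  (3775935767802321330, [-1, 1, 0], [1, 0, 0], [0, -1, 1]),
  (3775364022024313268, [2, -1, 0], [-1, 1, 0], [0, 0, 1]),
  (3776489921931155892, [2, -1, 0], [-1, 1, 0], [2, -2, 1]),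
  (3632383598936234420, [2, 0, -1], [-1, 0, 1], [1, 1, -2]),
  (3631811852617161140, [1, 0, -1], [0, 0, 1], [0, 1, -2]),
  (3777061736424446388, [2, 1, -1], [-1, -1, 1], [1, 2, -1]),
  (3632383598395169204, [2, 0, -1], [-1, 0, 1], [1, 1, -1]),
  (3775935768070756788, [2, -1, 0], [-1, 1, 0], [-1, 0, 1]),
  (3775926971977767476, [2, -1, -2], [-1, 1, 1], [1, -1, 0]),
  (3775364021755877940, [-1, 2, 0], [1, -1, 0], [0, 0, 1]),
  (3632383598663604660, [2, 0, -1], [-1, 0, 1], [2, 1, -2])]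

def genB (x : ℕ × List ℤ × List ℤ × List ℤ) : Bool :=
  (dvec x.1).all inBox && decide (comb x.2.1 (dvec x.1) = (2, 0, 0)) &&
    decide (comb x.2.2.1 (dvec x.1) = (0, 1, 0)) && decide (comb x.2.2.2 (dvec x.1) = (0, 0, 2))

theorem dCoef_map : dCoef.map (fun x => x.1) = dTab := by decide +kernel

theorem dCoef_ok : dCoef.all genB = true := by decide +kernel

theorem dTab_ok : ∀ d ∈ dTab, GenD d := by
  intro d hd
  rw [← dCoef_map, List.mem_map] at hd
  obtain ⟨x, hx, rfl⟩ := hd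
  have h := List.all_eq_true.1 dCoef_ok x hx
  unfold genB at h
  rw [Bool.and_eq_true, Bool.and_eq_true, Bool.and_eq_true, decide_eq_true_iff,
    decide_eq_true_iff, decide_eq_true_iff] at h
  exact ⟨h.1.1.1, _, _, _, h.1.1.2, h.1.2, h.2⟩

theorem leaves_ok : ∀ B ∈ leaves, ∀ P ∈ B, wf P = true ∧ LeafOK P := by
  intro B hB
  simp only [leaves, List.mem_cons, List.not_mem_nil, or_false] at hB
  rcases hB with rfl | rfl | rfl | rfl | rfl | rfl | rfl | rfl | rfl | rfl | rfl | rfl | rfl | rfl | rfl | rfl | rfl | rfl | rfl | rfl | rfl | rfl | rfl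
  · exact leafAllR_spec dTab dTab_ok _ _ leaf0
  · exact leafAllR_spec dTab dTab_ok _ _ leaf1
  · exact leafAllR_spec dTab dTab_ok _ _ leaf2
  · exact leafAllR_spec dTab dTab_ok _ _ leaf3
  · exact leafAllR_spec dTab dTab_ok _ _ leaf4
  · exact leafAllR_spec dTab dTab_ok _ _ leaf5
  · exact leafAllR_spec dTab dTab_ok _ _ leaf6
  · exact leafAllR_spec dTab dTab_ok _ _ leaf7
  · exact leafAllR_spec dTab dTab_ok _ _ leaf8
  · exact leafAllR_spec dTab dTab_ok _ _ leaf9
  · exact leafAllR_spec dTab dTab_ok _ _ leaf10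
  · exact leafAllR_spec dTab dTab_ok _ _ leaf11
  · exact leafAllR_spec dTab dTab_ok _ _ leaf12
  · exact leafAllR_spec dTab dTab_ok _ _ leaf13
  · exact leafAllR_spec dTab dTab_ok _ _ leaf14
  · exact leafAllR_spec dTab dTab_ok _ _ leaf15
  · exact leafAllR_spec dTab dTab_ok _ _ leaf16
  · exact leafAllR_spec dTab dTab_ok _ _ leaf17
  · exact leafAllR_spec dTab dTab_ok _ _ leaf18
  · exact leafAllR_spec dTab dTab_ok _ _ leaf19
  · exact leafAllR_spec dTab dTab_ok _ _ leaf20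
  · exact leafAllR_spec dTab dTab_ok _ _ leaf21
  · exact leafAllR_spec dTab dTab_ok _ _ leaf22

theorem opens_ok : ∀ B ∈ opens, ∀ P ∈ B, ∃ (a : ℕ) (s cs : List ℕ),
    nodR leaves opens P a s cs = true := by
  intro B hB
  simp only [opens, List.mem_cons, List.not_mem_nil, or_false] at hB
  rcases hB with rfl | rfl | rfl | rfl | rfl | rfl | rfl | rfl | rfl | rfl | rfl | rfl | rfl | rfl | rfl | rfl | rfl | rfl | rfl | rfl | rfl | rfl | rfl
  · exact nodeAllR_spec _ _ _ _ node0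
  · exact nodeAllR_spec _ _ _ _ node1
  · exact nodeAllR_spec _ _ _ _ node2
  · exact nodeAllR_spec _ _ _ _ node3
  · exact nodeAllR_spec _ _ _ _ node4
  · exact nodeAllR_spec _ _ _ _ node5
  · exact nodeAllR_spec _ _ _ _ node6
  · exact nodeAllR_spec _ _ _ _ node7
  · exact nodeAllR_spec _ _ _ _ node8
  · exact nodeAllR_spec _ _ _ _ node9
  · exact nodeAllR_spec _ _ _ _ node10
  · exact nodeAllR_spec _ _ _ _ node11
  · exact nodeAllR_spec _ _ _ _ node12
  · exact nodeAllR_spec _ _ _ _ node13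
  · exact nodeAllR_spec _ _ _ _ node14
  · exact nodeAllR_spec _ _ _ _ node15
  · exact nodeAllR_spec _ _ _ _ node16
  · exact nodeAllR_spec _ _ _ _ node17
  · exact nodeAllR_spec _ _ _ _ node18
  · exact nodeAllR_spec _ _ _ _ node19
  · exact nodeAllR_spec _ _ _ _ node20
  · exact nodeAllR_spec _ _ _ _ node21
  · exact nodeAllR_spec _ _ _ _ node22

theorem root_mem : ([[]] : List (List ℕ)) ∈ op0 := List.mem_cons_self

theorem op0_mem : op0 ∈ opens := List.mem_cons_self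

theorem stmt_PAT : Stmt_PAT := by
  intro V _ G hG v hv
  have h := stmt_TREEF stmt_EXT leaves opens leaves_ok opens_ok op0 op0_mem [[]] root_mem
    V G hG v (fun _ => v) hv
  apply h
  refine ⟨?_, ?_, ?_⟩
  · intro i hi j hj _
    simp at hi hj
    omega
  · intro i hi j hj
    simp at hi
    subst hi
    simp [gl]
  · intro i _
    simp [Bl]

end Pool.Agent.Work.MP_1e13ac_Bis
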