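import Pool.Agent.Work.MP_1e13ac_Bis.MAIN

/-!
# MP_1e13ac_co, block RED: reduction of Q1 to finitely many graphs
-/

set_option autoImplicit false

namespace Pool.Agent.Work.MP_1e13ac_Bis

open Classical Finset

namespace RED

open MAIN

/-- two isomorphic components, if all components are small and there are many vertices -/
lemma two_iso {V : Type} [Fintype V] (G : SimpleGraph V) (M : ℕ)
    (hM : ∀ v : V, (univ.filter fun x => G.Reachable v x).card < M)
    (hS : Fintype.card (Fin M × (Fin M → Fin M → Bool)) * M < Fintype.card V) :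
    ∃ (v v' : V) (k : ℕ) (p p' : Fin k → V), ¬ G.Reachable v v' ∧
      Function.Injective p ∧ Function.Injective p' ∧
      (∀ y, G.Reachable v y ↔ ∃ i, p i = y) ∧ (∀ y, G.Reachable v' y ↔ ∃ i, p' i = y) ∧
      ∀ i j, G.Adj (p i) (p j) ↔ G.Adj (p' i) (p' j) := by
  set C : V → Finset V := fun v => univ.filter fun x => G.Reachable v x with hC
  have hCM : ∀ v, (C v).card < M := hM
  choose p hp1 hp2 using fun v => numbering (C v) v
  set T : V → Fin M × (Fin M → Fin M → Bool) := fun v =>
    (⟨(C v).card, hCM v⟩, fun i j => decide (G.Adj (p v i) (p v j))) with hT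
  obtain ⟨t, -, ht⟩ := exists_lt_card_fiber_of_mul_lt_card_of_maps_to (s := (univ : Finset V))
    (t := (univ : Finset (Fin M × (Fin M → Fin M → Bool)))) (f := T) (n := M)
    (fun a _ => mem_univ _) (by rw [card_univ, card_univ]; exact hS)
  have hne : (univ.filter fun x => T x = t).Nonempty := by
    rw [← card_pos]; omega
  obtain ⟨v, hv⟩ := hne
  have hnot : ¬ (univ.filter fun x => T x = t) ⊆ C v := by
    intro hsub
    have h1 := card_le_card hsub
    have h2 := hCM v
    omega
  rw [not_subset] at hnot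
  obtain ⟨v', hv', hvv⟩ := hnot
  have hTT : T v = T v' := (mem_filter.1 hv).2.trans (mem_filter.1 hv').2.symm
  rw [hT] at hTT
  simp only [Prod.mk.injEq, Fin.mk.injEq] at hTT
  obtain ⟨hk, hadj⟩ := hTT
  refine ⟨v, v', (C v).card, fun i => p v i, fun i => p v' i, ?_, ?_, ?_, ?_, ?_, ?_⟩
  · intro hr
    apply hvv
    rw [hC]
    simpa using hr
  · intro i j hij
    exact Fin.ext (hp1 v i i.2 j j.2 hij)
  · intro i j hij
    exact Fin.ext (hp1 v' i (hk ▸ i.2) j (hk ▸ j.2) hij)
  · intro y
    have h1 := hp2 v y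
    rw [hC] at h1
    simp only [mem_filter, mem_univ, true_and] at h1
    rw [h1]
    constructor
    · rintro ⟨i, hi, rfl⟩; exact ⟨⟨i, hi⟩, rfl⟩
    · rintro ⟨i, rfl⟩; exact ⟨i, i.2, rfl⟩
  · intro y
    have h1 := hp2 v' y
    have h2 : y ∈ C v' ↔ G.Reachable v' y := by rw [hC]; simp
    rw [← h2, h1]
    constructor
    · rintro ⟨i, hi, rfl⟩; exact ⟨⟨i, hk ▸ hi⟩, rfl⟩
    · rintro ⟨i, rfl⟩; exact ⟨i, hk ▸ i.2, rfl⟩
  · intro i j
    have h1 := congrFun (congrFun hadj ⟨i, i.2.trans (hCM v)⟩) ⟨j, j.2.trans (hCM v)⟩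
    simpa using h1

/-- removal of two isomorphic components -/
lemma combine {V : Type} [Fintype V] (G : SimpleGraph V) (hG : Cub G) (hANY : Stmt_ANY)
    (ih : ∀ (R : Type) [Fintype R] (GR : SimpleGraph R), Cub GR →
      Fintype.card R < Fintype.card V → Good' GR)
    (v v' : V) (k : ℕ) (p p' : Fin k → V) (hvv : ¬ G.Reachable v v')
    (hp : Function.Injective p) (hp' : Function.Injective p')
    (hr : ∀ y, G.Reachable v y ↔ ∃ i, p i = y) (hr' : ∀ y, G.Reachable v' y ↔ ∃ i, p' i = y)
    (hadj : ∀ i j, G.Adj (p i) (p j) ↔ G.Adj (p' i) (p' j)) : Good' G := by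
  -- the rest
  let R : Type := {y : V // ¬ G.Reachable v y ∧ ¬ G.Reachable v' y}
  let ρ : R → V := Subtype.val
  let H : SimpleGraph (Fin k) := G.comap p
  let GR : SimpleGraph R := G.comap ρ
  have L1 : Loc H G p := by
    refine ⟨hp, fun x y => Iff.rfl, fun x y hxy => ?_⟩
    exact (hr y).1 (((hr (p x)).2 ⟨x, rfl⟩).trans hxy.reachable)
  have L2 : Loc H G p' := by
    refine ⟨hp', fun x y => (hadj x y).symm, fun x y hxy => ?_⟩
    exact (hr' y).1 (((hr' (p' x)).2 ⟨x, rfl⟩).trans hxy.reachable)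
  have L3 : Loc GR G ρ := by
    refine ⟨Subtype.val_injective, fun x y => Iff.rfl, fun x y hxy => ?_⟩
    refine ⟨⟨y, fun h => x.2.1 (h.trans hxy.symm.reachable),
      fun h => x.2.2 (h.trans hxy.symm.reachable)⟩, rfl⟩
  have hcard : Fintype.card R < Fintype.card V := by
    apply Fintype.card_subtype_lt (x := v)
    intro h
    exact h.1 (SimpleGraph.Reachable.refl _)
  obtain ⟨cR, hcR, hstR⟩ := ih R GR (L3.cub hG) hcard
  obtain ⟨c0, hc0⟩ := hANY (Fin k) H (L1.cub hG)
  -- the bijection
  let F : (Fin k ⊕ Fin k) ⊕ R → V := Sum.elim (Sum.elim p p') ρ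
  have hF : Function.Bijective F := by
    constructor
    · have hd : ∀ i j, p i ≠ p' j := by
        intro i j hij
        apply hvv
        have h1 := (hr (p i)).2 ⟨i, rfl⟩
        have h2 := (hr' (p' j)).2 ⟨j, rfl⟩
        rw [← hij] at h2
        exact h1.trans h2.symm
      have hd1 : ∀ i (r : R), p i ≠ ρ r := fun i r h =>
        r.2.1 ((hr _).2 ⟨i, h⟩)
      have hd2 : ∀ i (r : R), p' i ≠ ρ r := fun i r h =>
        r.2.2 ((hr' _).2 ⟨i, h⟩)
      rintro ((i | i) | r) ((j | j) | s) h
      · exact congrArg _ (congrArg _ (hp h))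
      · exact absurd h (hd i j)
      · exact absurd h (hd1 i s)
      · exact absurd h.symm (hd j i)
      · exact congrArg _ (congrArg _ (hp' h))
      · exact absurd h (hd2 i s)
      · exact absurd h.symm (hd1 j r)
      · exact absurd h.symm (hd2 j r)
      · exact congrArg _ (Subtype.ext h)
    · intro y
      by_cases h1 : G.Reachable v y
      · obtain ⟨i, hi⟩ := (hr y).1 h1
        exact ⟨Sum.inl (Sum.inl i), hi⟩
      · by_cases h2 : G.Reachable v' y
        · obtain ⟨i, hi⟩ := (hr' y).1 h2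
          exact ⟨Sum.inl (Sum.inr i), hi⟩
        · exact ⟨Sum.inr ⟨y, h1, h2⟩, rfl⟩
  let e := Equiv.ofBijective F hF
  let c : V → Bool := fun y => Sum.elim (Sum.elim c0 (fun x => !c0 x)) cR (e.symm y)
  have hce : ∀ z, c (F z) = Sum.elim (Sum.elim c0 (fun x => !c0 x)) cR z := by
    intro z
    show Sum.elim (Sum.elim c0 (fun x => !c0 x)) cR (e.symm (e z)) = _
    rw [e.symm_apply_apply]
  have hc1 : ∀ x, c (p x) = xor false (c0 x) := fun x => by
    have := hce (Sum.inl (Sum.inl x))
    simpa [F] using this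
  have hc2 : ∀ x, c (p' x) = xor true (c0 x) := fun x => by
    have := hce (Sum.inl (Sum.inr x))
    simpa [F] using this
  have hc3 : ∀ x, c (ρ x) = xor false (cR x) := fun x => by
    have := hce (Sum.inr x)
    simpa [F] using this
  refine ⟨c, ⟨?_, ?_⟩, ?_⟩
  · intro y
    obtain ⟨z, rfl⟩ := hF.2 y
    rcases z with (x | x) | x
    · show md G c (p x) ≤ 2
      rw [L1.md hc1]; exact hc0.deg x
    · show md G c (p' x) ≤ 2
      rw [L2.md hc2]; exact hc0.deg x
    · show md G c (ρ x) ≤ 2
      rw [L3.md hc3]; exact hcR.deg x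
  · intro y
    obtain ⟨z, rfl⟩ := hF.2 y
    rcases z with (x | x) | x
    · exact L1.nb4 hc1 hc0 x
    · exact L2.nb4 hc2 hc0 x
    · exact L3.nb4 hc3 hcR x
  · have hsum : ∀ f : V → ℤ, ∑ y, f y = ∑ x, f (p x) + ∑ x, f (p' x) + ∑ x, f (ρ x) := by
      intro f
      rw [← Equiv.sum_comp e f, Fintype.sum_sum_type, Fintype.sum_sum_type]
      rfl
    have s1 := L1.stsum hc1
    have s2 := L2.stsum hc2
    have s3 := L3.stsum hc3
    rw [hstR] at s3
    simp only [Prod.mk.injEq, fl] at s1 s2 s3
    obtain ⟨a1, a2, a3⟩ := s1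
    obtain ⟨b1, b2, b3⟩ := s2
    obtain ⟨d1, d2, d3⟩ := s3
    unfold st
    rw [hsum (fun y => sg (c y)), hsum (fun y => locP G c y), hsum (fun y => locQ G c y),
      a1, a2, a3, b1, b2, b3, d1, d2, d3]
    simp

/-- small components if there are few vertices in big components -/
lemma small {V : Type} [Fintype V] (G : SimpleGraph V) (N : ℕ)
    (h : (univ.filter fun v => Big G v).card < N) (v : V) :
    (univ.filter fun x => G.Reachable v x).card < max N 24 := by
  by_cases hb : Big G v
  · refine lt_of_le_of_lt (card_le_card ?_) (h.trans_le (le_max_left _ _))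
    intro x hx
    simp only [mem_filter, mem_univ, true_and] at hx ⊢
    unfold Big at hb ⊢
    refine hb.trans (card_le_card ?_)
    intro y hy
    simp only [mem_filter, mem_univ, true_and] at hy ⊢
    exact hx.symm.trans hy
  · unfold Big at hb
    push Not at hb
    exact hb.trans_le (le_max_right _ _)

end RED

open RED in
/-- if `Q1` holds for all cubic graphs with at most `N₁` vertices, then it holds for all cubic
graphs -/
theorem stmt_RED (hMAIN : Stmt_MAIN) (hANY : Stmt_ANY) : ∃ N₁ : ℕ,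
    (∀ (V : Type) [Fintype V] (G : SimpleGraph V), Cub G → Fintype.card V ≤ N₁ → Good' G) →
    ∀ (V : Type) [Fintype V] (G : SimpleGraph V), Cub G → Good' G := by
  obtain ⟨N, hN⟩ := hMAIN
  refine ⟨Fintype.card (Fin (max N 24) × (Fin (max N 24) → Fin (max N 24) → Bool)) *
    max N 24, fun hsm => ?_⟩
  have main : ∀ n : ℕ, ∀ (V : Type) [Fintype V] (G : SimpleGraph V), Fintype.card V = n →
      Cub G → Good' G := by
    intro n
    induction n using Nat.strong_induction_on with
    | _ n ih =>
    intro V _ G hn hG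
    by_cases hbig : N ≤ (univ.filter fun v => Big G v).card
    · exact hN V G hG hbig
    · push Not at hbig
      by_cases hcard : Fintype.card V ≤
          Fintype.card (Fin (max N 24) × (Fin (max N 24) → Fin (max N 24) → Bool)) * max N 24
      · exact hsm V G hG hcard
      · push Not at hcard
        obtain ⟨v, v', k, p, p', h1, h2, h3, h4, h5, h6⟩ := two_iso G (max N 24)
          (small G N hbig) hcard
        exact combine G hG hANY (fun R _ GR hR hlt => ih _ (hn ▸ hlt) R GR rfl hR) v v' k p p'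
          h1 h2 h3 h4 h5 h6
  intro V _ G hG
  exact main _ V G rfl hG

end Pool.Agent.Work.MP_1e13ac_Bis
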