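import Pool.Agent.Work.MP_1e13ac_Bis.Interface

/-! MP_1e13ac_co, block REV: from the frozen form to the combinatorial form (converse of ISO). -/

set_option autoImplicit false
set_option linter.unusedSectionVars false

namespace Pool.Agent.Work.MP_1e13ac_Bis

open Classical Finset

noncomputable section

namespace RevBlock

variable {V : Type}

/-- no triangles in an acyclic graph -/
lemma no_tri {H : SimpleGraph V} (hH : H.IsAcyclic) {a b d : V} (h1 : H.Adj a b) (h2 : H.Adj b d)
    (h3 : H.Adj d a) : False := by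
  have hab : a ≠ b := h1.ne
  have hbd : b ≠ d := h2.ne
  have had : a ≠ d := h3.ne.symm
  let p : H.Walk a d := .cons h1 (.cons h2 .nil)
  let q : H.Walk a d := .cons h3.symm .nil
  have hp : p.IsPath := by
    simp [p, hab, hbd, had]
  have hq : q.IsPath := by
    simp [q, had]
  have h := (hH.subsingleton_path a d).elim ⟨p, hp⟩ ⟨q, hq⟩
  have h' : p.length = q.length := by
    have := congrArg (fun r : H.Path a d => r.1.length) h
    exact this
  simp [p, q] at h'

/-- no 4-cycles in an acyclic graph -/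
lemma no_quad {H : SimpleGraph V} (hH : H.IsAcyclic) {a b d e : V} (h1 : H.Adj a b)
    (h2 : H.Adj b d) (h3 : H.Adj d e) (h4 : H.Adj e a) (had : a ≠ d) (hbe : b ≠ e) : False := by
  have hab : a ≠ b := h1.ne
  have hbd : b ≠ d := h2.ne
  have hae : a ≠ e := h4.ne.symm
  have hed : e ≠ d := h3.ne.symm
  let p : H.Walk a d := .cons h1 (.cons h2 .nil)
  let q : H.Walk a d := .cons h4.symm (.cons h3.symm .nil)
  have hp : p.IsPath := by
    simp [p, hab, hbd, had]
  have hq : q.IsPath := by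
    simp [q, had, hae, hed]
  have h := (hH.subsingleton_path a d).elim ⟨p, hp⟩ ⟨q, hq⟩
  have h' : p.support = q.support := by
    have := congrArg (fun r : H.Path a d => r.1.support) h
    exact this
  simp [p, q] at h'
  exact hbe h'

/-- a non-backtracking walk with four edges in a forest has five vertices in its component -/
lemma five {H : SimpleGraph V} [Finite V] (hH : H.IsAcyclic)
    (hc : ∀ K : H.ConnectedComponent, K.supp.ncard ≤ 4) {a b d e f : V} (h1 : H.Adj a b)
    (h2 : H.Adj b d) (h3 : H.Adj d e) (h4 : H.Adj e f) (had : a ≠ d) (hbe : b ≠ e) (hdf : d ≠ f) :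
    False := by
  have hae : a ≠ e := by
    rintro rfl
    exact no_tri hH h1 h2 h3
  have hbf : b ≠ f := by
    rintro rfl
    exact no_tri hH h2 h3 h4
  have haf : a ≠ f := by
    rintro rfl
    exact no_quad hH h1 h2 h3 h4 had hbe
  have hsub : ({a, b, d, e, f} : Set V) ⊆ (H.connectedComponentMk a).supp := by
    have r1 : H.Reachable b a := h1.symm.reachable
    have r2 : H.Reachable d a := h2.symm.reachable.trans r1
    have r3 : H.Reachable e a := h3.symm.reachable.trans r2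
    have r4 : H.Reachable f a := h4.symm.reachable.trans r3
    intro x hx
    simp only [Set.mem_insert_iff, Set.mem_singleton_iff] at hx
    rw [SimpleGraph.ConnectedComponent.mem_supp_iff, SimpleGraph.ConnectedComponent.eq]
    rcases hx with rfl | rfl | rfl | rfl | rfl
    · exact SimpleGraph.Reachable.refl _
    · exact r1
    · exact r2
    · exact r3
    · exact r4
  have h5 : ({a, b, d, e, f} : Set V).ncard = 5 := by
    have : ({a, b, d, e, f} : Set V) = (({a, b, d, e, f} : Finset V) : Set V) := by simp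
    rw [this, Set.ncard_coe_finset]
    rw [Finset.card_insert_of_notMem, Finset.card_insert_of_notMem, Finset.card_insert_of_notMem,
      Finset.card_insert_of_notMem, Finset.card_singleton]
    · simpa using h4.ne
    · simpa using ⟨h3.ne, hdf⟩
    · simpa using ⟨h2.ne, hbe, hbf⟩
    · simpa using ⟨h1.ne, had, hae, haf⟩
  have h6 := Set.ncard_le_ncard hsub (Set.toFinite _)
  have h7 := hc (H.connectedComponentMk a)
  omega

end RevBlock

open RevBlock

/-- converse of `ISO` -/
theorem stmt_REV : ∀ (V : Type) [Fintype V] (G : SimpleGraph V), Cub G → Good V G → Good' G := by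
  intro V _ G _ hgood
  obtain ⟨S, -, hc1, hc2, ha1, hd1, ha2, hd2, ⟨φ⟩⟩ := hgood
  let c : V → Bool := fun x => decide (x ∈ S)
  have hcS : ∀ {x}, x ∈ S → c x = true := fun h => by simp [c, h]
  have hcN : ∀ {x}, x ∉ S → c x = false := fun h => by simp [c, h]
  have hcol : ∀ {x y}, c x = c y → (x ∈ S ↔ y ∈ S) := fun {x y} h => by
    simpa [c, decide_eq_decide] using h
  -- degrees
  have hdeg : ∀ x, md G c x ≤ 2 := by
    intro x
    by_cases hx : x ∈ S
    · refine le_trans ?_ (hd1 ⟨x, hx⟩)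
      rw [md, ← Set.ncard_coe_finset, ← Set.ncard_image_of_injective _ Subtype.val_injective]
      refine Set.ncard_le_ncard ?_ (Set.toFinite _)
      intro y hy
      simp only [coe_filter, mem_univ, true_and, Set.mem_ofPred_eq] at hy
      have hyS : y ∈ S := (hcol hy.2).1 hx
      exact ⟨⟨y, hyS⟩, hy.1, rfl⟩
    · refine le_trans ?_ (hd2 ⟨x, hx⟩)
      rw [md, ← Set.ncard_coe_finset, ← Set.ncard_image_of_injective _ Subtype.val_injective]
      refine Set.ncard_le_ncard ?_ (Set.toFinite _)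
      intro y hy
      simp only [coe_filter, mem_univ, true_and, Set.mem_ofPred_eq] at hy
      have hyS : y ∉ S := fun h => hx ((hcol hy.2).2 h)
      exact ⟨⟨y, hyS⟩, hy.1, rfl⟩
  have hnb : ∀ x₁ x₂ x₃ x₄ x₅, MA G c x₁ x₂ → MA G c x₂ x₃ → MA G c x₃ x₄ → MA G c x₄ x₅ →
      x₁ ≠ x₃ → x₂ ≠ x₄ → x₃ ≠ x₅ → False := by
    intro x₁ x₂ x₃ x₄ x₅ m1 m2 m3 m4 n1 n2 n3
    by_cases hx : x₁ ∈ S
    · have s2 := (hcol m1.2).1 hx
      have s3 := (hcol m2.2).1 s2
      have s4 := (hcol m3.2).1 s3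
      have s5 := (hcol m4.2).1 s4
      exact five (H := G.induce S) (a := ⟨x₁, hx⟩) (b := ⟨x₂, s2⟩) (d := ⟨x₃, s3⟩)
        (e := ⟨x₄, s4⟩) (f := ⟨x₅, s5⟩) ha1 hc1 m1.1 m2.1 m3.1 m4.1
        (fun h => n1 (congrArg Subtype.val h)) (fun h => n2 (congrArg Subtype.val h))
        (fun h => n3 (congrArg Subtype.val h))
    · have s2 : x₂ ∈ Sᶜ := fun h => hx ((hcol m1.2).2 h)
      have s3 : x₃ ∈ Sᶜ := fun h => s2 ((hcol m2.2).2 h)
      have s4 : x₄ ∈ Sᶜ := fun h => s3 ((hcol m3.2).2 h)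
      have s5 : x₅ ∈ Sᶜ := fun h => s4 ((hcol m4.2).2 h)
      exact five (H := G.induce Sᶜ) (a := ⟨x₁, hx⟩) (b := ⟨x₂, s2⟩) (d := ⟨x₃, s3⟩)
        (e := ⟨x₄, s4⟩) (f := ⟨x₅, s5⟩) ha2 hc2 m1.1 m2.1 m3.1 m4.1
        (fun h => n1 (congrArg Subtype.val h)) (fun h => n2 (congrArg Subtype.val h))
        (fun h => n3 (congrArg Subtype.val h))
  refine ⟨c, ⟨hdeg, hnb⟩, ?_⟩
  -- the involution
  let e0 : V → V := fun x =>
    if h : x ∈ S then (φ ⟨x, h⟩ : V) else (φ.symm ⟨x, h⟩ : V)
  have e0S : ∀ {x} (h : x ∈ S), e0 x = φ ⟨x, h⟩ := fun h => by simp [e0, h]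
  have e0N : ∀ {x} (h : x ∉ S), e0 x = φ.symm ⟨x, h⟩ := fun h => by simp [e0, h]
  have eS : ∀ {x}, x ∈ S → e0 x ∉ S := fun {x} h => by rw [e0S h]; exact (φ ⟨x, h⟩).2
  have eN : ∀ {x}, x ∉ S → e0 x ∈ S := fun {x} h => by rw [e0N h]; exact (φ.symm ⟨x, h⟩).2
  have hinv : Function.Involutive e0 := by
    intro x
    by_cases h : x ∈ S
    · rw [e0N (eS h)]
      have : (⟨e0 x, eS h⟩ : (Sᶜ : Set V)) = φ ⟨x, h⟩ := Subtype.ext (e0S h)
      rw [this]
      simp
    · rw [e0S (eN h)]
      have : (⟨e0 x, eN h⟩ : S) = φ.symm ⟨x, h⟩ := Subtype.ext (e0N h)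
      rw [this]
      simp
  let e : V ≃ V := hinv.toPerm
  have he : ∀ x, e x = e0 x := fun _ => rfl
  have hsg : ∀ x, sg (c (e x)) = - sg (c x) := by
    intro x
    by_cases h : x ∈ S
    · rw [he, hcN (eS h), hcS h]; rfl
    · rw [he, hcS (eN h), hcN h]; rfl
  have hMA : ∀ x y, MA G c x y ↔ MA G c (e x) (e y) := by
    intro x y
    rw [he, he]
    by_cases hx : x ∈ S <;> by_cases hy : y ∈ S
    · have h1 : G.Adj (e0 x) (e0 y) ↔ G.Adj x y := by
        rw [e0S hx, e0S hy]
        exact φ.map_adj_iff (v := ⟨x, hx⟩) (w := ⟨y, hy⟩)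
      unfold MA
      rw [h1, hcN (eS hx), hcN (eS hy), hcS hx, hcS hy]
      simp
    · unfold MA
      rw [hcN (eS hx), hcS (eN hy), hcS hx, hcN hy]
      simp
    · unfold MA
      rw [hcS (eN hx), hcN (eS hy), hcN hx, hcS hy]
      simp
    · have h1 : G.Adj (e0 x) (e0 y) ↔ G.Adj x y := by
        rw [e0N hx, e0N hy]
        exact φ.symm.map_adj_iff (v := ⟨x, hx⟩) (w := ⟨y, hy⟩)
      unfold MA
      rw [h1, hcS (eN hx), hcS (eN hy), hcN hx, hcN hy]
      simp
  have hmd : ∀ x, md G c x = md G c (e x) := by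
    intro x
    refine Finset.card_equiv e fun y => ?_
    simp only [mem_filter, mem_univ, true_and]
    exact hMA x y
  have hP : ∀ x, locP G c (e x) = - locP G c x := by
    intro x
    unfold locP
    rw [← hmd, hsg]
    split_ifs <;> simp
  have hex : ∀ x, (∃ y, MA G c (e x) y ∧ md G c y = 2) ↔ ∃ y, MA G c x y ∧ md G c y = 2 := by
    intro x
    constructor
    · rintro ⟨y, h1, h2⟩
      refine ⟨e.symm y, ?_, ?_⟩
      · rw [hMA, Equiv.apply_symm_apply]; exact h1
      · rw [hmd, Equiv.apply_symm_apply]; exact h2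
    · rintro ⟨y, h1, h2⟩
      exact ⟨e y, (hMA x y).1 h1, by rw [← hmd]; exact h2⟩
  have hQ : ∀ x, locQ G c (e x) = - locQ G c x := by
    intro x
    unfold locQ
    rw [← hmd, hsg]
    by_cases h : md G c x = 2 ∧ ∃ y, MA G c x y ∧ md G c y = 2
    · rw [if_pos h, if_pos ⟨h.1, (hex x).2 h.2⟩]
    · rw [if_neg h, if_neg fun h' => h ⟨h'.1, (hex x).1 h'.2⟩, neg_zero]
  have key : ∀ f : V → ℤ, (∀ x, f (e x) = - f x) → ∑ x, f x = 0 := by
    intro f hf
    have h1 : ∑ x, f x = ∑ x, f (e x) := (Equiv.sum_comp e f).symm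
    rw [Finset.sum_congr rfl fun x _ => hf x, Finset.sum_neg_distrib] at h1
    omega
  unfold st
  rw [key _ hsg, key _ hP, key _ hQ]
  rfl

end

end Pool.Agent.Work.MP_1e13ac_Bis
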