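import Pool.Agent.Work.MP_1e13ac_Bis.SUB
import Pool.Agent.Work.MP_1e13ac_Bis.BALL

/-! MP_1e13ac_co, block TREE (helper96): the induction over the table of patterns. -/

set_option autoImplicit false
set_option linter.unusedSectionVars false

namespace Pool.Agent.Work.MP_1e13ac_Bis

namespace TreeB

lemma addTo_length (a m : ℕ) (T : List ℕ) (n : ℕ) (P : List (List ℕ)) :
    (addTo a m T n P).length = P.length := by
  induction P generalizing n with
  | nil => rfl
  | cons l t ih =>
    show ((if Nat.beq n a || memB n T then l ++ [m] else l) :: addTo a m T (n + 1) t).length = _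
    rw [List.length_cons, ih, List.length_cons]

lemma child_length (P : List (List ℕ)) (a : ℕ) (T : List ℕ) :
    (child P a T).length = P.length + 1 := by
  unfold child
  rw [List.length_append, addTo_length, List.length_singleton]

lemma gp_mem (L : List (List (List ℕ))) (k : ℕ) (h : gp L k ≠ []) : gp L k ∈ L := by
  induction L generalizing k with
  | nil => exact absurd rfl h
  | cons y t ih =>
    cases k with
    | zero => exact List.mem_cons_self
    | succ k => exact List.mem_cons_of_mem _ (ih k h)

lemma chkChildren_spec (leaves opens : List (List (List ℕ))) (P : List (List ℕ)) (a : ℕ)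
    (ts : List (List ℕ)) (cs : List ℕ) (h : chkChildren leaves opens P a ts cs = true)
    (T : List ℕ) (hT : T ∈ ts) (hc : complete (child P a T) = false) :
    ∃ c, chkChild leaves opens (child P a T) c = true := by
  induction ts generalizing cs with
  | nil => exact absurd hT List.not_mem_nil
  | cons T' ts ih =>
    unfold chkChildren at h
    by_cases h1 : complete (child P a T') = true
    · rw [if_pos h1] at h
      rcases List.mem_cons.1 hT with rfl | hT
      · rw [h1] at hc
        exact absurd hc (by decide)
      · exact ih cs h hT
    · rw [if_neg h1] at h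
      cases cs with
      | nil => exact absurd h Bool.false_ne_true
      | cons c cs' =>
        have h2 : (chkChild leaves opens (child P a T') c &&
          chkChildren leaves opens P a ts cs') = true := h
        rw [Bool.and_eq_true] at h2
        rcases List.mem_cons.1 hT with rfl | hT
        · exact ⟨c, h2.1⟩
        · exact ih cs' h2.2 hT

end TreeB

open TreeB in
/-- **TREE** -/
theorem stmt_TREE (hE : Stmt_EXT) : Stmt_TREE := by
  intro leaves opens hl ho
  have key : ∀ n : ℕ, ∀ P ∈ opens, 23 - P.length = n → NodeOK P := by
    intro n
    induction n using Nat.strong_induction_on with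
    | _ n ih =>
      intro P hP hn
      obtain ⟨a, cs, hc⟩ := ho P hP
      unfold chkNode at hc
      rw [Bool.and_eq_true, Bool.and_eq_true, Bool.and_eq_true, Bool.and_eq_true] at hc
      obtain ⟨⟨⟨⟨h1, h2⟩, h3⟩, h4⟩, h5⟩ := hc
      have h2' : a < P.length := (Nat.blt_eq ▸ h2)
      have h3' : (gl P a).length < 3 := (Nat.blt_eq ▸ h3)
      have h4' : P.length ≤ 22 := Nat.le_of_ble_eq_true h4
      intro V _ G hG v φ hv hφ
      obtain ⟨T, hT, φ', hcomp, hφ'⟩ := hE P a h1 h2' h3' h4' V G hG v φ hv hφ
      obtain ⟨c, hcc⟩ := chkChildren_spec leaves opens P a _ cs h5 T hT hcomp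
      have hlen := child_length P a T
      unfold chkChild at hcc
      by_cases hodd : Nat.beq (Nat.mod c 2) 1 = true
      · rw [if_pos hodd, Bool.and_eq_true] at hcc
        have hne : gp leaves (Nat.div (Nat.mod c 16384) 2) ≠ [] := by
          intro h0
          have h6 := hcc.1
          rw [h0] at h6
          exact absurd h6 (by decide)
        have hmem := gp_mem leaves _ hne
        obtain ⟨hw, hL⟩ := hl _ hmem
        have hocc := stmt_SUB _ _ _ hw hcc.2 V G v P.length φ' hφ'
        refine hL V G hG v (fun k => φ' (gn
          (digits (gp leaves (Nat.div (Nat.mod c 16384) 2)).length (Nat.div c 16384)) k))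
          ⟨hocc.inj, hocc.adj, fun i hi => ?_⟩
        have h6 := BallB.mono (G := G) P.length (22 - P.length) v (hocc.ball i hi)
        rwa [Nat.add_sub_cancel' h4'] at h6
      · rw [if_neg hodd, Bool.and_eq_true] at hcc
        have hlenR : (gp opens (Nat.div (Nat.mod c 16384) 2)).length = P.length + 1 := by
          rw [← hlen]
          exact Nat.eq_of_beq_eq_true hcc.1
        have hne : gp opens (Nat.div (Nat.mod c 16384) 2) ≠ [] := by
          intro h0
          rw [h0] at hlenR
          exact absurd hlenR (by simp)
        have hmem := gp_mem opens _ hne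
        obtain ⟨a', cs', hc'⟩ := ho _ hmem
        have hw : wf (gp opens (Nat.div (Nat.mod c 16384) 2)) = true := by
          unfold chkNode at hc'
          rw [Bool.and_eq_true, Bool.and_eq_true, Bool.and_eq_true, Bool.and_eq_true] at hc'
          exact hc'.1.1.1.1
        have hocc := stmt_SUB _ _ _ hw hcc.2 V G v P.length φ' hφ'
        have hOK := ih (23 - (gp opens (Nat.div (Nat.mod c 16384) 2)).length)
          (by rw [hlenR]; omega) _ hmem rfl
        refine hOK V G hG v (fun k => φ' (gn
          (digits (child P a T).length (Nat.div c 16384)) k)) hv ?_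
        have h6 : (gp opens (Nat.div (Nat.mod c 16384) 2)).length - 1 = P.length := by
          rw [hlenR]
          rfl
        rw [h6]
        exact hocc
  intro P hP
  exact key _ P hP rfl

end Pool.Agent.Work.MP_1e13ac_Bis
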